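import Mathlib

/-!
Basic notions for MP_adbd0c_co: quasigroups, isotopy to a group, orthogonality,
and the general framework which turns a family of coordinate functions on a
finite set of lines into a family of mutually orthogonal latin squares.
-/

namespace Pool.Agent.Mols65

/-- A quasigroup on the set `S`: a binary operation such that each of the equations
`a · x = b` and `y · a = b` has exactly one solution. -/
structure Quasigroup (S : Type) where
  /-- the binary operation -/
  op : S → S → S
  left_solve : ∀ a b : S, ∃! x : S, op a x = b
  right_solve : ∀ a b : S, ∃! y : S, op y a = b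

/-- `Q` is isotopic to a group: there are a group `G` and bijections `α, β, γ : S → G`
with `γ (x · y) = α x * β y` for all `x, y`. -/
def IsotopicToGroup {S : Type} (Q : Quasigroup S) : Prop :=
  ∃ (G : Type) (_ : Group G) (α β γ : S ≃ G), ∀ x y : S, γ (Q.op x y) = α x * β y

/-- The Cayley tables of `P` and `Q` are orthogonal: the ordered pairs
`(P(x,y), Q(x,y))`, for `(x,y) ∈ S × S`, are pairwise distinct. -/
def Orthogonal {S : Type} (P Q : Quasigroup S) : Prop :=
  Function.Injective (fun z : S × S => (P.op z.1 z.2, Q.op z.1 z.2))

/-- There are `m` quasigroups of order `n` on a common underlying set, none of them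
isotopic to a group, whose Cayley tables are mutually orthogonal. -/
def Realizable (n m : ℕ) : Prop :=
  ∃ Q : Fin m → Quasigroup (Fin n),
    (∀ i, ¬ IsotopicToGroup (Q i)) ∧ ∀ i j, i ≠ j → Orthogonal (Q i) (Q j)

/-- `M n` is the largest `m` for which there are `m` quasigroups of order `n`, none of
them isotopic to a group, whose Cayley tables are mutually orthogonal. -/
noncomputable def M (n : ℕ) : ℕ := sSup {m : ℕ | Realizable n m}

theorem Quasigroup.inj_left {S : Type} (Q : Quasigroup S) {a x y : S}
    (h : Q.op a x = Q.op a y) : x = y :=
  (Q.left_solve a (Q.op a y)).unique h rfl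

theorem Quasigroup.inj_right {S : Type} (Q : Quasigroup S) {a x y : S}
    (h : Q.op x a = Q.op y a) : x = y :=
  (Q.right_solve a (Q.op y a)).unique h rfl

/-- The classical upper bound `n - 1`. -/
theorem Realizable.le {n m : ℕ} (hn : 2 ≤ n) (h : Realizable n m) : m ≤ n - 1 := by
  obtain ⟨Q, -, hQ⟩ := h
  let x0 : Fin n := ⟨0, by omega⟩
  let x1 : Fin n := ⟨1, by omega⟩
  have hx : x0 ≠ x1 := by simp [x0, x1, Fin.ext_iff]
  choose y hy using fun i : Fin m => ((Q i).left_solve x1 ((Q i).op x0 x0)).exists
  have hy0 : ∀ i, y i ≠ x0 := by
    intro i h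
    have h1 := hy i
    rw [h] at h1
    exact hx ((Q i).inj_right h1).symm
  have hinj : Function.Injective y := by
    intro i j hij
    by_contra hne
    have h1 := hy i
    have h2 := hy j
    rw [← hij] at h2
    have h3 := @hQ i j hne (x1, y i) (x0, x0) (by simp [h1, h2])
    have h4 : x1 = x0 := congrArg Prod.fst h3
    exact hx h4.symm
  let f : Fin m → {z : Fin n // z ≠ x0} := fun i => ⟨y i, hy0 i⟩
  have hf : Function.Injective f := fun i j hij => hinj (congrArg Subtype.val hij)
  have hc := Fintype.card_le_of_injective f hf
  simpa using hc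

theorem M_eq_of_realizable {n : ℕ} (hn : 2 ≤ n) (h : Realizable n (n - 1)) :
    M n = n - 1 := by
  have hg : IsGreatest {m : ℕ | Realizable n m} (n - 1) :=
    ⟨h, fun m hm => Realizable.le hn hm⟩
  exact hg.csSup_eq

/-- Framework: coordinate functions on a set of lines give mutually orthogonal latin squares. -/
theorem realizable_of_coords {n : ℕ} {W Λ ι : Type} [Fintype W] [Fintype Λ] [Fintype ι]
    (hW : Fintype.card W = n) (hΛ : Fintype.card Λ = n ^ 2)
    (X Y : Λ → W) (Z : ι → Λ → W)
    (hXY : Function.Injective (fun l => (X l, Y l)))
    (hXZ : ∀ i, Function.Injective (fun l => (X l, Z i l)))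
    (hYZ : ∀ i, Function.Injective (fun l => (Y l, Z i l)))
    (hZZ : ∀ i j, i ≠ j → Function.Injective (fun l => (Z i l, Z j l)))
    (hng : ∀ i, ¬ ∃ (G : Type) (_ : Group G) (α β γ : W ≃ G),
      ∀ l, γ (Z i l) = α (X l) * β (Y l)) :
    Realizable n (Fintype.card ι) := by
  classical
  have hcard : Fintype.card Λ = Fintype.card (W × W) := by
    rw [Fintype.card_prod, hW, hΛ]; ring
  have bXY : Function.Bijective (fun l => (X l, Y l)) :=
    (Fintype.bijective_iff_injective_and_card _).2 ⟨hXY, hcard⟩
  have bXZ : ∀ i, Function.Bijective (fun l => (X l, Z i l)) := fun i =>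
    (Fintype.bijective_iff_injective_and_card _).2 ⟨hXZ i, hcard⟩
  have bYZ : ∀ i, Function.Bijective (fun l => (Y l, Z i l)) := fun i =>
    (Fintype.bijective_iff_injective_and_card _).2 ⟨hYZ i, hcard⟩
  let E : Λ ≃ W × W := Equiv.ofBijective _ bXY
  have hE : ∀ l, E l = (X l, Y l) := fun l => rfl
  let e : W ≃ Fin n := Fintype.equivFinOfCardEq hW
  let k : ι ≃ Fin (Fintype.card ι) := Fintype.equivFin ι
  -- the line through two cells
  let L : Fin n → Fin n → Λ := fun x y => E.symm (e.symm x, e.symm y)
  have hLX : ∀ x y, X (L x y) = e.symm x := by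
    intro x y
    have := hE (L x y)
    simp only [L, Equiv.apply_symm_apply] at this
    exact (congrArg Prod.fst this).symm
  have hLY : ∀ x y, Y (L x y) = e.symm y := by
    intro x y
    have := hE (L x y)
    simp only [L, Equiv.apply_symm_apply] at this
    exact (congrArg Prod.snd this).symm
  have hLl : ∀ l, L (e (X l)) (e (Y l)) = l := by
    intro l
    simp only [L, Equiv.symm_apply_apply]
    rw [← hE l, Equiv.symm_apply_apply]
  let Q : ι → Quasigroup (Fin n) := fun i =>
    { op := fun x y => e (Z i (L x y))
      left_solve := by
        intro a b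
        obtain ⟨l, hl⟩ := (bXZ i).2 (e.symm a, e.symm b)
        have h1 : X l = e.symm a := congrArg Prod.fst hl
        have h2 : Z i l = e.symm b := congrArg Prod.snd hl
        refine ⟨e (Y l), ?_, ?_⟩
        · have h3 : L a (e (Y l)) = l := by
            have := hLl l
            rw [h1, Equiv.apply_symm_apply] at this
            exact this
          simp only [h3, h2, Equiv.apply_symm_apply]
        · intro y hy
          have h4 : Z i (L a y) = e.symm b := by
            rw [← hy, Equiv.symm_apply_apply]
          have h5 : L a y = l := by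
            apply hXZ i
            simp only [hLX, h4, h1, h2]
          rw [← h5, hLY, Equiv.apply_symm_apply]
      right_solve := by
        intro a b
        obtain ⟨l, hl⟩ := (bYZ i).2 (e.symm a, e.symm b)
        have h1 : Y l = e.symm a := congrArg Prod.fst hl
        have h2 : Z i l = e.symm b := congrArg Prod.snd hl
        refine ⟨e (X l), ?_, ?_⟩
        · have h3 : L (e (X l)) a = l := by
            have := hLl l
            rw [h1, Equiv.apply_symm_apply] at this
            exact this
          simp only [h3, h2, Equiv.apply_symm_apply]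
        · intro y hy
          have h4 : Z i (L y a) = e.symm b := by
            rw [← hy, Equiv.symm_apply_apply]
          have h5 : L y a = l := by
            apply hYZ i
            simp only [hLY, h4, h1, h2]
          rw [← h5, hLX, Equiv.apply_symm_apply] }
  refine ⟨fun j => Q (k.symm j), ?_, ?_⟩
  · rintro j ⟨G, hG, α, β, γ, h⟩
    apply hng (k.symm j)
    refine ⟨G, hG, e.trans α, e.trans β, e.trans γ, ?_⟩
    intro l
    have := h (e (X l)) (e (Y l))
    simp only [Q, hLl] at this
    simpa using this
  · intro i j hij
    have hij' : k.symm i ≠ k.symm j := fun h => hij (k.symm.injective h)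
    rintro ⟨x, y⟩ ⟨x', y'⟩ h
    simp only [Q, Prod.mk.injEq] at h
    have h1 := e.injective h.1
    have h2 := e.injective h.2
    have h3 : L x y = L x' y' := by
      apply hZZ _ _ hij'
      simp only [h1, h2]
    have h4 : x = x' := by
      have := congrArg X h3
      rw [hLX, hLX] at this
      exact e.symm.injective this
    have h5 : y = y' := by
      have := congrArg Y h3
      rw [hLY, hLY] at this
      exact e.symm.injective this
    rw [h4, h5]

end Pool.Agent.Mols65
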