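import Pool.Agent.Lib_helper65.CycQ2

/-!
The function `B` and the estimates for `exp (-ε B)`.
-/

namespace Pool.Agent.Cyc65

open Metric Set Filter Topology Real MeasureTheory InnerProductSpace
open scoped ENNReal

theorem re_cpow_ge {s : ℝ} (hs0 : 0 < s) (hs1 : s < 1) {w : ℂ} (hw : 1 ≤ w.re) :
    cos (π * s / 2) * ‖w‖ ^ s ≤ (w ^ (s : ℂ)).re := by
  have hw0 : w ≠ 0 := by
    intro h; rw [h] at hw; simp at hw; linarith
  have hn : 0 < ‖w‖ := norm_pos_iff.2 hw0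
  have h1 : (w ^ (s : ℂ)).re = ‖w‖ ^ s * cos (s * w.arg) := by
    rw [Complex.cpow_def_of_ne_zero hw0, Complex.exp_re, Complex.re_mul_ofReal,
      Complex.im_mul_ofReal, Complex.log_re, Complex.log_im, rpow_def_of_pos hn, mul_comm w.arg s]
  have harg : |w.arg| ≤ π / 2 := Complex.abs_arg_le_pi_div_two_iff.2 (by linarith)
  have h2 : cos (π * s / 2) ≤ cos (s * w.arg) := by
    rw [← cos_abs (s * w.arg)]
    apply cos_le_cos_of_nonneg_of_le_pi (abs_nonneg _)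
    · nlinarith [pi_pos]
    · rw [abs_mul, abs_of_pos hs0]
      nlinarith
  rw [h1, mul_comm]
  gcongr

theorem cpow_norm {s : ℝ} {w : ℂ} (hw : 1 ≤ w.re) : ‖w ^ (s : ℂ)‖ = ‖w‖ ^ s := by
  have hw0 : w ≠ 0 := by
    intro h; rw [h] at hw; simp at hw; linarith
  rw [Complex.norm_cpow_of_ne_zero hw0]
  simp

theorem one_le_norm_of_re {w : ℂ} (hw : 1 ≤ w.re) : 1 ≤ ‖w‖ :=
  hw.trans ((le_abs_self _).trans (Complex.abs_re_le_norm w))

theorem hasDeriv_pow {G : ℂ → ℂ} (hG : DifferentiableOn ℂ G DD)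
    (hre : ∀ z ∈ DD, 0 ≤ (G z).re) (s : ℝ) {z : ℂ} (hz : z ∈ DD) :
    HasDerivAt (fun z => (1 + G z) ^ (s : ℂ)) (s * (1 + G z) ^ ((s : ℂ) - 1) * deriv G z) z := by
  have h1 : HasDerivAt (fun z => 1 + G z) (deriv G z) z :=
    ((hG.differentiableAt (DD_nhds hz)).hasDerivAt).const_add 1
  apply h1.cpow_const
  rw [Complex.mem_slitPlane_iff]
  left
  simp only [Complex.add_re, Complex.one_re]
  linarith [hre z hz]

/-- the function `B` -/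
noncomputable def BB (s : ℝ) (G Q : ℂ → ℂ) (z : ℂ) : ℂ :=
  G z + (1 + G z) ^ (s : ℂ) + (1 + Q z) ^ (s : ℂ)

variable {s : ℝ} {G Q L : ℂ → ℂ}

theorem BB_hasDeriv (hG : DifferentiableOn ℂ G DD) (hGre : ∀ z ∈ DD, 0 ≤ (G z).re)
    (hQ : DifferentiableOn ℂ Q DD) (hQre : ∀ z ∈ DD, 0 ≤ (Q z).re) {z : ℂ} (hz : z ∈ DD) :
    HasDerivAt (BB s G Q) (deriv G z + s * (1 + G z) ^ ((s : ℂ) - 1) * deriv G z
      + s * (1 + Q z) ^ ((s : ℂ) - 1) * deriv Q z) z :=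
  (((hG.differentiableAt (DD_nhds hz)).hasDerivAt).add (hasDeriv_pow hG hGre s hz)).add
    (hasDeriv_pow hQ hQre s hz)

theorem BB_diff (hG : DifferentiableOn ℂ G DD) (hGre : ∀ z ∈ DD, 0 ≤ (G z).re)
    (hQ : DifferentiableOn ℂ Q DD) (hQre : ∀ z ∈ DD, 0 ≤ (Q z).re) :
    DifferentiableOn ℂ (BB s G Q) DD := fun _ hz =>
  (BB_hasDeriv hG hGre hQ hQre hz).differentiableAt.differentiableWithinAt

theorem pow_deriv_norm_le (hs0 : 0 < s) (hs1 : s < 1) {w d : ℂ} (hw : 0 ≤ w.re) :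
    ‖(s : ℂ) * (1 + w) ^ ((s : ℂ) - 1) * d‖ ≤ ‖d‖ := by
  have hw1 : 1 ≤ (1 + w).re := by simp only [Complex.add_re, Complex.one_re]; linarith
  have h1 : ‖(1 + w) ^ ((s : ℂ) - 1)‖ ≤ 1 := by
    have : (s : ℂ) - 1 = ((s - 1 : ℝ) : ℂ) := by push_cast; ring
    rw [this, cpow_norm hw1]
    exact rpow_le_one_of_one_le_of_nonpos (one_le_norm_of_re hw1) (by linarith)
  rw [norm_mul, norm_mul, Complex.norm_real, Real.norm_of_nonneg hs0.le]
  have h2 := norm_nonneg ((1 + w) ^ ((s : ℂ) - 1))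
  have h3 := norm_nonneg d
  calc s * ‖(1 + w) ^ ((s : ℂ) - 1)‖ * ‖d‖ ≤ 1 * 1 * ‖d‖ := by gcongr
    _ = ‖d‖ := by ring

theorem BB_deriv_le (hs0 : 0 < s) (hs1 : s < 1) (hL : DifferentiableOn ℂ L DD)
    (hQ : DifferentiableOn ℂ Q DD) (hQre : ∀ z ∈ DD, 0 ≤ (Q z).re)
    (hLQ : ∀ z ∈ DD, (L z).re ≤ (Q z).re) {z : ℂ} (hz : z ∈ DD) :
    ‖deriv (BB s (fun z => Q z - L z) Q) z‖ ≤ 2 * ‖deriv L z‖ + 3 * ‖deriv Q z‖ := by
  have hG : DifferentiableOn ℂ (fun z => Q z - L z) DD := hQ.sub hL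
  have hGre : ∀ z ∈ DD, 0 ≤ (Q z - L z).re := by
    intro z hz
    simp only [Complex.sub_re]; linarith [hLQ z hz]
  rw [(BB_hasDeriv hG hGre hQ hQre hz).deriv]
  have hd : deriv (fun z => Q z - L z) z = deriv Q z - deriv L z :=
    deriv_fun_sub (hQ.differentiableAt (DD_nhds hz)) (hL.differentiableAt (DD_nhds hz))
  have h1 := norm_sub_le (deriv Q z) (deriv L z)
  rw [← hd] at h1
  have h2 := pow_deriv_norm_le hs0 hs1 (w := Q z - L z) (d := deriv (fun z => Q z - L z) z)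
    (hGre z hz)
  have h3 := pow_deriv_norm_le hs0 hs1 (w := Q z) (d := deriv Q z) (hQre z hz)
  have h4 := norm_add₃_le (a := deriv (fun z => Q z - L z) z)
    (b := s * (1 + (Q z - L z)) ^ ((s : ℂ) - 1) * deriv (fun z => Q z - L z) z)
    (c := s * (1 + Q z) ^ ((s : ℂ) - 1) * deriv Q z)
  linarith

theorem real_rpow_add_le_one {a b p : ℝ} (ha : 0 ≤ a) (hb : 0 ≤ b) (hp0 : 0 ≤ p) (hp : p ≤ 1) :
    (a + b) ^ p ≤ a ^ p + b ^ p := by
  have h := NNReal.rpow_add_le_add_rpow ⟨a, ha⟩ ⟨b, hb⟩ hp0 hp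
  exact_mod_cast h

/-- lower bound for the real part of `B` -/
theorem BB_re_ge (hs0 : 0 < s) (hs1 : s < 1) (hQre : ∀ z ∈ DD, 0 ≤ (Q z).re)
    (hLQ : ∀ z ∈ DD, (L z).re ≤ (Q z).re) {z : ℂ} (hz : z ∈ DD) :
    cos (π * s / 2) * 2 ^ (-s) * (1 + ‖L z‖) ^ s ≤ (BB s (fun z => Q z - L z) Q z).re ∧
      cos (π * s / 2) * 2 ^ (-s) * (1 + ‖L z‖) ^ s + (Q z).re - (L z).re
        ≤ (BB s (fun z => Q z - L z) Q z).re := by
  have hcos : 0 < cos (π * s / 2) := by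
    apply cos_pos_of_mem_Ioo
    constructor
    · nlinarith [pi_pos]
    · nlinarith [pi_pos]
  have hG1 : 1 ≤ (1 + (Q z - L z)).re := by
    simp only [Complex.add_re, Complex.one_re, Complex.sub_re]; linarith [hLQ z hz]
  have hQ1 : 1 ≤ (1 + Q z).re := by
    simp only [Complex.add_re, Complex.one_re]; linarith [hQre z hz]
  have h1 := re_cpow_ge hs0 hs1 hG1
  have h2 := re_cpow_ge hs0 hs1 hQ1
  have hnG := one_le_norm_of_re hG1
  have hnQ := one_le_norm_of_re hQ1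
  have hL : ‖L z‖ ≤ ‖1 + Q z‖ + ‖1 + (Q z - L z)‖ := by
    have := norm_sub_le (1 + Q z) (1 + (Q z - L z))
    have e : (1 + Q z) - (1 + (Q z - L z)) = L z := by ring
    rwa [e] at this
  have h3 : (1 + ‖L z‖) ^ s ≤ 2 ^ s * (‖1 + Q z‖ ^ s + ‖1 + (Q z - L z)‖ ^ s) := by
    calc (1 + ‖L z‖) ^ s ≤ (2 * (‖1 + Q z‖ + ‖1 + (Q z - L z)‖)) ^ s := by
          apply rpow_le_rpow (by positivity) (by linarith) hs0.le
      _ = 2 ^ s * (‖1 + Q z‖ + ‖1 + (Q z - L z)‖) ^ s := by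
          rw [mul_rpow (by norm_num) (by positivity)]
      _ ≤ _ := by
          gcongr
          exact real_rpow_add_le_one (norm_nonneg _) (norm_nonneg _) hs0.le hs1.le
  have h4 : cos (π * s / 2) * 2 ^ (-s) * (1 + ‖L z‖) ^ s ≤
      cos (π * s / 2) * ‖1 + (Q z - L z)‖ ^ s + cos (π * s / 2) * ‖1 + Q z‖ ^ s := by
    calc cos (π * s / 2) * 2 ^ (-s) * (1 + ‖L z‖) ^ s
        ≤ cos (π * s / 2) * 2 ^ (-s) * (2 ^ s * (‖1 + Q z‖ ^ s + ‖1 + (Q z - L z)‖ ^ s)) := by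
          gcongr
      _ = cos (π * s / 2) * ((2 : ℝ) ^ (-s) * 2 ^ s) *
            (‖1 + Q z‖ ^ s + ‖1 + (Q z - L z)‖ ^ s) := by ring
      _ = _ := by
          rw [← rpow_add (by norm_num)]
          simp only [neg_add_cancel, rpow_zero]
          ring
  have h5 : (BB s (fun z => Q z - L z) Q z).re = (Q z).re - (L z).re
      + ((1 + (Q z - L z)) ^ (s : ℂ)).re + ((1 + Q z) ^ (s : ℂ)).re := by
    unfold BB
    simp only [Complex.add_re, Complex.sub_re]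
  rw [h5]
  constructor
  · linarith [hLQ z hz]
  · linarith

/-- upper bound -/
theorem BB_norm_le (hs0 : 0 < s) (hs1 : s < 1) (hQre : ∀ z ∈ DD, 0 ≤ (Q z).re)
    (hLQ : ∀ z ∈ DD, (L z).re ≤ (Q z).re) {z : ℂ} (hz : z ∈ DD) :
    ‖BB s (fun z => Q z - L z) Q z‖ ≤ 2 + 2 * ‖L z‖ + 3 * ‖Q z‖ := by
  have hG1 : 1 ≤ (1 + (Q z - L z)).re := by
    simp only [Complex.add_re, Complex.one_re, Complex.sub_re]; linarith [hLQ z hz]
  have hQ1 : 1 ≤ (1 + Q z).re := by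
    simp only [Complex.add_re, Complex.one_re]; linarith [hQre z hz]
  have hnG := one_le_norm_of_re hG1
  have hnQ := one_le_norm_of_re hQ1
  have h1 : ‖(1 + (Q z - L z)) ^ (s : ℂ)‖ ≤ 1 + ‖Q z - L z‖ := by
    rw [cpow_norm hG1]
    calc ‖1 + (Q z - L z)‖ ^ s ≤ ‖1 + (Q z - L z)‖ ^ (1 : ℝ) :=
          rpow_le_rpow_of_exponent_le hnG hs1.le
      _ = ‖1 + (Q z - L z)‖ := rpow_one _
      _ ≤ ‖(1 : ℂ)‖ + ‖Q z - L z‖ := norm_add_le _ _
      _ = _ := by rw [norm_one]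
  have h2 : ‖(1 + Q z) ^ (s : ℂ)‖ ≤ 1 + ‖Q z‖ := by
    rw [cpow_norm hQ1]
    calc ‖1 + Q z‖ ^ s ≤ ‖1 + Q z‖ ^ (1 : ℝ) :=
          rpow_le_rpow_of_exponent_le hnQ hs1.le
      _ = ‖1 + Q z‖ := rpow_one _
      _ ≤ ‖(1 : ℂ)‖ + ‖Q z‖ := norm_add_le _ _
      _ = _ := by rw [norm_one]
  have h3 := norm_sub_le (Q z) (L z)
  have h4 := norm_add₃_le (a := Q z - L z) (b := (1 + (Q z - L z)) ^ (s : ℂ))
    (c := (1 + Q z) ^ (s : ℂ))
  unfold BB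
  linarith

theorem rpow_mul_exp_neg_le {y m : ℝ} (hy : 0 < y) (hm0 : 0 ≤ m) (hm : m ≤ 2) :
    y ^ m * exp (-y) ≤ 2 := by
  rcases le_or_gt y 1 with h | h
  · have h1 : y ^ m ≤ 1 := rpow_le_one hy.le h hm0
    have h2 : exp (-y) ≤ 1 := exp_le_one_iff.2 (by linarith)
    have h3 : 0 ≤ y ^ m := by positivity
    have h4 := exp_pos (-y)
    nlinarith
  · have h1 : y ^ m ≤ y ^ (2 : ℝ) := rpow_le_rpow_of_exponent_le h.le hm
    rw [show ((2 : ℝ)) = ((2 : ℕ) : ℝ) by norm_num, rpow_natCast] at h1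
    have h3 := Real.quadratic_le_exp_of_nonneg hy.le
    rw [exp_neg, ← div_eq_mul_inv, div_le_iff₀ (exp_pos y)]
    linarith

/-- the main elementary inequality -/
theorem key_real {c ε x τ : ℝ} (hc : 0 < c) (hε : 0 < ε) (hx : 1 ≤ x) (hs0 : 0 < s)
    (hτ1 : τ ≤ 1) (hsτ : 2 - 2 * τ ≤ 2 * s) :
    ε ^ 2 * exp (-(2 * ε * (c * x ^ s))) ≤
      2 * (2 * c) ^ (-((2 - 2 * τ) / s)) * ε ^ (2 - (2 - 2 * τ) / s) * x ^ (2 * τ - 2) := by
  set m := (2 - 2 * τ) / s with hm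
  have hm0 : 0 ≤ m := by rw [hm]; apply div_nonneg <;> linarith
  have hm2 : m ≤ 2 := by rw [hm, div_le_iff₀ hs0]; linarith
  have hx0 : 0 < x := by linarith
  have hms : s * m = 2 - 2 * τ := by rw [hm]; field_simp
  set y := 2 * ε * (c * x ^ s) with hy
  have hy0 : 0 < y := by positivity
  have h1 := rpow_mul_exp_neg_le hy0 hm0 hm2
  have hym : y ^ m = (2 * c) ^ m * ε ^ m * x ^ (2 - 2 * τ) := by
    rw [hy, show 2 * ε * (c * x ^ s) = (2 * c) * ε * x ^ s by ring,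
      mul_rpow (by positivity) (by positivity), mul_rpow (by positivity) (by positivity),
      ← rpow_mul hx0.le, hms]
  have h2 : exp (-y) ≤ 2 * y ^ (-m) := by
    rw [rpow_neg hy0.le, ← div_eq_mul_inv, le_div_iff₀ (by positivity)]
    linarith
  calc ε ^ 2 * exp (-y) ≤ ε ^ 2 * (2 * y ^ (-m)) := by gcongr
    _ = 2 * (2 * c) ^ (-m) * ε ^ (2 - m) * x ^ (2 * τ - 2) := by
      rw [rpow_neg hy0.le, hym, rpow_neg (by positivity), rpow_sub hε,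
        show (2 * τ - 2) = -(2 - 2 * τ) by ring, rpow_neg hx0.le]
      have : ε ^ (2 : ℝ) = ε ^ 2 := by norm_cast
      rw [this]
      field_simp

end Pool.Agent.Cyc65
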