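import Mathlib

/-!
Definitions for MP_53dd33_an: the Dirichlet-type spaces `D_α`, cyclic functions, holomorphic
branches of powers, and the set `T_α`.
-/

namespace Pool.Agent.Cyc65

open Metric

/-- The `k`-th Taylor coefficient at `0`: `f(z) = ∑ tc f k * z ^ k`. -/
noncomputable def tc (f : ℂ → ℂ) (k : ℕ) : ℂ := iteratedDeriv k f 0 / (k.factorial : ℂ)

/-- `f ∈ D_α`: `f` is analytic on the open unit disk and `∑ |a_k|² (k+1)^α < ∞`. -/
def InD (α : ℝ) (f : ℂ → ℂ) : Prop :=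
  DifferentiableOn ℂ f (ball 0 1) ∧
    Summable (fun k : ℕ => ‖tc f k‖ ^ 2 * ((k : ℝ) + 1) ^ α)

/-- The squared norm `‖f‖_α² = ∑ |a_k|² (k+1)^α` (for `f ∈ D_α`). -/
noncomputable def normSqD (α : ℝ) (f : ℂ → ℂ) : ℝ :=
  ∑' k : ℕ, ‖tc f k‖ ^ 2 * ((k : ℝ) + 1) ^ α

/-- `f` is cyclic in `D_α`: the polynomial multiples of `f` are dense in `D_α`. -/
def Cyclic (α : ℝ) (f : ℂ → ℂ) : Prop :=
  ∀ h : ℂ → ℂ, InD α h → ∀ ε : ℝ, 0 < ε →
    ∃ p : Polynomial ℂ, InD α (fun z => p.eval z * f z - h z) ∧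
      normSqD α (fun z => p.eval z * f z - h z) < ε

/-- `g` is a holomorphic branch of `L ^ t` on the open unit disk: `g` is holomorphic there and
`g(z)` is one of the values of `L(z) ^ t` at every point (the value being `0` where `L(z) = 0`). -/
def IsPowBranch (t : ℝ) (L g : ℂ → ℂ) : Prop :=
  DifferentiableOn ℂ g (ball 0 1) ∧
    ∀ z ∈ ball (0 : ℂ) 1, (L z = 0 → g z = 0) ∧
      (L z ≠ 0 → ∃ w : ℂ, Complex.exp w = L z ∧ g z = Complex.exp ((t : ℂ) * w))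

/-- `(log f)^t ∈ D_α`: there are a holomorphic `L` with `e^L = f` on the disk (so `f` has no
zeros there) and a holomorphic branch `g` of `L ^ t` with `g ∈ D_α`. -/
def LogPowInD (α t : ℝ) (f : ℂ → ℂ) : Prop :=
  ∃ L g : ℂ → ℂ, DifferentiableOn ℂ L (ball 0 1) ∧
    (∀ z ∈ ball (0 : ℂ) 1, Complex.exp (L z) = f z) ∧ IsPowBranch t L g ∧ InD α g

/-- The set `T_α` of the `t > 0` such that every `f ∈ D_α` with `(log f)^t ∈ D_α` is cyclic
in `D_α`. -/
def T (α : ℝ) : Set ℝ :=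
  {t | 0 < t ∧ ∀ f : ℂ → ℂ, InD α f → LogPowInD α t f → Cyclic α f}

end Pool.Agent.Cyc65
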