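import Pool.Agent.Lib_helper65.CycMult

/-!
The sharp embedding `D_α ⊂ H^{2/(1-α)}` for `0 < α < 1`.
-/

namespace Pool.Agent.Cyc65

open Metric Set Filter Topology Real MeasureTheory InnerProductSpace
open scoped ENNReal

theorem sum_rpow_neg_le {α : ℝ} (h0 : 0 < α) (h1 : α < 1) (n : ℕ) :
    ∑ k ∈ Finset.range n, ((k : ℝ) + 1) ^ (-α) ≤ (n : ℝ) ^ (1 - α) / (1 - α) := by
  have h1α : 0 < 1 - α := by linarith
  induction n with
  | zero => simp [zero_rpow h1α.ne']
  | succ n ih =>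
    rw [Finset.sum_range_succ]
    have hn : (0 : ℝ) < (n : ℝ) + 1 := by positivity
    have key : (n : ℝ) ^ (1 - α) ≤ ((n : ℝ) + 1) ^ (1 - α) - (1 - α) * ((n : ℝ) + 1) ^ (-α) := by
      have e1 : (n : ℝ) = ((n : ℝ) + 1) * (1 + (-1 / ((n : ℝ) + 1))) := by
        field_simp; ring
      have e2 : (0 : ℝ) ≤ 1 + (-1 / ((n : ℝ) + 1)) := by
        have : (1 : ℝ) / ((n : ℝ) + 1) ≤ 1 := by
          rw [div_le_one hn]; linarith [Nat.cast_nonneg (α := ℝ) n]
        have e : -1 / ((n : ℝ) + 1) = -(1 / ((n : ℝ) + 1)) := by ring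
        rw [e]; linarith
      have e3 : (1 + (-1 / ((n : ℝ) + 1))) ^ (1 - α) ≤ 1 + (1 - α) * (-1 / ((n : ℝ) + 1)) :=
        rpow_one_add_le_one_add_mul_self (by linarith) h1α.le (by linarith)
      calc (n : ℝ) ^ (1 - α) = (((n : ℝ) + 1) * (1 + (-1 / ((n : ℝ) + 1)))) ^ (1 - α) := by
            rw [← e1]
        _ = ((n : ℝ) + 1) ^ (1 - α) * (1 + (-1 / ((n : ℝ) + 1))) ^ (1 - α) :=
            mul_rpow hn.le e2
        _ ≤ ((n : ℝ) + 1) ^ (1 - α) * (1 + (1 - α) * (-1 / ((n : ℝ) + 1))) := by gcongr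
        _ = ((n : ℝ) + 1) ^ (1 - α) - (1 - α) * (((n : ℝ) + 1) ^ (1 - α) / ((n : ℝ) + 1)) := by
            ring
        _ = _ := by
            have : ((n : ℝ) + 1) ^ (1 - α) / ((n : ℝ) + 1) = ((n : ℝ) + 1) ^ (-α) := by
              rw [div_eq_iff hn.ne', ← rpow_add_one hn.ne']
              congr 1; ring
            rw [this]
    have : ((n : ℝ) + 1) ^ (-α) ≤ (((n : ℝ) + 1) ^ (1 - α) - (n : ℝ) ^ (1 - α)) / (1 - α) := by
      rw [le_div_iff₀ h1α]
      linarith
    push_cast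
    calc ∑ k ∈ Finset.range n, ((k : ℝ) + 1) ^ (-α) + ((n : ℝ) + 1) ^ (-α)
        ≤ (n : ℝ) ^ (1 - α) / (1 - α) + (((n : ℝ) + 1) ^ (1 - α) - (n : ℝ) ^ (1 - α)) / (1 - α) :=
          add_le_add ih this
      _ = _ := by ring

/-- the heights `S_k` -/
noncomputable def Sk (α K : ℝ) (k : ℕ) : ℝ :=
  2 * K * (((k : ℝ) + 1) ^ (1 - α) / (1 - α)) ^ ((1 : ℝ) / 2)

theorem Sk_mono {α K : ℝ} (h1 : α < 1) (hK : 0 ≤ K) : Monotone (Sk α K) := by
  intro k l hkl
  have h1α : 0 < 1 - α := by linarith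
  unfold Sk
  gcongr

theorem Sk_nonneg {α K : ℝ} (h1 : α < 1) (hK : 0 ≤ K) (k : ℕ) : 0 ≤ Sk α K k := by
  have h1α : 0 < 1 - α := by linarith
  unfold Sk
  positivity

theorem Sk_tendsto {α K : ℝ} (h1 : α < 1) (hK : 0 < K) : Tendsto (Sk α K) atTop atTop := by
  have h1α : 0 < 1 - α := by linarith
  unfold Sk
  apply Tendsto.const_mul_atTop (by positivity)
  apply (tendsto_rpow_atTop (by norm_num)).comp
  apply Tendsto.atTop_div_const h1α
  apply (tendsto_rpow_atTop h1α).comp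
  exact tendsto_atTop_add_const_right _ _ tendsto_natCast_atTop_atTop

/-- the bound for the low part -/
theorem low_part_le {α : ℝ} (h0 : 0 < α) (h1 : α < 1) {R : ℂ → ℂ} {K : ℝ} (hK : 0 < K)
    (hR : nD α R ≤ ENNReal.ofReal (K ^ 2)) {t : ℝ} (ht : 0 < t) {n : ℕ}
    (hn : ∀ k, k < n → Sk α K k < t) : ∑ k ∈ Finset.range n, ‖tc R k‖ ≤ t / 2 := by
  have h1α : 0 < 1 - α := by linarith
  rcases Nat.eq_zero_or_pos n with h | h
  · subst h; simp; linarith
  obtain ⟨m, rfl⟩ : ∃ m, n = m + 1 := ⟨n - 1, by omega⟩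
  have hCS := Finset.sum_mul_sq_le_sq_mul_sq (Finset.range (m + 1))
    (fun k => ‖tc R k‖ * ((k : ℝ) + 1) ^ (α / 2)) (fun k => ((k : ℝ) + 1) ^ (-α / 2))
  have e1 : ∀ k : ℕ, ‖tc R k‖ * ((k : ℝ) + 1) ^ (α / 2) * ((k : ℝ) + 1) ^ (-α / 2) = ‖tc R k‖ := by
    intro k
    have hk : (0 : ℝ) < (k : ℝ) + 1 := by positivity
    rw [mul_assoc, ← rpow_add hk]
    have : α / 2 + -α / 2 = 0 := by ring
    rw [this, rpow_zero, mul_one]
  have e2 : ∀ k : ℕ, (‖tc R k‖ * ((k : ℝ) + 1) ^ (α / 2)) ^ 2 = ‖tc R k‖ ^ 2 * ((k : ℝ) + 1) ^ α := by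
    intro k
    have hk : (0 : ℝ) ≤ (k : ℝ) + 1 := by positivity
    rw [mul_pow, ← rpow_natCast (((k : ℝ) + 1) ^ (α / 2)), ← rpow_mul hk]
    congr 2
    push_cast; ring
  have e3 : ∀ k : ℕ, (((k : ℝ) + 1) ^ (-α / 2)) ^ 2 = ((k : ℝ) + 1) ^ (-α) := by
    intro k
    have hk : (0 : ℝ) ≤ (k : ℝ) + 1 := by positivity
    rw [← rpow_natCast (((k : ℝ) + 1) ^ (-α / 2)), ← rpow_mul hk]
    congr 1
    push_cast; ring
  simp_rw [e1, e2, e3] at hCS
  have e4 : ∑ k ∈ Finset.range (m + 1), ‖tc R k‖ ^ 2 * ((k : ℝ) + 1) ^ α ≤ K ^ 2 := by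
    have h2 : ENNReal.ofReal (∑ k ∈ Finset.range (m + 1), ‖tc R k‖ ^ 2 * ((k : ℝ) + 1) ^ α)
        ≤ ENNReal.ofReal (K ^ 2) := by
      rw [ENNReal.ofReal_sum_of_nonneg (fun k _ => by positivity)]
      exact (ENNReal.sum_le_tsum _).trans hR
    exact (ENNReal.ofReal_le_ofReal_iff (by positivity)).1 h2
  have e5 := sum_rpow_neg_le h0 h1 (m + 1)
  have e6 : (∑ k ∈ Finset.range (m + 1), ‖tc R k‖) ^ 2 ≤ (Sk α K m / 2) ^ 2 := by
    calc _ ≤ _ := hCS
      _ ≤ K ^ 2 * (((m + 1 : ℕ) : ℝ) ^ (1 - α) / (1 - α)) := by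
          gcongr
      _ = (Sk α K m / 2) ^ 2 := by
          unfold Sk
          have hx : 0 ≤ ((m : ℝ) + 1) ^ (1 - α) / (1 - α) := by positivity
          have : ((((m : ℝ) + 1) ^ (1 - α) / (1 - α)) ^ ((1 : ℝ) / 2)) ^ 2
              = ((m : ℝ) + 1) ^ (1 - α) / (1 - α) := by
            rw [← rpow_natCast, ← rpow_mul hx]
            norm_num
          push_cast
          calc K ^ 2 * (((m : ℝ) + 1) ^ (1 - α) / (1 - α))
              = K ^ 2 * ((((m : ℝ) + 1) ^ (1 - α) / (1 - α)) ^ ((1 : ℝ) / 2)) ^ 2 := by rw [this]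
            _ = _ := by ring
  have e7 : ∑ k ∈ Finset.range (m + 1), ‖tc R k‖ ≤ Sk α K m / 2 := by
    apply le_of_sq_le_sq _ (by have := Sk_nonneg h1 hK.le (α := α) m; positivity)
    exact e6
  have := hn m (Nat.lt_succ_self m)
  linarith

/-- distribution estimate -/
theorem meas_bound {α : ℝ} (h0 : 0 < α) (h1 : α < 1) {R : ℂ → ℂ} (hRd : DifferentiableOn ℂ R DD)
    {K : ℝ} (hK : 0 < K) (hR : nD α R ≤ ENNReal.ofReal (K ^ 2)) {ρ : ℝ} (hρ0 : 0 ≤ ρ)
    (hρ1 : ρ < 1) {t : ℝ} (ht : 0 < t) :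
    (volume.restrict (Ioc 0 (2 * π))) {θ : ℝ | t < ‖R (circleMap 0 ρ θ)‖} ≤
      ENNReal.ofReal (8 * π / t ^ 2) *
        ∑' k : ℕ, ENNReal.ofReal (‖tc R k‖ ^ 2) * (if t ≤ Sk α K k then 1 else 0) := by
  classical
  set μ := volume.restrict (Ioc 0 (2 * π)) with hμ
  have hex : ∃ k, t ≤ Sk α K k := ((Sk_tendsto h1 hK).eventually_ge_atTop t).exists
  set n := Nat.find hex with hn
  have hlow : ∀ k, k < n → Sk α K k < t := fun k hk => not_le.1 (Nat.find_min hex hk)
  have hhigh : ∀ k, n ≤ k → t ≤ Sk α K k := fun k hk =>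
    (Nat.find_spec hex).trans (Sk_mono h1 hK.le hk)
  let P : Polynomial ℂ := ∑ k ∈ Finset.range n, Polynomial.monomial k (tc R k)
  have hPc : ∀ k, P.coeff k = if k < n then tc R k else 0 := by
    intro k
    simp only [P, Polynomial.finsetSum_coeff, Polynomial.coeff_monomial]
    simp [Finset.mem_range]
  have hPe : ∀ z, P.eval z = ∑ k ∈ Finset.range n, tc R k * z ^ k := by
    intro z
    simp only [P, Polynomial.eval_finsetSum, Polynomial.eval_monomial]
  have hPd : DifferentiableOn ℂ (fun z => P.eval z) DD := P.differentiable.differentiableOn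
  have hPb : ∀ z ∈ DD, ‖P.eval z‖ ≤ t / 2 := by
    intro z hz
    rw [hPe]
    calc ‖∑ k ∈ Finset.range n, tc R k * z ^ k‖ ≤ ∑ k ∈ Finset.range n, ‖tc R k * z ^ k‖ :=
          norm_sum_le _ _
      _ ≤ ∑ k ∈ Finset.range n, ‖tc R k‖ := by
          apply Finset.sum_le_sum
          intro k _
          rw [norm_mul, norm_pow]
          calc ‖tc R k‖ * ‖z‖ ^ k ≤ ‖tc R k‖ * 1 := by
                gcongr
                exact pow_le_one₀ (norm_nonneg z) (mem_DD.1 hz).le
            _ = _ := mul_one _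
      _ ≤ t / 2 := low_part_le h0 h1 hK hR ht hlow
  set H : ℂ → ℂ := fun z => R z - P.eval z with hH
  have hHd : DifferentiableOn ℂ H DD := hRd.sub hPd
  have hHtc : ∀ k, tc H k = if k < n then 0 else tc R k := by
    intro k
    rw [hH, tc_sub hRd hPd, tc_poly, hPc]
    split_ifs <;> simp
  have hcm : ∀ θ : ℝ, circleMap 0 ρ θ ∈ DD := by
    intro θ
    rw [mem_DD]; simp [abs_of_nonneg hρ0, hρ1]
  have hXc : Continuous (fun θ : ℝ => ‖H (circleMap 0 ρ θ)‖ ^ 2) :=
    (continuousOn_norm_sq hHd).comp_continuous (continuous_circleMap 0 ρ) hcm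
  have hsub : {θ : ℝ | t < ‖R (circleMap 0 ρ θ)‖} ⊆
      {θ : ℝ | ENNReal.ofReal ((t / 2) ^ 2) ≤ ENNReal.ofReal (‖H (circleMap 0 ρ θ)‖ ^ 2)} := by
    intro θ hθ
    simp only [mem_ofPred_eq] at hθ ⊢
    apply ENNReal.ofReal_le_ofReal
    have e1 := hPb _ (hcm θ)
    have e2 : ‖R (circleMap 0 ρ θ)‖ ≤ ‖H (circleMap 0 ρ θ)‖ + ‖P.eval (circleMap 0 ρ θ)‖ := by
      have := norm_add_le (H (circleMap 0 ρ θ)) (P.eval (circleMap 0 ρ θ))
      simpa [hH] using this
    have e3 : t / 2 ≤ ‖H (circleMap 0 ρ θ)‖ := by linarith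
    gcongr
  have hmk := mul_meas_ge_le_lintegral₀ (μ := μ)
    (f := fun θ : ℝ => ENNReal.ofReal (‖H (circleMap 0 ρ θ)‖ ^ 2))
    (hXc.measurable.ennreal_ofReal.aemeasurable) (ENNReal.ofReal ((t / 2) ^ 2))
  have hlint : ∫⁻ θ, ENNReal.ofReal (‖H (circleMap 0 ρ θ)‖ ^ 2) ∂μ
      = ENNReal.ofReal (2 * π * M2 H ρ) := by
    rw [hμ, ← ofReal_integral_eq_lintegral_ofReal]
    · congr 1
      unfold M2
      rw [circleAverage_def, intervalIntegral.integral_of_le two_pi_pos.le, smul_eq_mul]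
      rw [← mul_assoc, mul_inv_cancel₀ two_pi_pos.ne', one_mul]
    · exact (hXc.integrableOn_Icc).mono_set Ioc_subset_Icc_self
    · filter_upwards with θ using by positivity
  rw [hlint] at hmk
  have ht4 : 0 < (t / 2) ^ 2 := by positivity
  have h2 : μ {θ : ℝ | t < ‖R (circleMap 0 ρ θ)‖} ≤ ENNReal.ofReal (8 * π / t ^ 2 * M2 H ρ) := by
    have e1 : ENNReal.ofReal ((t / 2) ^ 2) * μ {θ : ℝ | t < ‖R (circleMap 0 ρ θ)‖}
        ≤ ENNReal.ofReal (2 * π * M2 H ρ) := le_trans (by gcongr) hmk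
    have e2 : ENNReal.ofReal (8 * π / t ^ 2 * M2 H ρ)
        = ENNReal.ofReal (2 * π * M2 H ρ) / ENNReal.ofReal ((t / 2) ^ 2) := by
      rw [← ENNReal.ofReal_div_of_pos ht4]
      congr 1
      field_simp
      ring
    rw [e2, ENNReal.le_div_iff_mul_le (Or.inl (ENNReal.ofReal_pos.2 ht4).ne')
      (Or.inl ENNReal.ofReal_ne_top), mul_comm]
    exact e1
  refine h2.trans ?_
  rw [ENNReal.ofReal_mul (by positivity)]
  gcongr
  have hp := parseval hHd hρ0 hρ1
  rw [← hp.tsum_eq, ENNReal.ofReal_tsum_of_nonneg (fun k => by positivity) hp.summable]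
  apply ENNReal.tsum_le_tsum
  intro k
  rw [hHtc]
  by_cases hk : k < n
  · simp [hk]
  · rw [if_neg hk, if_pos (hhigh k (not_lt.1 hk)), mul_one]
    apply ENNReal.ofReal_le_ofReal
    calc ‖tc R k‖ ^ 2 * ρ ^ (2 * k) ≤ ‖tc R k‖ ^ 2 * 1 := by
          gcongr
          exact pow_le_one₀ hρ0 hρ1.le
      _ = _ := mul_one _

theorem lint_power {a S : ℝ} (ha : 0 < a) (hS : 0 ≤ S) :
    ∫⁻ t in Ioi (0 : ℝ), (if t ≤ S then 1 else 0) * ENNReal.ofReal (t ^ (a - 1))
      = ENNReal.ofReal (S ^ a / a) := by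
  have h1 : ∫⁻ t in Ioi (0 : ℝ), (if t ≤ S then 1 else 0) * ENNReal.ofReal (t ^ (a - 1))
      = ∫⁻ t in Ioc (0 : ℝ) S, ENNReal.ofReal (t ^ (a - 1)) := by
    rw [← lintegral_indicator measurableSet_Ioi, ← lintegral_indicator measurableSet_Ioc]
    congr 1
    ext t
    simp only [indicator, mem_Ioi, mem_Ioc]
    by_cases h : 0 < t
    · by_cases h' : t ≤ S <;> simp [h, h']
    · simp [h]
  rw [h1, ← ofReal_integral_eq_lintegral_ofReal]
  · congr 1
    rw [← intervalIntegral.integral_of_le hS, integral_rpow (Or.inl (by linarith))]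
    rw [sub_add_cancel, zero_rpow ha.ne', sub_zero]
  · have := intervalIntegral.intervalIntegrable_rpow' (a := 0) (b := S) (r := a - 1) (by linarith)
    rwa [intervalIntegrable_iff_integrableOn_Ioc_of_le hS] at this
  · filter_upwards [ae_restrict_mem measurableSet_Ioc] with t ht
    exact rpow_nonneg ht.1.le _

/-- **The embedding.** -/
theorem embedding {α : ℝ} (h0 : 0 < α) (h1 : α < 1) : ∃ C : ℝ, 0 ≤ C ∧
    ∀ R : ℂ → ℂ, DifferentiableOn ℂ R DD → ∀ K : ℝ, 0 < K → nD α R ≤ ENNReal.ofReal (K ^ 2) →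
    ∀ ρ : ℝ, 0 ≤ ρ → ρ < 1 →
      circleAverage (fun z => ‖R z‖ ^ (2 / (1 - α))) 0 ρ ≤ C * K ^ (2 / (1 - α)) := by
  have h1α : 0 < 1 - α := by linarith
  set p : ℝ := 2 / (1 - α) with hp
  have hp2 : 2 < p := by
    rw [hp, lt_div_iff₀ h1α]; linarith
  have hp0 : 0 < p := by linarith
  have hpm : (p - 2) / 2 * (1 - α) = α := by
    rw [hp]; field_simp; ring
  set C0 : ℝ := (1 / (1 - α)) ^ ((p - 2) / 2) with hC0
  have hC0nn : 0 ≤ C0 := by positivity
  refine ⟨4 * p * 2 ^ (p - 2) * C0 / (p - 2), by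
    have : 0 < p - 2 := by linarith
    positivity, ?_⟩
  intro R hRd K hK hR ρ hρ0 hρ1
  have hcm : ∀ θ : ℝ, circleMap 0 ρ θ ∈ DD := by
    intro θ
    rw [mem_DD]; simp [abs_of_nonneg hρ0, hρ1]
  have hXc : Continuous (fun θ : ℝ => ‖R (circleMap 0 ρ θ)‖) :=
    (hRd.continuousOn.norm).comp_continuous (continuous_circleMap 0 ρ) hcm
  have hXpc : Continuous (fun θ : ℝ => ‖R (circleMap 0 ρ θ)‖ ^ p) :=
    hXc.rpow_const (fun _ => Or.inr hp0.le)
  have hSkpow : ∀ k : ℕ, Sk α K k ^ (p - 2) = (2 * K) ^ (p - 2) * C0 * ((k : ℝ) + 1) ^ α := by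
    intro k
    have hk : (0 : ℝ) ≤ (k : ℝ) + 1 := by positivity
    unfold Sk
    have e1 : (1 : ℝ) / 2 * (p - 2) = (p - 2) / 2 := by ring
    have e2 : (1 - α) * (1 / 2 * (p - 2)) = α := by
      rw [e1, mul_comm]; exact hpm
    have e3 : (((k : ℝ) + 1) ^ (1 - α) / (1 - α)) ^ ((1 : ℝ) / 2 * (p - 2))
        = C0 * ((k : ℝ) + 1) ^ α := by
      rw [show ((k : ℝ) + 1) ^ (1 - α) / (1 - α) = (1 / (1 - α)) * ((k : ℝ) + 1) ^ (1 - α) by ring,
        mul_rpow (x := 1 / (1 - α)) (by positivity) (by positivity), ← rpow_mul hk, e2, e1]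
    rw [mul_rpow (x := 2 * K) (by positivity) (by positivity), ← rpow_mul (by positivity), e3]
    ring
  have main : ∫⁻ θ in Ioc 0 (2 * π), ENNReal.ofReal (‖R (circleMap 0 ρ θ)‖ ^ p) ≤
      ENNReal.ofReal (2 * π * (4 * p * 2 ^ (p - 2) * C0 / (p - 2) * K ^ p)) := by
    rw [lintegral_rpow_eq_lintegral_meas_lt_mul _ (f := fun θ : ℝ => ‖R (circleMap 0 ρ θ)‖)
      (by filter_upwards with θ using norm_nonneg _) hXc.measurable.aemeasurable hp0]
    calc ENNReal.ofReal p * ∫⁻ t in Ioi (0 : ℝ),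
          (volume.restrict (Ioc 0 (2 * π))) {θ : ℝ | t < ‖R (circleMap 0 ρ θ)‖}
            * ENNReal.ofReal (t ^ (p - 1))
        ≤ ENNReal.ofReal p * ∫⁻ t in Ioi (0 : ℝ),
          ∑' k : ℕ, ENNReal.ofReal (8 * π * ‖tc R k‖ ^ 2) *
            ((if t ≤ Sk α K k then 1 else 0) * ENNReal.ofReal (t ^ ((p - 2) - 1))) := by
          gcongr ENNReal.ofReal p * ?_
          apply setLIntegral_mono' measurableSet_Ioi
          intro t ht
          have ht' : 0 < t := ht
          calc _ ≤ (ENNReal.ofReal (8 * π / t ^ 2) *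
                ∑' k : ℕ, ENNReal.ofReal (‖tc R k‖ ^ 2) * (if t ≤ Sk α K k then 1 else 0))
                * ENNReal.ofReal (t ^ (p - 1)) := by
                gcongr
                exact meas_bound h0 h1 hRd hK hR hρ0 hρ1 ht'
            _ = _ := by
                rw [← ENNReal.tsum_mul_left, ← ENNReal.tsum_mul_right]
                apply tsum_congr
                intro k
                have e1 : t ^ (p - 1) = t ^ 2 * t ^ ((p - 2) - 1) := by
                  rw [← rpow_natCast t 2, ← rpow_add ht']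
                  congr 1; push_cast; ring
                have e2 : ENNReal.ofReal (8 * π / t ^ 2) * ENNReal.ofReal (t ^ (p - 1))
                    = ENNReal.ofReal (8 * π) * ENNReal.ofReal (t ^ ((p - 2) - 1)) := by
                  rw [← ENNReal.ofReal_mul (by positivity), ← ENNReal.ofReal_mul (by positivity),
                    e1]
                  congr 1
                  field_simp
                rw [ENNReal.ofReal_mul (by positivity)]
                calc ENNReal.ofReal (8 * π / t ^ 2) * (ENNReal.ofReal (‖tc R k‖ ^ 2) *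
                      (if t ≤ Sk α K k then 1 else 0)) * ENNReal.ofReal (t ^ (p - 1))
                    = (ENNReal.ofReal (8 * π / t ^ 2) * ENNReal.ofReal (t ^ (p - 1))) *
                      (ENNReal.ofReal (‖tc R k‖ ^ 2) * (if t ≤ Sk α K k then 1 else 0)) := by ring
                  _ = _ := by rw [e2]; ring
      _ = ENNReal.ofReal p * ∑' k : ℕ, ENNReal.ofReal (8 * π * ‖tc R k‖ ^ 2) *
            ENNReal.ofReal (Sk α K k ^ (p - 2) / (p - 2)) := by
          congr 1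
          rw [lintegral_tsum]
          · apply tsum_congr
            intro k
            rw [lintegral_const_mul' _ _ ENNReal.ofReal_ne_top,
              lint_power (by linarith) (Sk_nonneg h1 hK.le k)]
          · intro k
            apply AEMeasurable.const_mul
            apply AEMeasurable.mul
            · apply Measurable.aemeasurable
              exact Measurable.ite measurableSet_Iic measurable_const measurable_const
            · apply AEMeasurable.ennreal_ofReal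
              apply ContinuousOn.aemeasurable _ measurableSet_Ioi
              apply ContinuousOn.rpow_const continuousOn_id
              intro x hx; left; exact (mem_Ioi.1 hx).ne'
      _ = ENNReal.ofReal (p * (8 * π * ((2 * K) ^ (p - 2) * C0) / (p - 2))) * nD α R := by
          unfold nD
          rw [← ENNReal.tsum_mul_left, ← ENNReal.tsum_mul_left]
          apply tsum_congr
          intro k
          have : 0 < p - 2 := by linarith
          have hSn := Sk_nonneg h1 hK.le (α := α) k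
          rw [← ENNReal.ofReal_mul (by positivity), ← ENNReal.ofReal_mul (by positivity),
            ← ENNReal.ofReal_mul (by positivity), hSkpow]
          congr 1
          ring
      _ ≤ ENNReal.ofReal (p * (8 * π * ((2 * K) ^ (p - 2) * C0) / (p - 2)))
            * ENNReal.ofReal (K ^ 2) := by gcongr
      _ = _ := by
          have : 0 < p - 2 := by linarith
          rw [← ENNReal.ofReal_mul (by positivity)]
          congr 1
          rw [mul_rpow (by norm_num) hK.le]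
          have e1 : K ^ p = K ^ (p - 2) * K ^ 2 := by
            rw [← rpow_natCast K 2, ← rpow_add hK]
            congr 1; push_cast; ring
          rw [e1]
          field_simp
          ring
  rw [circleAverage_def, intervalIntegral.integral_of_le two_pi_pos.le, smul_eq_mul]
  rw [← ofReal_integral_eq_lintegral_ofReal
    ((hXpc.integrableOn_Icc).mono_set Ioc_subset_Icc_self)
    (by filter_upwards with θ using by positivity)] at main
  have hpos : 0 ≤ 2 * π * (4 * p * 2 ^ (p - 2) * C0 / (p - 2) * K ^ p) := by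
    have : 0 < p - 2 := by linarith
    positivity
  have h3 := (ENNReal.ofReal_le_ofReal_iff hpos).1 main
  calc (2 * π)⁻¹ * ∫ θ in Ioc 0 (2 * π), ‖R (circleMap 0 ρ θ)‖ ^ p
      ≤ (2 * π)⁻¹ * (2 * π * (4 * p * 2 ^ (p - 2) * C0 / (p - 2) * K ^ p)) := by gcongr
    _ = _ := by
      rw [← mul_assoc, inv_mul_cancel₀ two_pi_pos.ne', one_mul]

end Pool.Agent.Cyc65
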