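import Pool.Agent.Lib_helper65.CycPoisson

/-!
The Jensen gap inequality and its consequence for truncated outer functions.
-/

namespace Pool.Agent.Cyc65

open Metric Set Filter Topology Real MeasureTheory InnerProductSpace
open scoped ENNReal

/-- Bregman divergence of `exp (2x)` -/
noncomputable def bre (x c : ℝ) : ℝ := exp (2 * x) - exp (2 * c) - 2 * exp (2 * c) * (x - c)

theorem bre_nonneg (x c : ℝ) : 0 ≤ bre x c := by
  unfold bre
  have h := add_one_le_exp (2 * x - 2 * c)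
  have h2 : exp (2 * x) = exp (2 * c) * exp (2 * x - 2 * c) := by
    rw [← exp_add]; congr 1; ring
  rw [h2]
  nlinarith [exp_pos (2 * c)]

/-- admissible truncations -/
structure Adm (K : ℝ) (θ : ℝ → ℝ) : Prop where
  diff : Differentiable ℝ θ
  nn : ∀ s, 0 ≤ deriv θ s
  le : ∀ s, deriv θ s ≤ K
  exp_le : ∀ s, exp (2 * θ s) * deriv θ s ≤ K * exp (2 * s)

theorem Adm.K_nonneg {K : ℝ} {θ : ℝ → ℝ} (h : Adm K θ) : 0 ≤ K := (h.nn 0).trans (h.le 0)

theorem Adm.mono {K : ℝ} {θ : ℝ → ℝ} (h : Adm K θ) : Monotone θ :=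
  monotone_of_deriv_nonneg h.diff h.nn

theorem Adm.mono2 {K : ℝ} {θ : ℝ → ℝ} (h : Adm K θ) :
    Monotone (fun x => K * exp (2 * x) - exp (2 * θ x)) := by
  have hd : ∀ x, HasDerivAt (fun x => K * exp (2 * x) - exp (2 * θ x))
      (K * (exp (2 * x) * 2) - exp (2 * θ x) * (2 * deriv θ x)) x := by
    intro x
    have h1 : HasDerivAt (fun x : ℝ => exp (2 * x)) (exp (2 * x) * 2) x := by
      have := ((hasDerivAt_id x).const_mul 2).exp
      simpa using this
    have h2 : HasDerivAt (fun x : ℝ => exp (2 * θ x)) (exp (2 * θ x) * (2 * deriv θ x)) x := by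
      have := ((h.diff x).hasDerivAt.const_mul 2).exp
      simpa using this
    exact (h1.const_mul K).sub h2
  apply monotone_of_deriv_nonneg (fun x => (hd x).differentiableAt)
  intro x
  rw [(hd x).deriv]
  have := h.exp_le x
  linarith

theorem bre_hasDerivAt (c x : ℝ) :
    HasDerivAt (fun x => bre x c) (2 * (exp (2 * x) - exp (2 * c))) x := by
  unfold bre
  have h1 : HasDerivAt (fun x : ℝ => exp (2 * x)) (exp (2 * x) * 2) x := by
    have := ((hasDerivAt_id x).const_mul 2).exp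
    simpa using this
  have h3 : HasDerivAt (fun x : ℝ => 2 * exp (2 * c) * (x - c)) (2 * exp (2 * c)) x := by
    have := ((hasDerivAt_id x).sub_const c).const_mul (2 * exp (2 * c))
    simpa using this
  exact ((h1.sub_const (exp (2 * c))).sub h3).congr_deriv (by ring)

theorem bre_self (c : ℝ) : bre c c = 0 := by simp [bre]

theorem bre_le {K : ℝ} {θ : ℝ → ℝ} (h : Adm K θ) (x c : ℝ) :
    bre (θ x) (θ c) ≤ K ^ 2 * bre x c := by
  have hK := h.K_nonneg
  set D : ℝ → ℝ := fun x => K ^ 2 * bre x c - bre (θ x) (θ c) with hD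
  have hd : ∀ x, HasDerivAt D (K ^ 2 * (2 * (exp (2 * x) - exp (2 * c)))
      - 2 * (exp (2 * θ x) - exp (2 * θ c)) * deriv θ x) x := by
    intro x
    have h1 := (bre_hasDerivAt c x).const_mul (K ^ 2)
    have h2 := (bre_hasDerivAt (θ c) (θ x)).comp x (h.diff x).hasDerivAt
    exact h1.sub h2
  have hcont : Continuous D := continuous_iff_continuousAt.2 (fun x => (hd x).continuousAt)
  have hDc : D c = 0 := by simp [hD, bre_self]
  have goal : 0 ≤ D x := by
    rcases le_total c x with hx | hx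
    · have hm : MonotoneOn D (Ici c) := by
        apply monotoneOn_of_deriv_nonneg (convex_Ici c) hcont.continuousOn
          (fun y _ => (hd y).differentiableAt.differentiableWithinAt)
        intro y hy
        rw [interior_Ici] at hy
        rw [(hd y).deriv]
        have e1 : exp (2 * θ y) - exp (2 * θ c) ≤ K * (exp (2 * y) - exp (2 * c)) := by
          have := h.mono2 (le_of_lt (mem_Ioi.1 hy))
          simp only at this
          linarith
        have e2 : 0 ≤ exp (2 * θ y) - exp (2 * θ c) := by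
          have := h.mono (le_of_lt (mem_Ioi.1 hy))
          have : exp (2 * θ c) ≤ exp (2 * θ y) := exp_le_exp.2 (by linarith)
          linarith
        have e3 := h.nn y
        have e4 := h.le y
        have e5 : (exp (2 * θ y) - exp (2 * θ c)) * deriv θ y
            ≤ (K * (exp (2 * y) - exp (2 * c))) * K := mul_le_mul e1 e4 e3 (e2.trans e1)
        nlinarith
      have := hm (mem_Ici.2 le_rfl) (mem_Ici.2 hx) hx
      rwa [hDc] at this
    · have hm : AntitoneOn D (Iic c) := by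
        apply antitoneOn_of_deriv_nonpos (convex_Iic c) hcont.continuousOn
          (fun y _ => (hd y).differentiableAt.differentiableWithinAt)
        intro y hy
        rw [interior_Iic] at hy
        rw [(hd y).deriv]
        have e1 : exp (2 * θ c) - exp (2 * θ y) ≤ K * (exp (2 * c) - exp (2 * y)) := by
          have := h.mono2 (le_of_lt (mem_Iio.1 hy))
          simp only at this
          linarith
        have e2 : 0 ≤ exp (2 * θ c) - exp (2 * θ y) := by
          have := h.mono (le_of_lt (mem_Iio.1 hy))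
          have : exp (2 * θ y) ≤ exp (2 * θ c) := exp_le_exp.2 (by linarith)
          linarith
        have e3 := h.nn y
        have e4 := h.le y
        have e5 : (exp (2 * θ c) - exp (2 * θ y)) * deriv θ y
            ≤ (K * (exp (2 * c) - exp (2 * y))) * K := mul_le_mul e1 e4 e3 (e2.trans e1)
        nlinarith
      have := hm (mem_Iic.2 hx) (mem_Iic.2 le_rfl) hx
      rwa [hDc] at this
  simp only [hD] at goal
  linarith

/-- the Jensen gap -/
noncomputable def gap (z : ℂ) (V : ℂ → ℝ) : ℝ :=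
  Ez z (fun ζ => exp (2 * V ζ)) - exp (2 * Ez z V)

theorem cont_exp2 {V : ℂ → ℝ} (h : ContinuousOn V TT) :
    ContinuousOn (fun ζ => exp (2 * V ζ)) TT :=
  continuous_exp.comp_continuousOn (h.const_mul 2 |> fun h => by simpa using h)

theorem Ez_bre {V : ℂ → ℝ} (h : ContinuousOn V TT) {z : ℂ} (hz : z ∈ DD) (c : ℝ) :
    Ez z (fun ζ => bre (V ζ) c) = Ez z (fun ζ => exp (2 * V ζ)) - exp (2 * c)
      - 2 * exp (2 * c) * (Ez z V - c) := by
  have h1 : (fun ζ => bre (V ζ) c) = fun ζ => (exp (2 * V ζ) + (-(2 * exp (2 * c))) * V ζ)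
      + (2 * exp (2 * c) * c - exp (2 * c)) := by
    ext ζ; unfold bre; ring
  rw [h1, Ez_add (φ := fun ζ => exp (2 * V ζ) + (-(2 * exp (2 * c))) * V ζ)
    (ψ := fun _ => 2 * exp (2 * c) * c - exp (2 * c))
    ((cont_exp2 h).add (continuousOn_const.mul h)) continuousOn_const hz,
    Ez_add (φ := fun ζ => exp (2 * V ζ)) (ψ := fun ζ => (-(2 * exp (2 * c))) * V ζ)
    (cont_exp2 h) (continuousOn_const.mul h) hz, Ez_smul, Ez_const hz]
  ring

theorem cont_bre {V : ℂ → ℝ} (h : ContinuousOn V TT) (c : ℝ) :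
    ContinuousOn (fun ζ => bre (V ζ) c) TT := by
  unfold bre
  apply ContinuousOn.sub
  · exact (cont_exp2 h).sub continuousOn_const
  · exact continuousOn_const.mul (h.sub continuousOn_const)

theorem gap_le_bre {V : ℂ → ℝ} (h : ContinuousOn V TT) {z : ℂ} (hz : z ∈ DD) (c : ℝ) :
    gap z V ≤ Ez z (fun ζ => bre (V ζ) c) := by
  rw [Ez_bre h hz]
  unfold gap
  have := bre_nonneg (Ez z V) c
  unfold bre at this
  linarith

theorem gap_eq_bre {V : ℂ → ℝ} (h : ContinuousOn V TT) {z : ℂ} (hz : z ∈ DD) :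
    gap z V = Ez z (fun ζ => bre (V ζ) (Ez z V)) := by
  rw [Ez_bre h hz]
  unfold gap
  ring

theorem gap_nonneg {V : ℂ → ℝ} (h : ContinuousOn V TT) {z : ℂ} (hz : z ∈ DD) : 0 ≤ gap z V := by
  rw [gap_eq_bre h hz]
  have := Ez_mono (φ := fun _ => 0) continuousOn_const (cont_bre h (Ez z V)) hz
    (fun ζ _ => bre_nonneg _ _)
  rwa [Ez_const hz] at this

theorem gap_comp_le {K : ℝ} {θ : ℝ → ℝ} (hθ : Adm K θ) {U : ℂ → ℝ} (h : ContinuousOn U TT)
    {z : ℂ} (hz : z ∈ DD) : gap z (fun ζ => θ (U ζ)) ≤ K ^ 2 * gap z U := by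
  have hV : ContinuousOn (fun ζ => θ (U ζ)) TT := hθ.diff.continuous.comp_continuousOn h
  calc gap z (fun ζ => θ (U ζ)) ≤ Ez z (fun ζ => bre (θ (U ζ)) (θ (Ez z U))) :=
        gap_le_bre hV hz _
    _ ≤ Ez z (fun ζ => K ^ 2 * bre (U ζ) (Ez z U)) := by
        apply Ez_mono (cont_bre hV _) (continuousOn_const.mul (cont_bre h _)) hz
        intro ζ _
        exact bre_le hθ _ _
    _ = K ^ 2 * gap z U := by
        rw [Ez_smul, gap_eq_bre h hz]

/-- comparison of outer functions -/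
theorem NN_outer_le {U : ℂ → ℝ} (hU : ContinuousOn U TT) {K : ℝ} {θ : ℝ → ℝ} (hθ : Adm K θ)
    {F h : ℂ → ℂ} (hF : DifferentiableOn ℂ F DD)
    (hF2 : ∀ z ∈ DD, ‖F z‖ ^ 2 = exp (2 * Ez z (fun ζ => θ (U ζ))))
    (hh : DifferentiableOn ℂ h DD) (hh2 : ∀ z ∈ DD, ‖h z‖ ^ 2 = exp (2 * Ez z U))
    (hh3 : HasSum (fun k => ‖tc h k‖ ^ 2) (circleAverage (fun ζ => exp (2 * U ζ)) 0 1))
    {s : ℝ} (hs : 0 < s) : NN s F ≤ ENNReal.ofReal (K ^ 2) * NN s h := by
  set V : ℂ → ℝ := fun ζ => θ (U ζ) with hVdef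
  have hV : ContinuousOn V TT := hθ.diff.continuous.comp_continuousOn hU
  set ρ : ℝ := exp (-(s / 2)) with hρ
  have hρ0 : 0 < ρ := exp_pos _
  have hρ1 : ρ < 1 := by
    rw [hρ, exp_lt_one_iff]; linarith
  have hρk : ∀ k : ℕ, exp (-(k * s)) = ρ ^ (2 * k) := by
    intro k
    rw [hρ, ← exp_nat_mul]
    congr 1; push_cast; ring
  -- means of F
  have hM : ∀ r : ℝ, 0 < r → r < 1 → M2 F r = circleAverage (fun z => exp (2 * Ez z V)) 0 r := by
    intro r hr0 hr1
    unfold M2
    apply circleAverage_congr_sphere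
    intro z hz
    exact hF2 z (sphere_subset_DD hr0.le hr1 hz)
  have hEc : ∀ {φ : ℂ → ℝ}, ContinuousOn φ TT → ∀ r : ℝ, 0 < r → r < 1 →
      CircleIntegrable (fun z => Ez z φ) 0 r := by
    intro φ hφ r hr0 hr1
    exact circleIntegrable_of_continuousOn (Ez_cont hφ) hr0.le hr1
  have hEc2 : ∀ {φ : ℂ → ℝ}, ContinuousOn φ TT → ∀ r : ℝ, 0 < r → r < 1 →
      CircleIntegrable (fun z => exp (2 * Ez z φ)) 0 r := by
    intro φ hφ r hr0 hr1
    exact circleIntegrable_of_continuousOn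
      (continuous_exp.comp_continuousOn (continuousOn_const.mul (Ez_cont hφ))) hr0.le hr1
  have hgapint : ∀ {φ : ℂ → ℝ}, ContinuousOn φ TT → ∀ r : ℝ, 0 < r → r < 1 →
      circleAverage (fun z => gap z φ) 0 r = circleAverage (fun ζ => exp (2 * φ ζ)) 0 1
        - circleAverage (fun z => exp (2 * Ez z φ)) 0 r := by
    intro φ hφ r hr0 hr1
    unfold gap
    rw [circleAverage_fun_sub (hEc (cont_exp2 hφ) r hr0 hr1) (hEc2 hφ r hr0 hr1),
      average_Ez (cont_exp2 hφ) hr0 hr1]
  have hgapci : ∀ {φ : ℂ → ℝ}, ContinuousOn φ TT → ∀ r : ℝ, 0 < r → r < 1 →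
      CircleIntegrable (fun z => gap z φ) 0 r := by
    intro φ hφ r hr0 hr1
    unfold gap
    exact (hEc (cont_exp2 hφ) r hr0 hr1).sub (hEc2 hφ r hr0 hr1)
  have hMle : ∀ r : ℝ, 0 < r → r < 1 → M2 F r ≤ circleAverage (fun ζ => exp (2 * V ζ)) 0 1 := by
    intro r hr0 hr1
    have h1 : 0 ≤ circleAverage (fun z => gap z V) 0 r := by
      apply circleAverage_nonneg_of_nonneg
      intro z hz
      exact gap_nonneg hV (sphere_subset_DD hr0.le hr1 hz)
    rw [hgapint hV r hr0 hr1, ← hM r hr0 hr1] at h1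
    linarith
  set DF : ℝ := circleAverage (fun ζ => exp (2 * V ζ)) 0 1 - M2 F ρ with hDF
  set Dh : ℝ := circleAverage (fun ζ => exp (2 * U ζ)) 0 1 - M2 h ρ with hDh
  have hD : DF ≤ K ^ 2 * Dh := by
    have h1 : DF = circleAverage (fun z => gap z V) 0 ρ := by
      rw [hgapint hV ρ hρ0 hρ1, ← hM ρ hρ0 hρ1]
    have h2 : Dh = circleAverage (fun z => gap z U) 0 ρ := by
      rw [hgapint hU ρ hρ0 hρ1]
      have : M2 h ρ = circleAverage (fun z => exp (2 * Ez z U)) 0 ρ := by
        unfold M2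
        apply circleAverage_congr_sphere
        intro z hz
        exact hh2 z (sphere_subset_DD hρ0.le hρ1 hz)
      rw [hDh, this]
    rw [h1, h2]
    have h3 : K ^ 2 * circleAverage (fun z => gap z U) 0 ρ
        = circleAverage (fun z => K ^ 2 * gap z U) 0 ρ := by
      have := circleAverage_fun_smul (a := K ^ 2) (f := fun z => gap z U) (c := 0) (R := ρ)
      simpa [smul_eq_mul] using this.symm
    rw [h3]
    apply circleAverage_mono (hgapci hV ρ hρ0 hρ1)
    · exact (hgapci hU ρ hρ0 hρ1).const_smul (a := K ^ 2)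
    · intro z hz
      exact gap_comp_le hθ hU (sphere_subset_DD hρ0.le hρ1 hz)
  -- NN s F ≤ DF
  have hNF : NN s F ≤ ENNReal.ofReal DF := by
    unfold NN
    rw [ENNReal.tsum_eq_iSup_sum]
    apply iSup_le
    intro S
    rw [← ENNReal.ofReal_sum_of_nonneg
      (fun k _ => mul_nonneg (by positivity) (one_sub_exp_nonneg hs))]
    apply ENNReal.ofReal_le_ofReal
    have hlim : Tendsto (fun r : ℝ => ∑ k ∈ S, ‖tc F k‖ ^ 2 * (r ^ (2 * k) - ρ ^ (2 * k)))
        (𝓝[<] 1) (𝓝 (∑ k ∈ S, ‖tc F k‖ ^ 2 * (1 ^ (2 * k) - ρ ^ (2 * k)))) := by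
      apply Tendsto.mono_left _ nhdsWithin_le_nhds
      apply tendsto_finsetSum
      intro k _
      apply Tendsto.const_mul
      apply Tendsto.sub_const
      exact (continuous_pow (2 * k)).tendsto 1
    have heq : ∑ k ∈ S, ‖tc F k‖ ^ 2 * (1 - exp (-(k * s)))
        = ∑ k ∈ S, ‖tc F k‖ ^ 2 * (1 ^ (2 * k) - ρ ^ (2 * k)) := by
      apply Finset.sum_congr rfl
      intro k _
      rw [hρk, one_pow]
    rw [heq]
    refine le_of_tendsto hlim ?_
    filter_upwards [Ioo_mem_nhdsLT hρ1] with r hr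
    have hr0 : 0 < r := hρ0.trans hr.1
    have p1 := parseval hF hr0.le hr.2
    have p2 := parseval hF hρ0.le hρ1
    have p3 := p1.sub p2
    have hnn : ∀ k : ℕ, 0 ≤ ‖tc F k‖ ^ 2 * r ^ (2 * k) - ‖tc F k‖ ^ 2 * ρ ^ (2 * k) := by
      intro k
      rw [← mul_sub]
      apply mul_nonneg (by positivity)
      have : ρ ^ (2 * k) ≤ r ^ (2 * k) := pow_le_pow_left₀ hρ0.le hr.1.le _
      linarith
    calc ∑ k ∈ S, ‖tc F k‖ ^ 2 * (r ^ (2 * k) - ρ ^ (2 * k))
        = ∑ k ∈ S, (‖tc F k‖ ^ 2 * r ^ (2 * k) - ‖tc F k‖ ^ 2 * ρ ^ (2 * k)) := by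
          apply Finset.sum_congr rfl
          intro k _; ring
      _ ≤ M2 F r - M2 F ρ := by
          rw [← p3.tsum_eq]
          exact p3.summable.sum_le_tsum S (fun k _ => hnn k)
      _ ≤ DF := by
          rw [hDF]; linarith [hMle r hr0 hr.2]
  have hNh : NN s h = ENNReal.ofReal Dh := by
    unfold NN
    have p2 := parseval hh hρ0.le hρ1
    have p3 := hh3.sub p2
    have heq : ∀ k : ℕ, ‖tc h k‖ ^ 2 * (1 - exp (-(k * s)))
        = ‖tc h k‖ ^ 2 - ‖tc h k‖ ^ 2 * ρ ^ (2 * k) := by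
      intro k; rw [hρk]; ring
    simp_rw [heq]
    rw [← ENNReal.ofReal_tsum_of_nonneg, p3.tsum_eq]
    · intro k
      rw [← heq k]
      exact mul_nonneg (by positivity) (one_sub_exp_nonneg hs)
    · exact p3.summable
  rw [hNh, ← ENNReal.ofReal_mul (by positivity)]
  exact hNF.trans (ENNReal.ofReal_le_ofReal hD)

end Pool.Agent.Cyc65
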