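import Pool.Agent.Lib_helper65.CycTaylor

/-!
Circle means and Parseval's identity.
-/

namespace Pool.Agent.Cyc65

open Metric Set Filter Topology Real

/-- the mean of `|u|²` over the circle of radius `ρ` -/
noncomputable def M2 (u : ℂ → ℂ) (ρ : ℝ) : ℝ := circleAverage (fun z => ‖u z‖ ^ 2) 0 ρ

theorem summable_tc_norm {u : ℂ → ℂ} (hu : DifferentiableOn ℂ u DD) {ρ : ℝ} (h0 : 0 ≤ ρ)
    (h1 : ρ < 1) : Summable (fun k => ‖tc u k‖ * ρ ^ k) := by
  obtain ⟨r, hr1, hr2⟩ := exists_between h1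
  have hr0 : 0 < r := lt_of_le_of_lt h0 hr1
  have hz : (r : ℂ) ∈ DD := by
    rw [mem_DD, Complex.norm_real, Real.norm_of_nonneg hr0.le]; exact hr2
  have hs := (tc_hasSum hu hz).summable
  have hb := hs.tendsto_atTop_zero.norm.bddAbove_range
  obtain ⟨C, hC⟩ := hb
  have hC' : ∀ k, ‖tc u k‖ * r ^ k ≤ C := by
    intro k
    have := hC ⟨k, rfl⟩
    simpa [norm_mul, norm_pow, Complex.norm_real, abs_of_pos hr0] using this
  have hq : ρ / r < 1 := (div_lt_one hr0).2 hr1
  apply Summable.of_nonneg_of_le (fun k => by positivity) (fun k => ?_)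
    ((summable_geometric_of_lt_one (div_nonneg h0 hr0.le) hq).mul_left C)
  calc ‖tc u k‖ * ρ ^ k = (‖tc u k‖ * r ^ k) * (ρ / r) ^ k := by
        rw [div_pow]; field_simp
    _ ≤ C * (ρ / r) ^ k := by
        gcongr
        exact hC' k

theorem M2_eq_unit (u : ℂ → ℂ) (ρ : ℝ) :
    M2 u ρ = circleAverage (fun z => ‖u (ρ * z)‖ ^ 2) 0 1 := by
  unfold M2
  rw [circleAverage_eq_circleAverage_zero_one]
  simp

theorem parseval {u : ℂ → ℂ} (hu : DifferentiableOn ℂ u DD) {ρ : ℝ} (h0 : 0 ≤ ρ)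
    (h1 : ρ < 1) : HasSum (fun k => ‖tc u k‖ ^ 2 * ρ ^ (2 * k)) (M2 u ρ) := by
  have hsum := summable_tc_norm hu h0 h1
  have hnn : ∀ k, 0 ≤ ‖tc u k‖ ^ 2 * ρ ^ (2 * k) := fun k => by positivity
  rw [hasSum_iff_tendsto_nat_of_nonneg hnn]
  let p : ℕ → Polynomial ℂ := fun n => ∑ k ∈ Finset.range n, Polynomial.monomial k (tc u k * (ρ : ℂ) ^ k)
  have hcoeff : ∀ n k, (p n).coeff k = if k < n then tc u k * (ρ : ℂ) ^ k else 0 := by
    intro n k
    simp only [p, Polynomial.finsetSum_coeff, Polynomial.coeff_monomial]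
    simp [Finset.mem_range]
  have hpars : ∀ n, ∑ k ∈ Finset.range n, ‖tc u k‖ ^ 2 * ρ ^ (2 * k)
      = circleAverage (fun z => ‖(p n).eval z‖ ^ 2) 0 1 := by
    intro n
    rw [← Polynomial.sum_sq_norm_coeff_eq_circleAverage]
    have hsub : (p n).support ⊆ Finset.range n := by
      intro k hk
      rw [Polynomial.mem_support_iff, hcoeff] at hk
      by_contra h
      rw [Finset.mem_range] at h
      simp [h] at hk
    rw [Finset.sum_subset hsub]
    · apply Finset.sum_congr rfl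
      intro k hk
      rw [hcoeff, if_pos (Finset.mem_range.1 hk), norm_mul, norm_pow, Complex.norm_real,
        Real.norm_of_nonneg h0]
      ring
    · intro k _ hk
      rw [Polynomial.mem_support_iff, not_not] at hk
      rw [hk]; simp
  simp_rw [hpars]
  rw [M2_eq_unit]
  simp only [circleAverage_def]
  apply Tendsto.const_smul
  have heval : ∀ n z, (p n).eval z = ∑ k ∈ Finset.range n, tc u k * (ρ * z) ^ k := by
    intro n z
    simp only [p, Polynomial.eval_finsetSum, Polynomial.eval_monomial]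
    apply Finset.sum_congr rfl
    intro k _
    rw [mul_pow]; ring
  have hnorm : ∀ θ : ℝ, ‖circleMap 0 1 θ‖ = 1 := by intro θ; simp
  set S := ∑' k, ‖tc u k‖ * ρ ^ k with hS
  refine intervalIntegral.tendsto_integral_filter_of_dominated_convergence (fun _ => S ^ 2)
    ?_ ?_ ?_ ?_
  · filter_upwards with n
    apply Continuous.aestronglyMeasurable
    have : Continuous (fun z => (p n).eval z) := (p n).continuous
    fun_prop
  · filter_upwards with n
    filter_upwards with θ _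
    rw [Real.norm_of_nonneg (by positivity)]
    gcongr
    rw [heval]
    calc ‖∑ k ∈ Finset.range n, tc u k * (ρ * circleMap 0 1 θ) ^ k‖
        ≤ ∑ k ∈ Finset.range n, ‖tc u k * (ρ * circleMap 0 1 θ) ^ k‖ := norm_sum_le _ _
      _ = ∑ k ∈ Finset.range n, ‖tc u k‖ * ρ ^ k := by
          apply Finset.sum_congr rfl
          intro k _
          rw [norm_mul, norm_pow, norm_mul, hnorm, mul_one, Complex.norm_real,
            Real.norm_of_nonneg h0]
      _ ≤ S := hsum.sum_le_tsum _ (fun k _ => by positivity)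
  · exact intervalIntegrable_const
  · filter_upwards with θ _
    have hz : (ρ : ℂ) * circleMap 0 1 θ ∈ DD := by
      rw [mem_DD, norm_mul, hnorm, mul_one, Complex.norm_real, Real.norm_of_nonneg h0]
      exact h1
    have := (tc_hasSum hu hz).tendsto_sum_nat
    simp_rw [heval]
    exact (this.norm).pow 2

theorem M2_nonneg (u : ℂ → ℂ) (ρ : ℝ) : 0 ≤ M2 u ρ := by
  unfold M2
  apply circleAverage_nonneg_of_nonneg
  intro z _
  positivity

theorem continuousOn_norm_sq {u : ℂ → ℂ} (hu : DifferentiableOn ℂ u DD) :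
    ContinuousOn (fun z => ‖u z‖ ^ 2) DD := (hu.continuousOn.norm).pow 2

theorem sphere_subset_DD {ρ : ℝ} (h0 : 0 ≤ ρ) (h1 : ρ < 1) : sphere (0 : ℂ) |ρ| ⊆ DD := by
  intro z hz
  rw [mem_sphere_zero_iff_norm, abs_of_nonneg h0] at hz
  rw [mem_DD, hz]; exact h1

/-- functions continuous on the disk are integrable on circles -/
theorem circleIntegrable_of_continuousOn {E : Type*} [NormedAddCommGroup E]
    {u : ℂ → E} (hu : ContinuousOn u DD) {ρ : ℝ} (h0 : 0 ≤ ρ) (h1 : ρ < 1) :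
    CircleIntegrable u 0 ρ :=
  ContinuousOn.circleIntegrable' (hu.mono (sphere_subset_DD h0 h1))

theorem M2_mono {u v : ℂ → ℂ} {ρ : ℝ} (h0 : 0 ≤ ρ) (h1 : ρ < 1)
    (hu : DifferentiableOn ℂ u DD) (hv : DifferentiableOn ℂ v DD)
    (h : ∀ z ∈ DD, ‖z‖ = ρ → ‖u z‖ ^ 2 ≤ ‖v z‖ ^ 2) : M2 u ρ ≤ M2 v ρ := by
  unfold M2
  apply circleAverage_mono
  · exact circleIntegrable_of_continuousOn (continuousOn_norm_sq hu) h0 h1
  · exact circleIntegrable_of_continuousOn (continuousOn_norm_sq hv) h0 h1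
  · intro z hz
    exact h z (sphere_subset_DD h0 h1 hz) (by
      rw [mem_sphere_zero_iff_norm, abs_of_nonneg h0] at hz
      exact hz)

theorem M2_continuousOn {u : ℂ → ℂ} (hu : DifferentiableOn ℂ u DD) :
    ContinuousOn (M2 u) (Ico 0 1) := by
  unfold M2
  apply ContinuousOn.circleAverage
  · apply (continuousOn_norm_sq hu).mono
    intro z hz
    simp only [sub_zero, mem_ofPred_eq, mem_Ico] at hz
    rw [mem_DD]; exact hz.2
  · intro r hr; exact hr.1

/-- each coefficient is bounded by the mean -/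
theorem tc_sq_le_M2 {u : ℂ → ℂ} (hu : DifferentiableOn ℂ u DD) {ρ : ℝ} (h0 : 0 ≤ ρ)
    (h1 : ρ < 1) (k : ℕ) : ‖tc u k‖ ^ 2 * ρ ^ (2 * k) ≤ M2 u ρ := by
  have h := parseval hu h0 h1
  rw [← h.tsum_eq]
  exact h.summable.le_tsum k (fun j _ => by positivity)

end Pool.Agent.Cyc65
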