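import Pool.Agent.Lib_helper65.CycSpace

/-!
If `f ∈ D_α`, `ψ` is bounded and `ψ f ∈ D_α`, then `ψ f` is in the closure of the
polynomial multiples of `f`.
-/

namespace Pool.Agent.Cyc65

open Metric Set Filter Topology Real MeasureTheory InnerProductSpace
open scoped ENNReal

theorem tc_poly (p : Polynomial ℂ) (k : ℕ) : tc (fun z => p.eval z) k = p.coeff k := by
  apply tc_eq_of_hasSum
  intro z _
  have h : p.eval z = ∑ i ∈ p.support, p.coeff i * z ^ i := by
    rw [Polynomial.eval_eq_sum, Polynomial.sum_def]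
  rw [h]
  apply hasSum_sum_of_ne_finset_zero
  intro b hb
  rw [Polynomial.mem_support_iff, not_not] at hb
  rw [hb, zero_mul]

theorem Mem.poly {α : ℝ} (h0 : 0 ≤ α) (h1 : α ≤ 1) {f : ℂ → ℂ} (hf : InD α f)
    (p : Polynomial ℂ) : Mem α f (fun z => p.eval z * f z) := by
  refine ⟨hf.poly_mul h0 h1 p, fun ε hε => ⟨p, ?_⟩⟩
  have : (fun z => p.eval z * f z - p.eval z * f z) = fun _ => 0 := by
    ext z; simp
  rw [this]
  have h2 : nD α (fun _ => (0 : ℂ)) = 0 := by
    unfold nD
    simp [tc_const]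
  rw [h2]
  exact ENNReal.ofReal_pos.2 hε

theorem deriv_bound {ψ : ℂ → ℂ} (hψ : DifferentiableOn ℂ ψ DD) {A : ℝ}
    (hA : ∀ z ∈ DD, ‖ψ z‖ ≤ A) {u : ℂ} (hu : u ∈ DD) : ‖deriv ψ u‖ ≤ 2 * A / (1 - ‖u‖) := by
  rw [mem_DD] at hu
  have hR : 0 < (1 - ‖u‖) / 2 := by linarith
  have hsub : closedBall u ((1 - ‖u‖) / 2) ⊆ DD := by
    intro z hz
    rw [mem_closedBall, dist_eq_norm] at hz
    rw [mem_DD]
    have : ‖z‖ ≤ ‖z - u‖ + ‖u‖ := by
      have := norm_add_le (z - u) u
      simpa using this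
    linarith
  have h := Complex.norm_deriv_le_of_forall_mem_sphere_norm_le (c := u) (f := ψ) (C := A) hR
    (DifferentiableOn.diffContOnCl (by
      rw [closure_ball u hR.ne']
      exact hψ.mono hsub))
    (fun z hz => hA z (hsub (sphere_subset_closedBall hz)))
  calc ‖deriv ψ u‖ ≤ A / ((1 - ‖u‖) / 2) := h
    _ = 2 * A / (1 - ‖u‖) := by
      have : (1 - ‖u‖) ≠ 0 := by linarith
      field_simp

theorem Mem.dilate_mul {α : ℝ} (h0 : 0 ≤ α) (h1 : α ≤ 1) {f ψ : ℂ → ℂ} (hf : InD α f)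
    (hψ : DifferentiableOn ℂ ψ DD) {A : ℝ} (hA : ∀ z ∈ DD, ‖ψ z‖ ≤ A) {r : ℝ} (hr0 : 0 ≤ r)
    (hr1 : r < 1) : Mem α f (fun z => ψ (r * z) * f z) := by
  have hA0 : 0 ≤ A := (norm_nonneg _).trans (hA 0 (mem_ball_self one_pos))
  have hψr := dilate_diff hψ hr0 hr1.le
  let c : ℕ → ℂ := fun k => tc ψ k * (r : ℂ) ^ k
  have hc : ∀ k, ‖c k‖ ≤ A * r ^ k := by
    intro k
    simp only [c, norm_mul, norm_pow, Complex.norm_real, Real.norm_of_nonneg hr0]
    gcongr
    exact tc_bound hψ hA k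
  let p : ℕ → Polynomial ℂ := fun n => ∑ k ∈ Finset.range n, Polynomial.monomial k (c k)
  have hcoeff : ∀ n k, (p n).coeff k = if k < n then c k else 0 := by
    intro n k
    simp only [p, Polynomial.finsetSum_coeff, Polynomial.coeff_monomial]
    simp [Finset.mem_range]
  have hs1 : Summable (fun k : ℕ => A * r ^ k) :=
    (summable_geometric_of_lt_one hr0 hr1).mul_left A
  have hs2 : Summable (fun k : ℕ => A * ((k : ℝ) * r ^ (k - 1))) := by
    apply Summable.mul_left
    have h2 : Summable (fun k : ℕ => ((k : ℝ) + 1) * r ^ k) := by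
      have e1 := summable_pow_mul_geometric_of_norm_lt_one 1 (r := r)
        (by rw [Real.norm_of_nonneg hr0]; exact hr1)
      have e2 := summable_geometric_of_lt_one hr0 hr1
      refine (e1.add e2).congr ?_
      intro k; ring
    refine (summable_nat_add_iff 1).1 ?_
    refine h2.congr ?_
    intro k
    push_cast
    simp
  set S : ℝ := max (∑' k : ℕ, A * r ^ k) (∑' k : ℕ, A * ((k : ℝ) * r ^ (k - 1))) with hS
  have heval : ∀ n z, (p n).eval z = ∑ k ∈ Finset.range n, c k * z ^ k := by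
    intro n z
    simp only [p, Polynomial.eval_finsetSum, Polynomial.eval_monomial]
  have hb1 : ∀ n, ∀ z ∈ DD, ‖(p n).eval z‖ ≤ S := by
    intro n z hz
    rw [mem_DD] at hz
    rw [heval]
    calc ‖∑ k ∈ Finset.range n, c k * z ^ k‖ ≤ ∑ k ∈ Finset.range n, ‖c k * z ^ k‖ :=
          norm_sum_le _ _
      _ ≤ ∑ k ∈ Finset.range n, A * r ^ k := by
          apply Finset.sum_le_sum
          intro k _
          rw [norm_mul, norm_pow]
          calc ‖c k‖ * ‖z‖ ^ k ≤ (A * r ^ k) * 1 := by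
                gcongr
                · exact hc k
                · exact pow_le_one₀ (norm_nonneg z) hz.le
            _ = _ := mul_one _
      _ ≤ ∑' k : ℕ, A * r ^ k := hs1.sum_le_tsum _ (fun k _ => by positivity)
      _ ≤ S := le_max_left _ _
  have hb2 : ∀ n, ∀ z ∈ DD, ‖deriv (fun z => (p n).eval z) z‖ ≤ S := by
    intro n z hz
    rw [mem_DD] at hz
    rw [Polynomial.deriv]
    have e1 : (p n).derivative.eval z = ∑ k ∈ Finset.range n, c k * k * z ^ (k - 1) := by
      simp only [p, Polynomial.derivative_sum, Polynomial.derivative_monomial,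
        Polynomial.eval_finsetSum, Polynomial.eval_monomial]
    rw [e1]
    calc ‖∑ k ∈ Finset.range n, c k * k * z ^ (k - 1)‖
        ≤ ∑ k ∈ Finset.range n, ‖c k * k * z ^ (k - 1)‖ := norm_sum_le _ _
      _ ≤ ∑ k ∈ Finset.range n, A * ((k : ℝ) * r ^ (k - 1)) := by
          apply Finset.sum_le_sum
          intro k _
          rw [norm_mul, norm_mul, norm_pow, Complex.norm_natCast]
          have hrk : r ^ k ≤ r ^ (k - 1) := pow_le_pow_of_le_one hr0 hr1.le (Nat.sub_le k 1)
          calc ‖c k‖ * k * ‖z‖ ^ (k - 1) ≤ (A * r ^ k) * k * 1 := by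
                gcongr
                · exact hc k
                · exact pow_le_one₀ (norm_nonneg z) hz.le
            _ ≤ (A * r ^ (k - 1)) * k * 1 := by gcongr
            _ = _ := by ring
      _ ≤ ∑' k : ℕ, A * ((k : ℝ) * r ^ (k - 1)) := hs2.sum_le_tsum _ (fun k _ => by positivity)
      _ ≤ S := le_max_right _ _
  apply Mem.of_tendsto h0 h1 hf (X := fun n z => (p n).eval z * f z)
    (fun n => Mem.poly h0 h1 hf (p n)) (C := ENNReal.ofReal (65 * S ^ 2) * nD α f)
  · exact ENNReal.mul_ne_top ENNReal.ofReal_ne_top (inD_iff.1 hf).2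
  · intro n
    exact nD_mul_le h0 h1 (p n).differentiable.differentiableOn hf.1 (hb1 n) (hb2 n)
  · exact hψr.mul hf.1
  · intro k
    apply tendsto_const_nhds.congr'
    filter_upwards [eventually_gt_atTop k] with n hn
    rw [tc_mul hψr hf.1, tc_mul (p n).differentiable.differentiableOn hf.1]
    apply Finset.sum_congr rfl
    intro i hi
    rw [tc_poly, hcoeff, if_pos (by have := Finset.mem_range.1 hi; omega),
      tc_dilate hψ hr0 hr1.le]

theorem one_sub_pow_le {r : ℝ} (hr0 : 0 ≤ r) (hr1 : r ≤ 1) (k : ℕ) :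
    0 ≤ 1 - r ^ k ∧ 1 - r ^ k ≤ k * (1 - r) := by
  constructor
  · have := pow_le_one₀ (n := k) hr0 hr1; linarith
  · have := one_add_mul_le_pow (a := r - 1) (by linarith) k
    have h2 : 1 + (r - 1) = r := by ring
    rw [h2] at this
    linarith

theorem En_dilate_le {α : ℝ} (h1 : α ≤ 1) {u : ℂ → ℂ} (hu : DifferentiableOn ℂ u DD)
    {r : ℝ} (hr0 : 0 ≤ r) (hr1 : r ≤ 1) :
    En α (fun z => ‖u (r * z)‖ ^ 2) ≤ En α (fun z => ‖u z‖ ^ 2) := by
  rw [En_sq_eq h1 hu, En_sq_eq h1 (dilate_diff hu hr0 hr1)]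
  apply ENNReal.tsum_le_tsum
  intro k
  gcongr
  rw [tc_dilate hu hr0 hr1, norm_mul, norm_pow, Complex.norm_real, Real.norm_of_nonneg hr0]
  calc ‖tc u k‖ * r ^ k ≤ ‖tc u k‖ * 1 := by
        gcongr
        exact pow_le_one₀ hr0 hr1
    _ = _ := mul_one _

theorem En_diff_dilate_le {α : ℝ} (h0 : 0 ≤ α) (h1 : α ≤ 1) {f : ℂ → ℂ}
    (hf : DifferentiableOn ℂ f DD) {r : ℝ} (hr0 : 0 ≤ r) (hr1 : r ≤ 1) :
    En α (fun z => ‖f z - f (r * z)‖ ^ 2) ≤ ENNReal.ofReal (2 * (1 - r) ^ 2) * nD α f := by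
  have hd := hf.sub (dilate_diff hf hr0 hr1)
  have hd' : DifferentiableOn ℂ (fun z => f z - f (r * z)) DD := hd
  rw [En_sq_eq h1 hd']
  unfold nD
  rw [← ENNReal.tsum_mul_left]
  apply ENNReal.tsum_le_tsum
  intro k
  have htc : tc (fun z => f z - f (r * z)) k = tc f k * (1 - (r : ℂ) ^ k) := by
    rw [tc_sub hf (dilate_diff hf hr0 hr1), tc_dilate hf hr0 hr1]; ring
  have hn : (0 : ℝ) < (k : ℝ) + 1 := by positivity
  obtain ⟨e1, e2⟩ := one_sub_pow_le hr0 hr1 k
  have hnorm : ‖(1 - (r : ℂ) ^ k)‖ = 1 - r ^ k := by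
    have : (1 - (r : ℂ) ^ k) = ((1 - r ^ k : ℝ) : ℂ) := by push_cast; ring
    rw [this, Complex.norm_real, Real.norm_of_nonneg e1]
  calc ENNReal.ofReal (‖tc (fun z => f z - f (r * z)) k‖ ^ 2) * bt α k
      ≤ ENNReal.ofReal (‖tc (fun z => f z - f (r * z)) k‖ ^ 2)
        * ENNReal.ofReal (2 * ((k : ℝ) + 1) ^ (α - 2)) := by
        gcongr; exact bt_le h0 h1 k
    _ ≤ ENNReal.ofReal (2 * (1 - r) ^ 2) * ENNReal.ofReal (‖tc f k‖ ^ 2 * ((k : ℝ) + 1) ^ α) := by
        rw [← ENNReal.ofReal_mul (by positivity), ← ENNReal.ofReal_mul (by positivity)]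
        apply ENNReal.ofReal_le_ofReal
        rw [htc, norm_mul, hnorm]
        have e3 : (1 - r ^ k) ^ 2 ≤ (((k : ℝ) + 1) * (1 - r)) ^ 2 := by
          gcongr
          calc 1 - r ^ k ≤ k * (1 - r) := e2
            _ ≤ _ := by
              have : 0 ≤ 1 - r := by linarith
              nlinarith
        have e4 : ((k : ℝ) + 1) ^ (α - 2) = ((k : ℝ) + 1) ^ α / ((k : ℝ) + 1) ^ 2 := by
          rw [rpow_sub hn]; norm_num
        rw [e4]
        calc (‖tc f k‖ * (1 - r ^ k)) ^ 2 * (2 * (((k : ℝ) + 1) ^ α / ((k : ℝ) + 1) ^ 2))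
            = 2 * ‖tc f k‖ ^ 2 * (((k : ℝ) + 1) ^ α / ((k : ℝ) + 1) ^ 2) * (1 - r ^ k) ^ 2 := by ring
          _ ≤ 2 * ‖tc f k‖ ^ 2 * (((k : ℝ) + 1) ^ α / ((k : ℝ) + 1) ^ 2)
              * (((k : ℝ) + 1) * (1 - r)) ^ 2 := by gcongr
          _ = _ := by field_simp

/-- **Lemma D.** -/
theorem Mem.mul {α : ℝ} (h0 : 0 ≤ α) (h1 : α ≤ 1) {f ψ : ℂ → ℂ} (hf : InD α f)
    (hψ : DifferentiableOn ℂ ψ DD) {A : ℝ} (hA : ∀ z ∈ DD, ‖ψ z‖ ≤ A)
    (hψf : InD α (fun z => ψ z * f z)) : Mem α f (fun z => ψ z * f z) := by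
  have hA0 : 0 ≤ A := (norm_nonneg _).trans (hA 0 (mem_ball_self one_pos))
  have hfd := deriv_diff hf.1
  have hψd := deriv_diff hψ
  -- the uniform bound
  set E1 : ℝ≥0∞ := En α (fun z => ‖deriv ψ z * f z‖ ^ 2) with hE1
  have hE1top : E1 ≠ ∞ := by
    have hle : E1 ≤ En α (fun z => 2 * ‖deriv (fun z => ψ z * f z) z‖ ^ 2
        + 2 * A ^ 2 * ‖deriv f z‖ ^ 2) := by
      apply En_mono (continuousOn_norm_sq (hψd.mul hf.1))
        (((continuousOn_norm_sq (deriv_diff hψf.1)).const_mul 2 |> fun h => h).add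
          ((continuousOn_norm_sq hfd).const_mul (2 * A ^ 2) |> fun h => h))
      intro z hz
      have hφz := (hψ.differentiableAt (isOpen_ball.mem_nhds hz))
      have hfz := (hf.1.differentiableAt (isOpen_ball.mem_nhds hz))
      have hd : deriv (fun z => ψ z * f z) z = deriv ψ z * f z + ψ z * deriv f z :=
        deriv_fun_mul hφz hfz
      have e1 : deriv ψ z * f z = deriv (fun z => ψ z * f z) z - ψ z * deriv f z := by
        rw [hd]; ring
      show ‖deriv ψ z * f z‖ ^ 2 ≤ 2 * ‖deriv (fun z => ψ z * f z) z‖ ^ 2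
        + 2 * A ^ 2 * ‖deriv f z‖ ^ 2
      rw [e1]
      have e2 : ‖deriv (fun z => ψ z * f z) z - ψ z * deriv f z‖
          ≤ ‖deriv (fun z => ψ z * f z) z‖ + A * ‖deriv f z‖ := by
        calc _ ≤ ‖deriv (fun z => ψ z * f z) z‖ + ‖ψ z * deriv f z‖ := norm_sub_le _ _
          _ ≤ _ := by
            rw [norm_mul]
            gcongr
            exact hA z hz
      have e3 := norm_nonneg (deriv (fun z => ψ z * f z) z - ψ z * deriv f z)
      calc _ ≤ (‖deriv (fun z => ψ z * f z) z‖ + A * ‖deriv f z‖) ^ 2 := by gcongr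
        _ ≤ _ := by nlinarith [sq_nonneg (‖deriv (fun z => ψ z * f z) z‖ - A * ‖deriv f z‖)]
    refine ne_top_of_le_ne_top ?_ hle
    rw [En_add h1 (φ := fun z => 2 * ‖deriv (fun z => ψ z * f z) z‖ ^ 2)
      (ψ := fun z => 2 * A ^ 2 * ‖deriv f z‖ ^ 2)
      ((continuousOn_norm_sq (deriv_diff hψf.1)).const_mul 2 |> fun h => h)
      ((continuousOn_norm_sq hfd).const_mul (2 * A ^ 2) |> fun h => h)
      (fun z _ => by positivity) (fun z _ => by positivity),
      En_const_mul (by norm_num), En_const_mul (by positivity)]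
    refine ENNReal.add_ne_top.2 ⟨ENNReal.mul_ne_top ENNReal.ofReal_ne_top ?_,
      ENNReal.mul_ne_top ENNReal.ofReal_ne_top ?_⟩
    · exact ne_top_of_le_ne_top (ENNReal.mul_ne_top (by norm_num) (inD_iff.1 hψf).2)
        (En_deriv_le h0 h1 hψf.1)
    · exact ne_top_of_le_ne_top (ENNReal.mul_ne_top (by norm_num) (inD_iff.1 hf).2)
        (En_deriv_le h0 h1 hf.1)
  have hunif : ∀ r : ℝ, 0 ≤ r → r < 1 → nD α (fun z => ψ (r * z) * f z) ≤
      ENNReal.ofReal (A ^ 2 * ‖f 0‖ ^ 2) + 8 * (4 * E1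
        + ENNReal.ofReal (32 * A ^ 2) * nD α f + ENNReal.ofReal (2 * A ^ 2) * (2 * nD α f)) := by
    intro r hr0 hr1
    have hψr := dilate_diff hψ hr0 hr1.le
    have hprod : DifferentiableOn ℂ (fun z => ψ (r * z) * f z) DD := hψr.mul hf.1
    refine (nD_le_En h0 h1 hprod).trans ?_
    gcongr
    · rw [norm_mul, mul_pow]
      gcongr
      exact hA _ (dilate_mem hr0 hr1.le (mem_ball_self one_pos))
    · have hu : DifferentiableOn ℂ (fun z => deriv ψ z * f z) DD := hψd.mul hf.1
      have hur : DifferentiableOn ℂ (fun z => deriv ψ (r * z) * f (r * z)) DD :=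
        dilate_diff hu hr0 hr1.le
      have hc1 : ContinuousOn (fun z => ‖deriv ψ (r * z) * f (r * z)‖ ^ 2) DD :=
        continuousOn_norm_sq hur
      have hc2 : ContinuousOn (fun z => ‖f z - f (r * z)‖ ^ 2) DD :=
        continuousOn_norm_sq (hf.1.sub (dilate_diff hf.1 hr0 hr1.le))
      have hc3 : ContinuousOn (fun z => ‖deriv f z‖ ^ 2) DD := continuousOn_norm_sq hfd
      have h1r : 0 < 1 - r := by linarith
      set B : ℝ := (2 * A / (1 - r)) ^ 2 with hB
      have hpt : ∀ z ∈ DD, ‖deriv (fun z => ψ (r * z) * f z) z‖ ^ 2 ≤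
          (4 * ‖deriv ψ (r * z) * f (r * z)‖ ^ 2 + 4 * B * ‖f z - f (r * z)‖ ^ 2)
            + 2 * A ^ 2 * ‖deriv f z‖ ^ 2 := by
        intro z hz
        have hrz := dilate_mem hr0 hr1.le hz
        have hφz := (hψr.differentiableAt (isOpen_ball.mem_nhds hz))
        have hfz := (hf.1.differentiableAt (isOpen_ball.mem_nhds hz))
        have hd : deriv (fun z => ψ (r * z) * f z) z
            = r * deriv ψ (r * z) * f z + ψ (r * z) * deriv f z := by
          have e1 : deriv (fun z => ψ (r * z)) z = r * deriv ψ (r * z) := by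
            have hψz := (hψ.differentiableAt (isOpen_ball.mem_nhds hrz))
            have := (hψz.hasDerivAt.comp z ((hasDerivAt_id z).const_mul (r : ℂ))).deriv
            simp only [Function.comp_def, mul_one] at this
            rw [this]; ring
          rw [← e1]
          exact deriv_fun_mul hφz hfz
        rw [hd]
        have e2 : (r : ℂ) * deriv ψ (r * z) * f z + ψ (r * z) * deriv f z
            = r * (deriv ψ (r * z) * f (r * z)) + r * (deriv ψ (r * z) * (f z - f (r * z)))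
              + ψ (r * z) * deriv f z := by ring
        rw [e2]
        have nr : ‖(r : ℂ)‖ ≤ 1 := by
          rw [Complex.norm_real, Real.norm_of_nonneg hr0]; exact hr1.le
        have nder : ‖deriv ψ (r * z)‖ ≤ 2 * A / (1 - r) := by
          refine (deriv_bound hψ hA hrz).trans ?_
          have : ‖(r : ℂ) * z‖ ≤ r := by
            rw [norm_mul, Complex.norm_real, Real.norm_of_nonneg hr0]
            calc r * ‖z‖ ≤ r * 1 := by
                  gcongr
                  exact (mem_DD.1 hz).le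
              _ = r := mul_one r
          gcongr
        have n1 : ‖(r : ℂ) * (deriv ψ (r * z) * f (r * z))‖ ≤ ‖deriv ψ (r * z) * f (r * z)‖ := by
          rw [norm_mul]
          calc _ ≤ 1 * ‖deriv ψ (r * z) * f (r * z)‖ := by gcongr
            _ = _ := one_mul _
        have n2 : ‖(r : ℂ) * (deriv ψ (r * z) * (f z - f (r * z)))‖
            ≤ 2 * A / (1 - r) * ‖f z - f (r * z)‖ := by
          rw [norm_mul, norm_mul]
          calc _ ≤ 1 * (2 * A / (1 - r) * ‖f z - f (r * z)‖) := by gcongr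
            _ = _ := one_mul _
        have n3 : ‖ψ (r * z) * deriv f z‖ ≤ A * ‖deriv f z‖ := by
          rw [norm_mul]
          gcongr
          exact hA _ hrz
        have hBnn : 0 ≤ 2 * A / (1 - r) := by positivity
        set x1 := ‖deriv ψ (r * z) * f (r * z)‖
        set x2 := ‖f z - f (r * z)‖
        set x3 := ‖deriv f z‖
        have hx1 : 0 ≤ x1 := norm_nonneg _
        have hx2 : 0 ≤ x2 := norm_nonneg _
        have hx3 : 0 ≤ x3 := norm_nonneg _
        have n4 : ‖(r : ℂ) * (deriv ψ (r * z) * f (r * z))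
            + r * (deriv ψ (r * z) * (f z - f (r * z))) + ψ (r * z) * deriv f z‖
            ≤ x1 + 2 * A / (1 - r) * x2 + A * x3 := by
          refine (norm_add₃_le).trans ?_
          gcongr
        calc _ ≤ (x1 + 2 * A / (1 - r) * x2 + A * x3) ^ 2 := by gcongr
          _ ≤ _ := by
            rw [hB]
            nlinarith [sq_nonneg (x1 - 2 * A / (1 - r) * x2),
              sq_nonneg (x1 + 2 * A / (1 - r) * x2 - A * x3)]
      calc En α (fun z => ‖deriv (fun z => ψ (r * z) * f z) z‖ ^ 2)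
          ≤ En α (fun z => (4 * ‖deriv ψ (r * z) * f (r * z)‖ ^ 2
              + 4 * B * ‖f z - f (r * z)‖ ^ 2) + 2 * A ^ 2 * ‖deriv f z‖ ^ 2) :=
            En_mono (continuousOn_norm_sq (deriv_diff hprod))
              (((hc1.const_mul 4 |> fun h => h).add (hc2.const_mul (4 * B) |> fun h => h)).add
                (hc3.const_mul (2 * A ^ 2) |> fun h => h)) hpt
        _ = (ENNReal.ofReal 4 * En α (fun z => ‖deriv ψ (r * z) * f (r * z)‖ ^ 2)
            + ENNReal.ofReal (4 * B) * En α (fun z => ‖f z - f (r * z)‖ ^ 2))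
            + ENNReal.ofReal (2 * A ^ 2) * En α (fun z => ‖deriv f z‖ ^ 2) := by
            rw [En_add h1 (φ := fun z => 4 * ‖deriv ψ (r * z) * f (r * z)‖ ^ 2
              + 4 * B * ‖f z - f (r * z)‖ ^ 2) (ψ := fun z => 2 * A ^ 2 * ‖deriv f z‖ ^ 2)
              ((hc1.const_mul 4 |> fun h => h).add (hc2.const_mul (4 * B) |> fun h => h))
              (hc3.const_mul (2 * A ^ 2) |> fun h => h)
              (fun z _ => by positivity) (fun z _ => by positivity),
              En_add h1 (φ := fun z => 4 * ‖deriv ψ (r * z) * f (r * z)‖ ^ 2)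
              (ψ := fun z => 4 * B * ‖f z - f (r * z)‖ ^ 2)
              (hc1.const_mul 4 |> fun h => h) (hc2.const_mul (4 * B) |> fun h => h)
              (fun z _ => by positivity) (fun z _ => by positivity),
              En_const_mul (by norm_num), En_const_mul (by positivity),
              En_const_mul (by positivity)]
        _ ≤ (4 * E1 + ENNReal.ofReal (32 * A ^ 2) * nD α f)
            + ENNReal.ofReal (2 * A ^ 2) * (2 * nD α f) := by
            gcongr ?_ + ?_ + ?_
            · have : ENNReal.ofReal 4 = 4 := by norm_num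
              rw [this]
              gcongr
              exact En_dilate_le h1 hu hr0 hr1.le
            · calc ENNReal.ofReal (4 * B) * En α (fun z => ‖f z - f (r * z)‖ ^ 2)
                  ≤ ENNReal.ofReal (4 * B) * (ENNReal.ofReal (2 * (1 - r) ^ 2) * nD α f) := by
                    gcongr
                    exact En_diff_dilate_le h0 h1 hf.1 hr0 hr1.le
                _ = ENNReal.ofReal (32 * A ^ 2) * nD α f := by
                    rw [← mul_assoc, ← ENNReal.ofReal_mul (by positivity)]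
                    congr 2
                    rw [hB]
                    field_simp
                    ring
            · gcongr
              exact En_deriv_le h0 h1 hf.1
        _ = _ := by ring
  -- conclusion
  let rr : ℕ → ℝ := fun j => 1 - 1 / ((j : ℝ) + 2)
  have hrr0 : ∀ j, 0 ≤ rr j := by
    intro j
    simp only [rr]
    have : 1 / ((j : ℝ) + 2) ≤ 1 := by
      rw [div_le_one (by positivity)]; linarith [Nat.cast_nonneg (α := ℝ) j]
    linarith
  have hrr1 : ∀ j, rr j < 1 := by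
    intro j
    simp only [rr]
    have : 0 < 1 / ((j : ℝ) + 2) := by positivity
    linarith
  have hrrlim : Tendsto rr atTop (𝓝 1) := by
    have h2 : Tendsto (fun j : ℕ => 1 / ((j : ℝ) + 2)) atTop (𝓝 0) := by
      have := (tendsto_const_div_atTop_nhds_zero_nat (1 : ℝ)).comp (tendsto_add_atTop_nat 2)
      refine this.congr ?_
      intro j; simp
    have := (tendsto_const_nhds (x := (1 : ℝ))).sub h2
    simpa [rr] using this
  apply Mem.of_tendsto h0 h1 hf (X := fun j z => ψ (rr j * z) * f z)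
    (fun j => Mem.dilate_mul h0 h1 hf hψ hA (hrr0 j) (hrr1 j))
    (C := ENNReal.ofReal (A ^ 2 * ‖f 0‖ ^ 2) + 8 * (4 * E1
        + ENNReal.ofReal (32 * A ^ 2) * nD α f + ENNReal.ofReal (2 * A ^ 2) * (2 * nD α f)))
  · have hfin := (inD_iff.1 hf).2
    refine ENNReal.add_ne_top.2 ⟨ENNReal.ofReal_ne_top, ENNReal.mul_ne_top (by norm_num) ?_⟩
    refine ENNReal.add_ne_top.2 ⟨ENNReal.add_ne_top.2 ⟨ENNReal.mul_ne_top (by norm_num) hE1top,
      ENNReal.mul_ne_top ENNReal.ofReal_ne_top hfin⟩,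
      ENNReal.mul_ne_top ENNReal.ofReal_ne_top (ENNReal.mul_ne_top (by norm_num) hfin)⟩
  · intro j
    exact hunif (rr j) (hrr0 j) (hrr1 j)
  · exact hψf.1
  · intro k
    have h2 : ∀ j, tc (fun z => ψ (rr j * z) * f z) k
        = ∑ i ∈ Finset.range (k + 1), (tc ψ i * ((rr j : ℝ) : ℂ) ^ i) * tc f (k - i) := by
      intro j
      rw [tc_mul (dilate_diff hψ (hrr0 j) (hrr1 j).le) hf.1]
      apply Finset.sum_congr rfl
      intro i _
      rw [tc_dilate hψ (hrr0 j) (hrr1 j).le]
    simp_rw [h2]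
    rw [tc_mul hψ hf.1]
    apply tendsto_finsetSum
    intro i _
    apply Tendsto.mul_const
    have h3 : Tendsto (fun j => ((rr j : ℝ) : ℂ) ^ i) atTop (𝓝 1) := by
      have h4 : Tendsto (fun j => ((rr j : ℝ) : ℂ)) atTop (𝓝 ((1 : ℝ) : ℂ)) :=
        (Complex.continuous_ofReal.tendsto 1).comp hrrlim
      have := h4.pow i
      simpa using this
    have := h3.const_mul (tc ψ i)
    simpa using this

end Pool.Agent.Cyc65
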