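import Pool.Agent.Lib_helper65.CycPos

/-!
The negative half: for `0 < t < (1 - α)/2` there is a non-cyclic `f ∈ D_α` with
`(log f)^t ∈ D_α`.
-/

namespace Pool.Agent.Cyc65

open Metric Set Filter Topology Real MeasureTheory InnerProductSpace
open scoped ENNReal

theorem En_ne_top_of_bound {α a C : ℝ} (h0 : 0 ≤ α) (h1 : α ≤ 1) (ha : a < 2 - α) (hC : 0 ≤ C)
    {φ : ℂ → ℝ} (h : ∀ ρ : ℝ, 0 < ρ → ρ < 1 → circleAverage φ 0 ρ ≤ C * (1 - ρ) ^ (-a)) :
    En α φ ≠ ∞ := by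
  have hint : IntegrableOn (fun ρ : ℝ => (4 * C) * (1 - ρ) ^ (1 - α - a)) (Ioo 0 1) := by
    have h2 := intervalIntegral.intervalIntegrable_rpow' (a := 0) (b := 1) (r := 1 - α - a)
      (by linarith)
    have h3 := (h2.comp_sub_left 1).symm
    simp only [sub_zero, sub_self] at h3
    have h4 := (h3.const_mul (4 * C))
    rw [intervalIntegrable_iff_integrableOn_Ioo_of_le zero_le_one] at h4
    exact h4
  have hfin : ∫⁻ ρ in Ioo (0 : ℝ) 1, ENNReal.ofReal ((4 * C) * (1 - ρ) ^ (1 - α - a)) ≠ ∞ := by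
    rw [← ofReal_integral_eq_lintegral_ofReal hint]
    · exact ENNReal.ofReal_ne_top
    · filter_upwards [ae_restrict_mem measurableSet_Ioo] with ρ hρ
      have : 0 ≤ 1 - ρ := by linarith [hρ.2]
      positivity
  refine ne_top_of_le_ne_top hfin ?_
  unfold En
  apply setLIntegral_mono' measurableSet_Ioo
  intro ρ hρ
  apply ENNReal.ofReal_le_ofReal
  have hρ1 : 0 < 1 - ρ := by linarith [hρ.2]
  have hw : wt α ρ ≤ 4 * (1 - ρ) ^ (1 - α) := by
    unfold wt
    have h2 : (1 - ρ ^ 2) ^ (1 - α) ≤ (2 * (1 - ρ)) ^ (1 - α) := by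
      apply rpow_le_rpow
      · nlinarith [hρ.1, hρ.2]
      · nlinarith [hρ.1, hρ.2]
      · linarith
    have h3 : (2 * (1 - ρ)) ^ (1 - α) = 2 ^ (1 - α) * (1 - ρ) ^ (1 - α) :=
      mul_rpow (by norm_num) hρ1.le
    have h4 : (2 : ℝ) ^ (1 - α) ≤ 2 ^ (1 : ℝ) :=
      rpow_le_rpow_of_exponent_le (by norm_num) (by linarith)
    rw [rpow_one] at h4
    have h5 : 0 ≤ (1 - ρ) ^ (1 - α) := by positivity
    calc (1 - ρ ^ 2) ^ (1 - α) * (2 * ρ) ≤ (2 * (1 - ρ) ^ (1 - α)) * (2 * 1) := by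
          gcongr
          · linarith [hρ.1]
          · calc (1 - ρ ^ 2) ^ (1 - α) ≤ 2 ^ (1 - α) * (1 - ρ) ^ (1 - α) := by
                  rw [← h3]; exact h2
              _ ≤ 2 * (1 - ρ) ^ (1 - α) := by gcongr
          · exact hρ.2.le
      _ = _ := by ring
  have hwn := wt_nonneg (α := α) hρ
  have hb := h ρ hρ.1 hρ.2
  have hpos : 0 ≤ C * (1 - ρ) ^ (-a) := by positivity
  calc circleAverage φ 0 ρ * wt α ρ ≤ (C * (1 - ρ) ^ (-a)) * (4 * (1 - ρ) ^ (1 - α)) := by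
        gcongr
    _ = (4 * C) * ((1 - ρ) ^ (-a) * (1 - ρ) ^ (1 - α)) := by ring
    _ = (4 * C) * (1 - ρ) ^ (1 - α - a) := by
        rw [← rpow_add hρ1]; congr 2; ring

/-- `w(z) = 1/(1-z)` -/
noncomputable def ww (z : ℂ) : ℂ := (1 - z)⁻¹

/-- the exponent -/
noncomputable def GG (z : ℂ) : ℂ := 2 * ww z + 2 * Complex.log (ww z) + 2

theorem one_sub_ne {z : ℂ} (hz : z ∈ DD) : 1 - z ≠ 0 := by
  intro h
  rw [sub_eq_zero] at h
  rw [mem_DD, ← h, norm_one] at hz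
  exact lt_irrefl _ hz

theorem ww_re {z : ℂ} (hz : z ∈ DD) : 0 < (ww z).re := by
  unfold ww
  rw [Complex.inv_re]
  apply div_pos
  · rw [mem_DD] at hz
    have := (abs_le.1 (Complex.abs_re_le_norm z)).2
    simp only [Complex.sub_re, Complex.one_re]
    linarith
  · exact Complex.normSq_pos.2 (one_sub_ne hz)

theorem ww_slit {z : ℂ} (hz : z ∈ DD) : ww z ∈ Complex.slitPlane := by
  rw [Complex.mem_slitPlane_iff]; left; exact ww_re hz

theorem ww_ne {z : ℂ} (hz : z ∈ DD) : ww z ≠ 0 := Complex.slitPlane_ne_zero (ww_slit hz)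

theorem ww_norm_ge {z : ℂ} (hz : z ∈ DD) : 1 / 2 ≤ ‖ww z‖ := by
  unfold ww
  rw [norm_inv, one_div]
  have h1 : ‖1 - z‖ ≤ 2 := by
    have := norm_sub_le 1 z
    rw [norm_one] at this
    rw [mem_DD] at hz
    linarith
  have h2 : 0 < ‖1 - z‖ := norm_pos_iff.2 (one_sub_ne hz)
  gcongr

theorem ww_norm_le {z : ℂ} (hz : z ∈ DD) : ‖ww z‖ ≤ (1 - ‖z‖)⁻¹ := by
  unfold ww
  rw [norm_inv]
  have h1 : 1 - ‖z‖ ≤ ‖1 - z‖ := by
    have := norm_sub_norm_le 1 z
    rwa [norm_one] at this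
  rw [mem_DD] at hz
  have : 0 < 1 - ‖z‖ := by linarith
  gcongr

theorem ww_hasDeriv {z : ℂ} (hz : z ∈ DD) : HasDerivAt ww (ww z ^ 2) z := by
  have h1 : HasDerivAt (fun z : ℂ => 1 - z) (-1) z := by
    simpa using (hasDerivAt_id z).const_sub 1
  have h2 := h1.fun_inv (one_sub_ne hz)
  unfold ww
  refine h2.congr_deriv ?_
  rw [neg_neg, inv_pow, one_div]

theorem GG_hasDeriv {z : ℂ} (hz : z ∈ DD) : HasDerivAt GG (2 * ww z ^ 2 + 2 * ww z) z := by
  have h1 := (ww_hasDeriv hz).const_mul 2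
  have h2 := ((ww_hasDeriv hz).clog (ww_slit hz)).const_mul 2
  have h3 := (h1.add h2).add_const 2
  refine h3.congr_deriv ?_
  have := ww_ne hz
  field_simp

theorem GG_diff : DifferentiableOn ℂ GG DD := fun _ hz =>
  (GG_hasDeriv hz).differentiableAt.differentiableWithinAt

theorem GG_re {z : ℂ} (hz : z ∈ DD) : 2 * (ww z).re ≤ (GG z).re := by
  unfold GG
  have h1 := ww_norm_ge hz
  have h2 : -1 ≤ log ‖ww z‖ := by
    have h3 : log (1 / 2) ≤ log ‖ww z‖ := log_le_log (by norm_num) h1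
    have h4 : log (1 / 2) = -log 2 := by rw [one_div, log_inv]
    have h5 : log 2 < 0.6931471808 := Real.log_two_lt_d9
    linarith
  simp only [Complex.add_re, Complex.mul_re, Complex.re_ofNat, Complex.im_ofNat, zero_mul,
    sub_zero, Complex.log_re]
  linarith

theorem GG_im_abs {z : ℂ} : 2 * |(ww z).im| ≤ |(GG z).im| := by
  have h1 : (GG z).im = 2 * (ww z).im + 2 * (ww z).arg := by
    unfold GG
    simp only [Complex.add_im, Complex.mul_im, Complex.re_ofNat, Complex.im_ofNat, zero_mul,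
      add_zero, Complex.log_im]
  rw [h1]
  rcases le_or_gt 0 (ww z).im with h | h
  · have h2 := Complex.arg_nonneg_iff.2 h
    rw [abs_of_nonneg h, abs_of_nonneg (by positivity)]
    linarith
  · have h2 := Complex.arg_neg_iff.2 h
    rw [abs_of_neg h, abs_of_neg (by linarith)]
    linarith

theorem GG_norm_ge {z : ℂ} (hz : z ∈ DD) : ‖ww z‖ ≤ ‖GG z‖ := by
  have h1 := GG_re hz
  have h2 := GG_im_abs (z := z)
  have h3 := ww_re hz
  apply le_of_sq_le_sq _ (norm_nonneg _)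
  rw [← Complex.normSq_eq_norm_sq, ← Complex.normSq_eq_norm_sq, Complex.normSq_apply,
    Complex.normSq_apply]
  have h4 : |(ww z).im| * |(ww z).im| = (ww z).im * (ww z).im := abs_mul_abs_self _
  have h5 : |(GG z).im| * |(GG z).im| = (GG z).im * (GG z).im := abs_mul_abs_self _
  have h6 := abs_nonneg (ww z).im
  nlinarith

end Pool.Agent.Cyc65
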