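import Pool.Agent.Lib_helper65.CycNeg

/-!
The negative half: the example.
-/

namespace Pool.Agent.Cyc65

open Metric Set Filter Topology Real MeasureTheory InnerProductSpace
open scoped ENNReal

/-- the logarithm of the example -/
noncomputable def LLn (z : ℂ) : ℂ := -GG z

/-- the example -/
noncomputable def ffn (z : ℂ) : ℂ := Complex.exp (LLn z)

/-- the branch of the power of the logarithm -/
noncomputable def ggn (t : ℝ) (z : ℂ) : ℂ := Complex.exp (t * (Complex.log (GG z) + π * Complex.I))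

theorem GG_re_pos {z : ℂ} (hz : z ∈ DD) : 0 < (GG z).re := by
  have h1 := GG_re hz
  have h2 := ww_re hz
  linarith

theorem LLn_diff : DifferentiableOn ℂ LLn DD := GG_diff.neg

theorem ffn_diff : DifferentiableOn ℂ ffn DD := LLn_diff.cexp

theorem LLn_deriv {z : ℂ} (hz : z ∈ DD) : deriv LLn z = -(2 * ww z ^ 2 + 2 * ww z) :=
  (GG_hasDeriv hz).neg.deriv

theorem ffn_eq {z : ℂ} (hz : z ∈ DD) :
    ffn z = Complex.exp (-3) * (1 - z) ^ 2 * Complex.exp (1 - 2 * ww z) := by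
  unfold ffn LLn GG
  have h1 : Complex.exp (2 * Complex.log (ww z)) = ww z ^ 2 := by
    rw [show 2 * Complex.log (ww z) = ((2 : ℕ) : ℂ) * Complex.log (ww z) by norm_num,
      Complex.exp_nat_mul, Complex.exp_log (ww_ne hz)]
  have h2 : -(2 * ww z + 2 * Complex.log (ww z) + 2)
      = (-3) + (1 - 2 * ww z) + -(2 * Complex.log (ww z)) := by ring
  rw [h2, Complex.exp_add, Complex.exp_add, Complex.exp_neg (2 * Complex.log (ww z)), h1]
  unfold ww
  rw [inv_pow, inv_inv]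
  ring

theorem LLn_deriv_norm {z : ℂ} (hz : z ∈ DD) : ‖deriv LLn z‖ ≤ 6 * ‖ww z‖ ^ 2 := by
  rw [LLn_deriv hz, norm_neg]
  have h1 := norm_add_le (2 * ww z ^ 2) (2 * ww z)
  rw [norm_mul, norm_mul, norm_pow, Complex.norm_ofNat] at h1
  have h2 := ww_norm_ge hz
  nlinarith

theorem ffn_norm {z : ℂ} (hz : z ∈ DD) : ‖ffn z‖ * ‖ww z‖ ^ 2 ≤ 1 := by
  unfold ffn
  rw [Complex.norm_exp]
  have hw : 0 < ‖ww z‖ := norm_pos_iff.2 (ww_ne hz)
  have h1 : (LLn z).re = -(2 * (ww z).re) - 2 * log ‖ww z‖ - 2 := by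
    unfold LLn GG
    simp only [Complex.neg_re, Complex.add_re, Complex.mul_re, Complex.re_ofNat,
      Complex.im_ofNat, zero_mul, sub_zero, Complex.log_re]
    ring
  have h2 : ‖ww z‖ ^ 2 = exp (2 * log ‖ww z‖) := by
    rw [show 2 * log ‖ww z‖ = ((2 : ℕ) : ℝ) * log ‖ww z‖ by norm_num, exp_nat_mul, exp_log hw]
  rw [h1, h2, ← exp_add]
  apply exp_le_one_iff.2
  have := ww_re hz
  linarith

theorem ffn_deriv_norm {z : ℂ} (hz : z ∈ DD) : ‖deriv ffn z‖ ≤ 6 := by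
  rw [deriv_exp_eq LLn_diff (f := ffn) (fun _ _ => rfl) hz, norm_mul]
  have h1 := LLn_deriv_norm hz
  have h2 := ffn_norm hz
  have h3 := norm_nonneg (ffn z)
  calc ‖ffn z‖ * ‖deriv LLn z‖ ≤ ‖ffn z‖ * (6 * ‖ww z‖ ^ 2) := by gcongr
    _ = 6 * (‖ffn z‖ * ‖ww z‖ ^ 2) := by ring
    _ ≤ 6 * 1 := by gcongr
    _ = 6 := by norm_num

theorem ffn_inD {α : ℝ} (h0 : 0 ≤ α) (h1 : α ≤ 1) : InD α ffn := by
  rw [inD_iff]
  refine ⟨ffn_diff, ?_⟩
  refine ne_top_of_le_ne_top ?_ (nD_le_En h0 h1 ffn_diff)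
  refine ENNReal.add_ne_top.2 ⟨ENNReal.ofReal_ne_top, ENNReal.mul_ne_top (by norm_num) ?_⟩
  apply En_ne_top_of_bound (a := 0) (C := 36) h0 h1 (by linarith) (by norm_num)
  intro ρ hρ0 hρ1
  rw [neg_zero, rpow_zero, mul_one]
  have h2 : circleAverage (fun z => ‖deriv ffn z‖ ^ 2) 0 ρ
      ≤ circleAverage (fun _ => (36 : ℝ)) 0 ρ := by
    apply cA_mono (continuousOn_norm_sq (deriv_diff ffn_diff)) continuousOn_const hρ0.le hρ1
    intro z hz _
    have h3 := ffn_deriv_norm hz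
    have h4 := norm_nonneg (deriv ffn z)
    show ‖deriv ffn z‖ ^ 2 ≤ 36
    nlinarith
  rwa [circleAverage_const] at h2

theorem ggn_branch {t : ℝ} : IsPowBranch t LLn (ggn t) := by
  constructor
  · apply DifferentiableOn.cexp
    apply DifferentiableOn.const_mul
    apply DifferentiableOn.add_const
    apply DifferentiableOn.clog GG_diff
    intro z hz
    rw [Complex.mem_slitPlane_iff]; left; exact GG_re_pos hz
  · intro z hz
    have hG : GG z ≠ 0 := by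
      intro h
      have := GG_re_pos hz
      rw [h] at this
      simp at this
    constructor
    · intro h
      unfold LLn at h
      exact absurd (neg_eq_zero.1 h) hG
    · intro _
      refine ⟨Complex.log (GG z) + π * Complex.I, ?_, rfl⟩
      rw [Complex.exp_add, Complex.exp_log hG, Complex.exp_pi_mul_I]
      unfold LLn
      ring

theorem tc_ww (k : ℕ) : tc ww k = 1 := by
  apply tc_eq_of_hasSum
  intro z hz
  have := hasSum_geometric_of_norm_lt_one (mem_DD.1 hz)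
  simpa [ww] using this

theorem ww_diff : DifferentiableOn ℂ ww DD := fun _ hz =>
  (ww_hasDeriv hz).differentiableAt.differentiableWithinAt

theorem M2_ww {ρ : ℝ} (h0 : 0 ≤ ρ) (h1 : ρ < 1) : M2 ww ρ ≤ (1 - ρ)⁻¹ := by
  have hp := parseval ww_diff h0 h1
  simp only [tc_ww, norm_one, one_pow, one_mul] at hp
  have hg : HasSum (fun k : ℕ => ρ ^ (2 * k)) (1 - ρ ^ 2)⁻¹ := by
    have := hasSum_geometric_of_lt_one (r := ρ ^ 2) (by positivity) (by nlinarith)
    simpa [pow_mul] using this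
  rw [hp.unique hg]
  have : 0 < 1 - ρ := by linarith
  gcongr
  nlinarith

theorem ggn_inD {α t : ℝ} (h0 : 0 ≤ α) (h1 : α ≤ 1) (ht : 0 < t) (htα : t < (1 - α) / 2) :
    InD α (ggn t) := by
  have hgd : DifferentiableOn ℂ (ggn t) DD := ggn_branch.1
  rw [inD_iff]
  refine ⟨hgd, ?_⟩
  refine ne_top_of_le_ne_top ?_ (nD_le_En h0 h1 hgd)
  refine ENNReal.add_ne_top.2 ⟨ENNReal.ofReal_ne_top, ENNReal.mul_ne_top (by norm_num) ?_⟩
  apply En_ne_top_of_bound (a := 1 + 2 * t) (C := 36) h0 h1 (by linarith) (by norm_num)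
  intro ρ hρ0 hρ1
  have h1ρ : 0 < 1 - ρ := by linarith
  have hpt : ∀ z ∈ DD, ‖z‖ = ρ →
      ‖deriv (ggn t) z‖ ^ 2 ≤ (36 * (1 - ρ) ^ (-(2 * t))) * ‖ww z‖ ^ 2 := by
    intro z hz hzρ
    have hw0 : 0 < ‖ww z‖ := norm_pos_iff.2 (ww_ne hz)
    have hLn : ‖LLn z‖ = ‖GG z‖ := by unfold LLn; rw [norm_neg]
    have hGw := GG_norm_ge hz
    have hL0 : 0 < ‖LLn z‖ := by rw [hLn]; linarith
    have h3 : ‖deriv (ggn t) z‖ = t * ‖deriv LLn z‖ * ‖LLn z‖ ^ (t - 1) := by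
      rw [ggn_branch.deriv_eq ht LLn_diff hz (norm_pos_iff.1 hL0), norm_mul, norm_mul, norm_div,
        Complex.norm_real, Real.norm_of_nonneg ht.le, ggn_branch.norm_eq ht hz,
        rpow_sub_one hL0.ne']
      ring
    have h4 : ‖LLn z‖ ^ (t - 1) ≤ ‖ww z‖ ^ (t - 1) := by
      rw [hLn]
      exact rpow_le_rpow_of_nonpos hw0 hGw (by linarith)
    have h5 : ‖deriv (ggn t) z‖ ≤ 6 * ‖ww z‖ * ‖ww z‖ ^ t := by
      rw [h3]
      calc t * ‖deriv LLn z‖ * ‖LLn z‖ ^ (t - 1)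
          ≤ 1 * (6 * ‖ww z‖ ^ 2) * ‖ww z‖ ^ (t - 1) := by
            gcongr
            · linarith
            · exact LLn_deriv_norm hz
        _ = _ := by
            rw [rpow_sub_one hw0.ne']
            field_simp
    have h6 : ‖ww z‖ ^ t ≤ (1 - ρ) ^ (-t) := by
      rw [rpow_neg h1ρ.le, ← inv_rpow h1ρ.le]
      apply rpow_le_rpow hw0.le _ ht.le
      rw [← hzρ]; exact ww_norm_le hz
    calc ‖deriv (ggn t) z‖ ^ 2 ≤ (6 * ‖ww z‖ * (1 - ρ) ^ (-t)) ^ 2 := by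
          gcongr
          exact h5.trans (by gcongr)
      _ = _ := by
          rw [mul_pow, mul_pow, ← rpow_natCast ((1 - ρ) ^ (-t)) 2, ← rpow_mul h1ρ.le]
          have : -t * ((2 : ℕ) : ℝ) = -(2 * t) := by push_cast; ring
          rw [this]
          ring
  calc circleAverage (fun z => ‖deriv (ggn t) z‖ ^ 2) 0 ρ
      ≤ circleAverage (fun z => (36 * (1 - ρ) ^ (-(2 * t))) • ‖ww z‖ ^ 2) 0 ρ := by
        have hcw : ContinuousOn (fun z => (36 * (1 - ρ) ^ (-(2 * t))) • ‖ww z‖ ^ 2) DD :=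
          (continuousOn_norm_sq ww_diff).const_smul (36 * (1 - ρ) ^ (-(2 * t)))
        apply cA_mono (continuousOn_norm_sq (deriv_diff hgd)) hcw hρ0.le hρ1
        intro z hz hzρ
        exact hpt z hz hzρ
    _ = (36 * (1 - ρ) ^ (-(2 * t))) * M2 ww ρ := by
        rw [circleAverage_fun_smul, smul_eq_mul]; rfl
    _ ≤ (36 * (1 - ρ) ^ (-(2 * t))) * (1 - ρ)⁻¹ := by
        gcongr
        exact M2_ww hρ0.le hρ1
    _ = 36 * (1 - ρ) ^ (-(1 + 2 * t)) := by
        rw [mul_assoc, ← rpow_neg_one, ← rpow_add h1ρ]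
        congr 2; ring

/-- The values at the origin of the polynomial multiples of the example are controlled. -/
theorem ffn_control {α : ℝ} (h0 : 0 ≤ α) (p : Polynomial ℂ) :
    ENNReal.ofReal (exp 2 * ‖p.eval 0 * ffn 0‖ ^ 2) ≤ nD α (fun z => p.eval z * ffn z) := by
  have hz0 : (0 : ℂ) ∈ DD := by rw [mem_DD]; simp
  obtain ⟨A, hA, _⟩ := poly_bound p
  have hA0 : 0 ≤ A := (norm_nonneg _).trans (hA 0 hz0)
  set q : ℂ → ℂ := fun z => p.eval z * (Complex.exp (-3) * (1 - z) ^ 2) with hq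
  have hqd : DifferentiableOn ℂ q DD := (poly_diff p).mul (by fun_prop)
  have hhd : DifferentiableOn ℂ (fun z => p.eval z * ffn z) DD := (poly_diff p).mul ffn_diff
  have hexp3 : ‖Complex.exp (-3)‖ = exp (-3) := by rw [Complex.norm_exp]; simp
  -- pointwise lower bound
  have hpt : ∀ z ∈ DD, ‖q z‖ ^ 2 ≤
      ‖p.eval z * ffn z‖ ^ 2 + 8 * A ^ 2 * (1 - ‖z‖ ^ 2) := by
    intro z hz
    have hz1 : 0 < ‖1 - z‖ := norm_pos_iff.2 (one_sub_ne hz)
    have hzn := mem_DD.1 hz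
    have hzn0 := norm_nonneg z
    set P : ℝ := (1 - ‖z‖ ^ 2) / ‖1 - z‖ ^ 2 with hP
    have hSre : (1 - 2 * ww z).re = -P := by
      have e1 : (ww z).re = (1 - z.re) / ‖1 - z‖ ^ 2 := by
        unfold ww
        rw [Complex.inv_re, Complex.normSq_eq_norm_sq]
        simp
      have e2 : ‖1 - z‖ ^ 2 = 1 - 2 * z.re + ‖z‖ ^ 2 := by
        rw [← Complex.normSq_eq_norm_sq, ← Complex.normSq_eq_norm_sq, Complex.normSq_apply,
          Complex.normSq_apply]
        simp only [Complex.sub_re, Complex.one_re, Complex.sub_im, Complex.one_im]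
        ring
      have e3 : (1 - 2 * ww z).re = 1 - 2 * (ww z).re := by
        simp only [Complex.sub_re, Complex.one_re, Complex.mul_re, Complex.re_ofNat,
          Complex.im_ofNat, zero_mul, sub_zero]
      rw [e3, e1, hP]
      have : ‖1 - z‖ ^ 2 ≠ 0 := by positivity
      field_simp
      rw [e2]
      ring
    have hfac : ‖p.eval z * ffn z‖ ^ 2 = ‖q z‖ ^ 2 * exp (-(2 * P)) := by
      rw [ffn_eq hz, hq]
      simp only
      rw [← mul_assoc, norm_mul _ (Complex.exp (1 - 2 * ww z)), mul_pow, Complex.norm_exp, hSre,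
        ← exp_nat_mul]
      congr 2
      push_cast; ring
    have h3 : 1 - 2 * P ≤ exp (-(2 * P)) := by linarith [add_one_le_exp (-(2 * P))]
    have hqn : ‖q z‖ ^ 2 * P ≤ 4 * A ^ 2 * (1 - ‖z‖ ^ 2) := by
      have e4 : ‖q z‖ ^ 2 * P = (‖p.eval z‖ ^ 2 * exp (-3) ^ 2) * ‖1 - z‖ ^ 2 * (1 - ‖z‖ ^ 2) := by
        rw [hq, hP]
        simp only
        rw [norm_mul, norm_mul, norm_pow, hexp3]
        field_simp
      rw [e4]
      have h4 : ‖p.eval z‖ ≤ A := hA z hz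
      have h5 : exp (-3) ≤ 1 := exp_le_one_iff.2 (by norm_num)
      have h6 : ‖1 - z‖ ≤ 2 := by
        have := norm_sub_le 1 z
        rw [norm_one] at this
        linarith
      have h7 : 0 ≤ 1 - ‖z‖ ^ 2 := by nlinarith
      calc (‖p.eval z‖ ^ 2 * exp (-3) ^ 2) * ‖1 - z‖ ^ 2 * (1 - ‖z‖ ^ 2)
          ≤ (A ^ 2 * 1 ^ 2) * 2 ^ 2 * (1 - ‖z‖ ^ 2) := by gcongr
        _ = _ := by ring
    have h8 : 0 ≤ ‖q z‖ ^ 2 := by positivity
    rw [hfac]
    nlinarith
  -- finite radius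
  have hρ : ∀ ρ : ℝ, 0 ≤ ρ → ρ < 1 →
      ENNReal.ofReal (‖q 0‖ ^ 2 - 8 * A ^ 2 * (1 - ρ ^ 2)) ≤ nD α (fun z => p.eval z * ffn z) := by
    intro ρ hρ0 hρ1
    refine le_trans (ENNReal.ofReal_le_ofReal ?_) (M2_le_nD h0 hhd hρ0 hρ1)
    have h9 := tc_sq_le_M2 hqd hρ0 hρ1 0
    rw [mul_zero, pow_zero, mul_one, tc_zero] at h9
    have hc1 : ContinuousOn (fun z => ‖p.eval z * ffn z‖ ^ 2) DD := continuousOn_norm_sq hhd
    have h10 : M2 q ρ ≤ M2 (fun z => p.eval z * ffn z) ρ + 8 * A ^ 2 * (1 - ρ ^ 2) := by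
      calc M2 q ρ = circleAverage (fun z => ‖q z‖ ^ 2) 0 ρ := rfl
        _ ≤ circleAverage (fun z => ‖p.eval z * ffn z‖ ^ 2 + 8 * A ^ 2 * (1 - ρ ^ 2)) 0 ρ := by
            apply cA_mono (continuousOn_norm_sq hqd) (hc1.add continuousOn_const) hρ0 hρ1
            intro z hz hzρ
            have := hpt z hz
            rw [hzρ] at this
            exact this
        _ = circleAverage (fun z => ‖p.eval z * ffn z‖ ^ 2) 0 ρ
            + circleAverage (fun _ => 8 * A ^ 2 * (1 - ρ ^ 2)) 0 ρ :=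
            circleAverage_fun_add (circleIntegrable_of_continuousOn hc1 hρ0 hρ1)
              (circleIntegrable_of_continuousOn continuousOn_const hρ0 hρ1)
        _ = _ := by rw [circleAverage_const]; rfl
    linarith
  have hlim : Tendsto (fun ρ : ℝ => ENNReal.ofReal (‖q 0‖ ^ 2 - 8 * A ^ 2 * (1 - ρ ^ 2))) (𝓝[<] 1)
      (𝓝 (ENNReal.ofReal (‖q 0‖ ^ 2 - 8 * A ^ 2 * (1 - 1 ^ 2)))) := by
    apply ENNReal.tendsto_ofReal
    apply Tendsto.mono_left _ nhdsWithin_le_nhds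
    exact (Continuous.tendsto (by fun_prop) 1)
  have h11 := le_of_tendsto hlim (by
    filter_upwards [Ioo_mem_nhdsLT (show (0:ℝ) < 1 by norm_num)] with r hr
    exact hρ r hr.1.le hr.2)
  have h12 : exp 2 * ‖p.eval 0 * ffn 0‖ ^ 2 = ‖q 0‖ ^ 2 - 8 * A ^ 2 * (1 - 1 ^ 2) := by
    have e5 : ffn 0 = Complex.exp (-3) * Complex.exp (-1) := by
      rw [ffn_eq hz0]
      unfold ww
      norm_num
    have e6 : q 0 = p.eval 0 * Complex.exp (-3) := by
      rw [hq]; simp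
    have e7 : ‖Complex.exp (-1)‖ = exp (-1) := by rw [Complex.norm_exp]; simp
    rw [e5, e6, ← mul_assoc, norm_mul _ (Complex.exp (-1)), e7, mul_pow]
    have e8 : exp 2 * exp (-1) ^ 2 = 1 := by
      rw [← exp_nat_mul, ← exp_add]; norm_num
    calc exp 2 * (‖p.eval 0 * Complex.exp (-3)‖ ^ 2 * exp (-1) ^ 2)
        = (exp 2 * exp (-1) ^ 2) * ‖p.eval 0 * Complex.exp (-3)‖ ^ 2 := by ring
      _ = _ := by rw [e8]; ring
  rw [h12]
  exact h11

theorem nD_one {α : ℝ} : nD α (fun _ => (1 : ℂ)) = 1 := by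
  unfold nD
  rw [tsum_eq_single 0]
  · simp [tc_const]
  · intro k hk
    rw [tc_const, if_neg hk]
    simp

theorem ffn_not_cyclic {α : ℝ} (h0 : 0 ≤ α) : ¬ Cyclic α ffn := by
  intro hc
  obtain ⟨p, hp1, hp2⟩ := hc (fun _ => 1) InD.one (1 / 16) (by norm_num)
  have hhd : DifferentiableOn ℂ (fun z => p.eval z * ffn z) DD := (poly_diff p).mul ffn_diff
  have h1 : nD α (fun z => p.eval z * ffn z - 1) ≤ ENNReal.ofReal (1 / 16) := by
    rw [← normSqD_eq hp1]
    exact ENNReal.ofReal_le_ofReal hp2.le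
  have h2 : ‖p.eval 0 * ffn 0 - 1‖ ^ 2 ≤ 1 / 16 := by
    have h3 := (tc_sq_le_nD h0 (fun z => p.eval z * ffn z - 1) 0).trans h1
    rw [tc_zero] at h3
    exact (ENNReal.ofReal_le_ofReal_iff (by norm_num)).1 h3
  have h3 : nD α (fun z => p.eval z * ffn z) ≤ ENNReal.ofReal (17 / 8) := by
    have h4 := nD_add_le (α := α) (f := fun z => p.eval z * ffn z - 1) (g := fun _ => 1)
      (hhd.sub_const 1) (differentiableOn_const 1)
    have e : (fun z => p.eval z * ffn z - 1 + 1) = fun z => p.eval z * ffn z := by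
      ext z; ring
    rw [e, nD_one] at h4
    refine h4.trans ?_
    calc 2 * nD α (fun z => p.eval z * ffn z - 1) + 2 * 1
        ≤ 2 * ENNReal.ofReal (1 / 16) + 2 * 1 := by gcongr
      _ = ENNReal.ofReal (17 / 8) := by
          rw [show (2 : ℝ≥0∞) = ENNReal.ofReal 2 by simp, ← ENNReal.ofReal_mul (by norm_num),
            mul_one, ← ENNReal.ofReal_add (by positivity) (by positivity)]
          congr 1; norm_num
  have h4 := (ffn_control h0 p).trans h3
  have h5 : exp 2 * ‖p.eval 0 * ffn 0‖ ^ 2 ≤ 17 / 8 :=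
    (ENNReal.ofReal_le_ofReal_iff (by norm_num)).1 h4
  have h6 : 3 / 4 ≤ ‖p.eval 0 * ffn 0‖ := by
    have h7 : ‖(1 : ℂ)‖ ≤ ‖p.eval 0 * ffn 0‖ + ‖p.eval 0 * ffn 0 - 1‖ := by
      have := norm_sub_le (p.eval 0 * ffn 0) (p.eval 0 * ffn 0 - 1)
      rwa [sub_sub_cancel] at this
    have h8 : ‖p.eval 0 * ffn 0 - 1‖ ≤ 1 / 4 := by
      apply le_of_sq_le_sq _ (by norm_num)
      linarith
    rw [norm_one] at h7
    linarith
  have h9 : 4 ≤ exp 2 := by
    have h10 : exp 2 = exp 1 ^ 2 := by rw [← exp_nat_mul]; norm_num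
    rw [h10]
    have := Real.add_one_le_exp 1
    nlinarith
  nlinarith

/-- The negative half of the theorem. -/
theorem negative_half {α t : ℝ} (h0 : 0 ≤ α) (h1 : α ≤ 1) (ht : 0 < t) (htα : t < (1 - α) / 2) :
    ∃ f : ℂ → ℂ, InD α f ∧ LogPowInD α t f ∧ ¬ Cyclic α f :=
  ⟨ffn, ffn_inD h0 h1, ⟨LLn, ggn t, LLn_diff, fun _ _ => rfl, ggn_branch,
    ggn_inD h0 h1 ht htα⟩, ffn_not_cyclic h0⟩

end Pool.Agent.Cyc65
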