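import Pool.Agent.Lib_helper65.CycWeight

/-!
The `ENNReal`-valued squared norm and the area integral of the derivative.
-/

namespace Pool.Agent.Cyc65

open Metric Set Filter Topology Real MeasureTheory
open scoped ENNReal

/-- `ENNReal`-valued squared norm -/
noncomputable def nD (α : ℝ) (f : ℂ → ℂ) : ℝ≥0∞ :=
  ∑' k : ℕ, ENNReal.ofReal (‖tc f k‖ ^ 2 * ((k : ℝ) + 1) ^ α)

theorem inD_iff {α : ℝ} {f : ℂ → ℂ} :
    InD α f ↔ DifferentiableOn ℂ f DD ∧ nD α f ≠ ∞ := by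
  unfold InD nD
  refine and_congr_right (fun _ => ?_)
  constructor
  · intro h
    rw [← ENNReal.ofReal_tsum_of_nonneg (fun k => by positivity) h]
    exact ENNReal.ofReal_ne_top
  · intro h
    exact (ENNReal.summable_toReal h).congr (fun k => by
      rw [ENNReal.toReal_ofReal (by positivity)])

theorem normSqD_eq {α : ℝ} {f : ℂ → ℂ} (h : InD α f) :
    ENNReal.ofReal (normSqD α f) = nD α f := by
  unfold nD normSqD
  rw [ENNReal.ofReal_tsum_of_nonneg (fun k => by positivity) h.2]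

theorem nD_congr {α : ℝ} {f g : ℂ → ℂ} (h : ∀ z ∈ DD, f z = g z) : nD α f = nD α g := by
  unfold nD
  congr 1
  ext k
  rw [tc_congr h k]

theorem En_sq_eq {α : ℝ} (hα : α ≤ 1) {u : ℂ → ℂ} (hu : DifferentiableOn ℂ u DD) :
    En α (fun z => ‖u z‖ ^ 2) = ∑' k : ℕ, ENNReal.ofReal (‖tc u k‖ ^ 2) * bt α k := by
  unfold En bt
  have h1 : ∀ k : ℕ, ENNReal.ofReal (‖tc u k‖ ^ 2) *
      ∫⁻ ρ in Ioo (0 : ℝ) 1, ENNReal.ofReal (ρ ^ (2 * k) * wt α ρ) =
      ∫⁻ ρ in Ioo (0 : ℝ) 1, ENNReal.ofReal (‖tc u k‖ ^ 2 * (ρ ^ (2 * k) * wt α ρ)) := by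
    intro k
    rw [← lintegral_const_mul' _ _ ENNReal.ofReal_ne_top]
    apply setLIntegral_congr_fun measurableSet_Ioo
    intro ρ _
    simp only
    rw [← ENNReal.ofReal_mul (by positivity)]
  simp_rw [h1]
  rw [← lintegral_tsum]
  · apply setLIntegral_congr_fun measurableSet_Ioo
    intro ρ hρ
    simp only
    have hp := parseval hu hρ.1.le hρ.2
    have hw := wt_nonneg (α := α) hρ
    have hp2 := hp.mul_right (wt α ρ)
    have h2 : circleAverage (fun z => ‖u z‖ ^ 2) 0 ρ = M2 u ρ := rfl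
    rw [h2, ← hp2.tsum_eq, ENNReal.ofReal_tsum_of_nonneg]
    · apply tsum_congr
      intro k
      congr 1; ring
    · intro k
      have := hρ.1
      positivity
    · exact hp2.summable
  · intro k
    apply AEMeasurable.ennreal_ofReal
    apply ContinuousOn.aemeasurable _ measurableSet_Ioo
    apply ContinuousOn.mul continuousOn_const
    apply ContinuousOn.mul (by fun_prop)
    exact (wt_continuousOn hα).mono Ioo_subset_Icc_self

theorem En_deriv_le {α : ℝ} (h0 : 0 ≤ α) (hα : α ≤ 1) {f : ℂ → ℂ}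
    (hf : DifferentiableOn ℂ f DD) :
    En α (fun z => ‖deriv f z‖ ^ 2) ≤ 2 * nD α f := by
  rw [En_sq_eq hα (deriv_diff hf)]
  have h1 : ∀ k : ℕ, ENNReal.ofReal (‖tc (deriv f) k‖ ^ 2) * bt α k ≤
      2 * ENNReal.ofReal (‖tc f (k + 1)‖ ^ 2 * (((k + 1 : ℕ) : ℝ) + 1) ^ α) := by
    intro k
    have hn : (0 : ℝ) < (k : ℝ) + 1 := by positivity
    have hn1 : ‖((k : ℂ) + 1)‖ = (k : ℝ) + 1 := by
      have : ((k : ℂ) + 1) = ((k + 1 : ℕ) : ℂ) := by push_cast; ring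
      rw [this, Complex.norm_natCast]; push_cast; ring
    calc ENNReal.ofReal (‖tc (deriv f) k‖ ^ 2) * bt α k
        ≤ ENNReal.ofReal (‖tc (deriv f) k‖ ^ 2) *
            ENNReal.ofReal (2 * ((k : ℝ) + 1) ^ (α - 2)) := by
          gcongr; exact bt_le h0 hα k
      _ = ENNReal.ofReal (2 * (‖tc f (k + 1)‖ ^ 2 * ((k : ℝ) + 1) ^ α)) := by
          rw [← ENNReal.ofReal_mul (by positivity)]
          congr 1
          rw [tc_deriv, norm_mul, hn1]
          have : ((k : ℝ) + 1) ^ (α - 2) = ((k : ℝ) + 1) ^ α / ((k : ℝ) + 1) ^ 2 := by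
            rw [rpow_sub hn]; norm_num
          rw [this]
          field_simp
      _ ≤ ENNReal.ofReal (2 * (‖tc f (k + 1)‖ ^ 2 * (((k + 1 : ℕ) : ℝ) + 1) ^ α)) := by
          apply ENNReal.ofReal_le_ofReal
          gcongr
          linarith
      _ = _ := by
          rw [ENNReal.ofReal_mul (by norm_num)]; norm_num
  calc ∑' k : ℕ, ENNReal.ofReal (‖tc (deriv f) k‖ ^ 2) * bt α k
      ≤ ∑' k : ℕ, 2 * ENNReal.ofReal (‖tc f (k + 1)‖ ^ 2 * (((k + 1 : ℕ) : ℝ) + 1) ^ α) :=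
        ENNReal.tsum_le_tsum h1
    _ = 2 * ∑' k : ℕ, ENNReal.ofReal (‖tc f (k + 1)‖ ^ 2 * (((k + 1 : ℕ) : ℝ) + 1) ^ α) :=
        ENNReal.tsum_mul_left
    _ ≤ 2 * nD α f := by
        gcongr
        unfold nD
        exact ENNReal.tsum_comp_le_tsum_of_injective (f := fun k : ℕ => k + 1)
          (fun a b h => by simpa using h)
          (fun k : ℕ => ENNReal.ofReal (‖tc f k‖ ^ 2 * ((k : ℝ) + 1) ^ α))

theorem nD_le_En {α : ℝ} (h0 : 0 ≤ α) (hα : α ≤ 1) {f : ℂ → ℂ}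
    (hf : DifferentiableOn ℂ f DD) :
    nD α f ≤ ENNReal.ofReal (‖f 0‖ ^ 2) + 8 * En α (fun z => ‖deriv f z‖ ^ 2) := by
  rw [En_sq_eq hα (deriv_diff hf)]
  have h1 : ∀ k : ℕ, ENNReal.ofReal (‖tc f (k + 1)‖ ^ 2 * (((k + 1 : ℕ) : ℝ) + 1) ^ α) ≤
      8 * (ENNReal.ofReal (‖tc (deriv f) k‖ ^ 2) * bt α k) := by
    intro k
    have hn : (0 : ℝ) < (k : ℝ) + 1 := by positivity
    have hn1 : ‖((k : ℂ) + 1)‖ = (k : ℝ) + 1 := by
      have : ((k : ℂ) + 1) = ((k + 1 : ℕ) : ℂ) := by push_cast; ring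
      rw [this, Complex.norm_natCast]; push_cast; ring
    have h2 : (((k + 1 : ℕ) : ℝ) + 1) ^ α ≤ 2 * ((k : ℝ) + 1) ^ α := by
      calc (((k + 1 : ℕ) : ℝ) + 1) ^ α ≤ (2 * ((k : ℝ) + 1)) ^ α := by
            apply rpow_le_rpow (by positivity) _ h0
            push_cast; linarith
        _ = 2 ^ α * ((k : ℝ) + 1) ^ α := by rw [mul_rpow (by norm_num) hn.le]
        _ ≤ 2 ^ (1 : ℝ) * ((k : ℝ) + 1) ^ α := by
            gcongr; norm_num
        _ = _ := by rw [rpow_one]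
    calc ENNReal.ofReal (‖tc f (k + 1)‖ ^ 2 * (((k + 1 : ℕ) : ℝ) + 1) ^ α)
        ≤ ENNReal.ofReal (‖tc f (k + 1)‖ ^ 2 * (2 * ((k : ℝ) + 1) ^ α)) := by
          apply ENNReal.ofReal_le_ofReal; gcongr
      _ = ENNReal.ofReal (8 * (‖tc (deriv f) k‖ ^ 2 * (((k : ℝ) + 1) ^ (α - 2) / 4))) := by
          congr 1
          rw [tc_deriv, norm_mul, hn1]
          have : ((k : ℝ) + 1) ^ (α - 2) = ((k : ℝ) + 1) ^ α / ((k : ℝ) + 1) ^ 2 := by
            rw [rpow_sub hn]; norm_num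
          rw [this]
          field_simp
          ring
      _ = 8 * (ENNReal.ofReal (‖tc (deriv f) k‖ ^ 2) *
            ENNReal.ofReal (((k : ℝ) + 1) ^ (α - 2) / 4)) := by
          rw [ENNReal.ofReal_mul (by norm_num), ENNReal.ofReal_mul (by positivity)]; norm_num
      _ ≤ _ := by
          gcongr; exact le_bt h0 hα k
  unfold nD
  rw [tsum_eq_zero_add' ENNReal.summable]
  gcongr
  · simp [tc_zero]
  · rw [← ENNReal.tsum_mul_left]
    exact ENNReal.tsum_le_tsum h1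

theorem M2_le_nD {α : ℝ} (h0 : 0 ≤ α) {f : ℂ → ℂ} (hf : DifferentiableOn ℂ f DD)
    {ρ : ℝ} (hρ0 : 0 ≤ ρ) (hρ1 : ρ < 1) : ENNReal.ofReal (M2 f ρ) ≤ nD α f := by
  have hp := parseval hf hρ0 hρ1
  rw [← hp.tsum_eq, ENNReal.ofReal_tsum_of_nonneg (fun k => by positivity) hp.summable]
  unfold nD
  apply ENNReal.tsum_le_tsum
  intro k
  apply ENNReal.ofReal_le_ofReal
  gcongr
  calc ρ ^ (2 * k) ≤ 1 := pow_le_one₀ hρ0 hρ1.le
    _ ≤ ((k : ℝ) + 1) ^ α := one_le_rpow (by linarith [Nat.cast_nonneg (α := ℝ) k]) h0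

/-- Fatou: lower semicontinuity of the norm under coefficientwise convergence. -/
theorem nD_le_of_tendsto {α : ℝ} {F : ℕ → ℂ → ℂ} {f : ℂ → ℂ} {C : ℝ≥0∞}
    (h : ∀ k, Tendsto (fun j => tc (F j) k) atTop (𝓝 (tc f k))) (hC : ∀ j, nD α (F j) ≤ C) :
    nD α f ≤ C := by
  unfold nD at *
  rw [ENNReal.tsum_eq_iSup_sum]
  apply iSup_le
  intro s
  have hlim : Tendsto (fun j => ∑ k ∈ s, ENNReal.ofReal (‖tc (F j) k‖ ^ 2 * ((k : ℝ) + 1) ^ α))
      atTop (𝓝 (∑ k ∈ s, ENNReal.ofReal (‖tc f k‖ ^ 2 * ((k : ℝ) + 1) ^ α))) := by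
    apply tendsto_finsetSum
    intro k _
    apply ENNReal.tendsto_ofReal
    exact ((h k).norm.pow 2).mul_const _
  refine le_of_tendsto hlim ?_
  filter_upwards with j
  exact (ENNReal.sum_le_tsum s).trans (hC j)

end Pool.Agent.Cyc65
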