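import Pool.Agent.Lib_helper65.CycTransfer

/-!
Poisson expectations, Herglotz integrals and the averaging property.
-/

namespace Pool.Agent.Cyc65

open Metric Set Filter Topology Real MeasureTheory InnerProductSpace
open scoped ENNReal

/-- the unit circle -/
abbrev TT : Set ℂ := sphere (0 : ℂ) 1

/-- Poisson integral -/
noncomputable def Ez (z : ℂ) (φ : ℂ → ℝ) : ℝ :=
  circleAverage (fun ζ => poissonKernel 0 z ζ * φ ζ) 0 1

/-- Herglotz integral -/
noncomputable def Hz (φ : ℂ → ℝ) (z : ℂ) : ℂ :=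
  circleAverage (fun ζ => herglotzRieszKernel 0 z ζ • (φ ζ : ℂ)) 0 1

theorem ci_of_cont {E : Type*} [NormedAddCommGroup E] {φ : ℂ → E} (h : ContinuousOn φ TT) :
    CircleIntegrable φ 0 1 :=
  ContinuousOn.circleIntegrable' (by simpa using h)

theorem Hz_diff {φ : ℂ → ℝ} (h : ContinuousOn φ TT) : DifferentiableOn ℂ (Hz φ) DD := by
  have h1 : CircleIntegrable (fun ζ => (φ ζ : ℂ)) 0 1 :=
    ci_of_cont (Complex.continuous_ofReal.comp_continuousOn h)
  exact differentiableOn_circleAverage_herglotzRieszKernel_smul h1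

theorem Hz_re {φ : ℂ → ℝ} (h : ContinuousOn φ TT) {z : ℂ} (hz : z ∈ DD) :
    (Hz φ z).re = Ez z φ := by
  have := re_circleAverage_herglotzRieszKernel_smul (R := 1) (w := z) (ci_of_cont h) hz
  unfold Hz Ez
  rw [this, ← poissonKernel_eq_re_herglotzRieszKernel]
  rfl

theorem Ez_cont {φ : ℂ → ℝ} (h : ContinuousOn φ TT) : ContinuousOn (fun z => Ez z φ) DD := by
  have h1 : ContinuousOn (fun z => (Hz φ z).re) DD :=
    Complex.continuous_re.comp_continuousOn (Hz_diff h).continuousOn
  exact h1.congr (fun z hz => (Hz_re h hz).symm)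

theorem Hz_zero {φ : ℂ → ℝ} (h : ContinuousOn φ TT) : Hz φ 0 = (circleAverage φ 0 1 : ℝ) := by
  unfold Hz
  have h1 : circleAverage (fun ζ => herglotzRieszKernel 0 0 ζ • (φ ζ : ℂ)) 0 1
      = circleAverage (fun ζ => (φ ζ : ℂ)) 0 1 := by
    apply circleAverage_congr_sphere
    intro ζ hζ
    simp only [abs_one] at hζ
    have : ζ ≠ 0 := by
      intro h0
      rw [h0] at hζ
      simp at hζ
    simp [herglotzRieszKernel_def, div_self this]
  rw [h1]
  have h2 := Complex.ofRealCLM.circleAverage_comp_comm (c := 0) (R := 1) (ci_of_cont h)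
  simpa [Function.comp_def] using h2

theorem pk_cont {z : ℂ} (hz : z ∈ DD) : ContinuousOn (fun ζ => poissonKernel 0 z ζ) TT := by
  have h1 : ContinuousOn (herglotzRieszKernel 0 z) (sphere 0 |1|) :=
    continuousOn_herglotzRieszKernel_sphere hz
  rw [abs_one] at h1
  have h2 := Complex.continuous_re.comp_continuousOn h1
  rwa [← poissonKernel_eq_re_herglotzRieszKernel] at h2

theorem pk_nonneg {z ζ : ℂ} (hz : z ∈ DD) (hζ : ζ ∈ TT) : 0 ≤ poissonKernel 0 z ζ := by
  rw [poissonKernel_def]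
  rw [mem_DD] at hz
  rw [mem_sphere_zero_iff_norm] at hζ
  simp only [sub_zero]
  rw [hζ]
  apply div_nonneg _ (by positivity)
  have := norm_nonneg z
  nlinarith

theorem Ez_int {φ : ℂ → ℝ} (h : ContinuousOn φ TT) {z : ℂ} (hz : z ∈ DD) :
    CircleIntegrable (fun ζ => poissonKernel 0 z ζ * φ ζ) 0 1 :=
  ci_of_cont ((pk_cont hz).mul h)

theorem Ez_mono {φ ψ : ℂ → ℝ} (h : ContinuousOn φ TT) (h' : ContinuousOn ψ TT) {z : ℂ}
    (hz : z ∈ DD) (hle : ∀ ζ ∈ TT, φ ζ ≤ ψ ζ) : Ez z φ ≤ Ez z ψ := by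
  apply circleAverage_mono (Ez_int h hz) (Ez_int h' hz)
  intro ζ hζ
  rw [abs_one] at hζ
  exact mul_le_mul_of_nonneg_left (hle ζ hζ) (pk_nonneg hz hζ)

theorem Ez_add {φ ψ : ℂ → ℝ} (h : ContinuousOn φ TT) (h' : ContinuousOn ψ TT) {z : ℂ}
    (hz : z ∈ DD) : Ez z (fun ζ => φ ζ + ψ ζ) = Ez z φ + Ez z ψ := by
  unfold Ez
  rw [← circleAverage_fun_add (Ez_int h hz) (Ez_int h' hz)]
  congr 1
  ext ζ; ring

theorem Ez_smul {φ : ℂ → ℝ} (c : ℝ) {z : ℂ} : Ez z (fun ζ => c * φ ζ) = c * Ez z φ := by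
  unfold Ez
  have := circleAverage_fun_smul (a := c) (f := fun ζ => poissonKernel 0 z ζ * φ ζ)
    (c := 0) (R := 1)
  rw [smul_eq_mul] at this
  rw [← this]
  congr 1
  ext ζ; simp only [smul_eq_mul]; ring

theorem Ez_re {B : ℂ → ℂ} (hB : DiffContOnCl ℂ B (ball 0 1)) {z : ℂ} (hz : z ∈ DD) :
    Ez z (fun ζ => (B ζ).re) = (B z).re := by
  have h := hB.circleAverage_poissonKernel_smul hz
  have hc : ContinuousOn B TT := by
    have := hB.continuousOn
    rw [closure_ball 0 one_ne_zero] at this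
    exact this.mono sphere_subset_closedBall
  have hci : CircleIntegrable (fun ζ => (poissonKernel 0 z ζ : ℂ) * B ζ) 0 1 :=
    ci_of_cont ((Complex.continuous_ofReal.comp_continuousOn (pk_cont hz)).mul hc)
  have h2 := Complex.reCLM.circleAverage_comp_comm (c := 0) (R := 1) hci
  have h3 : (fun ζ => (poissonKernel 0 z ζ : ℂ) * B ζ) = poissonKernel 0 z • B := by
    ext ζ; simp
  rw [h3, h] at h2
  rw [← Complex.reCLM_apply (B z), ← h2]
  unfold Ez
  congr 1
  ext ζ
  simp

theorem Ez_const {z : ℂ} (hz : z ∈ DD) (c : ℝ) : Ez z (fun _ => c) = c := by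
  have h := Ez_re (B := fun _ => (c : ℂ)) (diffContOnCl_const) hz
  simpa using h

/-- averaging property -/
theorem average_Ez {φ : ℂ → ℝ} (h : ContinuousOn φ TT) {ρ : ℝ} (h0 : 0 < ρ) (h1 : ρ < 1) :
    circleAverage (fun z => Ez z φ) 0 ρ = circleAverage φ 0 1 := by
  have hin : ∀ ζ ∈ TT, circleAverage (fun z => poissonKernel 0 z ζ) 0 ρ = 1 := by
    intro ζ hζ
    rw [mem_sphere_zero_iff_norm] at hζ
    have hd : DiffContOnCl ℂ (fun z => herglotzRieszKernel 0 z ζ) (ball 0 |ρ|) := by
      rw [abs_of_pos h0]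
      apply DifferentiableOn.diffContOnCl
      intro z hz
      have hz' : ‖z‖ ≤ ρ := by
        have := closure_ball_subset_closedBall hz
        rwa [mem_closedBall_zero_iff] at this
      have hne : ζ - z ≠ 0 := by
        intro h'
        rw [sub_eq_zero] at h'
        rw [← h', hζ] at hz'
        linarith
      simp only [herglotzRieszKernel_def, sub_zero]
      apply DifferentiableAt.differentiableWithinAt
      exact DifferentiableAt.div (by fun_prop) (by fun_prop) hne
    have h2 := hd.circleAverage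
    have h3 : herglotzRieszKernel 0 0 ζ = 1 := by
      have : ζ ≠ 0 := by
        intro h'; rw [h'] at hζ; simp at hζ
      simp [herglotzRieszKernel_def, div_self this]
    rw [h3] at h2
    have hci : CircleIntegrable (fun z => herglotzRieszKernel 0 z ζ) 0 ρ := by
      apply ContinuousOn.circleIntegrable'
      have := hd.continuousOn
      rw [closure_ball 0 (abs_pos.2 h0.ne').ne'] at this
      exact this.mono sphere_subset_closedBall
    have h4 := Complex.reCLM.circleAverage_comp_comm (c := 0) (R := ρ) hci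
    rw [h2] at h4
    simpa [Function.comp_def, poissonKernel_eq_re_herglotzRieszKernel] using h4
  let F : ℝ → ℝ → ℝ := fun t θ =>
    poissonKernel 0 (circleMap 0 ρ t) (circleMap 0 1 θ) * φ (circleMap 0 1 θ)
  have hF : Continuous F.uncurry := by
    have hφ : Continuous (fun x : ℝ × ℝ => φ (circleMap 0 1 x.2)) := by
      apply h.comp_continuous (by fun_prop)
      intro x; simp
    have hK : Continuous (fun x : ℝ × ℝ =>
        poissonKernel 0 (circleMap 0 ρ x.1) (circleMap 0 1 x.2)) := by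
      simp only [poissonKernel_def, sub_zero]
      apply Continuous.div (by fun_prop) (by fun_prop)
      intro x hx
      have h2 : circleMap 0 1 x.2 - circleMap 0 ρ x.1 = 0 := by
        rw [← norm_eq_zero]
        exact pow_eq_zero_iff (two_ne_zero) |>.1 hx
      have h3 : ‖circleMap 0 1 x.2‖ = ‖circleMap 0 ρ x.1‖ := by
        rw [sub_eq_zero.1 h2]
      simp [abs_of_pos h0] at h3
      linarith
    exact hK.mul hφ
  have hFint : IntegrableOn F.uncurry (uIoc 0 (2 * π) ×ˢ uIoc 0 (2 * π)) := by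
    apply (hF.continuousOn.integrableOn_compact (K := Icc 0 (2 * π) ×ˢ Icc 0 (2 * π))
      (isCompact_Icc.prod isCompact_Icc)).mono_set
    rw [uIoc_of_le two_pi_pos.le]
    exact prod_mono Ioc_subset_Icc_self Ioc_subset_Icc_self
  calc circleAverage (fun z => Ez z φ) 0 ρ
      = (2 * π)⁻¹ * ((2 * π)⁻¹ * ∫ t in 0..2 * π, ∫ θ in 0..2 * π, F t θ) := by
        simp only [circleAverage, Ez, F, smul_eq_mul, intervalIntegral.integral_const_mul]
    _ = (2 * π)⁻¹ * ((2 * π)⁻¹ * ∫ θ in 0..2 * π, ∫ t in 0..2 * π, F t θ) := by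
        rw [intervalIntegral_intervalIntegral_swap hFint]
    _ = (2 * π)⁻¹ * ∫ θ in 0..2 * π, ((2 * π)⁻¹ * ∫ t in 0..2 * π, F t θ) := by
        rw [intervalIntegral.integral_const_mul]
    _ = (2 * π)⁻¹ * ∫ θ in 0..2 * π, φ (circleMap 0 1 θ) := by
        congr 1
        apply intervalIntegral.integral_congr
        intro θ _
        simp only [F]
        have h5 := hin (circleMap 0 1 θ) (by simp)
        simp only [circleAverage, smul_eq_mul] at h5
        rw [intervalIntegral.integral_mul_const, ← mul_assoc, h5, one_mul]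
    _ = circleAverage φ 0 1 := by
        simp [circleAverage]

end Pool.Agent.Cyc65
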