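import Pool.Agent.Lib_helper65.CycPow

/-!
The positive half: if `(1 - α)/2 ≤ t`, `f ∈ D_α` and `(log f)^t ∈ D_α`, then `f` is cyclic.
-/

namespace Pool.Agent.Cyc65

open Metric Set Filter Topology Real MeasureTheory InnerProductSpace
open scoped ENNReal

theorem Mem.of_nD {α : ℝ} {f x : ℂ → ℂ} (hf : DifferentiableOn ℂ f DD) (hx : InD α x)
    (h : ∀ ε : ℝ, 0 < ε → ∃ X : ℂ → ℂ, Mem α f X ∧ nD α (fun z => X z - x z) ≤ ENNReal.ofReal ε) :
    Mem α f x := by
  refine ⟨hx, fun ε hε => ?_⟩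
  obtain ⟨X, hX, hXx⟩ := h (ε / 8) (by positivity)
  obtain ⟨p, hp⟩ := hX.2 (ε / 8) (by positivity)
  refine ⟨p, ?_⟩
  have h1 : DifferentiableOn ℂ (fun z => p.eval z * f z - X z) DD :=
    ((poly_diff p).mul hf).sub hX.1.1
  have h2 : DifferentiableOn ℂ (fun z => X z - x z) DD := hX.1.1.sub hx.1
  have h3 := nD_add_le (α := α) h1 h2
  have e : (fun z => p.eval z * f z - X z + (X z - x z)) = fun z => p.eval z * f z - x z := by
    ext z; ring
  rw [e] at h3
  refine lt_of_le_of_lt h3 ?_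
  calc 2 * nD α (fun z => p.eval z * f z - X z) + 2 * nD α (fun z => X z - x z)
      ≤ 2 * ENNReal.ofReal (ε / 8) + 2 * ENNReal.ofReal (ε / 8) := by
        gcongr
    _ = ENNReal.ofReal (ε / 2) := by
        rw [show (2 : ℝ≥0∞) = ENNReal.ofReal 2 by simp, ← ENNReal.ofReal_mul (by norm_num),
          ← ENNReal.ofReal_add (by positivity) (by positivity)]
        congr 1; ring
    _ < ENNReal.ofReal ε := by
        rw [ENNReal.ofReal_lt_ofReal_iff hε]; linarith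

theorem InD.one {α : ℝ} : InD α (fun _ => (1 : ℂ)) := by
  refine ⟨differentiableOn_const 1, ?_⟩
  apply summable_of_ne_finset_zero (s := {0})
  intro k hk
  rw [Finset.mem_singleton] at hk
  rw [tc_const, if_neg hk]
  simp

theorem cyclic_of_mem_one {α : ℝ} (h0 : 0 ≤ α) (h1 : α ≤ 1) {f : ℂ → ℂ} (hf : InD α f)
    (h : Mem α f (fun _ => 1)) : Cyclic α f := by
  intro g hg ε hε
  have hg1 : Mem α (fun _ => (1 : ℂ)) g := by
    refine ⟨hg, fun ε hε => ?_⟩
    obtain ⟨p, hp⟩ := exists_tail hg (ε := ε / 2) (by positivity)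
    refine ⟨p, ?_⟩
    have hd : DifferentiableOn ℂ (fun z => g z - p.eval z) DD := hg.1.sub (poly_diff p)
    have e : nD α (fun z => p.eval z * 1 - g z) = nD α (fun z => g z - p.eval z) := by
      unfold nD
      congr 1
      ext k
      have e1 : (fun z => p.eval z * 1 - g z) = fun z => (-1 : ℂ) * (g z - p.eval z) := by
        ext z; ring
      rw [e1, tc_const_mul hd]
      simp
    rw [e]
    refine lt_of_le_of_lt hp ?_
    rw [ENNReal.ofReal_lt_ofReal_iff hε]; linarith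
  have h2 : Mem α f g := Mem.trans h0 h1 hf h hg1
  obtain ⟨p, hp⟩ := h2.2 ε hε
  have hin : InD α (fun z => p.eval z * f z - g z) := (hf.poly_mul h0 h1 p).sub hg
  refine ⟨p, hin, ?_⟩
  rw [← normSqD_eq hin] at hp
  exact (ENNReal.ofReal_lt_ofReal_iff hε).1 hp

variable {α s τ ε : ℝ} {L Q : ℂ → ℂ}

theorem energy_expB (h1 : α ≤ 1) (hs0 : 0 < s) (hs1 : s < 1) (hτ1 : τ ≤ 1)
    (hsτ : 2 - 2 * τ ≤ 2 * s) (hL : DifferentiableOn ℂ L DD) (hQ : DifferentiableOn ℂ Q DD)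
    (hQre : ∀ z ∈ DD, 0 ≤ (Q z).re) (hLQ : ∀ z ∈ DD, (L z).re ≤ (Q z).re) (hε : 0 < ε) :
    En α (fun z => ‖deriv (fun z => Complex.exp (-(ε * BB s (fun z => Q z - L z) Q z))) z‖ ^ 2) ≤
      ENNReal.ofReal (16 * (2 * (cos (π * s / 2) * 2 ^ (-s))) ^ (-((2 - 2 * τ) / s)) *
        ε ^ (2 - (2 - 2 * τ) / s)) *
        En α (fun z => (1 + ‖L z‖) ^ (2 * τ - 2) * ‖deriv L z‖ ^ 2)
      + ENNReal.ofReal (18 * ε ^ 2) * En α (fun z => ‖deriv Q z‖ ^ 2) := by
  have hcos : 0 < cos (π * s / 2) := by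
    apply cos_pos_of_mem_Ioo
    constructor
    · nlinarith [pi_pos]
    · nlinarith [pi_pos]
  set c : ℝ := cos (π * s / 2) * 2 ^ (-s) with hc
  have hc0 : 0 < c := by positivity
  set m : ℝ := (2 - 2 * τ) / s with hm
  set A : ℝ := 16 * (2 * c) ^ (-m) * ε ^ (2 - m) with hA
  have hA0 : 0 ≤ A := by positivity
  set B : ℂ → ℂ := BB s (fun z => Q z - L z) Q with hB
  have hG : DifferentiableOn ℂ (fun z => Q z - L z) DD := hQ.sub hL
  have hGre : ∀ z ∈ DD, 0 ≤ (Q z - L z).re := by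
    intro z hz
    simp only [Complex.sub_re]; linarith [hLQ z hz]
  have hBd : DifferentiableOn ℂ B DD := BB_diff hG hGre hQ hQre
  set W : ℂ → ℂ := fun z => -(ε * B z) with hW
  have hWd : DifferentiableOn ℂ W DD := (hBd.const_mul (ε : ℂ)).neg
  have hWe : DifferentiableOn ℂ (fun z => Complex.exp (W z)) DD := hWd.cexp
  have hpt : ∀ z ∈ DD, ‖deriv (fun z => Complex.exp (W z)) z‖ ^ 2 ≤
      A * ((1 + ‖L z‖) ^ (2 * τ - 2) * ‖deriv L z‖ ^ 2) + 18 * ε ^ 2 * ‖deriv Q z‖ ^ 2 := by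
    intro z hz
    have hx : 1 ≤ 1 + ‖L z‖ := by linarith [norm_nonneg (L z)]
    rw [deriv_exp_eq hWd (f := fun z => Complex.exp (W z)) (fun _ _ => rfl) hz, norm_mul,
      Complex.norm_exp]
    have hWre : (W z).re = -(ε * (B z).re) := by
      rw [hW]; simp only [Complex.neg_re, Complex.re_ofReal_mul]
    have hWder : ‖deriv W z‖ = ε * ‖deriv B z‖ := by
      have : HasDerivAt W (-(ε * deriv B z)) z :=
        (((hBd.differentiableAt (DD_nhds hz)).hasDerivAt).const_mul (ε : ℂ)).neg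
      rw [this.deriv, norm_neg, norm_mul, Complex.norm_real, Real.norm_of_nonneg hε.le]
    have hBge := (BB_re_ge hs0 hs1 hQre hLQ hz).1
    have hBder := BB_deriv_le hs0 hs1 hL hQ hQre hLQ hz
    rw [← hB, ← hc] at hBge
    rw [← hB] at hBder
    set E : ℝ := exp (-(2 * ε * (c * (1 + ‖L z‖) ^ s))) with hE
    have hE1 : exp (-(ε * (B z).re)) ^ 2 ≤ E := by
      rw [← exp_nat_mul, hE]
      apply exp_le_exp.2
      push_cast
      nlinarith
    have hE0 : E ≤ 1 := by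
      rw [hE]
      apply exp_le_one_iff.2
      have : 0 ≤ 2 * ε * (c * (1 + ‖L z‖) ^ s) := by positivity
      linarith
    have hEp : 0 < E := exp_pos _
    have hkey := key_real (τ := τ) hc0 hε hx hs0 hτ1 hsτ
    rw [← hm, ← hE] at hkey
    have ha := norm_nonneg (deriv L z)
    have hb := norm_nonneg (deriv Q z)
    have hsq : ‖deriv B z‖ ^ 2 ≤ 8 * ‖deriv L z‖ ^ 2 + 18 * ‖deriv Q z‖ ^ 2 := by
      calc ‖deriv B z‖ ^ 2 ≤ (2 * ‖deriv L z‖ + 3 * ‖deriv Q z‖) ^ 2 := by gcongr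
        _ ≤ _ := by nlinarith [sq_nonneg (2 * ‖deriv L z‖ - 3 * ‖deriv Q z‖)]
    rw [hWre, hWder]
    calc (exp (-(ε * (B z).re)) * (ε * ‖deriv B z‖)) ^ 2
        = exp (-(ε * (B z).re)) ^ 2 * (ε ^ 2 * ‖deriv B z‖ ^ 2) := by ring
      _ ≤ E * (ε ^ 2 * (8 * ‖deriv L z‖ ^ 2 + 18 * ‖deriv Q z‖ ^ 2)) := by gcongr
      _ = 8 * (ε ^ 2 * E) * ‖deriv L z‖ ^ 2 + 18 * ε ^ 2 * ‖deriv Q z‖ ^ 2 * E := by ring
      _ ≤ 8 * (2 * (2 * c) ^ (-m) * ε ^ (2 - m) * (1 + ‖L z‖) ^ (2 * τ - 2)) * ‖deriv L z‖ ^ 2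
          + 18 * ε ^ 2 * ‖deriv Q z‖ ^ 2 * 1 := by gcongr
      _ = _ := by rw [hA]; ring
  have hcL := cont_weightL hL (2 * τ - 2)
  have hcQ := continuousOn_norm_sq (deriv_diff hQ)
  calc En α (fun z => ‖deriv (fun z => Complex.exp (W z)) z‖ ^ 2)
      ≤ En α (fun z => A * ((1 + ‖L z‖) ^ (2 * τ - 2) * ‖deriv L z‖ ^ 2)
          + 18 * ε ^ 2 * ‖deriv Q z‖ ^ 2) :=
        En_mono (continuousOn_norm_sq (deriv_diff hWe))
          ((continuousOn_const.mul hcL).add (continuousOn_const.mul hcQ)) hpt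
    _ = En α (fun z => A * ((1 + ‖L z‖) ^ (2 * τ - 2) * ‖deriv L z‖ ^ 2))
          + En α (fun z => 18 * ε ^ 2 * ‖deriv Q z‖ ^ 2) := by
        apply En_add h1 (continuousOn_const.mul hcL) (continuousOn_const.mul hcQ)
        · intro z _
          have := norm_nonneg (L z)
          show 0 ≤ A * ((1 + ‖L z‖) ^ (2 * τ - 2) * ‖deriv L z‖ ^ 2)
          positivity
        · intro z _
          show 0 ≤ 18 * ε ^ 2 * ‖deriv Q z‖ ^ 2
          positivity
    _ = _ := by rw [En_const_mul hA0, En_const_mul (by positivity)]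

/-- The positive half of the theorem. -/
theorem positive_half {α t : ℝ} (h0 : 0 < α) (h1 : α ≤ 1) (ht : 0 < t) (htα : (1 - α) / 2 ≤ t)
    {f : ℂ → ℂ} (hf : InD α f) (hlog : LogPowInD α t f) : Cyclic α f := by
  obtain ⟨L, g, hL, hLf, hg, hgD⟩ := hlog
  obtain ⟨Q, hQD, hQ⟩ := exists_Q h0 h1 hL hLf hf
  have hQre : ∀ z ∈ DD, 0 ≤ (Q z).re := fun z hz => (hQ z hz).1
  have hLQ : ∀ z ∈ DD, (L z).re ≤ (Q z).re := fun z hz => (hQ z hz).2
  have hE1 := star_energy h0 h1 ht hL hLf hg hf hgD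
  set τ : ℝ := min t (1 / 2) with hτ
  have hτ0 : 0 < τ := by rw [hτ]; positivity
  have hτ2 : τ ≤ 1 / 2 := min_le_right _ _
  set s : ℝ := 1 - τ / 2 with hs
  have hs0 : 0 < s := by rw [hs]; linarith
  have hs1 : s < 1 := by rw [hs]; linarith
  have hsτ : 2 - 2 * τ ≤ 2 * s := by rw [hs]; linarith
  have hm2 : 0 < 2 - (2 - 2 * τ) / s := by
    rw [sub_pos, div_lt_iff₀ hs0, hs]; linarith
  set B : ℂ → ℂ := BB s (fun z => Q z - L z) Q with hB
  have hG : DifferentiableOn ℂ (fun z => Q z - L z) DD := hQD.1.sub hL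
  have hGre : ∀ z ∈ DD, 0 ≤ (Q z - L z).re := by
    intro z hz
    simp only [Complex.sub_re]; linarith [hLQ z hz]
  have hBd : DifferentiableOn ℂ B DD := BB_diff hG hGre hQD.1 hQre
  have hcos : 0 < cos (π * s / 2) := by
    apply cos_pos_of_mem_Ioo
    constructor
    · nlinarith [pi_pos]
    · nlinarith [pi_pos]
  have hBre : ∀ z ∈ DD, 0 ≤ (B z).re := by
    intro z hz
    refine le_trans ?_ (BB_re_ge hs0 hs1 hQre hLQ hz).1
    positivity
  have hBL : ∀ z ∈ DD, 0 ≤ (B z).re + (L z).re := by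
    intro z hz
    have h2 := (BB_re_ge hs0 hs1 hQre hLQ hz).2
    have h3 : 0 ≤ cos (π * s / 2) * 2 ^ (-s) * (1 + ‖L z‖) ^ s := by positivity
    have := hQre z hz
    rw [← hB] at h2
    linarith
  -- energies
  have hE2 : En α (fun z => ‖deriv Q z‖ ^ 2) ≠ ∞ := by
    refine ne_top_of_le_ne_top ?_ (En_deriv_le h0.le h1 hQD.1)
    exact ENNReal.mul_ne_top (by norm_num) (inD_iff.1 hQD).2
  have hen : ∀ ε : ℝ, 0 < ε → _ := fun ε hε =>
    energy_expB (τ := τ) h1 hs0 hs1 (by linarith) hsτ hL hQD.1 hQre hLQ hε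
  set C : ℝ := 16 * (2 * (cos (π * s / 2) * 2 ^ (-s))) ^ (-((2 - 2 * τ) / s)) with hC
  have hWd : ∀ ε : ℝ, DifferentiableOn ℂ (fun z => Complex.exp (-(ε * B z))) DD := fun ε =>
    (hBd.const_mul (ε : ℂ)).neg.cexp
  have hInD : ∀ ε : ℝ, 0 < ε → InD α (fun z => Complex.exp (-(ε * B z))) := by
    intro ε hε
    rw [inD_iff]
    refine ⟨hWd ε, ?_⟩
    refine ne_top_of_le_ne_top ?_ (nD_le_En h0.le h1 (hWd ε))
    refine ENNReal.add_ne_top.2 ⟨ENNReal.ofReal_ne_top, ENNReal.mul_ne_top (by norm_num) ?_⟩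
    refine ne_top_of_le_ne_top ?_ (hen ε hε)
    exact ENNReal.add_ne_top.2 ⟨ENNReal.mul_ne_top ENNReal.ofReal_ne_top hE1,
      ENNReal.mul_ne_top ENNReal.ofReal_ne_top hE2⟩
  have hk : InD α (fun z => Complex.exp (-B z)) := by
    have := hInD 1 one_pos
    simpa using this
  -- `exp (-B)` is a bounded multiple of `f`
  have hkf : Mem α f (fun z => Complex.exp (-B z)) := by
    set ψ : ℂ → ℂ := fun z => Complex.exp (-B z - L z) with hψ
    have hψd : DifferentiableOn ℂ ψ DD := (hBd.neg.sub hL).cexp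
    have hψ1 : ∀ z ∈ DD, ‖ψ z‖ ≤ 1 := by
      intro z hz
      rw [hψ]
      simp only
      rw [Complex.norm_exp]
      apply exp_le_one_iff.2
      simp only [Complex.sub_re, Complex.neg_re]
      linarith [hBL z hz]
    have he : ∀ z ∈ DD, Complex.exp (-B z) = ψ z * f z := by
      intro z hz
      rw [← hLf z hz, hψ]
      simp only
      rw [← Complex.exp_add, sub_add_cancel]
    have hin : InD α (fun z => ψ z * f z) := by
      rw [inD_iff]
      refine ⟨hψd.mul hf.1, ?_⟩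
      rw [← nD_congr he]
      exact (inD_iff.1 hk).2
    have hm := Mem.mul h0.le h1 hf hψd hψ1 hin
    refine Mem.of_nD hf.1 hk (fun ε hε => ⟨_, hm, ?_⟩)
    have : nD α (fun z => ψ z * f z - Complex.exp (-B z)) = nD α (fun _ => (0 : ℂ)) := by
      apply nD_congr
      intro z hz
      rw [he z hz, sub_self]
    rw [this]
    unfold nD
    simp [tc_const]
  -- uniform integrability
  have hQsq : UI (fun z => ‖Q z‖) := by
    apply UI.of_sq hQD.1.continuousOn.norm (C := (nD α Q).toReal) ENNReal.toReal_nonneg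
    intro ρ hρ0 hρ1
    have := M2_le_nD h0.le hQD.1 hρ0 hρ1
    exact (ENNReal.ofReal_le_iff_le_toReal (inD_iff.1 hQD).2).1 this
  have hUL := UI_L h0 h1 ht htα hL hg hgD
  have hUB : UI (fun z => (B z).re) := by
    have hcL := hL.continuousOn.norm
    have hcQ := hQD.1.continuousOn.norm
    have hc2 : ContinuousOn (fun z => 2 * ‖L z‖) DD := continuousOn_const.mul hcL
    have hc3 : ContinuousOn (fun z => 3 * ‖Q z‖) DD := continuousOn_const.mul hcQ
    have hsum : UI (fun z => (2 + 2 * ‖L z‖) + 3 * ‖Q z‖) :=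
      UI.add (continuousOn_const.add hc2) hc3
        (UI.add continuousOn_const hc2 (UI.const 2) (UI.const_mul (by norm_num) hcL hUL))
        (UI.const_mul (by norm_num) hcQ hQsq)
    refine UI.mono (Complex.continuous_re.comp_continuousOn hBd.continuousOn)
      ((continuousOn_const.add hc2).add hc3) ?_ hsum
    intro z hz
    exact ((le_abs_self _).trans (Complex.abs_re_le_norm _)).trans
      (BB_norm_le hs0 hs1 hQre hLQ hz)
  -- powers
  have hpow : ∀ ε : ℝ, 0 < ε → ε ≤ 1 → Mem α f (fun z => Complex.exp (-(ε * B z))) := by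
    intro ε hε hε1
    exact Mem.trans h0.le h1 hf hkf (mem_pow h0 h1 hε hε1 hBd hBre hUB hk (hInD ε hε))
  -- the constant one
  have hone : Mem α f (fun _ => 1) := by
    refine Mem.of_nD hf.1 InD.one (fun δ hδ => ?_)
    have hbound : ∀ ε : ℝ, 0 < ε → nD α (fun z => Complex.exp (-(ε * B z)) - 1) ≤
        ENNReal.ofReal (‖Complex.exp (-(ε * B 0)) - 1‖ ^ 2) + 8 * (
          ENNReal.ofReal (C * ε ^ (2 - (2 - 2 * τ) / s)) *
            En α (fun z => (1 + ‖L z‖) ^ (2 * τ - 2) * ‖deriv L z‖ ^ 2)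
          + ENNReal.ofReal (18 * ε ^ 2) * En α (fun z => ‖deriv Q z‖ ^ 2)) := by
      intro ε hε
      refine (nD_le_En h0.le h1 ((hWd ε).sub_const 1)).trans ?_
      gcongr
      have e : (fun z => ‖deriv (fun z => Complex.exp (-(ε * B z)) - 1) z‖ ^ 2)
          = fun z => ‖deriv (fun z => Complex.exp (-(ε * B z))) z‖ ^ 2 := by
        ext z; rw [deriv_sub_const_fun]
      rw [e]
      exact hen ε hε
    have hlim : Tendsto (fun ε : ℝ => ENNReal.ofReal (‖Complex.exp (-(ε * B 0)) - 1‖ ^ 2) + 8 * (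
          ENNReal.ofReal (C * ε ^ (2 - (2 - 2 * τ) / s)) *
            En α (fun z => (1 + ‖L z‖) ^ (2 * τ - 2) * ‖deriv L z‖ ^ 2)
          + ENNReal.ofReal (18 * ε ^ 2) * En α (fun z => ‖deriv Q z‖ ^ 2))) (𝓝[>] 0)
        (𝓝 (0 + 8 * (0 * En α (fun z => (1 + ‖L z‖) ^ (2 * τ - 2) * ‖deriv L z‖ ^ 2)
          + 0 * En α (fun z => ‖deriv Q z‖ ^ 2)))) := by
      have l1 : Tendsto (fun ε : ℝ => ENNReal.ofReal (‖Complex.exp (-(ε * B 0)) - 1‖ ^ 2))
          (𝓝[>] 0) (𝓝 0) := by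
        have h3 : Tendsto (fun ε : ℝ => ‖Complex.exp (-(ε * B 0)) - 1‖ ^ 2) (𝓝[>] 0)
            (𝓝 (‖Complex.exp (-((0 : ℝ) * B 0)) - 1‖ ^ 2)) := by
          apply Tendsto.mono_left _ nhdsWithin_le_nhds
          exact Continuous.tendsto (by fun_prop) 0
        have h4 := ENNReal.tendsto_ofReal h3
        simpa using h4
      have l2 : Tendsto (fun ε : ℝ => ENNReal.ofReal (C * ε ^ (2 - (2 - 2 * τ) / s)))
          (𝓝[>] 0) (𝓝 0) := by
        have h3 : Tendsto (fun ε : ℝ => C * ε ^ (2 - (2 - 2 * τ) / s)) (𝓝[>] 0)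
            (𝓝 (C * (0 : ℝ) ^ (2 - (2 - 2 * τ) / s))) := by
          apply Tendsto.mono_left _ nhdsWithin_le_nhds
          exact ((continuous_id.rpow_const (fun _ => Or.inr hm2.le)).const_mul C).tendsto 0
        have h4 := ENNReal.tendsto_ofReal h3
        rw [zero_rpow hm2.ne', mul_zero, ENNReal.ofReal_zero] at h4
        exact h4
      have l3 : Tendsto (fun ε : ℝ => ENNReal.ofReal (18 * ε ^ 2)) (𝓝[>] 0) (𝓝 0) := by
        have h3 : Tendsto (fun ε : ℝ => 18 * ε ^ 2) (𝓝[>] 0) (𝓝 (18 * (0 : ℝ) ^ 2)) := by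
          apply Tendsto.mono_left _ nhdsWithin_le_nhds
          exact Continuous.tendsto (by fun_prop) 0
        have h4 := ENNReal.tendsto_ofReal h3
        simpa using h4
      exact l1.add (ENNReal.Tendsto.const_mul
        ((ENNReal.Tendsto.mul_const l2 (Or.inr hE1)).add
          (ENNReal.Tendsto.mul_const l3 (Or.inr hE2))) (Or.inr (by norm_num)))
    simp only [zero_mul, add_zero, mul_zero] at hlim
    have hev := hlim.eventually (gt_mem_nhds (ENNReal.ofReal_pos.2 hδ))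
    have hev2 : ∀ᶠ ε : ℝ in 𝓝[>] 0, ε ∈ Ioo (0 : ℝ) 1 := Ioo_mem_nhdsGT one_pos
    obtain ⟨ε, hε1, hε2⟩ := (hev.and hev2).exists
    exact ⟨_, hpow ε hε2.1 hε2.2.le, (hbound ε hε2.1).trans hε1.le⟩
  exact cyclic_of_mem_one h0.le h1 hf hone

end Pool.Agent.Cyc65
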