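import Pool.Agent.Lib_helper65.CycTrunc

/-!
`exp (-ε B)` lies in the closed invariant subspace generated by `exp (-B)`.
-/

namespace Pool.Agent.Cyc65

open Metric Set Filter Topology Real MeasureTheory InnerProductSpace
open scoped ENNReal

/-- the coefficients of a function bounded by one whose value at `0` has modulus near one -/
theorem tc_sq_le_of_bounded {q : ℂ → ℂ} (hq : DifferentiableOn ℂ q DD)
    (h1 : ∀ z ∈ DD, ‖q z‖ ≤ 1) {k : ℕ} (hk : k ≠ 0) : ‖tc q k‖ ^ 2 ≤ 1 - ‖q 0‖ ^ 2 := by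
  have key : ∀ ρ : ℝ, 0 ≤ ρ → ρ < 1 → ‖q 0‖ ^ 2 + ‖tc q k‖ ^ 2 * ρ ^ (2 * k) ≤ 1 := by
    intro ρ h0 hρ1
    have hp := parseval hq h0 hρ1
    have h2 := sum_le_hasSum {0, k} (fun i _ => by positivity) hp
    rw [Finset.sum_pair hk.symm] at h2
    simp only [mul_zero, pow_zero, mul_one, tc_zero] at h2
    have h3 : M2 q ρ ≤ 1 := by
      have h4 : circleAverage (fun z => ‖q z‖ ^ 2) 0 ρ ≤ circleAverage (fun _ => (1 : ℝ)) 0 ρ := by
        apply cA_mono (continuousOn_norm_sq hq) continuousOn_const h0 hρ1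
        intro z hz _
        have := h1 z hz
        have := norm_nonneg (q z)
        nlinarith
      rw [circleAverage_const] at h4
      exact h4
    linarith
  have hlim : Tendsto (fun ρ : ℝ => ‖q 0‖ ^ 2 + ‖tc q k‖ ^ 2 * ρ ^ (2 * k)) (𝓝[<] 1)
      (𝓝 (‖q 0‖ ^ 2 + ‖tc q k‖ ^ 2 * 1 ^ (2 * k))) := by
    apply Tendsto.mono_left _ nhdsWithin_le_nhds
    exact (Continuous.tendsto (by fun_prop) 1)
  have h5 := le_of_tendsto hlim (by
    filter_upwards [Ioo_mem_nhdsLT (show (0:ℝ) < 1 by norm_num)] with r hr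
    exact key r hr.1.le hr.2)
  rw [one_pow, mul_one] at h5
  linarith

theorem exists_trunc {α ε : ℝ} (h0 : 0 < α) (h1 : α ≤ 1) (hε0 : 0 < ε) (hε1 : ε ≤ 1) {B : ℂ → ℂ}
    (hB : DifferentiableOn ℂ B DD) (hre : ∀ z ∈ DD, 0 ≤ (B z).re)
    (hUI : UI (fun z => (B z).re)) (hk : InD α (fun z => Complex.exp (-B z)))
    (hh : InD α (fun z => Complex.exp (-(ε * B z)))) {η : ℝ} (hη : 0 < η) :
    ∃ F : ℂ → ℂ, Mem α (fun z => Complex.exp (-B z)) F ∧
      nD α F ≤ 1 + 2 * ENNReal.ofReal ((1 / ε) ^ 2) * nD α (fun z => Complex.exp (-(ε * B z))) ∧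
      DifferentiableOn ℂ F DD ∧ (∀ z ∈ DD, ‖F z * Complex.exp (ε * B z)‖ ≤ 1) ∧
      ‖F 0 * Complex.exp (ε * B 0) - 1‖ ≤ η := by
  have hz0 : (0 : ℂ) ∈ DD := by rw [mem_DD]; simp
  -- parameters
  obtain ⟨N₀, hN₀, hN₀'⟩ := hUI (η / 6) (by positivity)
  set N : ℝ := max N₀ 1 with hN
  have hN1 : 1 ≤ N := le_max_right _ _
  have hcB : ContinuousOn (fun z => (B z).re) DD :=
    Complex.continuous_re.comp_continuousOn hB.continuousOn
  have hUN : ∀ ρ : ℝ, 0 ≤ ρ → ρ < 1 →
      circleAverage (fun z => max ((B z).re - N) 0) 0 ρ ≤ η / 6 := by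
    intro ρ hρ0 hρ1
    refine le_trans (cA_mono (cont_trunc hcB N) (cont_trunc hcB N₀) hρ0 hρ1 ?_)
      (hN₀' ρ hρ0 hρ1)
    intro z _ _
    exact max_le_max (by linarith [le_max_left N₀ 1]) le_rfl
  set ν : ℝ := 2 * exp (2 * N) / η with hν
  have hν0 : 0 < ν := by positivity
  have hνN : ν⁻¹ * exp (2 * N) = η / 2 := by
    rw [hν]; field_simp
  have hadm := tn_adm (ν := ν) hν0 hε0 hε1
  -- the functions
  set W : ℂ → ℂ := fun z => -(ε * B z) with hW
  have hWd : DifferentiableOn ℂ W DD := (hB.const_mul (ε : ℂ)).neg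
  have hWre : ∀ z, (W z).re = -(ε * (B z).re) := by
    intro z
    rw [hW]
    simp only [Complex.neg_re, Complex.re_ofReal_mul]
  set c : ℂ := -(ε * (B 0).im : ℝ) * Complex.I with hc
  have hcre : c.re = 0 := by
    rw [hc, ← Complex.ofReal_neg, Complex.re_ofReal_mul, Complex.I_re, mul_zero]
  set V : ℕ → ℂ → ℝ := fun j ζ => tn ν ε (W (rj j * ζ)).re with hV
  have hUc : ∀ j, ContinuousOn (fun ζ => (W (rj j * ζ)).re) TT := fun j =>
    Complex.continuous_re.comp_continuousOn (dil_cont_TT hWd.continuousOn (rj_nonneg j) (rj_lt j))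
  have hVc : ∀ j, ContinuousOn (V j) TT := fun j =>
    hadm.diff.continuous.comp_continuousOn (hUc j)
  set F : ℕ → ℂ → ℂ := fun j z => Complex.exp (Hz (V j) z + c) with hF
  set Ψ : ℕ → ℂ → ℂ := fun j z => F j z * Complex.exp (B (rj j * z)) with hΨ
  have hFd : ∀ j, DifferentiableOn ℂ (F j) DD := fun j => ((Hz_diff (hVc j)).add_const c).cexp
  have hBd : ∀ j, DifferentiableOn ℂ (fun z => B (rj j * z)) DD := fun j =>
    dilate_diff hB (rj_nonneg j) (rj_lt j).le
  have hΨd : ∀ j, DifferentiableOn ℂ (Ψ j) DD := fun j => (hFd j).mul (hBd j).cexp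
  have hFn : ∀ j, ∀ z ∈ DD, ‖F j z‖ = exp (Ez z (V j)) := by
    intro j z hz
    rw [hF]
    simp only
    rw [Complex.norm_exp, Complex.add_re, hcre, add_zero, Hz_re (hVc j) hz]
  -- comparison of the Poisson integrals
  have hEW : ∀ j, ∀ z ∈ DD, Ez z (fun ζ => (W (rj j * ζ)).re) = -(ε * (B (rj j * z)).re) := by
    intro j z hz
    rw [Ez_re (dil_dc hWd (rj_nonneg j) (rj_lt j)) hz, hWre]
  have hE1 : ∀ j, ∀ z ∈ DD, Ez z (V j) ≤ -(ε * (B (rj j * z)).re) := by
    intro j z hz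
    rw [← hEW j z hz]
    exact Ez_mono (hVc j) (hUc j) hz (fun ζ _ => tn_le_self hν0 _)
  have hE2 : ∀ j, ∀ z ∈ DD, Ez z (V j) ≤ -(B (rj j * z)).re + log ν := by
    intro j z hz
    have h3 : Ez z (V j) ≤ Ez z (fun ζ => (1 / ε) * (W (rj j * ζ)).re + log ν) := by
      apply Ez_mono (hVc j) ((continuousOn_const.mul (hUc j)).add continuousOn_const) hz
      intro ζ _
      have := tn_le (ε := ε) hν0 (W (rj j * ζ)).re
      show tn ν ε (W (rj j * ζ)).re ≤ (1 / ε) * (W (rj j * ζ)).re + log ν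
      rw [one_div_mul_eq_div]
      exact this
    rw [Ez_add (φ := fun ζ => (1 / ε) * (W (rj j * ζ)).re) (ψ := fun _ => log ν)
      (continuousOn_const.mul (hUc j)) continuousOn_const hz, Ez_smul, Ez_const hz,
      hEW j z hz] at h3
    have h4 : 1 / ε * -(ε * (B (rj j * z)).re) = -(B (rj j * z)).re := by field_simp
    rw [h4] at h3
    exact h3
  have hΨn : ∀ j, ∀ z ∈ DD, ‖Ψ j z‖ ≤ ν := by
    intro j z hz
    rw [hΨ]
    simp only
    rw [norm_mul, hFn j z hz, Complex.norm_exp, ← exp_add]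
    calc exp (Ez z (V j) + (B (rj j * z)).re) ≤ exp (log ν) := by
          apply exp_le_exp.2; linarith [hE2 j z hz]
      _ = ν := exp_log hν0
  -- the norm bound
  set M : ℝ≥0∞ :=
    1 + 2 * ENNReal.ofReal ((1 / ε) ^ 2) * nD α (fun z => Complex.exp (-(ε * B z))) with hM
  have hMt : M ≠ ∞ := by
    refine ENNReal.add_ne_top.2 ⟨by norm_num, ?_⟩
    exact ENNReal.mul_ne_top (ENNReal.mul_ne_top (by norm_num) ENNReal.ofReal_ne_top)
      (inD_iff.1 hh).2
  have hFM : ∀ j, nD α (F j) ≤ M := by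
    intro j
    have h5 := outer_nD h0 h1 (rj_nonneg j) (rj_lt j) hWd hadm hcre
    refine h5.trans ?_
    rw [hM]
    gcongr
    have h6 : circleAverage (V j) 0 1 ≤ 0 := by
      have h7 := hE1 j 0 hz0
      rw [Ez_zero, mul_zero] at h7
      have := hre 0 hz0
      nlinarith
    rw [show (1 : ℝ≥0∞) = ENNReal.ofReal 1 by simp]
    apply ENNReal.ofReal_le_ofReal
    apply exp_le_one_iff.2
    have : circleAverage (fun ζ => tn ν ε (W (rj j * ζ)).re) 0 1 ≤ 0 := h6
    linarith
  -- compactness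
  have hC : ∀ j k, ‖tc (F j) k‖ ≤ M.toReal + 1 := fun j k => tc_le_of_nD h0.le hMt (hFM j) k
  obtain ⟨b, φ, hφ, hbb, hlim⟩ := exists_subseq_tc hC
  have hC' : ∀ j k, ‖tc (Ψ (φ j)) k‖ ≤ ν := fun j k => tc_bound (hΨd _) (hΨn _) k
  obtain ⟨b', φ', hφ', hbb', hlim'⟩ := exists_subseq_tc (F := fun j => Ψ (φ j)) hC'
  set χ : ℕ → ℕ := fun j => φ (φ' j) with hχ
  have hχm : StrictMono χ := hφ.comp hφ'
  have hFlim : ∀ z ∈ DD, Tendsto (fun j => F (χ j) z) atTop (𝓝 (ps b z)) := fun z hz =>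
    tendsto_of_tc (F := fun j => F (χ j)) (fun j => hFd _) (fun j k => hC (χ j) k)
      (fun k => (hlim k).comp hφ'.tendsto_atTop) (fun z hz => ps_hasSum hbb hz) hz
  have hΨlim : ∀ z ∈ DD, Tendsto (fun j => Ψ (χ j) z) atTop (𝓝 (ps b' z)) := fun z hz =>
    tendsto_of_tc (F := fun j => Ψ (χ j)) (fun j => hΨd _) (fun j k => hC' (φ' j) k)
      hlim' (fun z hz => ps_hasSum hbb' hz) hz
  have hBlim : ∀ z ∈ DD, Tendsto (fun j => B (rj (χ j) * z)) atTop (𝓝 (B z)) := fun z hz =>
    tendsto_dil hB.continuousOn hz hχm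
  have hprod : ∀ z ∈ DD, ps b z = ps b' z * Complex.exp (-B z) := by
    intro z hz
    have h8 : Tendsto (fun j => Ψ (χ j) z * Complex.exp (-B (rj (χ j) * z))) atTop
        (𝓝 (ps b' z * Complex.exp (-B z))) :=
      (hΨlim z hz).mul ((Complex.continuous_exp.tendsto _).comp (hBlim z hz).neg)
    refine tendsto_nhds_unique (hFlim z hz) (h8.congr (fun j => ?_))
    rw [hΨ]
    simp only
    rw [mul_assoc, ← Complex.exp_add, add_neg_cancel, Complex.exp_zero, mul_one]
  have hps' : ∀ z ∈ DD, ‖ps b' z‖ ≤ ν := fun z hz =>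
    le_of_tendsto' (hΨlim z hz).norm (fun j => hΨn _ z hz)
  have hnDF : nD α (ps b) ≤ M := by
    refine nD_le_of_tendsto (F := fun j => F (φ j)) (fun k => ?_) (fun j => hFM _)
    rw [tc_ps hbb]
    exact hlim k
  have hInF : InD α (ps b) := inD_iff.2 ⟨ps_diff hbb, ne_top_of_le_ne_top hMt hnDF⟩
  have hInF' : InD α (fun z => ps b' z * Complex.exp (-B z)) := by
    rw [inD_iff]
    refine ⟨(ps_diff hbb').mul hB.neg.cexp, ?_⟩
    rw [← nD_congr hprod]
    exact (inD_iff.1 hInF).2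
  have hmem := Mem.mul h0.le h1 hk (ps_diff hbb') hps' hInF'
  refine ⟨fun z => ps b' z * Complex.exp (-B z), hmem, ?_, ?_, ?_, ?_⟩
  · rw [← nD_congr hprod]; exact hnDF
  · exact (ps_diff hbb').mul hB.neg.cexp
  · intro z hz
    show ‖(ps b' z * Complex.exp (-B z)) * Complex.exp (ε * B z)‖ ≤ 1
    rw [← hprod z hz]
    have h9 : Tendsto (fun j => F (χ j) z * Complex.exp (ε * B (rj (χ j) * z))) atTop
        (𝓝 (ps b z * Complex.exp (ε * B z))) :=
      (hFlim z hz).mul ((Complex.continuous_exp.tendsto _).comp ((hBlim z hz).const_mul _))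
    refine le_of_tendsto' h9.norm (fun j => ?_)
    rw [norm_mul, hFn _ z hz, Complex.norm_exp, Complex.re_ofReal_mul, ← exp_add]
    apply exp_le_one_iff.2
    linarith [hE1 (χ j) z hz]
  · show ‖(ps b' 0 * Complex.exp (-B 0)) * Complex.exp (ε * B 0) - 1‖ ≤ η
    rw [← hprod 0 hz0]
    have h9 : Tendsto (fun j => F (χ j) 0 * Complex.exp (ε * B (rj (χ j) * 0))) atTop
        (𝓝 (ps b 0 * Complex.exp (ε * B 0))) :=
      (hFlim 0 hz0).mul ((Complex.continuous_exp.tendsto _).comp ((hBlim 0 hz0).const_mul _))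
    refine le_of_tendsto' (h9.sub_const 1).norm (fun j => ?_)
    set i := χ j with hi
    have hci1 : CircleIntegrable (V i) 0 1 := ci_of_cont (hVc i)
    have hcBi : ContinuousOn (fun ζ => (B (rj i * ζ)).re) TT :=
      dil_cont_TT hcB (rj_nonneg i) (rj_lt i)
    have hcBi' : CircleIntegrable (fun ζ => ε * (B (rj i * ζ)).re) 0 1 :=
      ci_of_cont (continuousOn_const.mul hcBi)
    have hB0 : circleAverage (fun ζ => (B (rj i * ζ)).re) 0 1 = (B 0).re := by
      have := Ez_re (dil_dc hB (rj_nonneg i) (rj_lt i)) hz0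
      rw [Ez_zero, mul_zero] at this
      exact this
    set x : ℝ := circleAverage (V i) 0 1 + ε * (B 0).re with hx
    have hval : F i 0 * Complex.exp (ε * B (rj i * 0)) = (exp x : ℝ) := by
      rw [hF]
      simp only
      rw [mul_zero, ← Complex.exp_add, Hz_zero (hVc i), Complex.ofReal_exp]
      congr 1
      rw [hx, hc]
      apply Complex.ext
      · simp
      · simp
    rw [hval]
    have hx0 : x ≤ 0 := by
      have h7 := hE1 i 0 hz0
      rw [Ez_zero, mul_zero] at h7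
      rw [hx]; linarith
    have hxη : -η ≤ x := by
      have e3 : x = circleAverage (fun ζ => V i ζ + ε * (B (rj i * ζ)).re) 0 1 := by
        rw [circleAverage_fun_add hci1 hcBi', hx]
        congr 1
        have := circleAverage_fun_smul (a := ε) (f := fun ζ => (B (rj i * ζ)).re)
          (c := 0) (R := 1)
        simp only [smul_eq_mul] at this
        rw [this, hB0]
      have hct : ContinuousOn (fun ζ => max ((B (rj i * ζ)).re - N) 0) TT :=
        dil_cont_TT (cont_trunc hcB N) (rj_nonneg i) (rj_lt i)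
      have e4 : circleAverage (fun ζ => -(ν⁻¹ * exp (2 * N)
            + 3 * max ((B (rj i * ζ)).re - N) 0)) 0 1
          ≤ circleAverage (fun ζ => V i ζ + ε * (B (rj i * ζ)).re) 0 1 := by
        apply circleAverage_mono
        · exact ci_of_cont ((continuousOn_const.add (continuousOn_const.mul hct)).neg)
        · exact hci1.add hcBi'
        · intro ζ hζ
          rw [abs_one] at hζ
          have hζ' : (rj i : ℂ) * ζ ∈ DD :=
            dil_mem_closed (rj_nonneg i) (rj_lt i) (sphere_subset_closedBall hζ)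
          have := tn_ge hν0 hε0 hε1 (hre _ hζ') hN1
          simp only [hV, hWre]
          exact this
      have e5 : circleAverage (fun ζ => -(ν⁻¹ * exp (2 * N)
            + 3 * max ((B (rj i * ζ)).re - N) 0)) 0 1
          = -(ν⁻¹ * exp (2 * N)
            + 3 * circleAverage (fun ζ => max ((B (rj i * ζ)).re - N) 0) 0 1) := by
        have e6 := circleAverage_fun_smul (a := (-1 : ℝ)) (f := fun ζ => (ν⁻¹ * exp (2 * N)
            + 3 * max ((B (rj i * ζ)).re - N) 0)) (c := 0) (R := 1)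
        simp only [smul_eq_mul, neg_mul, one_mul] at e6
        have hct3 : CircleIntegrable (fun ζ => 3 * max ((B (rj i * ζ)).re - N) 0) 0 1 :=
          ci_of_cont (continuousOn_const.mul hct)
        rw [e6, circleAverage_fun_add (ci_of_cont continuousOn_const) hct3, circleAverage_const]
        have e7 := circleAverage_fun_smul (a := (3 : ℝ))
          (f := fun ζ => max ((B (rj i * ζ)).re - N) 0) (c := 0) (R := 1)
        simp only [smul_eq_mul] at e7
        rw [e7]
      have e8 : circleAverage (fun ζ => max ((B (rj i * ζ)).re - N) 0) 0 1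
          = circleAverage (fun ζ => max ((B ζ).re - N) 0) 0 (rj i) := by
        simp only [circleAverage_def]
        congr 2
        ext θ
        simp [circleMap]
      rw [e5, e8, hνN] at e4
      rw [e3]
      have := hUN (rj i) (rj_nonneg i) (rj_lt i)
      linarith
    have hfin : ‖((exp x : ℝ) : ℂ) - 1‖ = 1 - exp x := by
      have : ((exp x : ℝ) : ℂ) - 1 = ((exp x - 1 : ℝ) : ℂ) := by push_cast; ring
      rw [this, Complex.norm_real, Real.norm_eq_abs, abs_of_nonpos]
      · ring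
      · linarith [exp_le_one_iff.2 hx0]
    rw [hfin]
    linarith [add_one_le_exp x]

/-- **Powers.** -/
theorem mem_pow {α ε : ℝ} (h0 : 0 < α) (h1 : α ≤ 1) (hε0 : 0 < ε) (hε1 : ε ≤ 1) {B : ℂ → ℂ}
    (hB : DifferentiableOn ℂ B DD) (hre : ∀ z ∈ DD, 0 ≤ (B z).re)
    (hUI : UI (fun z => (B z).re)) (hk : InD α (fun z => Complex.exp (-B z)))
    (hh : InD α (fun z => Complex.exp (-(ε * B z)))) :
    Mem α (fun z => Complex.exp (-B z)) (fun z => Complex.exp (-(ε * B z))) := by
  have hz0 : (0 : ℂ) ∈ DD := by rw [mem_DD]; simp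
  have hex := fun j : ℕ => exists_trunc h0 h1 hε0 hε1 hB hre hUI hk hh
    (η := 1 / ((j : ℝ) + 1)) (by positivity)
  choose F hF1 hF2 hF3 hF4 hF5 using hex
  refine Mem.of_tendsto h0.le h1 hk (X := F) hF1 (C := 1 + 2 * ENNReal.ofReal ((1 / ε) ^ 2) *
    nD α (fun z => Complex.exp (-(ε * B z)))) ?_ hF2 hh.1 ?_
  · refine ENNReal.add_ne_top.2 ⟨by norm_num, ?_⟩
    exact ENNReal.mul_ne_top (ENNReal.mul_ne_top (by norm_num) ENNReal.ofReal_ne_top)
      (inD_iff.1 hh).2
  · set q : ℕ → ℂ → ℂ := fun j z => F j z * Complex.exp (ε * B z) with hq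
    have hqd : ∀ j, DifferentiableOn ℂ (q j) DD := fun j =>
      (hF3 j).mul (hB.const_mul (ε : ℂ)).cexp
    have hη : Tendsto (fun j : ℕ => 1 / ((j : ℝ) + 1)) atTop (𝓝 0) :=
      tendsto_one_div_add_atTop_nhds_zero_nat
    have hq0 : Tendsto (fun j => tc (q j) 0) atTop (𝓝 1) := by
      rw [tendsto_iff_norm_sub_tendsto_zero]
      refine squeeze_zero (fun _ => norm_nonneg _) (fun j => ?_) hη
      rw [tc_zero]
      exact hF5 j
    have hqk : ∀ k : ℕ, k ≠ 0 → Tendsto (fun j => tc (q j) k) atTop (𝓝 0) := by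
      intro k hk0
      rw [tendsto_zero_iff_norm_tendsto_zero]
      have h2 : Tendsto (fun j => 1 - ‖q j 0‖ ^ 2) atTop (𝓝 0) := by
        have h3 : Tendsto (fun j => 1 - ‖tc (q j) 0‖ ^ 2) atTop (𝓝 (1 - ‖(1 : ℂ)‖ ^ 2)) :=
          (hq0.norm.pow 2).const_sub 1
        simpa [tc_zero] using h3
      have h4 : Tendsto (fun j => ‖tc (q j) k‖ ^ 2) atTop (𝓝 0) :=
        squeeze_zero (fun _ => by positivity)
          (fun j => tc_sq_le_of_bounded (hqd j) (hF4 j) hk0) h2
      have h5 := h4.sqrt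
      simpa [Real.sqrt_sq] using h5
    intro k
    have e1 : ∀ j, tc (F j) k = ∑ i ∈ Finset.range (k + 1),
        tc (q j) i * tc (fun z => Complex.exp (-(ε * B z))) (k - i) := by
      intro j
      rw [← tc_mul (hqd j) hh.1]
      apply tc_congr
      intro z _
      rw [hq]
      simp only
      rw [mul_assoc, ← Complex.exp_add, add_neg_cancel, Complex.exp_zero, mul_one]
    simp_rw [e1]
    have h6 : Tendsto (fun j => ∑ i ∈ Finset.range (k + 1),
        tc (q j) i * tc (fun z => Complex.exp (-(ε * B z))) (k - i)) atTop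
        (𝓝 (∑ i ∈ Finset.range (k + 1), (if i = 0 then 1 else 0) *
          tc (fun z => Complex.exp (-(ε * B z))) (k - i))) := by
      apply tendsto_finsetSum
      intro i _
      apply Tendsto.mul_const
      by_cases hi : i = 0
      · rw [if_pos hi, hi]; exact hq0
      · rw [if_neg hi]; exact hqk i hi
    simpa using h6

end Pool.Agent.Cyc65
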