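import Pool.Agent.Lib_helper65.CycStar
import Pool.Agent.Lib_helper65.CycJensen

/-!
Truncated outer functions of dilations, and the majorant `Q` of the logarithm.
-/

namespace Pool.Agent.Cyc65

open Metric Set Filter Topology Real MeasureTheory InnerProductSpace
open scoped ENNReal

theorem dil_mem_closed {r : ℝ} (hr0 : 0 ≤ r) (hr1 : r < 1) {z : ℂ} (hz : z ∈ closedBall (0 : ℂ) 1) :
    (r : ℂ) * z ∈ DD := by
  rw [mem_closedBall_zero_iff] at hz
  rw [mem_DD, norm_mul, Complex.norm_real, Real.norm_of_nonneg hr0]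
  nlinarith [norm_nonneg z]

theorem dil_dc {W : ℂ → ℂ} (hW : DifferentiableOn ℂ W DD) {r : ℝ} (hr0 : 0 ≤ r) (hr1 : r < 1) :
    DiffContOnCl ℂ (fun z => W (r * z)) (ball 0 1) := by
  apply DifferentiableOn.diffContOnCl
  rw [closure_ball 0 one_ne_zero]
  exact hW.comp (by fun_prop) (fun z hz => dil_mem_closed hr0 hr1 hz)

theorem dil_cont_TT {E : Type*} [TopologicalSpace E] {W : ℂ → E} (hW : ContinuousOn W DD) {r : ℝ}
    (hr0 : 0 ≤ r) (hr1 : r < 1) :
    ContinuousOn (fun z => W (r * z)) TT :=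
  hW.comp (by fun_prop) (fun z hz => dil_mem_closed hr0 hr1 (sphere_subset_closedBall hz))

theorem nD_dilate_le {α : ℝ} {f : ℂ → ℂ} (hf : DifferentiableOn ℂ f DD) {r : ℝ} (hr0 : 0 ≤ r)
    (hr1 : r ≤ 1) : nD α (fun z => f (r * z)) ≤ nD α f := by
  unfold nD
  apply ENNReal.tsum_le_tsum
  intro k
  apply ENNReal.ofReal_le_ofReal
  rw [tc_dilate hf hr0 hr1, norm_mul, norm_pow, Complex.norm_real, Real.norm_of_nonneg hr0]
  have h1 : r ^ k ≤ 1 := pow_le_one₀ hr0 hr1
  have h2 : ‖tc f k‖ * r ^ k ≤ ‖tc f k‖ := by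
    have := norm_nonneg (tc f k)
    nlinarith
  gcongr

theorem tc_sq_le_nD {α : ℝ} (h0 : 0 ≤ α) (f : ℂ → ℂ) (k : ℕ) :
    ENNReal.ofReal (‖tc f k‖ ^ 2) ≤ nD α f := by
  unfold nD
  refine le_trans ?_ (ENNReal.le_tsum k)
  apply ENNReal.ofReal_le_ofReal
  have h1 : 1 ≤ ((k : ℝ) + 1) ^ α := one_le_rpow (by linarith [Nat.cast_nonneg (α := ℝ) k]) h0
  nlinarith [sq_nonneg ‖tc f k‖]

theorem Ez_zero (φ : ℂ → ℝ) : Ez 0 φ = circleAverage φ 0 1 := by
  unfold Ez
  apply circleAverage_congr_sphere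
  intro ζ hζ
  rw [abs_one, mem_sphere_zero_iff_norm] at hζ
  simp only [poissonKernel_def, sub_zero]
  rw [hζ]
  simp

/-- norm estimate for the truncated outer functions attached to a dilation -/
theorem outer_nD {α K r : ℝ} (h0 : 0 < α) (h1 : α ≤ 1) (hr0 : 0 ≤ r) (hr1 : r < 1) {W : ℂ → ℂ}
    (hW : DifferentiableOn ℂ W DD) {θ : ℝ → ℝ} (hθ : Adm K θ) {c : ℂ} (hc : c.re = 0) :
    nD α (fun z => Complex.exp (Hz (fun ζ => θ (W (r * ζ)).re) z + c)) ≤
      ENNReal.ofReal (exp (2 * circleAverage (fun ζ => θ (W (r * ζ)).re) 0 1)) +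
        2 * ENNReal.ofReal (K ^ 2) * nD α (fun z => Complex.exp (W z)) := by
  have hU : ContinuousOn (fun ζ => (W (r * ζ)).re) TT :=
    Complex.continuous_re.comp_continuousOn (dil_cont_TT hW.continuousOn hr0 hr1)
  have hθU : ContinuousOn (fun ζ => θ (W (r * ζ)).re) TT :=
    hθ.diff.continuous.comp_continuousOn hU
  set F : ℂ → ℂ := fun z => Complex.exp (Hz (fun ζ => θ (W (r * ζ)).re) z + c) with hF
  have hFd : DifferentiableOn ℂ F DD := ((Hz_diff hθU).add_const c).cexp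
  have heW : DifferentiableOn ℂ (fun z => Complex.exp (W z)) DD := hW.cexp
  have hFn : ∀ z ∈ DD, ‖F z‖ ^ 2 = exp (2 * Ez z (fun ζ => θ (W (r * ζ)).re)) := by
    intro z hz
    rw [hF]
    simp only
    rw [Complex.norm_exp, Complex.add_re, hc, add_zero, Hz_re hθU hz, ← exp_nat_mul]
    norm_num
  have hhd : DifferentiableOn ℂ (fun z => Complex.exp (W (r * z))) DD :=
    dilate_diff heW hr0 hr1.le
  have hhn : ∀ z ∈ DD, ‖Complex.exp (W (r * z))‖ ^ 2
      = exp (2 * Ez z (fun ζ => (W (r * ζ)).re)) := by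
    intro z hz
    rw [Ez_re (dil_dc hW hr0 hr1) hz, Complex.norm_exp, ← exp_nat_mul]
    norm_num
  have hpars : HasSum (fun k => ‖tc (fun z => Complex.exp (W (r * z))) k‖ ^ 2)
      (circleAverage (fun ζ => exp (2 * (W (r * ζ)).re)) 0 1) := by
    have hp := parseval heW hr0 hr1
    rw [M2_eq_unit] at hp
    have e1 : (fun z => ‖Complex.exp (W (r * z))‖ ^ 2) = fun z => exp (2 * (W (r * z)).re) := by
      ext z
      rw [Complex.norm_exp, ← exp_nat_mul]
      norm_num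
    rw [e1] at hp
    refine hp.congr_fun ?_ |> fun h => h
    intro k
    rw [tc_dilate heW hr0 hr1.le, norm_mul, norm_pow, Complex.norm_real,
      Real.norm_of_nonneg hr0]
    ring
  have htr := nD_transfer (u := F) (v := fun z => Complex.exp (W (r * z))) h0 h1
    (C := ENNReal.ofReal (K ^ 2)) ENNReal.ofReal_ne_top
    (fun s hs => NN_outer_le hU hθ hFd hFn hhd hhn hpars hs)
  refine htr.trans ?_
  gcongr
  · rw [hFn 0 (by rw [mem_DD]; simp), Ez_zero]
  · exact nD_dilate_le heW hr0 hr1.le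

end Pool.Agent.Cyc65
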