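import Pool.Agent.Lib_helper65.CycQ

/-!
The majorant `Q` of the logarithm.
-/

namespace Pool.Agent.Cyc65

open Metric Set Filter Topology Real MeasureTheory InnerProductSpace
open scoped ENNReal

/-- `θ(s) = ½ log(1+e^{2s})` -/
noncomputable def th0 (s : ℝ) : ℝ := (1 / 2) * log (1 + exp (2 * s))

theorem th0_hasDeriv (s : ℝ) : HasDerivAt th0 (exp (2 * s) / (1 + exp (2 * s))) s := by
  have h1 : HasDerivAt (fun s : ℝ => 1 + exp (2 * s)) (exp (2 * s) * 2) s := by
    have := (((hasDerivAt_id s).const_mul 2).exp).const_add 1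
    simpa using this
  have h2 := (h1.log (by positivity)).const_mul (1 / 2)
  unfold th0
  exact h2.congr_deriv (by ring)

theorem exp_two_th0 (s : ℝ) : exp (2 * th0 s) = 1 + exp (2 * s) := by
  unfold th0
  rw [← mul_assoc]
  norm_num
  rw [exp_log (by positivity)]

theorem th0_adm : Adm 1 th0 where
  diff := fun s => (th0_hasDeriv s).differentiableAt
  nn := fun s => by
    rw [(th0_hasDeriv s).deriv]; positivity
  le := fun s => by
    rw [(th0_hasDeriv s).deriv, div_le_one (by positivity)]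
    linarith [exp_pos (2 * s)]
  exp_le := fun s => by
    rw [(th0_hasDeriv s).deriv, exp_two_th0, one_mul]
    apply le_of_eq
    field_simp

theorem th0_nonneg (s : ℝ) : 0 ≤ th0 s := by
  unfold th0
  have : 0 ≤ log (1 + exp (2 * s)) := log_nonneg (by linarith [exp_pos (2 * s)])
  positivity

theorem le_th0 (s : ℝ) : s ≤ th0 s := by
  have h := exp_two_th0 s
  have h2 : exp (2 * s) ≤ exp (2 * th0 s) := by rw [h]; linarith
  have := exp_le_exp.1 h2
  linarith

theorem tc_le_of_nD {α : ℝ} (h0 : 0 ≤ α) {F : ℂ → ℂ} {M : ℝ≥0∞} (hM : M ≠ ∞) (h : nD α F ≤ M)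
    (k : ℕ) : ‖tc F k‖ ≤ M.toReal + 1 := by
  have h1 : ‖tc F k‖ ^ 2 ≤ M.toReal := by
    rw [← ENNReal.ofReal_le_iff_le_toReal hM]
    exact (tc_sq_le_nD h0 F k).trans h
  have h2 : 0 ≤ M.toReal := ENNReal.toReal_nonneg
  have h3 := norm_nonneg (tc F k)
  nlinarith [sq_nonneg (‖tc F k‖ - 1)]

/-- radii tending to one -/
noncomputable def rj (j : ℕ) : ℝ := 1 - 1 / ((j : ℝ) + 1)

theorem rj_nonneg (j : ℕ) : 0 ≤ rj j := by
  unfold rj
  have : 1 / ((j : ℝ) + 1) ≤ 1 := by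
    rw [div_le_one (by positivity)]; linarith [Nat.cast_nonneg (α := ℝ) j]
  linarith

theorem rj_lt (j : ℕ) : rj j < 1 := by
  unfold rj
  have : 0 < 1 / ((j : ℝ) + 1) := by positivity
  linarith

theorem rj_tendsto : Tendsto rj atTop (𝓝 1) := by
  unfold rj
  have := (tendsto_const_nhds (x := (1 : ℝ))).sub (tendsto_one_div_add_atTop_nhds_zero_nat (𝕜 := ℝ))
  simpa using this

theorem tendsto_dil {E : Type*} [TopologicalSpace E] {W : ℂ → E} (hW : ContinuousOn W DD) {z : ℂ}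
    (hz : z ∈ DD) {φ : ℕ → ℕ} (hφ : StrictMono φ) :
    Tendsto (fun j => W (rj (φ j) * z)) atTop (𝓝 (W z)) := by
  have h1 : Tendsto (fun j => ((rj (φ j) : ℝ) : ℂ) * z) atTop (𝓝 z) := by
    have h2 : Tendsto (fun j => ((rj (φ j) : ℝ) : ℂ)) atTop (𝓝 1) := by
      have := (Complex.continuous_ofReal.tendsto 1).comp (rj_tendsto.comp hφ.tendsto_atTop)
      simpa [Function.comp_def] using this
    simpa using h2.mul_const z
  exact ((hW.continuousAt (DD_nhds hz)).tendsto).comp h1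

theorem cA_nonneg_TT {φ : ℂ → ℝ} (h : ∀ ζ ∈ TT, 0 ≤ φ ζ) : 0 ≤ circleAverage φ 0 1 := by
  apply circleAverage_nonneg_of_nonneg
  intro z hz
  rw [abs_one] at hz
  exact h z hz

theorem Q_bound {α : ℝ} (h0 : 0 < α) (h1 : α ≤ 1) {L f : ℂ → ℂ} (hL : DifferentiableOn ℂ L DD)
    (hf : ∀ z ∈ DD, Complex.exp (L z) = f z) (hfd : DifferentiableOn ℂ f DD) {r : ℝ}
    (hr0 : 0 ≤ r) (hr1 : r < 1) :
    nD α (Hz (fun ζ => th0 (L (r * ζ)).re)) ≤
      (1 + nD α f) + 16 * ((1 + nD α f) + 2 * nD α f) := by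
  have hU : ContinuousOn (fun ζ => (L (r * ζ)).re) TT :=
    Complex.continuous_re.comp_continuousOn (dil_cont_TT hL.continuousOn hr0 hr1)
  have hV : ContinuousOn (fun ζ => th0 (L (r * ζ)).re) TT :=
    th0_adm.diff.continuous.comp_continuousOn hU
  have hz0 : (0 : ℂ) ∈ DD := by rw [mem_DD]; simp
  set V : ℂ → ℝ := fun ζ => th0 (L (r * ζ)).re with hVdef
  set m := circleAverage V 0 1 with hm
  have hm0 : 0 ≤ m := cA_nonneg_TT (fun ζ _ => th0_nonneg _)
  have hQd : DifferentiableOn ℂ (Hz V) DD := Hz_diff hV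
  -- Jensen
  have hJ : exp (2 * m) ≤ 1 + M2 f r := by
    have hg := gap_nonneg hV hz0
    unfold gap at hg
    rw [Ez_zero, Ez_zero] at hg
    have e1 : circleAverage (fun ζ => exp (2 * V ζ)) 0 1 = 1 + M2 f r := by
      have e2 : circleAverage (fun ζ => exp (2 * V ζ)) 0 1
          = circleAverage (fun ζ => 1 + ‖f (r * ζ)‖ ^ 2) 0 1 := by
        apply circleAverage_congr_sphere
        intro ζ hζ
        rw [abs_one] at hζ
        have hζ' : (r : ℂ) * ζ ∈ DD := dil_mem_closed hr0 hr1 (sphere_subset_closedBall hζ)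
        simp only [hVdef]
        rw [exp_two_th0, ← hf _ hζ', Complex.norm_exp, ← exp_nat_mul]
        norm_num
      have hcf : ContinuousOn (fun ζ => ‖f (r * ζ)‖ ^ 2) TT :=
        dil_cont_TT (continuousOn_norm_sq hfd) hr0 hr1
      rw [e2, circleAverage_fun_add (ci_of_cont continuousOn_const) (ci_of_cont hcf),
        circleAverage_const, M2_eq_unit]
    rw [e1] at hg
    linarith
  have hJ2 : ENNReal.ofReal (exp (2 * m)) ≤ 1 + nD α f := by
    calc ENNReal.ofReal (exp (2 * m)) ≤ ENNReal.ofReal (1 + M2 f r) :=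
          ENNReal.ofReal_le_ofReal hJ
      _ = 1 + ENNReal.ofReal (M2 f r) := by
          rw [ENNReal.ofReal_add (by norm_num) (M2_nonneg _ _)]; simp
      _ ≤ 1 + nD α f := by gcongr; exact M2_le_nD h0.le hfd hr0 hr1
  have hout := outer_nD (K := 1) h0 h1 hr0 hr1 hL th0_adm (c := 0) (by simp)
  have hfe : nD α (fun z => Complex.exp (L z)) = nD α f := nD_congr hf
  rw [hfe] at hout
  simp only [add_zero, one_pow, ENNReal.ofReal_one, mul_one] at hout
  have hE : nD α (fun z => Complex.exp (Hz V z)) ≤ (1 + nD α f) + 2 * nD α f :=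
    hout.trans (by gcongr)
  have hed : DifferentiableOn ℂ (fun z => Complex.exp (Hz V z)) DD := hQd.cexp
  have hpt : ∀ z ∈ DD, ‖deriv (Hz V) z‖ ^ 2 ≤ ‖deriv (fun z => Complex.exp (Hz V z)) z‖ ^ 2 := by
    intro z hz
    rw [deriv_exp_eq hQd (f := fun z => Complex.exp (Hz V z)) (fun _ _ => rfl) hz, norm_mul,
      Complex.norm_exp]
    have h2 : 1 ≤ exp (Hz V z).re := by
      rw [Hz_re hV hz]
      apply one_le_exp
      have := Ez_mono (continuousOn_const (c := (0 : ℝ))) hV hz (fun ζ _ => th0_nonneg _)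
      rwa [Ez_const hz] at this
    have h3 := norm_nonneg (deriv (Hz V) z)
    have h4 : ‖deriv (Hz V) z‖ ≤ exp (Hz V z).re * ‖deriv (Hz V) z‖ := by nlinarith
    gcongr
  have hQ0 : ENNReal.ofReal (‖Hz V 0‖ ^ 2) ≤ 1 + nD α f := by
    refine le_trans (ENNReal.ofReal_le_ofReal ?_) hJ2
    rw [Hz_zero hV, Complex.norm_real, Real.norm_of_nonneg hm0]
    have h5 : m ≤ exp m := by linarith [add_one_le_exp m]
    calc m ^ 2 ≤ (exp m) ^ 2 := by gcongr
      _ = exp (2 * m) := by rw [← exp_nat_mul]; norm_num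
  calc nD α (Hz V) ≤ ENNReal.ofReal (‖Hz V 0‖ ^ 2) + 8 * En α (fun z => ‖deriv (Hz V) z‖ ^ 2) :=
        nD_le_En h0.le h1 hQd
    _ ≤ (1 + nD α f) + 8 * En α (fun z => ‖deriv (fun z => Complex.exp (Hz V z)) z‖ ^ 2) := by
        gcongr
        exact En_mono (continuousOn_norm_sq (deriv_diff hQd))
          (continuousOn_norm_sq (deriv_diff hed)) hpt
    _ ≤ (1 + nD α f) + 8 * (2 * nD α (fun z => Complex.exp (Hz V z))) := by
        gcongr
        exact En_deriv_le h0.le h1 hed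
    _ ≤ (1 + nD α f) + 8 * (2 * ((1 + nD α f) + 2 * nD α f)) := by gcongr
    _ = _ := by ring

theorem exists_Q {α : ℝ} (h0 : 0 < α) (h1 : α ≤ 1) {L f : ℂ → ℂ} (hL : DifferentiableOn ℂ L DD)
    (hf : ∀ z ∈ DD, Complex.exp (L z) = f z) (hfD : InD α f) :
    ∃ Q : ℂ → ℂ, InD α Q ∧ ∀ z ∈ DD, 0 ≤ (Q z).re ∧ (L z).re ≤ (Q z).re := by
  set M : ℝ≥0∞ := (1 + nD α f) + 16 * ((1 + nD α f) + 2 * nD α f) with hM
  have hft := (inD_iff.1 hfD).2
  have hMt : M ≠ ∞ := by
    have h2 : 1 + nD α f ≠ ∞ := ENNReal.add_ne_top.2 ⟨by norm_num, hft⟩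
    refine ENNReal.add_ne_top.2 ⟨h2, ENNReal.mul_ne_top (by norm_num)
      (ENNReal.add_ne_top.2 ⟨h2, ENNReal.mul_ne_top (by norm_num) hft⟩)⟩
  set Qj : ℕ → ℂ → ℂ := fun j => Hz (fun ζ => th0 (L (rj j * ζ)).re) with hQj
  have hU : ∀ j, ContinuousOn (fun ζ => (L (rj j * ζ)).re) TT := fun j =>
    Complex.continuous_re.comp_continuousOn (dil_cont_TT hL.continuousOn (rj_nonneg j) (rj_lt j))
  have hV : ∀ j, ContinuousOn (fun ζ => th0 (L (rj j * ζ)).re) TT := fun j =>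
    th0_adm.diff.continuous.comp_continuousOn (hU j)
  have hb : ∀ j, nD α (Qj j) ≤ M := fun j =>
    Q_bound h0 h1 hL hf hfD.1 (rj_nonneg j) (rj_lt j)
  have hQd : ∀ j, DifferentiableOn ℂ (Qj j) DD := fun j => Hz_diff (hV j)
  have hC : ∀ j k, ‖tc (Qj j) k‖ ≤ M.toReal + 1 := fun j k => tc_le_of_nD h0.le hMt (hb j) k
  obtain ⟨b, φ, hφ, hbb, hlim⟩ := exists_subseq_tc hC
  have hlim' : ∀ z ∈ DD, Tendsto (fun j => Qj (φ j) z) atTop (𝓝 (ps b z)) := fun z hz =>
    tendsto_of_tc (fun j => hQd (φ j)) (fun j k => hC (φ j) k) hlim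
      (fun z hz => ps_hasSum hbb hz) hz
  refine ⟨ps b, inD_iff.2 ⟨ps_diff hbb, ?_⟩, ?_⟩
  · refine ne_top_of_le_ne_top hMt (nD_le_of_tendsto (F := fun j => Qj (φ j)) ?_
      (fun j => hb (φ j)))
    intro k
    rw [tc_ps hbb]
    exact hlim k
  · intro z hz
    have h3 : Tendsto (fun j => (Qj (φ j) z).re) atTop (𝓝 (ps b z).re) :=
      (Complex.continuous_re.tendsto _).comp (hlim' z hz)
    have h4 : Tendsto (fun j => (L (rj (φ j) * z)).re) atTop (𝓝 (L z).re) :=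
      (Complex.continuous_re.tendsto _).comp (tendsto_dil hL.continuousOn hz hφ)
    constructor
    · refine ge_of_tendsto' h3 (fun j => ?_)
      rw [hQj]
      simp only
      rw [Hz_re (hV (φ j)) hz]
      have := Ez_mono (continuousOn_const (c := (0 : ℝ))) (hV (φ j)) hz (fun ζ _ => th0_nonneg _)
      rwa [Ez_const hz] at this
    · refine le_of_tendsto_of_tendsto' h4 h3 (fun j => ?_)
      rw [hQj]
      simp only
      rw [Hz_re (hV (φ j)) hz, ← Ez_re (dil_dc hL (rj_nonneg _) (rj_lt _)) hz]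
      exact Ez_mono (hU (φ j)) (hV (φ j)) hz (fun ζ _ => le_th0 _)

end Pool.Agent.Cyc65
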