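import Pool.Agent.Lib_helper65.CycJensen

/-!
The closed subspace generated by the polynomial multiples; weak closure.
-/

namespace Pool.Agent.Cyc65

open Metric Set Filter Topology Real MeasureTheory InnerProductSpace
open scoped ENNReal

/-- the Hilbert space `ℓ²` -/
noncomputable abbrev HH := lp (fun _ : ℕ => ℂ) 2

/-- weak sequential closedness of closed subspaces of `ℓ²` -/
theorem weak_closed (S : Submodule ℂ HH) (hS : IsClosed (S : Set HH)) {x : HH} {X : ℕ → HH}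
    (hX : ∀ j, X j ∈ S) {C : ℝ} (hC : ∀ j, ‖X j‖ ≤ C)
    (hlim : ∀ k, Tendsto (fun j => X j k) atTop (𝓝 (x k))) : x ∈ S := by
  have : CompleteSpace S := hS.completeSpace_coe
  have key : ∀ y : HH, Tendsto (fun j => ⟪y, X j⟫_ℂ) atTop (𝓝 ⟪y, x⟫_ℂ) := by
    intro y
    have hfin : ∀ s : Finset ℕ, Tendsto
        (fun j => ⟪∑ i ∈ s, lp.single 2 i (y i), X j⟫_ℂ) atTop
        (𝓝 ⟪∑ i ∈ s, lp.single 2 i (y i), x⟫_ℂ) := by
      intro s
      simp_rw [sum_inner]
      apply tendsto_finsetSum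
      intro i _
      simp_rw [lp.inner_single_left]
      exact Tendsto.inner tendsto_const_nhds (hlim i)
    rw [Metric.tendsto_atTop]
    intro ε hε
    set D : ℝ := max C 0 + ‖x‖ + 1 with hD
    have hDpos : 0 < D := by positivity
    have hsum := lp.hasSum_single (p := 2) (by norm_num) y
    have hev := (Metric.tendsto_nhds.1 hsum) (ε / (3 * D)) (by positivity)
    obtain ⟨s, hs⟩ := hev.exists
    set ys := ∑ i ∈ s, lp.single 2 i (y i) with hys
    rw [dist_eq_norm] at hs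
    obtain ⟨N, hN⟩ := (Metric.tendsto_atTop.1 (hfin s)) (ε / 3) (by positivity)
    refine ⟨N, fun j hj => ?_⟩
    have h1 := hN j hj
    rw [dist_eq_norm] at h1 ⊢
    have e1 : ⟪y, X j⟫_ℂ - ⟪y, x⟫_ℂ = (⟪y - ys, X j⟫_ℂ - ⟪y - ys, x⟫_ℂ)
        + (⟪ys, X j⟫_ℂ - ⟪ys, x⟫_ℂ) := by
      rw [inner_sub_left, inner_sub_left]; ring
    rw [e1]
    have e2 : ‖⟪y - ys, X j⟫_ℂ‖ ≤ (ε / (3 * D)) * (max C 0) := by
      calc ‖⟪y - ys, X j⟫_ℂ‖ ≤ ‖y - ys‖ * ‖X j‖ := norm_inner_le_norm _ _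
        _ ≤ (ε / (3 * D)) * (max C 0) := by
          rw [norm_sub_rev] at hs
          have := hC j
          gcongr
          exact this.trans (le_max_left _ _)
    have e3 : ‖⟪y - ys, x⟫_ℂ‖ ≤ (ε / (3 * D)) * ‖x‖ := by
      calc ‖⟪y - ys, x⟫_ℂ‖ ≤ ‖y - ys‖ * ‖x‖ := norm_inner_le_norm _ _
        _ ≤ _ := by
          rw [norm_sub_rev] at hs
          gcongr
    have e4 : (ε / (3 * D)) * (max C 0) + (ε / (3 * D)) * ‖x‖ ≤ ε / 3 := by
      rw [← mul_add]
      calc (ε / (3 * D)) * (max C 0 + ‖x‖) ≤ (ε / (3 * D)) * D := by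
            gcongr; rw [hD]; linarith
        _ = ε / 3 := by field_simp
    calc ‖(⟪y - ys, X j⟫_ℂ - ⟪y - ys, x⟫_ℂ) + (⟪ys, X j⟫_ℂ - ⟪ys, x⟫_ℂ)‖
        ≤ ‖⟪y - ys, X j⟫_ℂ - ⟪y - ys, x⟫_ℂ‖ + ‖⟪ys, X j⟫_ℂ - ⟪ys, x⟫_ℂ‖ := norm_add_le _ _
      _ ≤ (‖⟪y - ys, X j⟫_ℂ‖ + ‖⟪y - ys, x⟫_ℂ‖) + ‖⟪ys, X j⟫_ℂ - ⟪ys, x⟫_ℂ‖ := by
          gcongr; exact norm_sub_le _ _
      _ < ε := by linarith
  rw [← Submodule.orthogonal_orthogonal S]
  rw [Submodule.mem_orthogonal]
  intro y hy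
  have h1 : ∀ j, ⟪y, X j⟫_ℂ = 0 := by
    intro j
    exact Submodule.inner_left_of_mem_orthogonal (hX j) hy
  have h2 := key y
  simp_rw [h1] at h2
  exact (tendsto_nhds_unique h2 tendsto_const_nhds)

/-- coordinates in `ℓ²` -/
theorem memlp_of {α : ℝ} {f : ℂ → ℂ} (h : InD α f) :
    Memℓp (fun k : ℕ => ((((k : ℝ) + 1) ^ (α / 2) : ℝ) : ℂ) * tc f k) 2 := by
  rw [memℓp_gen_iff (by norm_num)]
  refine h.2.congr ?_
  intro k
  have hk : (0 : ℝ) ≤ (k : ℝ) + 1 := by positivity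
  rw [norm_mul, Complex.norm_real, Real.norm_of_nonneg (by positivity)]
  simp only [ENNReal.toReal_ofNat, rpow_two]
  rw [mul_pow, ← rpow_natCast (((k : ℝ) + 1) ^ (α / 2)), ← rpow_mul hk]
  push_cast
  rw [show α / 2 * 2 = α by ring]
  ring

/-- the isometry `D_α → ℓ²` -/
noncomputable def toH (α : ℝ) (f : ℂ → ℂ) (h : InD α f) : HH :=
  ⟨fun k : ℕ => ((((k : ℝ) + 1) ^ (α / 2) : ℝ) : ℂ) * tc f k, memlp_of h⟩

theorem toH_apply {α : ℝ} {f : ℂ → ℂ} (h : InD α f) (k : ℕ) :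
    toH α f h k = ((((k : ℝ) + 1) ^ (α / 2) : ℝ) : ℂ) * tc f k := rfl

theorem toH_norm {α : ℝ} {f : ℂ → ℂ} (h : InD α f) :
    ENNReal.ofReal (‖toH α f h‖ ^ 2) = nD α f := by
  have h1 := lp.norm_rpow_eq_tsum (p := 2) (by norm_num) (toH α f h)
  simp only [ENNReal.toReal_ofNat, rpow_two] at h1
  rw [h1, ← normSqD_eq h]
  congr 1
  unfold normSqD
  apply tsum_congr
  intro k
  have hk : (0 : ℝ) ≤ (k : ℝ) + 1 := by positivity
  rw [toH_apply, norm_mul, Complex.norm_real, Real.norm_of_nonneg (by positivity), mul_pow,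
    ← rpow_natCast (((k : ℝ) + 1) ^ (α / 2)), ← rpow_mul hk]
  push_cast
  rw [show α / 2 * 2 = α by ring]
  ring

theorem nD_add_le {α : ℝ} {f g : ℂ → ℂ} (hf : DifferentiableOn ℂ f DD)
    (hg : DifferentiableOn ℂ g DD) :
    nD α (fun z => f z + g z) ≤ 2 * nD α f + 2 * nD α g := by
  unfold nD
  rw [← ENNReal.tsum_mul_left, ← ENNReal.tsum_mul_left, ← ENNReal.tsum_add]
  apply ENNReal.tsum_le_tsum
  intro k
  have h2 : (2 : ℝ≥0∞) = ENNReal.ofReal 2 := by norm_num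
  rw [h2, ← ENNReal.ofReal_mul (by norm_num), ← ENNReal.ofReal_mul (by norm_num),
    ← ENNReal.ofReal_add (by positivity) (by positivity)]
  apply ENNReal.ofReal_le_ofReal
  rw [tc_add hf hg]
  have h3 : ‖tc f k + tc g k‖ ^ 2 ≤ 2 * ‖tc f k‖ ^ 2 + 2 * ‖tc g k‖ ^ 2 := by
    have := norm_add_le (tc f k) (tc g k)
    have h0 := norm_nonneg (tc f k + tc g k)
    nlinarith [sq_nonneg (‖tc f k‖ - ‖tc g k‖)]
  calc ‖tc f k + tc g k‖ ^ 2 * ((k : ℝ) + 1) ^ α
      ≤ (2 * ‖tc f k‖ ^ 2 + 2 * ‖tc g k‖ ^ 2) * ((k : ℝ) + 1) ^ α := by gcongr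
    _ = _ := by ring

theorem nD_sub_le {α : ℝ} {f g : ℂ → ℂ} (hf : DifferentiableOn ℂ f DD)
    (hg : DifferentiableOn ℂ g DD) :
    nD α (fun z => f z - g z) ≤ 2 * nD α f + 2 * nD α g := by
  have h := nD_add_le (α := α) hf (hg.neg)
  have h1 : (fun z => f z - g z) = fun z => f z + (-g) z := by
    ext z; simp [sub_eq_add_neg]
  have h2 : nD α (-g) = nD α g := by
    unfold nD
    congr 1; ext k
    have : tc (-g) k = - tc g k := by
      have := tc_const_mul hg (-1) k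
      have h3 : (fun z => -1 * g z) = -g := by ext z; simp
      rw [h3] at this
      rw [this]; ring
    rw [this, norm_neg]
  rw [h1]
  rw [h2] at h
  exact h

theorem InD.add {α : ℝ} {f g : ℂ → ℂ} (hf : InD α f) (hg : InD α g) :
    InD α (fun z => f z + g z) := by
  rw [inD_iff] at *
  refine ⟨hf.1.add hg.1, ne_top_of_le_ne_top ?_ (nD_add_le hf.1 hg.1)⟩
  exact ENNReal.add_ne_top.2 ⟨ENNReal.mul_ne_top (by norm_num) hf.2,
    ENNReal.mul_ne_top (by norm_num) hg.2⟩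

theorem InD.sub {α : ℝ} {f g : ℂ → ℂ} (hf : InD α f) (hg : InD α g) :
    InD α (fun z => f z - g z) := by
  rw [inD_iff] at *
  refine ⟨hf.1.sub hg.1, ne_top_of_le_ne_top ?_ (nD_sub_le hf.1 hg.1)⟩
  exact ENNReal.add_ne_top.2 ⟨ENNReal.mul_ne_top (by norm_num) hf.2,
    ENNReal.mul_ne_top (by norm_num) hg.2⟩

/-- multiplication by a function bounded together with its derivative -/
theorem nD_mul_le {α : ℝ} (h0 : 0 ≤ α) (h1 : α ≤ 1) {φ f : ℂ → ℂ}
    (hφ : DifferentiableOn ℂ φ DD) (hf : DifferentiableOn ℂ f DD) {A : ℝ}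
    (hA : ∀ z ∈ DD, ‖φ z‖ ≤ A) (hA' : ∀ z ∈ DD, ‖deriv φ z‖ ≤ A) :
    nD α (fun z => φ z * f z) ≤ ENNReal.ofReal (65 * A ^ 2) * nD α f := by
  have hA0 : 0 ≤ A := (norm_nonneg _).trans (hA 0 (mem_ball_self one_pos))
  have hfc : ContinuousOn (fun z => ‖f z‖ ^ 2) DD := continuousOn_norm_sq hf
  have hf'c : ContinuousOn (fun z => ‖deriv f z‖ ^ 2) DD := continuousOn_norm_sq (deriv_diff hf)
  have hprod : DifferentiableOn ℂ (fun z => φ z * f z) DD := hφ.mul hf
  have hd : ∀ z ∈ DD, deriv (fun z => φ z * f z) z = deriv φ z * f z + φ z * deriv f z := by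
    intro z hz
    have hφz := (hφ.differentiableAt (isOpen_ball.mem_nhds hz))
    have hfz := (hf.differentiableAt (isOpen_ball.mem_nhds hz))
    exact deriv_fun_mul hφz hfz
  have hpt : ∀ z ∈ DD, ‖deriv (fun z => φ z * f z) z‖ ^ 2
      ≤ 2 * A ^ 2 * ‖f z‖ ^ 2 + 2 * A ^ 2 * ‖deriv f z‖ ^ 2 := by
    intro z hz
    rw [hd z hz]
    have e1 : ‖deriv φ z * f z + φ z * deriv f z‖ ≤ A * ‖f z‖ + A * ‖deriv f z‖ := by
      calc _ ≤ ‖deriv φ z * f z‖ + ‖φ z * deriv f z‖ := norm_add_le _ _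
        _ = ‖deriv φ z‖ * ‖f z‖ + ‖φ z‖ * ‖deriv f z‖ := by rw [norm_mul, norm_mul]
        _ ≤ _ := by
          gcongr
          · exact hA' z hz
          · exact hA z hz
    have e2 := norm_nonneg (deriv φ z * f z + φ z * deriv f z)
    calc ‖deriv φ z * f z + φ z * deriv f z‖ ^ 2 ≤ (A * ‖f z‖ + A * ‖deriv f z‖) ^ 2 := by gcongr
      _ ≤ _ := by nlinarith [sq_nonneg (A * ‖f z‖ - A * ‖deriv f z‖)]
  have hEnf : En α (fun z => ‖f z‖ ^ 2) ≤ 2 * nD α f := by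
    rw [En_sq_eq h1 hf]
    unfold nD
    rw [← ENNReal.tsum_mul_left]
    apply ENNReal.tsum_le_tsum
    intro k
    calc ENNReal.ofReal (‖tc f k‖ ^ 2) * bt α k
        ≤ ENNReal.ofReal (‖tc f k‖ ^ 2) * ENNReal.ofReal (2 * ((k : ℝ) + 1) ^ (α - 2)) := by
          gcongr; exact bt_le h0 h1 k
      _ ≤ ENNReal.ofReal (‖tc f k‖ ^ 2) * ENNReal.ofReal (2 * ((k : ℝ) + 1) ^ α) := by
          gcongr
          · linarith [Nat.cast_nonneg (α := ℝ) k]
          · linarith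
      _ = _ := by
          rw [← ENNReal.ofReal_mul (by positivity)]
          have : (2 : ℝ≥0∞) = ENNReal.ofReal 2 := by norm_num
          rw [this, ← ENNReal.ofReal_mul (by norm_num)]
          congr 1; ring
  have hEnd := En_deriv_le h0 h1 hf
  have hfinal : En α (fun z => ‖deriv (fun z => φ z * f z) z‖ ^ 2)
      ≤ ENNReal.ofReal (8 * A ^ 2) * nD α f := by
    calc En α (fun z => ‖deriv (fun z => φ z * f z) z‖ ^ 2)
        ≤ En α (fun z => 2 * A ^ 2 * ‖f z‖ ^ 2 + 2 * A ^ 2 * ‖deriv f z‖ ^ 2) :=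
          En_mono (continuousOn_norm_sq (deriv_diff hprod))
            ((hfc.const_mul _ |> fun h => h).add (hf'c.const_mul _ |> fun h => h)) hpt
      _ = ENNReal.ofReal (2 * A ^ 2) * En α (fun z => ‖f z‖ ^ 2)
          + ENNReal.ofReal (2 * A ^ 2) * En α (fun z => ‖deriv f z‖ ^ 2) := by
          rw [En_add h1 (φ := fun z => 2 * A ^ 2 * ‖f z‖ ^ 2)
            (ψ := fun z => 2 * A ^ 2 * ‖deriv f z‖ ^ 2) (hfc.const_mul _ |> fun h => h)
            (hf'c.const_mul _ |> fun h => h) (fun z _ => by positivity) (fun z _ => by positivity),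
            En_const_mul (by positivity), En_const_mul (by positivity)]
      _ ≤ ENNReal.ofReal (2 * A ^ 2) * (2 * nD α f) + ENNReal.ofReal (2 * A ^ 2) * (2 * nD α f) := by
          gcongr
      _ = ENNReal.ofReal (8 * A ^ 2) * nD α f := by
          rw [← mul_add, ← add_mul, ← mul_assoc]
          congr 1
          have : (2 + 2 : ℝ≥0∞) = ENNReal.ofReal 4 := by norm_num
          rw [this, ← ENNReal.ofReal_mul (by positivity)]
          congr 1; ring
  have h00 : ENNReal.ofReal (‖φ 0 * f 0‖ ^ 2) ≤ ENNReal.ofReal (A ^ 2) * nD α f := by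
    have e1 : ENNReal.ofReal (‖f 0‖ ^ 2) ≤ nD α f := by
      have := M2_le_nD h0 hf (le_refl 0) one_pos
      simpa [M2] using this
    calc ENNReal.ofReal (‖φ 0 * f 0‖ ^ 2) ≤ ENNReal.ofReal (A ^ 2 * ‖f 0‖ ^ 2) := by
          apply ENNReal.ofReal_le_ofReal
          rw [norm_mul, mul_pow]
          gcongr
          exact hA 0 (mem_ball_self one_pos)
      _ = ENNReal.ofReal (A ^ 2) * ENNReal.ofReal (‖f 0‖ ^ 2) := ENNReal.ofReal_mul (by positivity)
      _ ≤ _ := by gcongr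
  calc nD α (fun z => φ z * f z)
      ≤ ENNReal.ofReal (‖φ 0 * f 0‖ ^ 2)
        + 8 * En α (fun z => ‖deriv (fun z => φ z * f z) z‖ ^ 2) := nD_le_En h0 h1 hprod
    _ ≤ ENNReal.ofReal (A ^ 2) * nD α f + 8 * (ENNReal.ofReal (8 * A ^ 2) * nD α f) := by
        gcongr
    _ = ENNReal.ofReal (65 * A ^ 2) * nD α f := by
        rw [← mul_assoc, ← add_mul]
        congr 1
        have : (8 : ℝ≥0∞) = ENNReal.ofReal 8 := by norm_num
        rw [this, ← ENNReal.ofReal_mul (by norm_num), ← ENNReal.ofReal_add (by positivity)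
          (by positivity)]
        congr 1; ring

theorem poly_bound (p : Polynomial ℂ) : ∃ A : ℝ, (∀ z ∈ DD, ‖p.eval z‖ ≤ A) ∧
    ∀ z ∈ DD, ‖deriv (fun z => p.eval z) z‖ ≤ A := by
  have hK : IsCompact (closedBall (0 : ℂ) 1) := isCompact_closedBall 0 1
  obtain ⟨A1, hA1⟩ := hK.exists_bound_of_continuousOn (f := fun z => p.eval z)
    p.continuous.continuousOn
  obtain ⟨A2, hA2⟩ := hK.exists_bound_of_continuousOn (f := fun z => p.derivative.eval z)
    p.derivative.continuous.continuousOn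
  refine ⟨max A1 A2, ?_, ?_⟩
  · intro z hz
    exact (hA1 z (ball_subset_closedBall hz)).trans (le_max_left _ _)
  · intro z hz
    rw [Polynomial.deriv]
    exact (hA2 z (ball_subset_closedBall hz)).trans (le_max_right _ _)

theorem InD.poly_mul {α : ℝ} (h0 : 0 ≤ α) (h1 : α ≤ 1) {f : ℂ → ℂ} (hf : InD α f)
    (p : Polynomial ℂ) : InD α (fun z => p.eval z * f z) := by
  obtain ⟨A, hA, hA'⟩ := poly_bound p
  rw [inD_iff] at *
  have hp : DifferentiableOn ℂ (fun z => p.eval z) DD := p.differentiable.differentiableOn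
  refine ⟨hp.mul hf.1, ne_top_of_le_ne_top ?_ (nD_mul_le h0 h1 hp hf.1 hA hA')⟩
  exact ENNReal.mul_ne_top ENNReal.ofReal_ne_top hf.2

/-- membership in the closure of the polynomial multiples -/
def Mem (α : ℝ) (f x : ℂ → ℂ) : Prop :=
  InD α x ∧ ∀ ε : ℝ, 0 < ε → ∃ p : Polynomial ℂ,
    nD α (fun z => p.eval z * f z - x z) < ENNReal.ofReal ε

/-- the linear span -/
noncomputable def spanH {α : ℝ} (h0 : 0 ≤ α) (h1 : α ≤ 1) {f : ℂ → ℂ} (hf : InD α f) :
    Submodule ℂ HH where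
  carrier := {v | ∃ p : Polynomial ℂ, v = toH α (fun z => p.eval z * f z) (hf.poly_mul h0 h1 p)}
  add_mem' := by
    rintro _ _ ⟨p, rfl⟩ ⟨q, rfl⟩
    refine ⟨p + q, ?_⟩
    apply lp.ext
    ext k
    rw [lp.coeFn_add, Pi.add_apply, toH_apply, toH_apply, toH_apply, ← mul_add,
      ← tc_add (hf.poly_mul h0 h1 p).1 (hf.poly_mul h0 h1 q).1]
    congr 2
    ext z
    rw [Polynomial.eval_add]; ring
  zero_mem' := by
    refine ⟨0, ?_⟩
    apply lp.ext
    ext k
    rw [toH_apply]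
    have : tc (fun z => (0 : Polynomial ℂ).eval z * f z) k = 0 := by
      simp only [Polynomial.eval_zero, zero_mul]
      rw [tc_const]; simp
    rw [this, mul_zero]
    simp
  smul_mem' := by
    rintro c _ ⟨p, rfl⟩
    refine ⟨Polynomial.C c * p, ?_⟩
    apply lp.ext
    ext k
    rw [lp.coeFn_smul, Pi.smul_apply, toH_apply, toH_apply, smul_eq_mul]
    have : tc (fun z => (Polynomial.C c * p).eval z * f z) k
        = c * tc (fun z => p.eval z * f z) k := by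
      rw [← tc_const_mul (hf.poly_mul h0 h1 p).1]
      congr 1
      ext z
      rw [Polynomial.eval_mul, Polynomial.eval_C]; ring
    rw [this]; ring

theorem toH_sub {α : ℝ} {f g : ℂ → ℂ} (hf : InD α f) (hg : InD α g) :
    toH α f hf - toH α g hg = toH α (fun z => f z - g z) (hf.sub hg) := by
  apply lp.ext
  ext k
  rw [lp.coeFn_sub, Pi.sub_apply, toH_apply, toH_apply, toH_apply, tc_sub hf.1 hg.1]
  ring

theorem mem_iff {α : ℝ} (h0 : 0 ≤ α) (h1 : α ≤ 1) {f x : ℂ → ℂ} (hf : InD α f)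
    (hx : InD α x) :
    Mem α f x ↔ toH α x hx ∈ (spanH h0 h1 hf).topologicalClosure := by
  have hS : ((spanH h0 h1 hf).topologicalClosure : Set HH) = closure (spanH h0 h1 hf : Set HH) :=
    Submodule.topologicalClosure_coe _
  have e0 : toH α x hx ∈ (spanH h0 h1 hf).topologicalClosure ↔
      toH α x hx ∈ closure (spanH h0 h1 hf : Set HH) := by
    rw [← hS]; rfl
  rw [e0, Metric.mem_closure_iff]
  constructor
  · rintro ⟨-, h⟩ ε hε
    obtain ⟨p, hp⟩ := h (ε ^ 2) (by positivity)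
    refine ⟨toH α (fun z => p.eval z * f z) (hf.poly_mul h0 h1 p), ⟨p, rfl⟩, ?_⟩
    rw [dist_comm, dist_eq_norm, toH_sub]
    rw [← toH_norm ((hf.poly_mul h0 h1 p).sub hx)] at hp
    rw [ENNReal.ofReal_lt_ofReal_iff (by positivity)] at hp
    exact lt_of_pow_lt_pow_left₀ 2 hε.le hp
  · intro h
    refine ⟨hx, fun ε hε => ?_⟩
    obtain ⟨_, ⟨p, rfl⟩, hp⟩ := h (Real.sqrt ε) (Real.sqrt_pos.2 hε)
    refine ⟨p, ?_⟩
    rw [dist_comm, dist_eq_norm, toH_sub] at hp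
    rw [← toH_norm ((hf.poly_mul h0 h1 p).sub hx)]
    rw [ENNReal.ofReal_lt_ofReal_iff hε]
    calc _ < (Real.sqrt ε) ^ 2 := pow_lt_pow_left₀ hp (norm_nonneg _) two_ne_zero
      _ = ε := Real.sq_sqrt hε.le

/-- **Weak closure.** -/
theorem Mem.of_tendsto {α : ℝ} (h0 : 0 ≤ α) (h1 : α ≤ 1) {f x : ℂ → ℂ} (hf : InD α f)
    {X : ℕ → ℂ → ℂ} (hX : ∀ j, Mem α f (X j)) {C : ℝ≥0∞} (hCt : C ≠ ∞)
    (hC : ∀ j, nD α (X j) ≤ C) (hx : DifferentiableOn ℂ x DD)
    (hlim : ∀ k, Tendsto (fun j => tc (X j) k) atTop (𝓝 (tc x k))) : Mem α f x := by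
  have hxD : InD α x := by
    rw [inD_iff]
    exact ⟨hx, ne_top_of_le_ne_top hCt (nD_le_of_tendsto hlim hC)⟩
  rw [mem_iff h0 h1 hf hxD]
  apply weak_closed _ (Submodule.isClosed_topologicalClosure _)
    (X := fun j => toH α (X j) (hX j).1) (C := Real.sqrt C.toReal)
  · intro j
    exact (mem_iff h0 h1 hf (hX j).1).1 (hX j)
  · intro j
    apply Real.le_sqrt_of_sq_le
    have := hC j
    rw [← toH_norm (hX j).1] at this
    exact (ENNReal.ofReal_le_iff_le_toReal hCt).1 this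
  · intro k
    simp only [toH_apply]
    exact (hlim k).const_mul _

/-- transitivity -/
theorem Mem.trans {α : ℝ} (h0 : 0 ≤ α) (h1 : α ≤ 1) {f x y : ℂ → ℂ} (hf : InD α f)
    (hx : Mem α f x) (hy : Mem α x y) : Mem α f y := by
  refine ⟨hy.1, fun ε hε => ?_⟩
  obtain ⟨q, hq⟩ := hy.2 (ε / 4) (by positivity)
  obtain ⟨A, hA, hA'⟩ := poly_bound q
  obtain ⟨p, hp⟩ := hx.2 (ε / (4 * (65 * A ^ 2 + 1))) (by positivity)
  refine ⟨q * p, ?_⟩
  have hxD := hx.1
  have hyD := hy.1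
  have hdq : DifferentiableOn ℂ (fun z => q.eval z) DD := q.differentiable.differentiableOn
  have hpf := hf.poly_mul h0 h1 p
  have e1 : (fun z => (q * p).eval z * f z - y z) = fun z =>
      (q.eval z * (p.eval z * f z - x z)) + (q.eval z * x z - y z) := by
    ext z; rw [Polynomial.eval_mul]; ring
  rw [e1]
  calc nD α (fun z => (q.eval z * (p.eval z * f z - x z)) + (q.eval z * x z - y z))
      ≤ 2 * nD α (fun z => q.eval z * (p.eval z * f z - x z))
        + 2 * nD α (fun z => q.eval z * x z - y z) :=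
        nD_add_le (hdq.mul (hpf.1.sub hxD.1)) ((hdq.mul hxD.1).sub hyD.1)
    _ ≤ 2 * (ENNReal.ofReal (65 * A ^ 2) * nD α (fun z => p.eval z * f z - x z))
        + 2 * nD α (fun z => q.eval z * x z - y z) := by
        gcongr
        exact nD_mul_le h0 h1 hdq (hpf.1.sub hxD.1) hA hA'
    _ ≤ 2 * (ENNReal.ofReal (65 * A ^ 2) * ENNReal.ofReal (ε / (4 * (65 * A ^ 2 + 1))))
        + 2 * nD α (fun z => q.eval z * x z - y z) := by
        gcongr
    _ < 2 * (ENNReal.ofReal (65 * A ^ 2) * ENNReal.ofReal (ε / (4 * (65 * A ^ 2 + 1))))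
        + 2 * ENNReal.ofReal (ε / 4) := by
        apply ENNReal.add_lt_add_left
        · exact ENNReal.mul_ne_top (by norm_num)
            (ENNReal.mul_ne_top ENNReal.ofReal_ne_top ENNReal.ofReal_ne_top)
        · rw [ENNReal.mul_lt_mul_iff_right (by norm_num) (by norm_num)]
          exact hq
    _ ≤ ENNReal.ofReal ε := by
        have : (2 : ℝ≥0∞) = ENNReal.ofReal 2 := by norm_num
        rw [this, ← ENNReal.ofReal_mul (by positivity), ← ENNReal.ofReal_mul (by positivity),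
          ← ENNReal.ofReal_mul (by positivity), ← ENNReal.ofReal_add (by positivity) (by positivity)]
        apply ENNReal.ofReal_le_ofReal
        have : 65 * A ^ 2 * (ε / (4 * (65 * A ^ 2 + 1))) ≤ ε / 4 := by
          rw [mul_div_assoc', div_le_div_iff₀ (by positivity) (by norm_num)]
          nlinarith [sq_nonneg A, hε]
        linarith

theorem Mem.self_of {α : ℝ} {f : ℂ → ℂ} (hf : InD α f) : Mem α f f := by
  refine ⟨hf, fun ε hε => ⟨1, ?_⟩⟩
  have : (fun z => (1 : Polynomial ℂ).eval z * f z - f z) = fun _ => 0 := by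
    ext z; simp
  rw [this]
  have h2 : nD α (fun _ => (0 : ℂ)) = 0 := by
    unfold nD
    simp [tc_const]
  rw [h2]
  exact ENNReal.ofReal_pos.2 hε

end Pool.Agent.Cyc65
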