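import Pool.Agent.Lib_helper65.CycUI

/-!
Holomorphic branches of powers of the logarithm: modulus, derivative, and the consequences of
`(log f)^t ∈ D_α`.
-/

namespace Pool.Agent.Cyc65

open Metric Set Filter Topology Real MeasureTheory InnerProductSpace
open scoped ENNReal

theorem DD_open : IsOpen DD := isOpen_ball

theorem DD_nhds {z : ℂ} (hz : z ∈ DD) : DD ∈ 𝓝 z := DD_open.mem_nhds hz

theorem IsPowBranch.norm_eq {t : ℝ} (ht : 0 < t) {L g : ℂ → ℂ} (h : IsPowBranch t L g) {z : ℂ}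
    (hz : z ∈ DD) : ‖g z‖ = ‖L z‖ ^ t := by
  by_cases h0 : L z = 0
  · rw [(h.2 z hz).1 h0, h0, norm_zero, zero_rpow ht.ne']
  · obtain ⟨w, hw, hg⟩ := (h.2 z hz).2 h0
    rw [hg, ← hw, Complex.norm_exp, Complex.norm_exp, Complex.re_ofReal_mul, ← exp_mul, mul_comm]

theorem IsPowBranch.deriv_eq {t : ℝ} (ht : 0 < t) {L g : ℂ → ℂ} (h : IsPowBranch t L g)
    (hL : DifferentiableOn ℂ L DD) {z : ℂ} (hz : z ∈ DD) (h0 : L z ≠ 0) :
    deriv g z = t * (deriv L z / L z) * g z := by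
  set ℓ : ℂ → ℂ := fun w => Complex.log (L w / L z) with hℓ
  have hLat : DifferentiableAt ℂ L z := hL.differentiableAt (DD_nhds hz)
  have hgat : DifferentiableAt ℂ g z := h.1.differentiableAt (DD_nhds hz)
  have hcont : ContinuousAt (fun w => L w / L z) z := (hLat.continuousAt).div_const _
  have h1 : (fun w => L w / L z) z ∈ Complex.slitPlane := by
    simp only [div_self h0]
    exact Complex.one_mem_slitPlane
  have hev : ∀ᶠ w in 𝓝 z, w ∈ DD ∧ L w / L z ∈ Complex.slitPlane :=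
    (eventually_mem_set.2 (DD_nhds hz)).and
      (hcont.eventually (Complex.isOpen_slitPlane.mem_nhds h1))
  set u : ℂ → ℂ := fun w => g w * Complex.exp (-(t * ℓ w)) with hu
  have hℓd : ∀ w, w ∈ DD → L w / L z ∈ Complex.slitPlane →
      HasDerivAt ℓ (deriv L w / L z / (L w / L z)) w := by
    intro w hw hs
    exact (((hL.differentiableAt (DD_nhds hw)).hasDerivAt).div_const (L z)).clog hs
  have hud : ∀ w, w ∈ DD → L w / L z ∈ Complex.slitPlane → DifferentiableAt ℂ u w := by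
    intro w hw hs
    exact (h.1.differentiableAt (DD_nhds hw)).mul
      (((hℓd w hw hs).differentiableAt.const_mul (t : ℂ)).neg.cexp)
  have hnorm : ∀ w, w ∈ DD → L w / L z ∈ Complex.slitPlane → ‖u w‖ = ‖L z‖ ^ t := by
    intro w hw hs
    have hq0 : L w / L z ≠ 0 := Complex.slitPlane_ne_zero hs
    have hz0 : 0 < ‖L z‖ := norm_pos_iff.2 h0
    rw [hu]
    simp only
    rw [norm_mul, h.norm_eq ht hw, Complex.norm_exp, Complex.neg_re, Complex.re_ofReal_mul, hℓ]
    simp only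
    rw [Complex.log_re]
    have hq : 0 < ‖L w / L z‖ := norm_pos_iff.2 hq0
    rw [show -(t * log ‖L w / L z‖) = log ‖L w / L z‖ * (-t) by ring, ← rpow_def_of_pos hq,
      norm_div, rpow_neg (by positivity), div_rpow (norm_nonneg _) (norm_nonneg _)]
    have hw0 : 0 < ‖L w‖ := by
      apply norm_pos_iff.2
      intro h'
      rw [h', zero_div] at hq0
      exact hq0 rfl
    have : 0 < ‖L w‖ ^ t := by positivity
    field_simp
  have hzmem : L z / L z ∈ Complex.slitPlane := h1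
  have hlm : IsLocalMax (norm ∘ u) z := by
    filter_upwards [hev] with w hw
    simp only [Function.comp_apply]
    rw [hnorm w hw.1 hw.2, hnorm z hz hzmem]
  have hconst := Complex.eventually_eq_of_isLocalMax_norm
    (hev.mono (fun w hw => hud w hw.1 hw.2)) hlm
  have hd0 : HasDerivAt u 0 z :=
    (hasDerivAt_const z (u z)).congr_of_eventuallyEq hconst
  have hℓz : HasDerivAt ℓ (deriv L z / L z) z := by
    have := hℓd z hz hzmem
    rwa [div_self h0, div_one] at this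
  have hd1 : HasDerivAt u (deriv g z * Complex.exp (-(t * ℓ z)) +
      g z * (Complex.exp (-(t * ℓ z)) * (-(t * (deriv L z / L z))))) z :=
    hgat.hasDerivAt.mul ((hℓz.const_mul (t : ℂ)).neg.cexp)
  have he := hd0.unique hd1
  have hexp := Complex.exp_ne_zero (-(t * ℓ z))
  have h5 : Complex.exp (-(t * ℓ z)) * (deriv g z - t * (deriv L z / L z) * g z) = 0 := by
    rw [he]; ring
  have h6 := (mul_eq_zero.1 h5).resolve_left hexp
  exact sub_eq_zero.1 h6

theorem deriv_exp_eq {L f : ℂ → ℂ} (hL : DifferentiableOn ℂ L DD)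
    (hf : ∀ z ∈ DD, Complex.exp (L z) = f z) {z : ℂ} (hz : z ∈ DD) :
    deriv f z = f z * deriv L z := by
  have h1 : HasDerivAt (fun z => Complex.exp (L z)) (Complex.exp (L z) * deriv L z) z :=
    ((hL.differentiableAt (DD_nhds hz)).hasDerivAt).cexp
  have h2 : f =ᶠ[𝓝 z] (fun z => Complex.exp (L z)) := by
    filter_upwards [DD_nhds hz] with w hw
    exact (hf w hw).symm
  rw [h2.deriv_eq, h1.deriv, hf z hz]

/-- pointwise estimate -/
theorem star_pointwise {t : ℝ} (ht : 0 < t) {L g f : ℂ → ℂ} (hL : DifferentiableOn ℂ L DD)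
    (hf : ∀ z ∈ DD, Complex.exp (L z) = f z) (h : IsPowBranch t L g) {z : ℂ} (hz : z ∈ DD) :
    (1 + ‖L z‖) ^ (2 * min t (1 / 2) - 2) * ‖deriv L z‖ ^ 2 ≤
      (exp 2 + 1 / t ^ 2) * (‖deriv f z‖ ^ 2 + ‖deriv g z‖ ^ 2) := by
  set τ := min t (1 / 2) with hτ
  have hτ1 : τ ≤ 1 / 2 := min_le_right _ _
  have hτt : τ ≤ t := min_le_left _ _
  have hτ0 : 0 < τ := by rw [hτ]; positivity
  have hL0 := norm_nonneg (L z)
  rcases le_or_gt ‖L z‖ 1 with h1 | h1
  · -- small `L`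
    have h2 : (1 + ‖L z‖) ^ (2 * τ - 2) ≤ 1 :=
      rpow_le_one_of_one_le_of_nonpos (by linarith) (by linarith)
    have h3 : exp (-1) ≤ ‖f z‖ := by
      rw [← hf z hz, Complex.norm_exp]
      apply exp_le_exp.2
      have := (abs_le.1 (Complex.abs_re_le_norm (L z))).1
      linarith
    have h4 : ‖deriv f z‖ = ‖f z‖ * ‖deriv L z‖ := by
      rw [deriv_exp_eq hL hf hz, norm_mul]
    have h5 : ‖deriv L z‖ ≤ exp 1 * ‖deriv f z‖ := by
      rw [h4]
      have : (1 : ℝ) = exp 1 * exp (-1) := by rw [← exp_add]; simp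
      calc ‖deriv L z‖ = exp 1 * (exp (-1) * ‖deriv L z‖) := by rw [← mul_assoc, ← this, one_mul]
        _ ≤ exp 1 * (‖f z‖ * ‖deriv L z‖) := by gcongr
    have h6 : ‖deriv L z‖ ^ 2 ≤ exp 2 * ‖deriv f z‖ ^ 2 := by
      calc ‖deriv L z‖ ^ 2 ≤ (exp 1 * ‖deriv f z‖) ^ 2 := by gcongr
        _ = exp 2 * ‖deriv f z‖ ^ 2 := by
          rw [mul_pow, ← exp_nat_mul]; norm_num
    calc (1 + ‖L z‖) ^ (2 * τ - 2) * ‖deriv L z‖ ^ 2 ≤ 1 * (exp 2 * ‖deriv f z‖ ^ 2) := by
          gcongr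
      _ ≤ _ := by
          have : 0 < exp 2 := exp_pos 2
          have h7 : 0 ≤ 1 / t ^ 2 := by positivity
          nlinarith [sq_nonneg ‖deriv f z‖, sq_nonneg ‖deriv g z‖,
            mul_nonneg h7 (sq_nonneg ‖deriv f z‖), mul_nonneg h7 (sq_nonneg ‖deriv g z‖),
            mul_nonneg this.le (sq_nonneg ‖deriv g z‖)]
  · -- large `L`
    have hLz : L z ≠ 0 := by
      intro h'; rw [h', norm_zero] at h1; linarith
    have hLp : 0 < ‖L z‖ := by linarith
    have h2 : (1 + ‖L z‖) ^ (2 * τ - 2) ≤ ‖L z‖ ^ (2 * t - 2) := by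
      calc (1 + ‖L z‖) ^ (2 * τ - 2) ≤ ‖L z‖ ^ (2 * τ - 2) :=
            rpow_le_rpow_of_nonpos hLp (by linarith) (by linarith)
        _ ≤ ‖L z‖ ^ (2 * t - 2) := rpow_le_rpow_of_exponent_le h1.le (by linarith)
    have h3 : ‖deriv g z‖ = t * ‖deriv L z‖ * ‖L z‖ ^ (t - 1) := by
      rw [h.deriv_eq ht hL hz hLz, norm_mul, norm_mul, norm_div, Complex.norm_real,
        Real.norm_of_nonneg ht.le, h.norm_eq ht hz, rpow_sub_one hLp.ne']
      ring
    have h4 : ‖L z‖ ^ (2 * t - 2) * ‖deriv L z‖ ^ 2 = 1 / t ^ 2 * ‖deriv g z‖ ^ 2 := by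
      rw [h3, mul_pow, mul_pow, ← rpow_natCast (‖L z‖ ^ (t - 1)) 2, ← rpow_mul hLp.le]
      have : (t - 1) * ((2 : ℕ) : ℝ) = 2 * t - 2 := by push_cast; ring
      rw [this]
      field_simp
    calc (1 + ‖L z‖) ^ (2 * τ - 2) * ‖deriv L z‖ ^ 2
        ≤ ‖L z‖ ^ (2 * t - 2) * ‖deriv L z‖ ^ 2 := by gcongr
      _ = 1 / t ^ 2 * ‖deriv g z‖ ^ 2 := h4
      _ ≤ _ := by
          have : 0 < exp 2 := exp_pos 2
          have h7 : 0 ≤ 1 / t ^ 2 := by positivity
          nlinarith [sq_nonneg ‖deriv f z‖, sq_nonneg ‖deriv g z‖,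
            mul_nonneg h7 (sq_nonneg ‖deriv f z‖), mul_nonneg h7 (sq_nonneg ‖deriv g z‖),
            mul_nonneg this.le (sq_nonneg ‖deriv g z‖), mul_nonneg this.le (sq_nonneg ‖deriv f z‖)]

theorem cont_weightL {L : ℂ → ℂ} (hL : DifferentiableOn ℂ L DD) (a : ℝ) :
    ContinuousOn (fun z => (1 + ‖L z‖) ^ a * ‖deriv L z‖ ^ 2) DD := by
  apply ContinuousOn.mul
  · apply ContinuousOn.rpow_const (continuousOn_const.add hL.continuousOn.norm)
    intro z _
    left
    have := norm_nonneg (L z)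
    have : 0 < 1 + ‖L z‖ := by positivity
    exact this.ne'
  · exact continuousOn_norm_sq (deriv_diff hL)

/-- the energy estimate -/
theorem star_energy {α t : ℝ} (hα0 : 0 < α) (hα1 : α ≤ 1) (ht : 0 < t) {L g f : ℂ → ℂ}
    (hL : DifferentiableOn ℂ L DD) (hf : ∀ z ∈ DD, Complex.exp (L z) = f z)
    (h : IsPowBranch t L g) (hfD : InD α f) (hgD : InD α g) :
    En α (fun z => (1 + ‖L z‖) ^ (2 * min t (1 / 2) - 2) * ‖deriv L z‖ ^ 2) ≠ ∞ := by
  have hcf := continuousOn_norm_sq (deriv_diff hfD.1)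
  have hcg := continuousOn_norm_sq (deriv_diff hgD.1)
  have hC : 0 ≤ exp 2 + 1 / t ^ 2 := by positivity
  have h1 : En α (fun z => (1 + ‖L z‖) ^ (2 * min t (1 / 2) - 2) * ‖deriv L z‖ ^ 2) ≤
      En α (fun z => (exp 2 + 1 / t ^ 2) * (‖deriv f z‖ ^ 2 + ‖deriv g z‖ ^ 2)) := by
    apply En_mono (cont_weightL hL _) (continuousOn_const.mul (hcf.add hcg))
    intro z hz
    exact star_pointwise ht hL hf h hz
  refine ne_top_of_le_ne_top ?_ h1
  rw [En_const_mul hC, En_add hα1 hcf hcg (fun z _ => by positivity) (fun z _ => by positivity)]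
  apply ENNReal.mul_ne_top ENNReal.ofReal_ne_top
  apply ENNReal.add_ne_top.2
  constructor
  · refine ne_top_of_le_ne_top ?_ (En_deriv_le hα0.le hα1 hfD.1)
    exact ENNReal.mul_ne_top (by norm_num) (inD_iff.1 hfD).2
  · refine ne_top_of_le_ne_top ?_ (En_deriv_le hα0.le hα1 hgD.1)
    exact ENNReal.mul_ne_top (by norm_num) (inD_iff.1 hgD).2

theorem InD.anti {α β : ℝ} (h : β ≤ α) {g : ℂ → ℂ} (hg : InD α g) : InD β g := by
  refine ⟨hg.1, ?_⟩
  refine Summable.of_nonneg_of_le (fun k => by positivity) (fun k => ?_) hg.2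
  gcongr
  linarith [Nat.cast_nonneg (α := ℝ) k]

/-- `|L|` is uniformly integrable -/
theorem UI_L {α t : ℝ} (hα0 : 0 < α) (hα1 : α ≤ 1) (ht : 0 < t) (htα : (1 - α) / 2 ≤ t)
    {L g : ℂ → ℂ} (hL : DifferentiableOn ℂ L DD) (h : IsPowBranch t L g) (hgD : InD α g) :
    UI (fun z => ‖L z‖) := by
  rcases le_or_gt (1 / 2) t with h2 | h2
  · have h3 := UI_sq hα0.le hgD
    have h4 : UI (fun z => 1 + ‖g z‖ ^ 2) :=
      UI.add continuousOn_const (continuousOn_norm_sq hgD.1) (UI.const 1) h3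
    refine UI.mono hL.continuousOn.norm
      (continuousOn_const.add (continuousOn_norm_sq hgD.1)) ?_ h4
    intro z hz
    show ‖L z‖ ≤ 1 + ‖g z‖ ^ 2
    rcases le_or_gt ‖L z‖ 1 with h5 | h5
    · have := sq_nonneg ‖g z‖; linarith
    · rw [h.norm_eq ht hz, ← rpow_natCast (‖L z‖ ^ t) 2, ← rpow_mul (norm_nonneg _)]
      have : ‖L z‖ ^ (1 : ℝ) ≤ ‖L z‖ ^ (t * ((2 : ℕ) : ℝ)) :=
        rpow_le_rpow_of_exponent_le h5.le (by push_cast; linarith)
      rw [rpow_one] at this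
      linarith
  · have hβ0 : 0 < 1 - 2 * t := by linarith
    have hβ1 : 1 - 2 * t < 1 := by linarith
    have hgβ : InD (1 - 2 * t) g := hgD.anti (by linarith)
    have h3 := UI_pow hβ0 hβ1 hgβ
    have e : 2 / (1 - (1 - 2 * t)) = 1 / t := by field_simp; ring
    rw [e] at h3
    refine UI.mono hL.continuousOn.norm
      (hgD.1.continuousOn.norm.rpow_const (fun _ _ => Or.inr (by positivity))) ?_ h3
    intro z hz
    rw [h.norm_eq ht hz, ← rpow_mul (norm_nonneg _), mul_one_div_cancel ht.ne', rpow_one]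

end Pool.Agent.Cyc65
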