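import Pool.Agent.Lib_helper65.CycDefs

/-!
Taylor coefficients on the unit disk.
-/

namespace Pool.Agent.Cyc65

open Metric Set Filter Topology

/-- the open unit disk -/
abbrev DD : Set ℂ := ball (0 : ℂ) 1

theorem mem_DD {z : ℂ} : z ∈ DD ↔ ‖z‖ < 1 := by
  rw [mem_ball_zero_iff]

theorem tc_hasSum {f : ℂ → ℂ} (hf : DifferentiableOn ℂ f DD) {z : ℂ}
    (hz : z ∈ DD) : HasSum (fun k => tc f k * z ^ k) (f z) := by
  have h := Complex.hasSum_taylorSeries_on_ball hf hz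
  refine h.congr_fun ?_
  intro k
  simp only [tc, sub_zero, smul_eq_mul]
  ring

theorem eball_one_eq : eball (0 : ℂ) 1 = ball 0 1 := by
  have h := Metric.eball_coe (x := (0 : ℂ)) (ε := 1)
  simpa using h

theorem hasFPowerSeriesOnBall_of_hasSum {f : ℂ → ℂ} {a : ℕ → ℂ}
    (h : ∀ z ∈ DD, HasSum (fun k => a k * z ^ k) (f z)) :
    HasFPowerSeriesOnBall f (FormalMultilinearSeries.ofScalars ℂ a) 0 1 := by
  have hrad : (1 : ENNReal) ≤ (FormalMultilinearSeries.ofScalars ℂ a).radius := by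
    apply ENNReal.le_of_forall_nnreal_lt
    intro r hr
    have hr' : (r : ℝ) < 1 := by exact_mod_cast hr
    have hz : ((r : ℝ) : ℂ) ∈ DD := by
      rw [mem_DD, Complex.norm_real, Real.norm_of_nonneg r.coe_nonneg]; exact hr'
    have h1 := (h _ hz).summable.tendsto_atTop_zero
    have h2 : Tendsto (fun n => ‖FormalMultilinearSeries.ofScalars ℂ a n‖ * (r : ℝ) ^ n) atTop
        (𝓝 0) := by
      have h3 := h1.norm
      rw [norm_zero] at h3
      refine h3.congr ?_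
      intro n
      rw [norm_mul, norm_pow, Complex.norm_real, Real.norm_of_nonneg r.coe_nonneg,
        FormalMultilinearSeries.ofScalars_norm]
    exact FormalMultilinearSeries.le_radius_of_tendsto _ h2
  refine ⟨hrad, by norm_num, ?_⟩
  intro y hy
  have hy' : y ∈ DD := by
    rw [eball_one_eq] at hy; exact hy
  have h1 := h y hy'
  rw [zero_add]
  refine h1.congr_fun ?_
  intro n
  simp [mul_comm]

theorem differentiableOn_of_hasSum {f : ℂ → ℂ} {a : ℕ → ℂ}
    (h : ∀ z ∈ DD, HasSum (fun k => a k * z ^ k) (f z)) : DifferentiableOn ℂ f DD := by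
  have h1 := (hasFPowerSeriesOnBall_of_hasSum h).differentiableOn
  rwa [eball_one_eq] at h1

theorem tc_eq_of_hasSum {f : ℂ → ℂ} {a : ℕ → ℂ}
    (h : ∀ z ∈ DD, HasSum (fun k => a k * z ^ k) (f z)) (k : ℕ) : tc f k = a k := by
  have h1 := (hasFPowerSeriesOnBall_of_hasSum h).hasFPowerSeriesAt
  have h2 := h1.analyticAt.hasFPowerSeriesAt
  have h3 := h2.eq_formalMultilinearSeries h1
  have h4 := congrArg (fun p : FormalMultilinearSeries ℂ ℂ ℂ => p.coeff k) h3
  simpa [FormalMultilinearSeries.coeff_ofScalars, tc] using h4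

theorem tc_congr {f g : ℂ → ℂ} (h : ∀ z ∈ DD, f z = g z) (k : ℕ) : tc f k = tc g k := by
  have h1 : f =ᶠ[𝓝 0] g := by
    filter_upwards [isOpen_ball.mem_nhds (mem_ball_self one_pos)] with z hz using h z hz
  unfold tc
  rw [h1.iteratedDeriv_eq]

theorem contDiffAt_zero {f : ℂ → ℂ} (hf : DifferentiableOn ℂ f DD) (n : WithTop ℕ∞) :
    ContDiffAt ℂ n f 0 :=
  (hf.analyticAt (isOpen_ball.mem_nhds (mem_ball_self one_pos))).contDiffAt

theorem tc_zero (f : ℂ → ℂ) : tc f 0 = f 0 := by simp [tc]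

theorem tc_mul {f g : ℂ → ℂ} (hf : DifferentiableOn ℂ f DD) (hg : DifferentiableOn ℂ g DD)
    (n : ℕ) : tc (fun z => f z * g z) n = ∑ i ∈ Finset.range (n + 1), tc f i * tc g (n - i) := by
  have h := iteratedDeriv_mul (n := n) (contDiffAt_zero hf n) (contDiffAt_zero hg n)
  have h' : iteratedDeriv n (fun z => f z * g z) 0 = _ := h
  unfold tc
  rw [h', Finset.sum_div]
  apply Finset.sum_congr rfl
  intro i hi
  have hi' : i ≤ n := Nat.lt_succ_iff.1 (Finset.mem_range.1 hi)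
  have h1 : ((n.choose i : ℕ) : ℂ) * (i.factorial : ℂ) * ((n - i).factorial : ℂ) = n.factorial := by
    exact_mod_cast Nat.choose_mul_factorial_mul_factorial hi'
  have h2 : (n.factorial : ℂ) ≠ 0 := Nat.cast_ne_zero.2 (Nat.factorial_ne_zero n)
  have h3 : (i.factorial : ℂ) ≠ 0 := Nat.cast_ne_zero.2 (Nat.factorial_ne_zero i)
  have h4 : ((n - i).factorial : ℂ) ≠ 0 := Nat.cast_ne_zero.2 (Nat.factorial_ne_zero _)
  field_simp
  rw [← h1]; ring

theorem tc_add {f g : ℂ → ℂ} (hf : DifferentiableOn ℂ f DD) (hg : DifferentiableOn ℂ g DD)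
    (n : ℕ) : tc (fun z => f z + g z) n = tc f n + tc g n := by
  have h := iteratedDeriv_fun_add (n := n) (contDiffAt_zero hf n) (contDiffAt_zero hg n)
  unfold tc
  rw [h, add_div]

theorem tc_sub {f g : ℂ → ℂ} (hf : DifferentiableOn ℂ f DD) (hg : DifferentiableOn ℂ g DD)
    (n : ℕ) : tc (fun z => f z - g z) n = tc f n - tc g n := by
  have h := iteratedDeriv_fun_sub (n := n) (contDiffAt_zero hf n) (contDiffAt_zero hg n)
  unfold tc
  rw [h, sub_div]

theorem tc_const_mul {f : ℂ → ℂ} (hf : DifferentiableOn ℂ f DD) (c : ℂ)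
    (n : ℕ) : tc (fun z => c * f z) n = c * tc f n := by
  apply tc_eq_of_hasSum
  intro z hz
  refine ((tc_hasSum hf hz).mul_left c).congr_fun ?_
  intro k; ring

theorem dilate_mem {r : ℝ} (h0 : 0 ≤ r) (h1 : r ≤ 1) {z : ℂ} (hz : z ∈ DD) : (r : ℂ) * z ∈ DD := by
  rw [mem_DD] at *
  rw [norm_mul, Complex.norm_real, Real.norm_of_nonneg h0]
  calc r * ‖z‖ ≤ 1 * ‖z‖ := by gcongr
    _ < 1 := by rw [one_mul]; exact hz

theorem dilate_diff {f : ℂ → ℂ} (hf : DifferentiableOn ℂ f DD) {r : ℝ} (h0 : 0 ≤ r)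
    (h1 : r ≤ 1) : DifferentiableOn ℂ (fun z => f (r * z)) DD := by
  refine hf.comp ?_ ?_
  · exact (differentiable_id.const_mul _).differentiableOn
  · intro z hz
    exact dilate_mem h0 h1 hz

theorem tc_dilate {f : ℂ → ℂ} (hf : DifferentiableOn ℂ f DD) {r : ℝ} (h0 : 0 ≤ r)
    (h1 : r ≤ 1) (n : ℕ) : tc (fun z => f (r * z)) n = tc f n * (r : ℂ) ^ n := by
  apply tc_eq_of_hasSum (a := fun n => tc f n * (r : ℂ) ^ n)
  intro z hz
  refine (tc_hasSum hf (dilate_mem h0 h1 hz)).congr_fun ?_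
  intro k
  rw [mul_pow]; ring

theorem tc_deriv {f : ℂ → ℂ} (n : ℕ) : tc (deriv f) n = (n + 1) * tc f (n + 1) := by
  unfold tc
  have h : iteratedDeriv (n + 1) f 0 = iteratedDeriv n (deriv f) 0 := by
    rw [iteratedDeriv_succ']
  rw [h, Nat.factorial_succ]
  have h1 : (n.factorial : ℂ) ≠ 0 := Nat.cast_ne_zero.2 (Nat.factorial_ne_zero n)
  have h2 : ((n : ℂ) + 1) ≠ 0 := Nat.cast_add_one_ne_zero n
  push_cast
  field_simp

theorem deriv_diff {f : ℂ → ℂ} (hf : DifferentiableOn ℂ f DD) : DifferentiableOn ℂ (deriv f) DD :=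
  hf.deriv isOpen_ball

theorem tc_const (c : ℂ) (n : ℕ) : tc (fun _ => c) n = if n = 0 then c else 0 := by
  apply tc_eq_of_hasSum (a := fun n => if n = 0 then c else 0)
  intro z hz
  have h := hasSum_single (f := fun k => (if k = 0 then c else 0) * z ^ k) 0 (by
    intro b hb; simp [hb])
  simpa using h

/-- coefficients of functions bounded on the disk -/
theorem tc_bound {f : ℂ → ℂ} (hf : DifferentiableOn ℂ f DD) {C : ℝ}
    (hC : ∀ z ∈ DD, ‖f z‖ ≤ C) (n : ℕ) : ‖tc f n‖ ≤ C := by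
  have key : ∀ r : ℝ, 0 < r → r < 1 → ‖tc f n‖ * r ^ n ≤ C := by
    intro r hr0 hr1
    have h := Complex.norm_iteratedDeriv_le_of_forall_mem_sphere_norm_le (c := 0) (f := f) n hr0
      (DifferentiableOn.diffContOnCl (by
        rw [closure_ball 0 hr0.ne']
        exact hf.mono (closedBall_subset_ball hr1)))
      (fun z hz => hC z (by
        rw [mem_DD]
        rw [mem_sphere_zero_iff_norm] at hz
        rw [hz]; exact hr1))
    have hfac : (0 : ℝ) < n.factorial := by exact_mod_cast Nat.factorial_pos n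
    unfold tc
    rw [norm_div, Complex.norm_natCast, div_mul_eq_mul_div, div_le_iff₀ hfac]
    rw [le_div_iff₀ (pow_pos hr0 n)] at h
    linarith
  have hlim : Tendsto (fun r : ℝ => ‖tc f n‖ * r ^ n) (𝓝[<] 1) (𝓝 (‖tc f n‖ * 1 ^ n)) := by
    apply Tendsto.mono_left _ nhdsWithin_le_nhds
    exact (Continuous.tendsto (by fun_prop) 1)
  rw [one_pow, mul_one] at hlim
  refine le_of_tendsto hlim ?_
  filter_upwards [Ioo_mem_nhdsLT (show (0:ℝ) < 1 by norm_num)] with r hr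
  exact key r hr.1 hr.2

/-- pointwise convergence from convergence of coefficients. -/
theorem tendsto_of_tc {F : ℕ → ℂ → ℂ} {G : ℂ → ℂ} {C : ℝ} {b : ℕ → ℂ}
    (hF : ∀ j, DifferentiableOn ℂ (F j) DD)
    (hC : ∀ j k, ‖tc (F j) k‖ ≤ C) (hlim : ∀ k, Tendsto (fun j => tc (F j) k) atTop (𝓝 (b k)))
    (hG : ∀ z ∈ DD, HasSum (fun k => b k * z ^ k) (G z))
    {z : ℂ} (hz : z ∈ DD) : Tendsto (fun j => F j z) atTop (𝓝 (G z)) := by
  have h1 : ∀ j, F j z = ∑' k, tc (F j) k * z ^ k := fun j => ((tc_hasSum (hF j) hz).tsum_eq).symm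
  simp_rw [h1, ← (hG z hz).tsum_eq]
  refine tendsto_tsum_of_dominated_convergence (bound := fun k => C * ‖z‖ ^ k) ?_ ?_ ?_
  · exact (summable_geometric_of_lt_one (norm_nonneg z) (mem_DD.1 hz)).mul_left C
  · intro k
    exact (hlim k).mul_const _
  · filter_upwards with j k
    rw [norm_mul, norm_pow]
    gcongr
    exact hC j k

/-- A power series with bounded coefficients. -/
noncomputable def ps (b : ℕ → ℂ) (z : ℂ) : ℂ := ∑' k, b k * z ^ k

theorem ps_hasSum {b : ℕ → ℂ} {C : ℝ} (hb : ∀ k, ‖b k‖ ≤ C) {z : ℂ} (hz : z ∈ DD) :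
    HasSum (fun k => b k * z ^ k) (ps b z) := by
  apply Summable.hasSum
  apply Summable.of_norm_bounded (g := fun k => C * ‖z‖ ^ k)
    ((summable_geometric_of_lt_one (norm_nonneg z) (mem_DD.1 hz)).mul_left C)
  intro k
  rw [norm_mul, norm_pow]
  gcongr
  exact hb k

theorem ps_diff {b : ℕ → ℂ} {C : ℝ} (hb : ∀ k, ‖b k‖ ≤ C) : DifferentiableOn ℂ (ps b) DD :=
  differentiableOn_of_hasSum (fun _ hz => ps_hasSum hb hz)

theorem tc_ps {b : ℕ → ℂ} {C : ℝ} (hb : ∀ k, ‖b k‖ ≤ C) (k : ℕ) : tc (ps b) k = b k :=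
  tc_eq_of_hasSum (fun _ hz => ps_hasSum hb hz) k

/-- Compactness: bounded coefficient sequences have convergent subsequences. -/
theorem exists_subseq_tc {F : ℕ → ℂ → ℂ} {C : ℝ} (hC : ∀ j k, ‖tc (F j) k‖ ≤ C) :
    ∃ (b : ℕ → ℂ) (φ : ℕ → ℕ), StrictMono φ ∧ (∀ k, ‖b k‖ ≤ C) ∧
      ∀ k, Tendsto (fun j => tc (F (φ j)) k) atTop (𝓝 (b k)) := by
  have hK : IsCompact (Set.pi Set.univ (fun _ : ℕ => closedBall (0 : ℂ) C)) :=
    isCompact_univ_pi (fun _ => isCompact_closedBall 0 C)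
  obtain ⟨b, hb, φ, hφ, hlim⟩ := hK.tendsto_subseq (x := fun j => fun k => tc (F j) k) (by
    intro j k _
    rw [mem_closedBall_zero_iff]
    exact hC j k)
  refine ⟨b, φ, hφ, ?_, ?_⟩
  · intro k
    have := hb k (Set.mem_univ k)
    rwa [mem_closedBall_zero_iff] at this
  · intro k
    exact (tendsto_pi_nhds.1 hlim) k

end Pool.Agent.Cyc65
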