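import Pool.Agent.Lib_helper65.CycNorm

/-!
Transfer of inequalities from `∑ |a_k|² (1 - e^{-ks})` to the norm of `D_α`.
-/

namespace Pool.Agent.Cyc65

open Metric Set Filter Topology Real MeasureTheory
open scoped ENNReal

/-- the functional `∑ |a_k|² (1 - e^{-ks})` -/
noncomputable def NN (s : ℝ) (u : ℂ → ℂ) : ℝ≥0∞ :=
  ∑' k : ℕ, ENNReal.ofReal (‖tc u k‖ ^ 2 * (1 - exp (-(k * s))))

/-- `∑ |a_k|² k^α` -/
noncomputable def SS (α : ℝ) (u : ℂ → ℂ) : ℝ≥0∞ :=
  ∑' k : ℕ, ENNReal.ofReal (‖tc u k‖ ^ 2 * (k : ℝ) ^ α)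

theorem one_sub_exp_nonneg {k : ℕ} {s : ℝ} (hs : 0 < s) : 0 ≤ 1 - exp (-(k * s)) := by
  have : exp (-(k * s)) ≤ 1 := by
    rw [exp_le_one_iff]
    have : (0 : ℝ) ≤ k * s := by positivity
    linarith
  linarith

theorem integrable_kernel {α : ℝ} (h0 : 0 < α) (h1 : α < 1) :
    IntegrableOn (fun s => (1 - exp (-s)) * s ^ (-1 - α)) (Ioi 0) := by
  rw [show Ioi (0 : ℝ) = Ioc 0 1 ∪ Ioi 1 by
    ext x; simp only [mem_Ioi, mem_union, mem_Ioc]
    constructor
    · intro h
      rcases le_or_gt x 1 with h' | h'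
      · exact Or.inl ⟨h, h'⟩
      · exact Or.inr h'
    · rintro (h | h)
      · exact h.1
      · linarith]
  apply IntegrableOn.union
  · have hi : IntegrableOn (fun s : ℝ => s ^ (-α)) (Ioc 0 1) := by
      have := intervalIntegral.intervalIntegrable_rpow' (a := 0) (b := 1) (r := -α) (by linarith)
      rwa [intervalIntegrable_iff_integrableOn_Ioc_of_le zero_le_one] at this
    refine hi.mono' ?_ ?_
    · apply ContinuousOn.aestronglyMeasurable _ measurableSet_Ioc
      apply ContinuousOn.mul (by fun_prop)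
      apply ContinuousOn.rpow_const continuousOn_id
      intro x hx; left; exact hx.1.ne'
    · filter_upwards [ae_restrict_mem measurableSet_Ioc] with s hs
      have e1 : 0 ≤ 1 - exp (-s) := by
        have := exp_le_one_iff.2 (show -s ≤ 0 by linarith [hs.1]); linarith
      have e2 : 1 - exp (-s) ≤ s := by
        have := add_one_le_exp (-s); linarith
      rw [Real.norm_of_nonneg (mul_nonneg e1 (rpow_nonneg hs.1.le _))]
      calc (1 - exp (-s)) * s ^ (-1 - α) ≤ s * s ^ (-1 - α) := by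
            gcongr
            exact rpow_nonneg hs.1.le _
        _ = s ^ (-α) := by
            nth_rewrite 1 [← rpow_one s]
            rw [← rpow_add hs.1]
            congr 1; ring
  · have hi : IntegrableOn (fun s : ℝ => s ^ (-1 - α)) (Ioi 1) :=
      integrableOn_Ioi_rpow_of_lt (by linarith) one_pos
    refine hi.mono' ?_ ?_
    · apply ContinuousOn.aestronglyMeasurable _ measurableSet_Ioi
      apply ContinuousOn.mul (by fun_prop)
      apply ContinuousOn.rpow_const continuousOn_id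
      intro x hx; left; exact (lt_trans one_pos hx).ne'
    · filter_upwards [ae_restrict_mem measurableSet_Ioi] with s hs
      have hs0 : (0:ℝ) < s := lt_trans one_pos hs
      have e1 : 0 ≤ 1 - exp (-s) := by
        have := exp_le_one_iff.2 (show -s ≤ 0 by linarith); linarith
      have e2 : 1 - exp (-s) ≤ 1 := by
        have := exp_pos (-s); linarith
      rw [Real.norm_of_nonneg (mul_nonneg e1 (rpow_nonneg hs0.le _))]
      calc (1 - exp (-s)) * s ^ (-1 - α) ≤ 1 * s ^ (-1 - α) := by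
            gcongr
        _ = _ := one_mul _

/-- the constant of the representation -/
noncomputable def II (α : ℝ) : ℝ := ∫ s in Ioi (0 : ℝ), (1 - exp (-s)) * s ^ (-1 - α)

theorem II_pos {α : ℝ} (h0 : 0 < α) (h1 : α < 1) : 0 < II α := by
  unfold II
  rw [setIntegral_pos_iff_support_of_nonneg_ae]
  · have : Function.support (fun s : ℝ => (1 - exp (-s)) * s ^ (-1 - α)) ∩ Ioi 0 = Ioi 0 := by
      ext s
      simp only [mem_inter_iff, Function.mem_support, mem_Ioi, and_iff_right_iff_imp]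
      intro hs
      have : exp (-s) < 1 := exp_lt_one_iff.2 (by linarith) |> fun h => h
      have h2 := rpow_pos_of_pos hs (-1 - α)
      have : 0 < (1 - exp (-s)) * s ^ (-1 - α) := mul_pos (by linarith) h2
      exact this.ne'
    rw [this]; simp
  · filter_upwards [ae_restrict_mem measurableSet_Ioi] with s hs
    have e1 : 0 ≤ 1 - exp (-s) := by
      have := exp_le_one_iff.2 (show -s ≤ 0 by linarith [mem_Ioi.1 hs]); linarith
    exact mul_nonneg e1 (rpow_nonneg (mem_Ioi.1 hs).le _)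
  · exact integrable_kernel h0 h1

theorem kernel_scale {α : ℝ} (h0 : 0 < α) (h1 : α < 1) (k : ℕ) :
    ∫⁻ s in Ioi (0 : ℝ), ENNReal.ofReal ((1 - exp (-(k * s))) * s ^ (-1 - α))
      = ENNReal.ofReal ((k : ℝ) ^ α * II α) := by
  rcases Nat.eq_zero_or_pos k with hk | hk
  · subst hk
    simp [zero_rpow h0.ne']
  have hk' : (0 : ℝ) < k := by exact_mod_cast hk
  have hI := integrable_kernel h0 h1
  have heq : ∀ s ∈ Ioi (0 : ℝ), (1 - exp (-(k * s))) * s ^ (-1 - α)
      = (k : ℝ) ^ (1 + α) * ((1 - exp (-(k * s))) * (k * s) ^ (-1 - α)) := by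
    intro s hs
    rw [mul_rpow hk'.le (mem_Ioi.1 hs).le]
    have : (k : ℝ) ^ (1 + α) * (k : ℝ) ^ (-1 - α) = 1 := by
      rw [← rpow_add hk']; simp
    calc _ = ((k : ℝ) ^ (1 + α) * (k : ℝ) ^ (-1 - α)) * ((1 - exp (-(k * s))) * s ^ (-1 - α)) := by
          rw [this, one_mul]
      _ = _ := by ring
  have hint : IntegrableOn (fun s : ℝ => (1 - exp (-(k * s))) * (k * s) ^ (-1 - α)) (Ioi 0) := by
    have := (integrableOn_Ioi_comp_mul_left_iff (fun s => (1 - exp (-s)) * s ^ (-1 - α)) 0 hk').2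
      (by rw [mul_zero]; exact hI)
    exact this
  have hint2 : IntegrableOn (fun s : ℝ => (1 - exp (-(k * s))) * s ^ (-1 - α)) (Ioi 0) := by
    refine IntegrableOn.congr_fun (hint.const_mul ((k : ℝ) ^ (1 + α))) ?_ measurableSet_Ioi
    intro s hs
    exact (heq s hs).symm
  rw [← ofReal_integral_eq_lintegral_ofReal hint2]
  · congr 1
    rw [setIntegral_congr_fun measurableSet_Ioi heq, integral_const_mul,
      integral_comp_mul_left_Ioi (fun s => (1 - exp (-s)) * s ^ (-1 - α)) 0 hk', mul_zero]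
    unfold II
    rw [smul_eq_mul, ← mul_assoc]
    congr 1
    rw [← rpow_neg_one (k : ℝ), ← rpow_add hk']
    congr 1; ring
  · filter_upwards [ae_restrict_mem measurableSet_Ioi] with s hs
    exact mul_nonneg (one_sub_exp_nonneg hs) (rpow_nonneg (mem_Ioi.1 hs).le _)

theorem SS_eq {α : ℝ} (h0 : 0 < α) (h1 : α < 1) (u : ℂ → ℂ) :
    ENNReal.ofReal (II α) * SS α u
      = ∫⁻ s in Ioi (0 : ℝ), NN s u * ENNReal.ofReal (s ^ (-1 - α)) := by
  unfold SS NN
  have h2 : ∀ s ∈ Ioi (0 : ℝ),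
      (∑' k : ℕ, ENNReal.ofReal (‖tc u k‖ ^ 2 * (1 - exp (-(k * s))))) * ENNReal.ofReal (s ^ (-1 - α))
      = ∑' k : ℕ, ENNReal.ofReal (‖tc u k‖ ^ 2) *
          ENNReal.ofReal ((1 - exp (-(k * s))) * s ^ (-1 - α)) := by
    intro s hs
    rw [← ENNReal.tsum_mul_right]
    apply tsum_congr
    intro k
    rw [← ENNReal.ofReal_mul (mul_nonneg (by positivity) (one_sub_exp_nonneg hs)),
      ← ENNReal.ofReal_mul (by positivity)]
    congr 1; ring
  rw [setLIntegral_congr_fun measurableSet_Ioi h2, lintegral_tsum]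
  · rw [← ENNReal.tsum_mul_left]
    apply tsum_congr
    intro k
    rw [lintegral_const_mul' _ _ ENNReal.ofReal_ne_top, kernel_scale h0 h1,
      ENNReal.ofReal_mul (by positivity), ENNReal.ofReal_mul (by positivity)]
    ring
  · intro k
    apply AEMeasurable.const_mul
    apply AEMeasurable.ennreal_ofReal
    apply ContinuousOn.aemeasurable _ measurableSet_Ioi
    apply ContinuousOn.mul (by fun_prop)
    apply ContinuousOn.rpow_const continuousOn_id
    intro x hx; left; exact (mem_Ioi.1 hx).ne'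

theorem SS_transfer_lt {α : ℝ} (h0 : 0 < α) (h1 : α < 1) {u v : ℂ → ℂ} {C : ℝ≥0∞}
    (hC : C ≠ ∞) (h : ∀ s, 0 < s → NN s u ≤ C * NN s v) : SS α u ≤ C * SS α v := by
  have hI : ENNReal.ofReal (II α) ≠ 0 := by
    rw [Ne, ENNReal.ofReal_eq_zero, not_le]; exact II_pos h0 h1
  have h2 : ENNReal.ofReal (II α) * SS α u ≤ ENNReal.ofReal (II α) * (C * SS α v) := by
    rw [SS_eq h0 h1, mul_left_comm, SS_eq h0 h1, ← lintegral_const_mul' _ _ hC]
    apply setLIntegral_mono' measurableSet_Ioi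
    intro s hs
    rw [← mul_assoc]
    gcongr
    exact h s hs
  rwa [ENNReal.mul_le_mul_iff_right hI ENNReal.ofReal_ne_top] at h2

theorem SS_transfer {α : ℝ} (h0 : 0 < α) (h1 : α ≤ 1) {u v : ℂ → ℂ} {C : ℝ≥0∞}
    (hC : C ≠ ∞) (h : ∀ s, 0 < s → NN s u ≤ C * NN s v) : SS α u ≤ C * SS α v := by
  rcases h1.lt_or_eq with h1 | h1
  · exact SS_transfer_lt h0 h1 hC h
  subst h1
  have key : ∀ β : ℝ, 0 < β → β < 1 → SS β u ≤ C * SS 1 v := by
    intro β hβ0 hβ1
    refine (SS_transfer_lt hβ0 hβ1 hC h).trans ?_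
    gcongr
    unfold SS
    apply ENNReal.tsum_le_tsum
    intro k
    apply ENNReal.ofReal_le_ofReal
    apply mul_le_mul_of_nonneg_left _ (by positivity)
    rcases Nat.eq_zero_or_pos k with hk | hk
    · subst hk; simp [zero_rpow hβ0.ne']
    · exact rpow_le_rpow_of_exponent_le (by exact_mod_cast hk) hβ1.le
  unfold SS at key ⊢
  rw [ENNReal.tsum_eq_iSup_sum]
  apply iSup_le
  intro S
  have hlim : Tendsto (fun β : ℝ => ∑ k ∈ S, ENNReal.ofReal (‖tc u k‖ ^ 2 * (k : ℝ) ^ β))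
      (𝓝[<] 1) (𝓝 (∑ k ∈ S, ENNReal.ofReal (‖tc u k‖ ^ 2 * (k : ℝ) ^ (1:ℝ)))) := by
    apply Tendsto.mono_left _ nhdsWithin_le_nhds
    apply tendsto_finsetSum
    intro k _
    apply ENNReal.tendsto_ofReal
    apply Tendsto.const_mul
    rcases Nat.eq_zero_or_pos k with hk | hk
    · subst hk
      have : (fun β : ℝ => ((0 : ℕ) : ℝ) ^ β) =ᶠ[𝓝 1] fun _ => 0 := by
        filter_upwards [lt_mem_nhds (show (0:ℝ) < 1 by norm_num)] with β hβ
        simp [zero_rpow hβ.ne']
      rw [tendsto_congr' this]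
      simp
    · have hk' : (0 : ℝ) < k := by exact_mod_cast hk
      exact (continuousAt_const_rpow hk'.ne').tendsto
  refine le_of_tendsto hlim ?_
  filter_upwards [Ioo_mem_nhdsLT (show (0:ℝ) < 1 by norm_num)] with β hβ
  exact (ENNReal.sum_le_tsum S).trans (key β hβ.1 hβ.2)

theorem nD_transfer {α : ℝ} (h0 : 0 < α) (h1 : α ≤ 1) {u v : ℂ → ℂ} {C : ℝ≥0∞}
    (hC : C ≠ ∞) (h : ∀ s, 0 < s → NN s u ≤ C * NN s v) :
    nD α u ≤ ENNReal.ofReal (‖u 0‖ ^ 2) + 2 * C * nD α v := by
  have h3 : nD α u ≤ ENNReal.ofReal (‖u 0‖ ^ 2) + 2 * SS α u := by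
    unfold nD SS
    rw [tsum_eq_zero_add' ENNReal.summable]
    gcongr
    · simp [tc_zero]
    · rw [← ENNReal.tsum_mul_left]
      calc ∑' k : ℕ, ENNReal.ofReal (‖tc u (k + 1)‖ ^ 2 * (((k + 1 : ℕ) : ℝ) + 1) ^ α)
          ≤ ∑' k : ℕ, (fun k : ℕ => 2 * ENNReal.ofReal (‖tc u k‖ ^ 2 * (k : ℝ) ^ α)) (k + 1) := by
            apply ENNReal.tsum_le_tsum
            intro k
            have : (2 : ℝ≥0∞) = ENNReal.ofReal 2 := by norm_num
            simp only
            rw [this, ← ENNReal.ofReal_mul (by norm_num)]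
            apply ENNReal.ofReal_le_ofReal
            have hn : (0:ℝ) < ((k + 1 : ℕ) : ℝ) := by positivity
            have h2 : (((k + 1 : ℕ) : ℝ) + 1) ^ α ≤ 2 * ((k + 1 : ℕ) : ℝ) ^ α := by
              calc (((k + 1 : ℕ) : ℝ) + 1) ^ α ≤ (2 * ((k + 1 : ℕ) : ℝ)) ^ α := by
                    apply rpow_le_rpow (by positivity) _ h0.le
                    push_cast; linarith [Nat.cast_nonneg (α := ℝ) k]
                _ = 2 ^ α * ((k + 1 : ℕ) : ℝ) ^ α := by rw [mul_rpow (by norm_num) hn.le]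
                _ ≤ 2 ^ (1 : ℝ) * ((k + 1 : ℕ) : ℝ) ^ α := by
                    gcongr; norm_num
                _ = _ := by rw [rpow_one]
            calc ‖tc u (k + 1)‖ ^ 2 * (((k + 1 : ℕ) : ℝ) + 1) ^ α
                ≤ ‖tc u (k + 1)‖ ^ 2 * (2 * ((k + 1 : ℕ) : ℝ) ^ α) := by gcongr
              _ = _ := by ring
        _ ≤ _ := ENNReal.tsum_comp_le_tsum_of_injective (f := fun k : ℕ => k + 1)
              (fun a b h => by simpa using h) _
  have h4 : SS α v ≤ nD α v := by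
    unfold SS nD
    apply ENNReal.tsum_le_tsum
    intro k
    apply ENNReal.ofReal_le_ofReal
    gcongr
    linarith
  calc nD α u ≤ ENNReal.ofReal (‖u 0‖ ^ 2) + 2 * SS α u := h3
    _ ≤ ENNReal.ofReal (‖u 0‖ ^ 2) + 2 * (C * nD α v) := by
        gcongr
        exact (SS_transfer h0 h1 hC h).trans (by gcongr)
    _ = _ := by rw [mul_assoc]

end Pool.Agent.Cyc65
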