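import Pool.Agent.Lib_helper65.CycB

/-!
The truncations `θ_ν(x) = -log (e^{-x} + ν⁻¹ e^{-x/ε})`.
-/

namespace Pool.Agent.Cyc65

open Metric Set Filter Topology Real MeasureTheory InnerProductSpace
open scoped ENNReal

/-- truncation -/
noncomputable def tn (ν ε x : ℝ) : ℝ := -log (exp (-x) + ν⁻¹ * exp (-(x / ε)))

variable {ν ε : ℝ}

theorem tn_hasDeriv (hν : 0 < ν) (x : ℝ) :
    HasDerivAt (tn ν ε) ((exp (-x) + ν⁻¹ * exp (-(x / ε)) * (1 / ε)) /
      (exp (-x) + ν⁻¹ * exp (-(x / ε)))) x := by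
  have hpos : 0 < exp (-x) + ν⁻¹ * exp (-(x / ε)) := by positivity
  have h1 : HasDerivAt (fun x : ℝ => exp (-x)) (exp (-x) * (-1)) x :=
    ((hasDerivAt_id x).neg).exp
  have h2 : HasDerivAt (fun x : ℝ => exp (-(x / ε))) (exp (-(x / ε)) * (-(1 / ε))) x :=
    (((hasDerivAt_id x).div_const ε).neg).exp
  have h3 := ((h1.add (h2.const_mul ν⁻¹)).log hpos.ne').neg
  unfold tn
  refine h3.congr_deriv ?_
  rw [← neg_div]
  congr 1
  ring

theorem tn_le_self (hν : 0 < ν) (x : ℝ) : tn ν ε x ≤ x := by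
  unfold tn
  have h1 : log (exp (-x)) ≤ log (exp (-x) + ν⁻¹ * exp (-(x / ε))) := by
    apply log_le_log (exp_pos _)
    have : 0 < ν⁻¹ * exp (-(x / ε)) := by positivity
    linarith
  rw [log_exp] at h1
  linarith

theorem tn_le (hν : 0 < ν) (x : ℝ) : tn ν ε x ≤ x / ε + log ν := by
  unfold tn
  have h1 : log (ν⁻¹ * exp (-(x / ε))) ≤ log (exp (-x) + ν⁻¹ * exp (-(x / ε))) := by
    apply log_le_log (by positivity)
    have : 0 < exp (-x) := by positivity
    linarith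
  rw [log_mul (by positivity) (by positivity), log_exp, log_inv] at h1
  linarith

theorem tn_adm (hν : 0 < ν) (hε0 : 0 < ε) (hε1 : ε ≤ 1) : Adm (1 / ε) (tn ν ε) := by
  have h1ε : 1 ≤ 1 / ε := by rw [le_div_iff₀ hε0]; linarith
  have hle : ∀ x, deriv (tn ν ε) x ≤ 1 / ε := by
    intro x
    rw [(tn_hasDeriv hν x).deriv, div_le_iff₀ (by positivity)]
    have h2 : exp (-x) ≤ 1 / ε * exp (-x) := by
      have := exp_pos (-x)
      nlinarith
    linarith
  refine ⟨fun x => (tn_hasDeriv hν x).differentiableAt, fun x => ?_, hle, fun x => ?_⟩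
  · rw [(tn_hasDeriv hν x).deriv]; positivity
  · have h2 : exp (2 * tn ν ε x) ≤ exp (2 * x) := exp_le_exp.2 (by
      linarith [tn_le_self (ε := ε) hν x])
    have h3 : 0 ≤ deriv (tn ν ε) x := by
      rw [(tn_hasDeriv hν x).deriv]; positivity
    calc exp (2 * tn ν ε x) * deriv (tn ν ε) x ≤ exp (2 * x) * (1 / ε) := by
          gcongr
          exact hle x
      _ = 1 / ε * exp (2 * x) := by ring

theorem tn_ge (hν : 0 < ν) (hε0 : 0 < ε) (hε1 : ε ≤ 1) {X N : ℝ} (hX : 0 ≤ X) (hN : 1 ≤ N) :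
    -(ν⁻¹ * exp (2 * N) + 3 * max (X - N) 0) ≤ tn ν ε (-(ε * X)) + ε * X := by
  have h1 : tn ν ε (-(ε * X)) + ε * X = -log (1 + ν⁻¹ * exp (X - ε * X)) := by
    unfold tn
    have e1 : exp (-(-(ε * X))) + ν⁻¹ * exp (-(-(ε * X) / ε))
        = exp (ε * X) * (1 + ν⁻¹ * exp (X - ε * X)) := by
      have e2 : -(-(ε * X) / ε) = X := by field_simp
      rw [e2, neg_neg, mul_add, mul_one]
      congr 1
      rw [mul_left_comm, ← exp_add]
      congr 2
      ring
    rw [e1, log_mul (by positivity) (by positivity), log_exp]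
    ring
  rw [h1]
  apply neg_le_neg
  have h2 : log (1 + ν⁻¹ * exp (X - ε * X)) ≤ log (1 + ν⁻¹ * exp X) := by
    apply log_le_log (by positivity)
    gcongr
    have : 0 ≤ ε * X := by positivity
    linarith
  refine h2.trans ?_
  have hm0 : 0 ≤ max (X - N) 0 := le_max_right _ _
  have hm1 : X - N ≤ max (X - N) 0 := le_max_left _ _
  rcases le_or_gt X (2 * N) with h | h
  · have h3 : log (1 + ν⁻¹ * exp X) ≤ ν⁻¹ * exp X := by
      have := log_le_sub_one_of_pos (x := 1 + ν⁻¹ * exp X) (by positivity)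
      linarith
    have h4 : ν⁻¹ * exp X ≤ ν⁻¹ * exp (2 * N) := by gcongr
    linarith
  · have h3 : 1 + ν⁻¹ * exp X ≤ (1 + ν⁻¹ * 1) * exp X := by
      have : 1 ≤ exp X := one_le_exp hX
      nlinarith
    have h5 : log (1 + ν⁻¹ * exp X) ≤ log (1 + ν⁻¹) + X := by
      calc log (1 + ν⁻¹ * exp X) ≤ log ((1 + ν⁻¹ * 1) * exp X) :=
            log_le_log (by positivity) h3
        _ = _ := by rw [log_mul (by positivity) (by positivity), log_exp, mul_one]
    have h6 : log (1 + ν⁻¹) ≤ ν⁻¹ := by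
      have := log_le_sub_one_of_pos (x := 1 + ν⁻¹) (by positivity)
      linarith
    have h7 : ν⁻¹ ≤ ν⁻¹ * exp (2 * N) := by
      have : 1 ≤ exp (2 * N) := one_le_exp (by linarith)
      have h8 : 0 < ν⁻¹ := by positivity
      nlinarith
    linarith

end Pool.Agent.Cyc65
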