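import Pool.Agent.Lib_helper65.CycEmbed
import Pool.Agent.Lib_helper65.CycMult

/-!
Uniform integrability on circles.
-/

namespace Pool.Agent.Cyc65

open Metric Set Filter Topology Real MeasureTheory InnerProductSpace
open scoped ENNReal

theorem real_rpow_add_le {a b p : ℝ} (ha : 0 ≤ a) (hb : 0 ≤ b) (hp : 1 ≤ p) :
    (a + b) ^ p ≤ 2 ^ (p - 1) * (a ^ p + b ^ p) := by
  have h := NNReal.rpow_add_le_mul_rpow_add_rpow ⟨a, ha⟩ ⟨b, hb⟩ hp
  exact_mod_cast h

/-- uniform integrability of `b` on the circles of radius `ρ < 1` -/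
def UI (b : ℂ → ℝ) : Prop :=
  ∀ δ : ℝ, 0 < δ → ∃ N : ℝ, 0 ≤ N ∧ ∀ ρ : ℝ, 0 ≤ ρ → ρ < 1 →
    circleAverage (fun z => max (b z - N) 0) 0 ρ ≤ δ

theorem cont_trunc {b : ℂ → ℝ} (hb : ContinuousOn b DD) (N : ℝ) :
    ContinuousOn (fun z => max (b z - N) 0) DD :=
  (hb.sub continuousOn_const).sup continuousOn_const

theorem UI.mono {b c : ℂ → ℝ} (hb : ContinuousOn b DD) (hc : ContinuousOn c DD)
    (h : ∀ z ∈ DD, b z ≤ c z) (hU : UI c) : UI b := by
  intro δ hδ
  obtain ⟨N, hN, h2⟩ := hU δ hδ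
  refine ⟨N, hN, fun ρ h0 h1 => ?_⟩
  refine le_trans (cA_mono (cont_trunc hb N) (cont_trunc hc N) h0 h1 ?_) (h2 ρ h0 h1)
  intro z hz _
  exact max_le_max (by linarith [h z hz]) le_rfl

theorem UI.add {b c : ℂ → ℝ} (hb : ContinuousOn b DD) (hc : ContinuousOn c DD)
    (hUb : UI b) (hUc : UI c) : UI (fun z => b z + c z) := by
  intro δ hδ
  obtain ⟨N, hN, h2⟩ := hUb (δ / 2) (by linarith)
  obtain ⟨M, hM, h3⟩ := hUc (δ / 2) (by linarith)
  refine ⟨N + M, by linarith, fun ρ h0 h1 => ?_⟩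
  calc circleAverage (fun z => max (b z + c z - (N + M)) 0) 0 ρ
      ≤ circleAverage (fun z => max (b z - N) 0 + max (c z - M) 0) 0 ρ := by
        apply cA_mono (cont_trunc (hb.add hc) _) ((cont_trunc hb N).add (cont_trunc hc M)) h0 h1
        intro z _ _
        show max (b z + c z - (N + M)) 0 ≤ max (b z - N) 0 + max (c z - M) 0
        apply max_le
        · linarith [le_max_left (b z - N) 0, le_max_left (c z - M) 0]
        · linarith [le_max_right (b z - N) 0, le_max_right (c z - M) 0]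
    _ = circleAverage (fun z => max (b z - N) 0) 0 ρ
        + circleAverage (fun z => max (c z - M) 0) 0 ρ :=
        circleAverage_fun_add (circleIntegrable_of_continuousOn (cont_trunc hb N) h0 h1)
          (circleIntegrable_of_continuousOn (cont_trunc hc M) h0 h1)
    _ ≤ δ := by linarith [h2 ρ h0 h1, h3 ρ h0 h1]

theorem UI.const (a : ℝ) : UI (fun _ => a) := by
  intro δ hδ
  refine ⟨max a 0, le_max_right _ _, fun ρ h0 h1 => ?_⟩
  have : (fun _ : ℂ => max (a - max a 0) 0) = fun _ => (0 : ℝ) := by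
    ext z
    apply max_eq_right
    linarith [le_max_left a 0]
  rw [this, circleAverage_const]
  exact hδ.le

theorem UI.const_mul {b : ℂ → ℝ} {a : ℝ} (ha : 0 ≤ a) (hb : ContinuousOn b DD) (hU : UI b) :
    UI (fun z => a * b z) := by
  intro δ hδ
  obtain ⟨N, hN, h2⟩ := hU (δ / (a + 1)) (by positivity)
  refine ⟨a * N, by positivity, fun ρ h0 h1 => ?_⟩
  have e : (fun z => max (a * b z - a * N) 0) = fun z => a • max (b z - N) 0 := by
    ext z
    rw [smul_eq_mul, mul_max_of_nonneg _ _ ha]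
    ring_nf
  rw [e, circleAverage_fun_smul, smul_eq_mul]
  calc a * circleAverage (fun z => max (b z - N) 0) 0 ρ ≤ a * (δ / (a + 1)) := by
        gcongr; exact h2 ρ h0 h1
    _ ≤ δ := by
        rw [mul_div_assoc', div_le_iff₀ (by positivity)]
        nlinarith

/-- `L²`-bounded functions are uniformly integrable -/
theorem UI.of_sq {b : ℂ → ℝ} (hb : ContinuousOn b DD) {C : ℝ} (hC : 0 ≤ C)
    (h : ∀ ρ : ℝ, 0 ≤ ρ → ρ < 1 → circleAverage (fun z => b z ^ 2) 0 ρ ≤ C) : UI b := by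
  intro δ hδ
  set N := (C + 1) / δ with hN
  have hN0 : 0 < N := by positivity
  refine ⟨N, hN0.le, fun ρ h0 h1 => ?_⟩
  calc circleAverage (fun z => max (b z - N) 0) 0 ρ
      ≤ circleAverage (fun z => (1 / N) • b z ^ 2) 0 ρ := by
        apply cA_mono (cont_trunc hb _) ((hb.pow 2).const_smul (1 / N)) h0 h1
        intro z _ _
        show max (b z - N) 0 ≤ (1 / N) • b z ^ 2
        apply max_le
        · rw [smul_eq_mul, one_div, ← div_eq_inv_mul, le_div_iff₀ hN0]
          nlinarith [sq_nonneg (b z - N / 2)]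
        · rw [smul_eq_mul]; positivity
    _ = (1 / N) * circleAverage (fun z => b z ^ 2) 0 ρ := by
        rw [circleAverage_fun_smul, smul_eq_mul]
    _ ≤ (1 / N) * C := by gcongr; exact h ρ h0 h1
    _ ≤ δ := by
        rw [hN]
        field_simp
        linarith

/-- Taylor polynomial -/
noncomputable def tp (g : ℂ → ℂ) (n : ℕ) : Polynomial ℂ :=
  ∑ k ∈ Finset.range n, Polynomial.monomial k (tc g k)

theorem tp_coeff (g : ℂ → ℂ) (n k : ℕ) : (tp g n).coeff k = if k < n then tc g k else 0 := by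
  unfold tp
  rw [Polynomial.finset_sum_coeff]
  simp only [Polynomial.coeff_monomial]
  rw [Finset.sum_ite_eq' (Finset.range n) k (fun i => tc g i)]
  simp [Finset.mem_range]

theorem poly_diff (p : Polynomial ℂ) : DifferentiableOn ℂ (fun z => p.eval z) DD :=
  p.differentiable.differentiableOn

theorem tc_tail {g : ℂ → ℂ} (hg : DifferentiableOn ℂ g DD) (n k : ℕ) :
    tc (fun z => g z - (tp g n).eval z) k = if k < n then 0 else tc g k := by
  rw [tc_sub hg (poly_diff _), tc_poly, tp_coeff]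
  by_cases h : k < n <;> simp [h]

/-- tails of the norm tend to zero -/
theorem nD_tail_tendsto {α : ℝ} {g : ℂ → ℂ} (hg : InD α g) :
    Tendsto (fun n => nD α (fun z => g z - (tp g n).eval z)) atTop (𝓝 0) := by
  have hfin := (inD_iff.1 hg).2
  unfold nD at hfin
  have h1 := ENNReal.tendsto_sum_nat_add
    (fun k : ℕ => ENNReal.ofReal (‖tc g k‖ ^ 2 * ((k : ℝ) + 1) ^ α)) hfin
  refine h1.congr (fun n => ?_)
  unfold nD
  have h2 := ENNReal.summable.sum_add_tsum_nat_add' (f := fun k : ℕ =>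
    ENNReal.ofReal (‖tc (fun z => g z - (tp g n).eval z) k‖ ^ 2 * ((k : ℝ) + 1) ^ α)) (k := n)
  rw [← h2, Finset.sum_eq_zero, zero_add]
  · apply tsum_congr
    intro k
    rw [tc_tail hg.1, if_neg (by omega)]
  · intro k hk
    rw [tc_tail hg.1, if_pos (Finset.mem_range.1 hk)]
    simp

theorem exists_tail {α : ℝ} {g : ℂ → ℂ} (hg : InD α g) {ε : ℝ} (hε : 0 < ε) :
    ∃ p : Polynomial ℂ, nD α (fun z => g z - p.eval z) ≤ ENNReal.ofReal ε := by
  have h := (nD_tail_tendsto hg).eventually (gt_mem_nhds (ENNReal.ofReal_pos.2 hε))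
  obtain ⟨n, hn⟩ := h.exists
  exact ⟨tp g n, hn.le⟩

/-- `|g|²` is uniformly integrable for `g ∈ D_α`. -/
theorem UI_sq {α : ℝ} (h0 : 0 ≤ α) {g : ℂ → ℂ} (hg : InD α g) : UI (fun z => ‖g z‖ ^ 2) := by
  intro δ hδ
  obtain ⟨p, hp⟩ := exists_tail hg (ε := δ / 2) (by linarith)
  obtain ⟨A, hA, _⟩ := poly_bound p
  have hRd : DifferentiableOn ℂ (fun z => g z - p.eval z) DD := hg.1.sub (poly_diff p)
  refine ⟨2 * A ^ 2, by positivity, fun ρ hρ0 hρ1 => ?_⟩
  have h3 : M2 (fun z => g z - p.eval z) ρ ≤ δ / 2 :=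
    (ENNReal.ofReal_le_ofReal_iff (by linarith)).1 ((M2_le_nD h0 hRd hρ0 hρ1).trans hp)
  calc circleAverage (fun z => max (‖g z‖ ^ 2 - 2 * A ^ 2) 0) 0 ρ
      ≤ circleAverage (fun z => (2 : ℝ) • ‖g z - p.eval z‖ ^ 2) 0 ρ := by
        apply cA_mono (cont_trunc (continuousOn_norm_sq hg.1) _)
          ((continuousOn_norm_sq hRd).const_smul (2 : ℝ)) hρ0 hρ1
        intro z hz _
        show max (‖g z‖ ^ 2 - 2 * A ^ 2) 0 ≤ (2 : ℝ) • ‖g z - p.eval z‖ ^ 2
        apply max_le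
        · have h1 := hA z hz
          have h2 : ‖g z‖ ≤ ‖g z - p.eval z‖ + ‖p.eval z‖ := by
            have := norm_add_le (g z - p.eval z) (p.eval z)
            simpa using this
          have h4 := norm_nonneg (g z)
          have h5 := norm_nonneg (p.eval z)
          have h6 := norm_nonneg (g z - p.eval z)
          rw [smul_eq_mul]
          have h7 : ‖g z‖ ^ 2 ≤ (‖g z - p.eval z‖ + ‖p.eval z‖) ^ 2 := by gcongr
          have h8 : ‖p.eval z‖ ^ 2 ≤ A ^ 2 := by gcongr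
          nlinarith [sq_nonneg (‖g z - p.eval z‖ - ‖p.eval z‖)]
        · rw [smul_eq_mul]; positivity
    _ = 2 * M2 (fun z => g z - p.eval z) ρ := by
        rw [circleAverage_fun_smul, smul_eq_mul]; rfl
    _ ≤ δ := by linarith

/-- `|g|^(2/(1-α))` is uniformly integrable for `g ∈ D_α`. -/
theorem UI_pow {α : ℝ} (h0 : 0 < α) (h1 : α < 1) {g : ℂ → ℂ} (hg : InD α g) :
    UI (fun z => ‖g z‖ ^ (2 / (1 - α))) := by
  obtain ⟨C, hC0, hC⟩ := embedding h0 h1
  have h1α : 0 < 1 - α := by linarith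
  set p : ℝ := 2 / (1 - α) with hp
  have hp2 : 2 < p := by
    rw [hp, lt_div_iff₀ h1α]; linarith
  have hp0 : 0 < p := by linarith
  intro δ hδ
  -- choose K
  obtain ⟨K, hK0, hK⟩ : ∃ K : ℝ, 0 < K ∧ 2 ^ (p - 1) * (C * K ^ p) ≤ δ := by
    set M := 2 ^ (p - 1) * C + 1 with hM
    have hM0 : 0 < M := by positivity
    refine ⟨(δ / M) ^ (1 / p), by positivity, ?_⟩
    rw [← rpow_mul (by positivity), one_div, inv_mul_cancel₀ hp0.ne', rpow_one]
    calc (2 : ℝ) ^ (p - 1) * (C * (δ / M)) = (2 ^ (p - 1) * C) * (δ / M) := by ring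
      _ ≤ M * (δ / M) := by gcongr; linarith
      _ = δ := by field_simp
  obtain ⟨q, hq⟩ := exists_tail hg (ε := K ^ 2) (by positivity)
  obtain ⟨A, hA, _⟩ := poly_bound q
  have hA0 : 0 ≤ A := (norm_nonneg _).trans (hA 0 (by rw [mem_DD]; simp))
  have hRd : DifferentiableOn ℂ (fun z => g z - q.eval z) DD := hg.1.sub (poly_diff q)
  have hcontp : ∀ u : ℂ → ℂ, DifferentiableOn ℂ u DD → ContinuousOn (fun z => ‖u z‖ ^ p) DD :=
    fun u hu => hu.continuousOn.norm.rpow_const (fun _ _ => Or.inr hp0.le)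
  refine ⟨2 ^ (p - 1) * A ^ p, by positivity, fun ρ hρ0 hρ1 => ?_⟩
  calc circleAverage (fun z => max (‖g z‖ ^ p - 2 ^ (p - 1) * A ^ p) 0) 0 ρ
      ≤ circleAverage (fun z => (2 ^ (p - 1) : ℝ) • ‖g z - q.eval z‖ ^ p) 0 ρ := by
        apply cA_mono (cont_trunc (hcontp g hg.1) _)
          ((hcontp _ hRd).const_smul ((2 : ℝ) ^ (p - 1))) hρ0 hρ1
        intro z hz _
        show max (‖g z‖ ^ p - 2 ^ (p - 1) * A ^ p) 0 ≤ (2 ^ (p - 1) : ℝ) • ‖g z - q.eval z‖ ^ p
        apply max_le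
        · have h1 := hA z hz
          have h2 : ‖g z‖ ≤ ‖g z - q.eval z‖ + ‖q.eval z‖ := by
            have := norm_add_le (g z - q.eval z) (q.eval z)
            simpa using this
          have h3 : ‖g z‖ ^ p ≤ (‖g z - q.eval z‖ + ‖q.eval z‖) ^ p := by gcongr
          have h4 := real_rpow_add_le (norm_nonneg (g z - q.eval z)) (norm_nonneg (q.eval z))
            (p := p) (by linarith)
          have h5 : ‖q.eval z‖ ^ p ≤ A ^ p := by gcongr
          rw [smul_eq_mul]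
          have h6 : (0 : ℝ) < 2 ^ (p - 1) := by positivity
          nlinarith
        · rw [smul_eq_mul]; positivity
    _ = 2 ^ (p - 1) * circleAverage (fun z => ‖g z - q.eval z‖ ^ p) 0 ρ := by
        rw [circleAverage_fun_smul, smul_eq_mul]
    _ ≤ 2 ^ (p - 1) * (C * K ^ p) := by
        gcongr
        exact hC _ hRd K hK0 hq ρ hρ0 hρ1
    _ ≤ δ := hK

end Pool.Agent.Cyc65
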