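import Pool.Agent.Lib_helper65.CycMean

/-!
The weighted area integral and its relation with the norm of `D_α`.
-/

namespace Pool.Agent.Cyc65

open Metric Set Filter Topology Real MeasureTheory
open scoped ENNReal

/-- the weight, times the Jacobian -/
noncomputable def wt (α ρ : ℝ) : ℝ := (1 - ρ ^ 2) ^ (1 - α) * (2 * ρ)

theorem wt_nonneg {α ρ : ℝ} (h : ρ ∈ Ioo (0 : ℝ) 1) : 0 ≤ wt α ρ := by
  unfold wt
  have : 0 ≤ 1 - ρ ^ 2 := by nlinarith [h.1, h.2]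
  have := h.1
  positivity

/-- weighted area integral of a function on the disk, in polar coordinates -/
noncomputable def En (α : ℝ) (φ : ℂ → ℝ) : ℝ≥0∞ :=
  ∫⁻ ρ in Ioo (0 : ℝ) 1, ENNReal.ofReal (circleAverage φ 0 ρ * wt α ρ)

theorem circleAverage_continuousOn {φ : ℂ → ℝ} (hφ : ContinuousOn φ DD) :
    ContinuousOn (fun ρ => circleAverage φ 0 ρ) (Ico 0 1) := by
  apply ContinuousOn.circleAverage
  · apply hφ.mono
    intro z hz
    simp only [sub_zero, mem_ofPred_eq, mem_Ico] at hz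
    rw [mem_DD]; exact hz.2
  · intro r hr; exact hr.1

theorem wt_continuousOn {α : ℝ} (hα : α ≤ 1) : ContinuousOn (wt α) (Icc 0 1) := by
  unfold wt
  apply ContinuousOn.mul
  · apply ContinuousOn.rpow_const (by fun_prop)
    intro x _; right; linarith
  · fun_prop

theorem measurable_aux {α : ℝ} (hα : α ≤ 1) {φ : ℂ → ℝ} (hφ : ContinuousOn φ DD) :
    AEMeasurable (fun ρ => ENNReal.ofReal (circleAverage φ 0 ρ * wt α ρ))
      (volume.restrict (Ioo (0 : ℝ) 1)) := by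
  apply AEMeasurable.ennreal_ofReal
  apply ContinuousOn.aemeasurable _ measurableSet_Ioo
  apply ContinuousOn.mul
  · exact (circleAverage_continuousOn hφ).mono Ioo_subset_Ico_self
  · exact (wt_continuousOn hα).mono Ioo_subset_Icc_self

theorem cA_mono {φ ψ : ℂ → ℝ} (hφ : ContinuousOn φ DD) (hψ : ContinuousOn ψ DD)
    {ρ : ℝ} (h0 : 0 ≤ ρ) (h1 : ρ < 1)
    (h : ∀ z ∈ DD, ‖z‖ = ρ → φ z ≤ ψ z) : circleAverage φ 0 ρ ≤ circleAverage ψ 0 ρ := by
  apply circleAverage_mono (circleIntegrable_of_continuousOn hφ h0 h1)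
    (circleIntegrable_of_continuousOn hψ h0 h1)
  intro z hz
  exact h z (sphere_subset_DD h0 h1 hz) (by
    rw [mem_sphere_zero_iff_norm, abs_of_nonneg h0] at hz
    exact hz)

theorem En_mono {α : ℝ} {φ ψ : ℂ → ℝ} (hφ : ContinuousOn φ DD) (hψ : ContinuousOn ψ DD)
    (h : ∀ z ∈ DD, φ z ≤ ψ z) : En α φ ≤ En α ψ := by
  unfold En
  apply setLIntegral_mono' measurableSet_Ioo
  intro ρ hρ
  apply ENNReal.ofReal_le_ofReal
  apply mul_le_mul_of_nonneg_right _ (wt_nonneg hρ)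
  exact cA_mono hφ hψ hρ.1.le hρ.2 (fun z hz _ => h z hz)

theorem cA_nonneg {φ : ℂ → ℝ} (h : ∀ z ∈ DD, 0 ≤ φ z) {ρ : ℝ} (h0 : 0 ≤ ρ) (h1 : ρ < 1) :
    0 ≤ circleAverage φ 0 ρ := by
  apply circleAverage_nonneg_of_nonneg
  intro z hz
  exact h z (sphere_subset_DD h0 h1 hz)

theorem En_add {α : ℝ} (hα : α ≤ 1) {φ ψ : ℂ → ℝ} (hφ : ContinuousOn φ DD)
    (hψ : ContinuousOn ψ DD) (hφ0 : ∀ z ∈ DD, 0 ≤ φ z) (hψ0 : ∀ z ∈ DD, 0 ≤ ψ z) :
    En α (fun z => φ z + ψ z) = En α φ + En α ψ := by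
  unfold En
  rw [← lintegral_add_left' (measurable_aux hα hφ)]
  apply setLIntegral_congr_fun measurableSet_Ioo
  intro ρ hρ
  simp only
  rw [← ENNReal.ofReal_add
    (mul_nonneg (cA_nonneg hφ0 hρ.1.le hρ.2) (wt_nonneg hρ))
    (mul_nonneg (cA_nonneg hψ0 hρ.1.le hρ.2) (wt_nonneg hρ)), ← add_mul]
  congr 2
  exact circleAverage_fun_add (circleIntegrable_of_continuousOn hφ hρ.1.le hρ.2)
    (circleIntegrable_of_continuousOn hψ hρ.1.le hρ.2)

theorem En_const_mul {α : ℝ} {φ : ℂ → ℝ} {c : ℝ} (hc : 0 ≤ c) :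
    En α (fun z => c * φ z) = ENNReal.ofReal c * En α φ := by
  unfold En
  rw [← lintegral_const_mul' _ _ ENNReal.ofReal_ne_top]
  apply setLIntegral_congr_fun measurableSet_Ioo
  intro ρ hρ
  simp only
  rw [← ENNReal.ofReal_mul hc]
  congr 1
  have : circleAverage (fun z => c * φ z) 0 ρ = c * circleAverage φ 0 ρ := by
    have := circleAverage_fun_smul (a := c) (f := φ) (c := 0) (R := ρ)
    simpa [smul_eq_mul] using this
  rw [this]; ring

/-- the moments of the weight -/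
noncomputable def bt (α : ℝ) (k : ℕ) : ℝ≥0∞ :=
  ∫⁻ ρ in Ioo (0 : ℝ) 1, ENNReal.ofReal (ρ ^ (2 * k) * wt α ρ)

theorem lint_poly (k j : ℕ) (hj : j ≤ 2) :
    ∫ x in (0:ℝ)..1, x ^ (2 * k) * ((1 - x ^ 2) ^ j * (2 * x)) =
      if j = 0 then 1 / ((k : ℝ) + 1) else if j = 1 then 1 / (((k : ℝ) + 1) * (k + 2)) else
        2 / (((k : ℝ) + 1) * (k + 2) * (k + 3)) := by
  have key : ∀ m : ℕ, ∫ x in (0:ℝ)..1, x ^ (2 * m) * (2 * x) = 1 / ((m : ℝ) + 1) := by
    intro m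
    have h1 : ∀ x : ℝ, x ^ (2 * m) * (2 * x) = 2 * x ^ (2 * m + 1) := by intro x; ring
    simp_rw [h1]
    rw [intervalIntegral.integral_const_mul, integral_pow]
    have : ((m : ℝ) + 1) ≠ 0 := by positivity
    push_cast
    field_simp
    norm_num
    ring
  have hint : ∀ m : ℕ, IntervalIntegrable (fun x : ℝ => x ^ (2 * m) * (2 * x)) volume 0 1 := by
    intro m
    apply Continuous.intervalIntegrable
    fun_prop
  have k1 : ((k : ℝ) + 1) ≠ 0 := by positivity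
  have k2 : ((k : ℝ) + 2) ≠ 0 := by positivity
  have k3 : ((k : ℝ) + 3) ≠ 0 := by positivity
  have k2' : ((k : ℝ) + 1 + 1) ≠ 0 := by positivity
  have k3' : ((k : ℝ) + 2 + 1) ≠ 0 := by positivity
  interval_cases j
  · simp only [pow_zero, one_mul, if_true]
    exact key k
  · have h1 : ∀ x : ℝ, x ^ (2 * k) * ((1 - x ^ 2) ^ 1 * (2 * x))
        = x ^ (2 * k) * (2 * x) - x ^ (2 * (k + 1)) * (2 * x) := by intro x; ring
    simp_rw [h1]
    rw [intervalIntegral.integral_sub (hint _) (hint _), key, key]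
    simp only [one_ne_zero, if_false, if_true]
    push_cast
    field_simp
    ring
  · have h1 : ∀ x : ℝ, x ^ (2 * k) * ((1 - x ^ 2) ^ 2 * (2 * x))
        = x ^ (2 * k) * (2 * x) - 2 * (x ^ (2 * (k + 1)) * (2 * x))
          + x ^ (2 * (k + 2)) * (2 * x) := by intro x; ring
    simp_rw [h1]
    rw [intervalIntegral.integral_add ((hint _).sub ((hint _).const_mul 2)) (hint _),
      intervalIntegral.integral_sub (hint _) ((hint _).const_mul 2),
      intervalIntegral.integral_const_mul, key, key, key]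
    simp only [OfNat.ofNat_ne_zero, OfNat.ofNat_ne_one, if_false]
    push_cast
    field_simp
    ring

theorem lintegral_Ioo_eq {f : ℝ → ℝ} (hf : Continuous f) (h0 : ∀ x ∈ Ioo (0:ℝ) 1, 0 ≤ f x) :
    ∫⁻ ρ in Ioo (0 : ℝ) 1, ENNReal.ofReal (f ρ) = ENNReal.ofReal (∫ x in (0:ℝ)..1, f x) := by
  rw [intervalIntegral.integral_of_le zero_le_one, ← integral_Ioc_eq_integral_Ioo.symm,
    ← ofReal_integral_eq_lintegral_ofReal]
  · exact (hf.integrableOn_Icc (a := 0) (b := 1)).mono_set Ioo_subset_Icc_self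
  · filter_upwards [ae_restrict_mem measurableSet_Ioo] with x hx
    exact h0 x hx

theorem ofReal_integral_le_lintegral {f : ℝ → ℝ} {μ : Measure ℝ} :
    ENNReal.ofReal (∫ x, f x ∂μ) ≤ ∫⁻ x, ENNReal.ofReal (f x) ∂μ := by
  by_cases hf : Integrable f μ
  · rw [integral_eq_lintegral_pos_part_sub_lintegral_neg_part hf]
    calc ENNReal.ofReal ((∫⁻ x, ENNReal.ofReal (f x) ∂μ).toReal
          - (∫⁻ x, ENNReal.ofReal (-f x) ∂μ).toReal)
        ≤ ENNReal.ofReal ((∫⁻ x, ENNReal.ofReal (f x) ∂μ).toReal) := by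
          apply ENNReal.ofReal_le_ofReal
          linarith [ENNReal.toReal_nonneg (a := ∫⁻ x, ENNReal.ofReal (-f x) ∂μ)]
      _ ≤ _ := ENNReal.ofReal_toReal_le
  · rw [integral_undef hf]; simp

theorem bt_le {α : ℝ} (h0 : 0 ≤ α) (h1 : α ≤ 1) (k : ℕ) :
    bt α k ≤ ENNReal.ofReal (2 * ((k : ℝ) + 1) ^ (α - 2)) := by
  have hn : (0 : ℝ) < (k : ℝ) + 1 := by positivity
  have hpt : ∀ ρ ∈ Ioo (0 : ℝ) 1, ρ ^ (2 * k) * wt α ρ ≤
      ((k : ℝ) + 1) ^ (α - 1) * (ρ ^ (2 * k) * ((1 - ρ ^ 2) ^ 0 * (2 * ρ))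
        + (k + 1) * (ρ ^ (2 * k) * ((1 - ρ ^ 2) ^ 1 * (2 * ρ)))) := by
    intro ρ hρ
    have hy : 0 ≤ 1 - ρ ^ 2 := by nlinarith [hρ.1, hρ.2]
    have key : (1 - ρ ^ 2) ^ (1 - α) ≤ ((k : ℝ) + 1) ^ (α - 1) * (1 + (k + 1) * (1 - ρ ^ 2)) := by
      have h2 : ((k + 1) * (1 - ρ ^ 2)) ^ (1 - α) ≤ 1 + (k + 1) * (1 - ρ ^ 2) := by
        set v := ((k : ℝ) + 1) * (1 - ρ ^ 2) with hv
        have hv0 : 0 ≤ v := by positivity
        rcases le_total v 1 with h | h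
        · calc v ^ (1 - α) ≤ 1 := rpow_le_one hv0 h (by linarith)
            _ ≤ 1 + v := by linarith
        · calc v ^ (1 - α) ≤ v ^ (1 : ℝ) := rpow_le_rpow_of_exponent_le h (by linarith)
            _ = v := rpow_one v
            _ ≤ 1 + v := by linarith
      rw [mul_rpow hn.le hy] at h2
      have h3 : ((k : ℝ) + 1) ^ (α - 1) * ((k : ℝ) + 1) ^ (1 - α) = 1 := by
        rw [← rpow_add hn]; simp
      calc (1 - ρ ^ 2) ^ (1 - α)
          = ((k : ℝ) + 1) ^ (α - 1) * (((k : ℝ) + 1) ^ (1 - α) * (1 - ρ ^ 2) ^ (1 - α)) := by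
            rw [← mul_assoc, h3, one_mul]
        _ ≤ _ := by gcongr
    unfold wt
    have hρ0 := hρ.1
    calc ρ ^ (2 * k) * ((1 - ρ ^ 2) ^ (1 - α) * (2 * ρ))
        = (1 - ρ ^ 2) ^ (1 - α) * (ρ ^ (2 * k) * (2 * ρ)) := by ring
      _ ≤ (((k : ℝ) + 1) ^ (α - 1) * (1 + (k + 1) * (1 - ρ ^ 2))) * (ρ ^ (2 * k) * (2 * ρ)) := by
          gcongr
      _ = _ := by ring
  unfold bt
  calc ∫⁻ ρ in Ioo (0 : ℝ) 1, ENNReal.ofReal (ρ ^ (2 * k) * wt α ρ)
      ≤ ∫⁻ ρ in Ioo (0 : ℝ) 1, ENNReal.ofReal (((k : ℝ) + 1) ^ (α - 1) *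
        (ρ ^ (2 * k) * ((1 - ρ ^ 2) ^ 0 * (2 * ρ))
        + (k + 1) * (ρ ^ (2 * k) * ((1 - ρ ^ 2) ^ 1 * (2 * ρ))))) := by
        apply setLIntegral_mono' measurableSet_Ioo
        intro ρ hρ
        exact ENNReal.ofReal_le_ofReal (hpt ρ hρ)
    _ = ENNReal.ofReal (∫ ρ in (0:ℝ)..1, ((k : ℝ) + 1) ^ (α - 1) *
        (ρ ^ (2 * k) * ((1 - ρ ^ 2) ^ 0 * (2 * ρ))
        + (k + 1) * (ρ ^ (2 * k) * ((1 - ρ ^ 2) ^ 1 * (2 * ρ))))) := by
        apply lintegral_Ioo_eq (by fun_prop)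
        intro ρ hρ
        have hy : 0 ≤ 1 - ρ ^ 2 := by nlinarith [hρ.1, hρ.2]
        have := hρ.1
        positivity
    _ ≤ _ := by
        apply ENNReal.ofReal_le_ofReal
        rw [intervalIntegral.integral_const_mul, intervalIntegral.integral_add
          (Continuous.intervalIntegrable (by fun_prop) _ _)
          (Continuous.intervalIntegrable (by fun_prop) _ _),
          intervalIntegral.integral_const_mul, lint_poly k 0 (by norm_num),
          lint_poly k 1 (by norm_num)]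
        simp only [if_true, one_ne_zero, if_false]
        have h3 : ((k : ℝ) + 1) ^ (α - 2) = ((k : ℝ) + 1) ^ (α - 1) * (1 / ((k : ℝ) + 1)) := by
          rw [show α - 2 = (α - 1) - 1 by ring, rpow_sub_one hn.ne']
          ring
        rw [h3]
        have h4 : 1 / ((k : ℝ) + 1) + (k + 1) * (1 / (((k : ℝ) + 1) * (k + 2)))
            ≤ 2 * (1 / ((k : ℝ) + 1)) := by
          have : ((k : ℝ) + 1) * (1 / (((k : ℝ) + 1) * (k + 2))) = 1 / ((k : ℝ) + 2) := by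
            field_simp
          rw [this]
          have : 1 / ((k : ℝ) + 2) ≤ 1 / ((k : ℝ) + 1) := by
            apply one_div_le_one_div_of_le hn; linarith
          linarith
        have h5 : 0 ≤ ((k : ℝ) + 1) ^ (α - 1) := by positivity
        nlinarith [mul_le_mul_of_nonneg_left h4 h5]

theorem le_bt {α : ℝ} (h0 : 0 ≤ α) (h1 : α ≤ 1) (k : ℕ) :
    ENNReal.ofReal (((k : ℝ) + 1) ^ (α - 2) / 4) ≤ bt α k := by
  have hn : (0 : ℝ) < (k : ℝ) + 1 := by positivity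
  have hpt : ∀ ρ ∈ Ioo (0 : ℝ) 1,
      ((k : ℝ) + 1) ^ (α - 1) * ((k + 1) * (ρ ^ (2 * k) * ((1 - ρ ^ 2) ^ 1 * (2 * ρ)))
        - (k + 1) ^ 2 / 4 * (ρ ^ (2 * k) * ((1 - ρ ^ 2) ^ 2 * (2 * ρ)))) ≤
        ρ ^ (2 * k) * wt α ρ := by
    intro ρ hρ
    have hy : 0 ≤ 1 - ρ ^ 2 := by nlinarith [hρ.1, hρ.2]
    have key : ((k : ℝ) + 1) ^ (α - 1) * ((k + 1) * (1 - ρ ^ 2) -
        ((k + 1) * (1 - ρ ^ 2)) ^ 2 / 4) ≤ (1 - ρ ^ 2) ^ (1 - α) := by
      have h2 : (k + 1) * (1 - ρ ^ 2) - ((k + 1) * (1 - ρ ^ 2)) ^ 2 / 4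
          ≤ ((k + 1) * (1 - ρ ^ 2)) ^ (1 - α) := by
        set v := ((k : ℝ) + 1) * (1 - ρ ^ 2) with hv
        have hv0 : 0 ≤ v := by positivity
        rcases le_total v 1 with h | h
        · calc v - v ^ 2 / 4 ≤ v := by nlinarith
            _ = v ^ (1 : ℝ) := (rpow_one v).symm
            _ ≤ v ^ (1 - α) := by
              rcases hv0.eq_or_lt with h' | h'
              · rw [← h']
                by_cases hα : 1 - α = 0
                · rw [hα]; simp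
                · rw [zero_rpow hα]; simp
              · exact rpow_le_rpow_of_exponent_ge h' h (by linarith)
        · calc v - v ^ 2 / 4 ≤ 1 := by nlinarith [sq_nonneg (v - 2)]
            _ ≤ v ^ (1 - α) := one_le_rpow h (by linarith)
      rw [mul_rpow hn.le hy] at h2
      have h3 : ((k : ℝ) + 1) ^ (α - 1) * ((k : ℝ) + 1) ^ (1 - α) = 1 := by
        rw [← rpow_add hn]; simp
      calc _ ≤ ((k : ℝ) + 1) ^ (α - 1) * (((k : ℝ) + 1) ^ (1 - α) * (1 - ρ ^ 2) ^ (1 - α)) := by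
            gcongr
        _ = _ := by rw [← mul_assoc, h3, one_mul]
    unfold wt
    have hρ0 := hρ.1
    calc _ = (((k : ℝ) + 1) ^ (α - 1) * ((k + 1) * (1 - ρ ^ 2) -
        ((k + 1) * (1 - ρ ^ 2)) ^ 2 / 4)) * (ρ ^ (2 * k) * (2 * ρ)) := by ring
      _ ≤ (1 - ρ ^ 2) ^ (1 - α) * (ρ ^ (2 * k) * (2 * ρ)) := by
          gcongr
      _ = _ := by ring
  set φ : ℝ → ℝ := fun ρ => ((k : ℝ) + 1) ^ (α - 1) *
      ((k + 1) * (ρ ^ (2 * k) * ((1 - ρ ^ 2) ^ 1 * (2 * ρ)))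
        - (k + 1) ^ 2 / 4 * (ρ ^ (2 * k) * ((1 - ρ ^ 2) ^ 2 * (2 * ρ)))) with hφ
  have hφc : Continuous φ := by fun_prop
  unfold bt
  have hint : ∫ ρ in (0:ℝ)..1, φ ρ = ((k : ℝ) + 1) ^ (α - 1) *
      ((k + 1) * (1 / (((k : ℝ) + 1) * (k + 2)))
        - (k + 1) ^ 2 / 4 * (2 / (((k : ℝ) + 1) * (k + 2) * (k + 3)))) := by
    rw [hφ]
    rw [intervalIntegral.integral_const_mul, intervalIntegral.integral_sub
          (Continuous.intervalIntegrable (by fun_prop) _ _)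
          (Continuous.intervalIntegrable (by fun_prop) _ _),
          intervalIntegral.integral_const_mul, intervalIntegral.integral_const_mul,
          lint_poly k 1 (by norm_num), lint_poly k 2 (by norm_num)]
    simp
  have hle : ((k : ℝ) + 1) ^ (α - 2) / 4 ≤ ∫ ρ in (0:ℝ)..1, φ ρ := by
    rw [hint]
    have h3 : ((k : ℝ) + 1) ^ (α - 2) = ((k : ℝ) + 1) ^ (α - 1) * (1 / ((k : ℝ) + 1)) := by
      rw [show α - 2 = (α - 1) - 1 by ring, rpow_sub_one hn.ne']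
      ring
    rw [h3, mul_div_assoc]
    apply mul_le_mul_of_nonneg_left _ (by positivity)
    have e1 : ((k : ℝ) + 1) * (1 / (((k : ℝ) + 1) * (k + 2)))
        - (k + 1) ^ 2 / 4 * (2 / (((k : ℝ) + 1) * (k + 2) * (k + 3)))
        = (k + 5) / (2 * (k + 2) * (k + 3)) := by
      field_simp
      ring
    rw [e1, div_div, div_le_div_iff₀ (by positivity) (by positivity)]
    nlinarith
  calc ENNReal.ofReal (((k : ℝ) + 1) ^ (α - 2) / 4) ≤ ENNReal.ofReal (∫ ρ in (0:ℝ)..1, φ ρ) :=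
        ENNReal.ofReal_le_ofReal hle
    _ ≤ ∫⁻ ρ in Ioo (0 : ℝ) 1, ENNReal.ofReal (φ ρ) := by
        rw [intervalIntegral.integral_of_le zero_le_one, integral_Ioc_eq_integral_Ioo]
        exact ofReal_integral_le_lintegral
    _ ≤ _ := by
        apply setLIntegral_mono' measurableSet_Ioo
        intro ρ hρ
        exact ENNReal.ofReal_le_ofReal (hpt ρ hρ)

end Pool.Agent.Cyc65
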