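import Pool.Agent.Lib_helper65.MolsSpread

/-!
André-type spreads: `mu s v = s * τ v` if `s` is of the form `τ w / w`, and `s * v` otherwise.
-/

set_option linter.unusedSectionVars false

namespace Pool.Agent.Mols65

open Classical in
/-- André-type spread attached to an automorphism `τ` of a field. -/
noncomputable def andre {F : Type} [Field F] (τ : F ≃+* F) : Spread F where
  mu s v := if (∃ w, w ≠ 0 ∧ s * w = τ w) then s * τ v else s * v
  mu_add s v w := by
    split_ifs
    · rw [map_add, mul_add]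
    · rw [mul_add]
  zero_mu v := by simp
  inj v hv := by
    intro s t h
    simp only at h
    have hτv : τ v ≠ 0 := by simpa using hv
    have key : ∀ s t : F, (∃ w, w ≠ 0 ∧ s * w = τ w) → ¬ (∃ w, w ≠ 0 ∧ t * w = τ w) →
        s * τ v = t * v → False := by
      rintro s t ⟨w, hw, hsw⟩ ht h
      apply ht
      refine ⟨w * v, mul_ne_zero hw hv, ?_⟩
      rw [map_mul, ← hsw]
      calc t * (w * v) = (t * v) * w := by ring
        _ = s * w * τ v := by rw [← h]; ring
    by_cases hs : (∃ w, w ≠ 0 ∧ s * w = τ w)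
    · by_cases ht : (∃ w, w ≠ 0 ∧ t * w = τ w)
      · rw [if_pos hs, if_pos ht] at h
        exact mul_right_cancel₀ hτv h
      · rw [if_pos hs, if_neg ht] at h
        exact (key s t hs ht h).elim
    · by_cases ht : (∃ w, w ≠ 0 ∧ t * w = τ w)
      · rw [if_neg hs, if_pos ht] at h
        exact (key t s ht hs h.symm).elim
      · rw [if_neg hs, if_neg ht] at h
        exact mul_right_cancel₀ hv h

section

variable {F : Type} [Field F] (τ : F ≃+* F)

/-- twisted multipliers -/
def Tw (s : F) : Prop := ∃ w, w ≠ 0 ∧ s * w = τ w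

theorem andre_mu_tw {s : F} (hs : Tw τ s) (v : F) : (andre τ).mu s v = s * τ v := by
  unfold andre
  exact if_pos hs

theorem andre_mu_ntw {s : F} (hs : ¬ Tw τ s) (v : F) : (andre τ).mu s v = s * v := by
  unfold andre
  exact if_neg hs

theorem andre_mu_one (s : F) : (andre τ).mu s 1 = s := by
  by_cases hs : Tw τ s
  · rw [andre_mu_tw τ hs]; simp
  · rw [andre_mu_ntw τ hs]; simp

theorem Tw.ne_zero {s : F} (hs : Tw τ s) : s ≠ 0 := by
  obtain ⟨w, hw, h⟩ := hs
  rintro rfl
  rw [zero_mul] at h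
  have : τ w ≠ 0 := by simpa using hw
  exact this h.symm

theorem tw_one : Tw τ (1 : F) := ⟨1, one_ne_zero, by simp⟩

theorem Tw.mul {s t : F} (hs : Tw τ s) (ht : Tw τ t) : Tw τ (s * t) := by
  obtain ⟨w, hw, h⟩ := hs
  obtain ⟨v, hv, h'⟩ := ht
  refine ⟨w * v, mul_ne_zero hw hv, ?_⟩
  rw [map_mul, ← h, ← h']; ring

theorem Tw.inv {s : F} (hs : Tw τ s) : Tw τ s⁻¹ := by
  have hs0 := hs.ne_zero
  obtain ⟨w, hw, h⟩ := hs
  refine ⟨w⁻¹, inv_ne_zero hw, ?_⟩
  rw [map_inv₀, ← h, mul_inv]

theorem exists_tw_nonfixed (hτ : ∃ x, τ x ≠ x) (m : F) (hm : m ≠ 0) :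
    ∃ s, Tw τ s ∧ τ (s / m) ≠ s / m := by
  by_contra hcon
  push Not at hcon
  have hm1 : τ m = m := by
    have := hcon 1 (tw_one τ)
    rw [map_div₀, map_one, one_div, one_div] at this
    exact inv_injective this
  have hfix : ∀ s, Tw τ s → τ s = s := by
    intro s hs
    have := hcon s hs
    rw [map_div₀, hm1] at this
    exact (div_left_inj' hm).1 this
  obtain ⟨x, hx⟩ := hτ
  have hx0 : x ≠ 0 := by rintro rfl; simp at hx
  have hx1 : x + 1 ≠ 0 := by
    intro h
    have : x = -1 := eq_neg_of_add_eq_zero_left h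
    subst this
    simp at hx
  have hk1 := hfix (τ x / x) ⟨x, hx0, by field_simp⟩
  have hk2 := hfix (τ (x + 1) / (x + 1)) ⟨x + 1, hx1, by field_simp⟩
  set k1 := τ x / x with hk1d
  set k2 := τ (x + 1) / (x + 1) with hk2d
  have e1 : τ x = k1 * x := by rw [hk1d]; field_simp
  have e2 : τ x + 1 = k2 * (x + 1) := by
    have : τ (x + 1) = k2 * (x + 1) := by rw [hk2d]; field_simp
    rw [← this]; simp
  rw [e1] at e2
  by_cases hk : k1 = k2
  · rw [← hk] at e2
    have : k1 = 1 := by linear_combination -e2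
    rw [this, one_mul] at e1
    exact hx e1
  · apply hx
    have hk' : k1 - k2 ≠ 0 := sub_ne_zero.2 hk
    have e3 : x = (k2 - 1) / (k1 - k2) := by
      rw [eq_div_iff hk']
      linear_combination e2
    rw [e3, map_div₀, map_sub, map_sub, map_one, hk1, hk2]

theorem exists_ntw_nonfixed [Finite F] (hτ : ∃ x, τ x ≠ x)
    (hκ : ∃ κ, κ ≠ 0 ∧ κ ≠ 1 ∧ τ κ = κ) (m : F) (hm : Tw τ m) :
    ∃ s, s ≠ 0 ∧ ¬ Tw τ s ∧ τ (s / m) ≠ s / m := by
  have hm0 := hm.ne_zero
  -- some nonzero element is not twisted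
  have hw : ∃ w, w ≠ 0 ∧ ¬ Tw τ w := by
    by_contra hcon
    push Not at hcon
    let g : {v : F // v ≠ 0} → {v : F // v ≠ 0} := fun v =>
      ⟨τ v.1 / v.1, div_ne_zero (by simpa using v.2) v.2⟩
    have hsurj : Function.Surjective g := by
      rintro ⟨u, hu⟩
      obtain ⟨w, hw, h⟩ := hcon u hu
      refine ⟨⟨w, hw⟩, ?_⟩
      apply Subtype.ext
      show τ w / w = u
      rw [← h]; field_simp
    have hinj : Function.Injective g := Finite.injective_iff_surjective.2 hsurj
    obtain ⟨κ, hκ0, hκ1, hκ⟩ := hκ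
    have h1 : g ⟨κ, hκ0⟩ = g ⟨1, one_ne_zero⟩ := by
      apply Subtype.ext
      show τ κ / κ = τ 1 / 1
      rw [hκ, div_self hκ0]; simp
    exact hκ1 (congrArg Subtype.val (hinj h1))
  obtain ⟨w, hw0, hw⟩ := hw
  obtain ⟨x, hx⟩ := hτ
  have hx0 : x ≠ 0 := by rintro rfl; simp at hx
  -- find a nonzero nontwisted nonfixed element
  have hy : ∃ y, y ≠ 0 ∧ ¬ Tw τ y ∧ τ y ≠ y := by
    by_cases h1 : Tw τ x
    · by_cases h2 : τ w = w
      · refine ⟨w * x, mul_ne_zero hw0 hx0, ?_, ?_⟩
        · intro h3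
          apply hw
          have := h3.mul τ (h1.inv τ)
          rwa [mul_assoc, mul_inv_cancel₀ hx0, mul_one] at this
        · rw [map_mul, h2]
          intro h3
          exact hx (mul_left_cancel₀ hw0 h3)
      · exact ⟨w, hw0, hw, h2⟩
    · exact ⟨x, hx0, h1, hx⟩
  obtain ⟨y, hy0, hy1, hy2⟩ := hy
  refine ⟨y * m, mul_ne_zero hy0 hm0, ?_, ?_⟩
  · intro h
    apply hy1
    have := h.mul τ (hm.inv τ)
    rwa [mul_assoc, mul_inv_cancel₀ hm0, mul_one] at this
  · rwa [mul_div_assoc, div_self hm0, mul_one]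

theorem andre_not_groupNet [Fintype F] [DecidableEq F] (hτ : ∃ x, τ x ≠ x)
    (hκ : ∃ κ, κ ≠ 0 ∧ κ ≠ 1 ∧ τ κ = κ) (m : F) (hm : m ≠ 0) :
    ¬ (andre τ).GroupNet m := by
  intro hG
  -- the common end of the argument
  have fin : ∀ s c : F, s ≠ 0 → τ c = c → m * c - s * c = - s → τ (s / m) ≠ s / m → False := by
    intro s c hs hc h1 h2
    apply h2
    have hc1 : c - 1 ≠ 0 := by
      intro h
      have : c = 1 := sub_eq_zero.1 h
      subst this
      apply hm
      linear_combination h1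
    have h3 : s / m = c / (c - 1) := by
      rw [div_eq_div_iff hm hc1]
      linear_combination -h1
    rw [h3, map_div₀, map_sub, map_one, hc]
  by_cases hmt : Tw τ m
  · obtain ⟨s, hs0, hs, hsm⟩ := exists_ntw_nonfixed τ hτ hκ m hmt
    have hne : s ≠ m := by rintro rfl; exact hs hmt
    obtain ⟨c, hc⟩ := ((andre τ).delta_bij hne).2 (- (andre τ).mu s 1)
    simp only at hc
    obtain ⟨t, ht1, ht2⟩ := hG.inverse_property hm one_ne_zero hs0 hne hc
    simp only [andre_mu_one] at ht2 hc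
    rw [andre_mu_tw τ hmt, andre_mu_ntw τ hs] at ht1 hc
    have hcc : τ c = c := by
      by_cases ht : Tw τ t
      · rw [andre_mu_tw τ ht, ht2] at ht1
        apply mul_left_cancel₀ hs0
        linear_combination -ht1
      · rw [andre_mu_ntw τ ht, ht2] at ht1
        apply mul_left_cancel₀ hm
        linear_combination -ht1
    rw [hcc] at hc
    exact fin s c hs0 hcc hc hsm
  · obtain ⟨s, hs, hsm⟩ := exists_tw_nonfixed τ hτ m hm
    have hs0 := hs.ne_zero
    have hne : s ≠ m := by rintro rfl; exact hmt hs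
    obtain ⟨c, hc⟩ := ((andre τ).delta_bij hne).2 (- (andre τ).mu s 1)
    simp only at hc
    obtain ⟨t, ht1, ht2⟩ := hG.inverse_property hm one_ne_zero hs0 hne hc
    simp only [andre_mu_one] at ht2 hc
    rw [andre_mu_ntw τ hmt, andre_mu_tw τ hs] at ht1 hc
    have hcc : τ c = c := by
      by_cases ht : Tw τ t
      · rw [andre_mu_tw τ ht, ht2] at ht1
        apply mul_left_cancel₀ hm
        linear_combination ht1
      · rw [andre_mu_ntw τ ht, ht2] at ht1
        apply mul_left_cancel₀ hs0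
        linear_combination ht1
    rw [hcc] at hc
    exact fin s c hs0 hcc hc hsm

theorem andre_realizable [Fintype F] (hτ : ∃ x, τ x ≠ x)
    (hκ : ∃ κ, κ ≠ 0 ∧ κ ≠ 1 ∧ τ κ = κ) :
    Realizable (Fintype.card F) (Fintype.card F - 1) := by
  classical
  exact (andre τ).realizable (fun m hm => andre_not_groupNet τ hτ hκ m hm)

end

/-- Existence of the automorphism: orders `p ^ (d * e)` with `p ^ d ≥ 3`, `e ≥ 2`. -/
theorem realizable_andre (p d e : ℕ) [hp : Fact p.Prime] (hd : 1 ≤ d) (he : 2 ≤ e)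
    (hpd : 3 ≤ p ^ d) : Realizable (p ^ (d * e)) (p ^ (d * e) - 1) := by
  classical
  let F := GaloisField p (d * e)
  have hde : d * e ≠ 0 := by positivity
  have hF : Nat.card F = p ^ (d * e) := GaloisField.card p (d * e) hde
  haveI : Finite F := Nat.finite_of_card_ne_zero (by rw [hF]; exact pow_ne_zero _ hp.out.ne_zero)
  letI : Fintype F := Fintype.ofFinite F
  have hF' : Fintype.card F = p ^ (d * e) := by rw [← Nat.card_eq_fintype_card]; exact hF
  obtain ⟨g, hg⟩ := IsCyclic.exists_generator (α := Fˣ)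
  have hord : orderOf g = p ^ (d * e) - 1 := by
    rw [orderOf_eq_card_of_forall_mem_zpowers hg, Nat.card_eq_fintype_card, Fintype.card_units, hF']
  have hlt : p ^ d < p ^ (d * e) := by
    apply Nat.pow_lt_pow_right hp.out.one_lt
    nlinarith
  have hdvd : p ^ d - 1 ∣ p ^ (d * e) - 1 := by
    rw [pow_mul]
    exact Nat.sub_one_dvd_pow_sub_one (p ^ d) e
  let τ : F ≃+* F := iterateFrobeniusEquiv F p d
  have hτ : ∀ x, τ x = x ^ p ^ d := fun x => by
    show iterateFrobeniusEquiv F p d x = _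
    rw [iterateFrobeniusEquiv_def]
  rw [← hF']
  apply andre_realizable τ
  · refine ⟨(g : F), ?_⟩
    rw [hτ]
    intro h
    have h1 : g ^ (p ^ d - 1) = 1 := by
      apply Units.ext
      rw [Units.val_pow_eq_pow_val, Units.val_one]
      apply mul_left_cancel₀ (Units.ne_zero g)
      rw [mul_one, ← pow_succ']
      rw [Nat.sub_add_cancel (by omega)]
      exact h
    have h2 := orderOf_dvd_of_pow_eq_one h1
    rw [hord] at h2
    have h3 := Nat.le_of_dvd (by omega) h2
    omega
  · obtain ⟨k, hk⟩ := hdvd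
    have hk0 : 0 < k := by
      rcases Nat.eq_zero_or_pos k with h | h
      · rw [h, mul_zero] at hk; omega
      · exact h
    refine ⟨((g ^ k : Fˣ) : F), Units.ne_zero _, ?_, ?_⟩
    · intro h
      have h1 : g ^ k = 1 := Units.ext h
      have h2 := orderOf_dvd_of_pow_eq_one h1
      rw [hord, hk] at h2
      have h3 := Nat.le_of_dvd hk0 h2
      nlinarith [Nat.sub_add_cancel (show 1 ≤ p ^ d by omega)]
    · rw [hτ]
      rw [← Units.val_pow_eq_pow_val]
      congr 1
      have h1 : (g ^ k) ^ (p ^ d - 1) = 1 := by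
        rw [← pow_mul, mul_comm k, ← hk, ← hord, pow_orderOf_eq_one]
      calc (g ^ k) ^ p ^ d = (g ^ k) ^ (p ^ d - 1 + 1) := by
            rw [Nat.sub_add_cancel (by omega)]
        _ = g ^ k := by rw [pow_succ, h1, one_mul]

end Pool.Agent.Mols65
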