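import Pool.Agent.Lib_helper65.MolsSpread

/-!
Knuth's binary semifields `s ∘ v = s v + (s T(v) + v T(s))²` in orders `2 ^ r`, `r ≥ 5` prime:
none of the nets is a group net.
-/

set_option linter.unusedSectionVars false
set_option linter.style.haveILetI false

namespace Pool.Agent.Mols65

theorem zmod2_cases (c : ZMod 2) : c = 0 ∨ c = 1 := by
  revert c; decide

/-- Knuth's binary presemifield, as a spread. -/
noncomputable def knuth {F : Type} [Field F] [CharP F 2] (T : F →+ F)
    (hT : ∀ x, T x = 0 ∨ T x = 1) (h3 : ∀ x : F, x ^ 2 + x + 1 ≠ 0) : Spread F where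
  mu s v := s * v + (s * T v + v * T s) ^ 2
  mu_add s v w := by
    have h2 : (2 : F) = 0 := CharTwo.two_eq_zero
    rw [map_add]
    linear_combination ((s * T v + v * T s) * (s * T w + w * T s)) * h2
  zero_mu v := by simp
  inj v hv := by
    have h2 : (2 : F) = 0 := CharTwo.two_eq_zero
    intro s t h
    simp only at h
    by_contra hne
    have hst : s + t ≠ 0 := by
      intro h'
      apply hne
      linear_combination h' - t * h2
    have hz : (s + t) * v + ((s + t) * T v + v * T (s + t)) ^ 2 = 0 := by
      rw [map_add]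
      linear_combination h + (t * v + (s * T v + v * T s) * (t * T v + v * T t)
        + (t * T v + v * T t) ^ 2) * h2
    set u := s + t with hu
    rcases hT u with hu0 | hu1
    · rcases hT v with hv0 | hv1
      · rw [hu0, hv0] at hz
        apply mul_ne_zero hst hv
        linear_combination hz
      · rw [hu0, hv1] at hz
        -- u v + u² = 0
        have h4 : u * (v + u) = 0 := by linear_combination hz
        rcases mul_eq_zero.1 h4 with h5 | h5
        · exact hst h5
        · have h6 : v = u := by linear_combination h5 - u * h2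
          rw [h6, hu0] at hv1
          exact zero_ne_one hv1
    · rcases hT v with hv0 | hv1
      · rw [hu1, hv0] at hz
        have h4 : v * (u + v) = 0 := by linear_combination hz
        rcases mul_eq_zero.1 h4 with h5 | h5
        · exact hv h5
        · have h6 : u = v := by linear_combination h5 - v * h2
          rw [h6, hv0] at hu1
          exact zero_ne_one hu1
      · rw [hu1, hv1] at hz
        apply h3 (u / v)
        field_simp
        linear_combination hz - u * v * h2

section ring

/-- A general lemma on additive subgroups closed under inverses (Hua). -/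
theorem pow_mem_of_inv {E : Type} [Ring E] (K : AddSubgroup E) (h1 : (1 : E) ∈ K)
    (hinv : ∀ A ∈ K, A ≠ 0 → ∃ B ∈ K, A * B = 1 ∧ B * A = 1) {A : E} (hA : A ∈ K) (n : ℕ) :
    A ^ n ∈ K := by
  by_cases hA0 : A = 0
  · subst hA0
    rcases n with _ | n
    · simpa using h1
    · rw [zero_pow (Nat.succ_ne_zero n)]; exact K.zero_mem
  by_cases htriv : (1 : E) = 0
  · have : A ^ n = 0 := by rw [← mul_one (A ^ n), htriv, mul_zero]
    rw [this]; exact K.zero_mem
  obtain ⟨A', hA', hAA', hA'A⟩ := hinv A hA hA0
  have hpowinv : ∀ n, A ^ n * A' ^ n = 1 ∧ A' ^ n * A ^ n = 1 := by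
    intro n
    have hc : Commute A A' := by
      show A * A' = A' * A
      rw [hAA', hA'A]
    rw [← hc.mul_pow, ← hc.symm.mul_pow, hAA', hA'A]
    simp
  -- inverse unique
  have step : ∀ n, A ^ n ∈ K → A ^ (n + 2) ∈ K := by
    intro n hn
    have hn0 : A ^ n ≠ 0 := by
      intro h
      have := (hpowinv n).1
      rw [h, zero_mul] at this
      exact htriv this.symm
    obtain ⟨B, hB, hB1, hB2⟩ := hinv _ hn hn0
    have hBeq : B = A' ^ n := by
      calc B = B * (A ^ n * A' ^ n) := by rw [(hpowinv n).1, mul_one]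
        _ = A' ^ n := by rw [← mul_assoc, hB2, one_mul]
    subst hBeq
    by_cases hz : A' ^ n - A = 0
    · have h4 : A' ^ n = A := sub_eq_zero.1 hz
      have : A ^ (n + 2) = A := by
        have h5 : A ^ n * A = 1 := by
          calc A ^ n * A = A ^ n * A' ^ n := by rw [h4]
            _ = 1 := (hpowinv n).1
        rw [pow_add, pow_two, ← mul_assoc, h5, one_mul]
      rw [this]; exact hA
    · obtain ⟨C, hC, hC1, hC2⟩ := hinv _ (K.sub_mem hB hA) hz
      -- A' + C is invertible with inverse A - A^(n+2)
      have hcomm : Commute A (A' ^ n - A) := by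
        apply Commute.sub_right _ (Commute.refl A)
        apply Commute.pow_right
        show A * A' = A' * A
        rw [hAA', hA'A]
      have hD : (A' + C) * (A - A ^ (n + 2)) = 1 := by
        have e1 : A - A ^ (n + 2) = (A' ^ n - A) * A ^ (n + 1) := by
          rw [sub_mul]
          have : A' ^ n * A ^ (n + 1) = A := by
            rw [pow_succ, ← mul_assoc, (hpowinv n).2, one_mul]
          rw [this, ← pow_succ' A (n + 1)]
        have e2 : C * (A - A ^ (n + 2)) = A ^ (n + 1) := by
          rw [e1, ← mul_assoc, hC2, one_mul]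
        have e3 : A' * (A - A ^ (n + 2)) = 1 - A ^ (n + 1) := by
          rw [mul_sub, hA'A, pow_succ' A (n + 1), ← mul_assoc, hA'A, one_mul]
        rw [add_mul, e2, e3]; abel
      have hD0 : A' + C ≠ 0 := by
        intro h
        rw [h, zero_mul] at hD
        exact htriv hD.symm
      obtain ⟨D, hDm, hD1, hD2⟩ := hinv _ (K.add_mem hA' hC) hD0
      have hDeq : D = A - A ^ (n + 2) := by
        calc D = D * ((A' + C) * (A - A ^ (n + 2))) := by rw [hD, mul_one]
          _ = _ := by rw [← mul_assoc, hD2, one_mul]
      rw [hDeq] at hDm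
      have := K.sub_mem hA hDm
      rwa [sub_sub_cancel] at this
  have : ∀ n, A ^ n ∈ K ∧ A ^ (n + 1) ∈ K := by
    intro n
    induction n with
    | zero => exact ⟨by simpa using h1, by simpa using hA⟩
    | succ n ih => exact ⟨ih.2, step n ih.1⟩
  exact (this n).1

end ring

section endo

variable {W : Type} [AddCommGroup W] [Module (ZMod 2) W] [Finite W]

/-- The subalgebra generated by `A` when its nonzero elements act injectively, and the
dimension is prime. -/
theorem adjoin_transitive {r : ℕ} (hr : r.Prime) (hW : Nat.card W = 2 ^ r)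
    (A : Module.End (ZMod 2) W) (hA0 : A ≠ 0) (hA1 : A ≠ 1)
    (hinj : ∀ g ∈ Algebra.adjoin (ZMod 2) {A}, ∀ x : W, x ≠ 0 → g x = 0 → g = 0) :
    Nat.card (Algebra.adjoin (ZMod 2) {A}) = 2 ^ r ∧
    ∀ x : W, x ≠ 0 → ∀ w : W, ∃ g ∈ Algebra.adjoin (ZMod 2) {A}, g x = w := by
  set R := Algebra.adjoin (ZMod 2) {A} with hR
  have hWnt : Nontrivial W := by
    apply Finite.one_lt_card_iff_nontrivial.1
    rw [hW]
    exact Nat.one_lt_two_pow hr.ne_zero
  haveI : Finite (Module.End (ZMod 2) W) :=
    Finite.of_injective (fun f : Module.End (ZMod 2) W => (f : W → W)) DFunLike.coe_injective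
  haveI : Finite R := inferInstance
  haveI : IsDomain R := by
    haveI : NoZeroDivisors R := by
      constructor
      intro g h hgh
      by_cases hh : h = 0
      · exact Or.inr hh
      · left
        have : ∃ x, h.1 x ≠ 0 := by
          by_contra hcon
          push Not at hcon
          apply hh
          apply Subtype.ext
          exact LinearMap.ext hcon
        obtain ⟨x, hx⟩ := this
        apply Subtype.ext
        apply hinj g.1 g.2 (h.1 x) hx
        have := congrArg (fun k : R => k.1 x) hgh
        simpa using this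
    haveI : Nontrivial R := by
      refine ⟨⟨0, 1, ?_⟩⟩
      intro h
      have h1 : (0 : Module.End (ZMod 2) W) = 1 := congrArg Subtype.val h
      obtain ⟨x, hx⟩ := exists_ne (0 : W)
      apply hx
      have := congrArg (fun k : Module.End (ZMod 2) W => k x) h1
      simpa using this.symm
    exact NoZeroDivisors.to_isDomain R
  letI : Fintype R := Fintype.ofFinite R
  letI : DecidableEq R := Classical.decEq R
  letI : Field R := Fintype.fieldOfDomain R
  letI : Fintype W := Fintype.ofFinite W
  have hcard := Module.card_eq_pow_finrank (K := R) (V := W)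
  rw [← Nat.card_eq_fintype_card, ← Nat.card_eq_fintype_card, hW] at hcard
  set k := Module.finrank R W with hk
  have hk0 : k ≠ 0 := by
    intro h
    rw [h, pow_zero] at hcard
    have := Nat.one_lt_two_pow hr.ne_zero
    omega
  have hdvd : Nat.card R ∣ 2 ^ r := by
    rw [hcard]; exact dvd_pow_self _ hk0
  obtain ⟨j, hj, hj'⟩ := (Nat.dvd_prime_pow Nat.prime_two).1 hdvd
  rw [hj', ← pow_mul] at hcard
  have hjk : r = j * k := Nat.pow_right_injective (le_refl 2) hcard
  have hjk' : j = 1 ∨ k = 1 := by
    have := hr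
    rw [hjk] at this
    rcases (Nat.prime_mul_iff.1 this) with h | h
    · exact Or.inr h.2
    · exact Or.inl h.2
  have hRcard : Nat.card R = 2 ^ r := by
    rcases hjk' with h | h
    · exfalso
      rw [h, pow_one] at hj'
      -- R = {0, 1}
      have hAR : A ∈ R := Algebra.self_mem_adjoin_singleton _ _
      have h01 : ∀ g : R, g = 0 ∨ g = 1 := by
        intro g
        by_contra hcon
        push Not at hcon
        have : ({0, 1, g} : Finset R).card ≤ Fintype.card R := Finset.card_le_univ _
        rw [← Nat.card_eq_fintype_card, hj', Finset.card_eq_three.2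
          ⟨0, 1, g, zero_ne_one, hcon.1.symm, hcon.2.symm, rfl⟩] at this
        omega
      rcases h01 ⟨A, hAR⟩ with h | h
      · exact hA0 (congrArg Subtype.val h)
      · exact hA1 (congrArg Subtype.val h)
    · rw [hj', hjk, h, mul_one]
  refine ⟨hRcard, ?_⟩
  intro x hx w
  have hinj' : Function.Injective (fun g : R => g.1 x) := by
    intro g h hgh
    have h1 : (g.1 - h.1) = 0 := by
      apply hinj _ (R.sub_mem g.2 h.2) x hx
      simp only at hgh
      rw [LinearMap.sub_apply, hgh, sub_self]
    exact Subtype.ext (sub_eq_zero.1 h1)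
  have hbij : Function.Bijective (fun g : R => g.1 x) := by
    refine (Nat.bijective_iff_injective_and_card _).2 ⟨hinj', ?_⟩
    rw [hRcard, hW]
  obtain ⟨g, hg⟩ := hbij.2 w
  exact ⟨g.1, g.2, hg⟩

/-- The partition lemma. -/
theorem partition_lemma {r : ℕ} (hr : r.Prime) (hW : Nat.card W = 2 ^ r)
    (A : Module.End (ZMod 2) W) (hA0 : A ≠ 0) (hA1 : A ≠ 1)
    (P : W → Module.End (ZMod 2) W)
    (hP1 : ∀ x, x ≠ 0 → P x x = x) (hP2 : ∀ x, x ≠ 0 → P x (A x) = A x)
    (hP3 : ∀ x y, x ≠ 0 → y ≠ 0 → P x y = y → P y = P x) :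
    ∀ x, x ≠ 0 → P x = 1 := by
  set R := Algebra.adjoin (ZMod 2) {A} with hR
  -- invariance
  have hinv : ∀ g ∈ R, ∀ x, x ≠ 0 → ∀ z, P x z = z → P x (g z) = g z := by
    intro g hg x hx
    have hAinv : ∀ z, P x z = z → P x (A z) = A z := by
      intro z hz
      by_cases hz0 : z = 0
      · subst hz0; simp
      · have := hP3 x z hx hz0 hz
        rw [← this]; exact hP2 z hz0
    refine Algebra.adjoin_induction
      (p := fun (g : Module.End (ZMod 2) W) _ => ∀ z, P x z = z → P x (g z) = g z)
      ?_ ?_ ?_ ?_ hg
    · intro a ha z hz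
      rw [Set.mem_singleton_iff.1 ha]
      exact hAinv z hz
    · intro a z hz
      rw [Module.algebraMap_end_apply, map_smul, hz]
    · intro a b _ _ ha hb z hz
      rw [LinearMap.add_apply, map_add, ha z hz, hb z hz]
    · intro a b _ _ ha hb z hz
      rw [Module.End.mul_apply]
      exact ha _ (hb z hz)
  by_contra hcon
  push Not at hcon
  obtain ⟨x0, hx0, hPx0⟩ := hcon
  have hVne : ∀ x, x ≠ 0 → ∃ z, P x z ≠ z := by
    intro x hx
    by_contra h
    push Not at h
    have h1 : P x0 = P x := hP3 x x0 hx hx0 (h x0)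
    apply hPx0
    rw [h1]
    exact LinearMap.ext (fun z => by simpa using h z)
  have hfaith : ∀ g ∈ R, ∀ x : W, x ≠ 0 → g x = 0 → g = 0 := by
    intro g hg x hx hgx
    have key : ∀ z, P x z ≠ z → g z = 0 := by
      intro z hz
      by_contra hgz
      have hz0 : z ≠ 0 := by rintro rfl; simp at hz
      have hu0 : x + z ≠ 0 := by
        intro h
        apply hz
        have : z = -x := eq_neg_of_add_eq_zero_right h
        rw [this, map_neg, hP1 x hx]
      have e1 : P (g z) = P z := hP3 z (g z) hz0 hgz (hinv g hg z hz0 z (hP1 z hz0))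
      have hgu : g (x + z) = g z := by rw [map_add, hgx, zero_add]
      have e2 : P (g z) = P (x + z) := by
        rw [← hgu]
        exact hP3 (x + z) (g (x + z)) hu0 (by rw [hgu]; exact hgz)
          (hinv g hg (x + z) hu0 (x + z) (hP1 _ hu0))
      have e3 : P z (x + z) = x + z := by
        rw [← e1, e2]; exact hP1 _ hu0
      have e4 : P z x = x := by
        rw [map_add, hP1 z hz0] at e3
        exact add_right_cancel e3
      have e5 : P x = P z := hP3 z x hz0 hx e4
      apply hz
      rw [e5]; exact hP1 z hz0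
    obtain ⟨z', hz'⟩ := hVne x hx
    apply LinearMap.ext
    intro z
    rw [LinearMap.zero_apply]
    by_cases hz : P x z = z
    · have h1 : P x (z + z') ≠ z + z' := by
        intro h
        apply hz'
        rw [map_add, hz] at h
        exact add_left_cancel h
      have h2 := key _ h1
      rw [map_add, key z' hz', add_zero] at h2
      exact h2
    · exact key z hz
  obtain ⟨-, htrans⟩ := adjoin_transitive hr hW A hA0 hA1 hfaith
  obtain ⟨z, hz⟩ := hVne x0 hx0
  obtain ⟨g, hg, rfl⟩ := htrans x0 hx0 z
  exact hz (hinv g hg x0 hx0 x0 (hP1 x0 hx0))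

/-- An additive group of endomorphisms with `2 ^ r` elements, closed under inverses, is
commutative. -/
theorem comm_of_inv {r : ℕ} (hr : r.Prime) (hW : Nat.card W = 2 ^ r)
    (K : AddSubgroup (Module.End (ZMod 2) W)) (hK : Nat.card K = 2 ^ r) (h1 : 1 ∈ K)
    (hinv : ∀ A ∈ K, A ≠ 0 → ∃ B ∈ K, A * B = 1 ∧ B * A = 1) :
    ∀ A ∈ K, ∀ B ∈ K, A * B = B * A := by
  haveI : Finite (Module.End (ZMod 2) W) :=
    Finite.of_injective (fun f : Module.End (ZMod 2) W => (f : W → W)) DFunLike.coe_injective
  -- choose an element of K other than 0, 1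
  have hex : ∃ A ∈ K, A ≠ 0 ∧ A ≠ 1 := by
    by_contra hcon
    push Not at hcon
    have hsub : (K : Set (Module.End (ZMod 2) W)) ⊆ {0, 1} := by
      intro A hA
      by_cases h : A = 0
      · exact Or.inl h
      · exact Or.inr (hcon A hA h)
    have h2 := Set.ncard_le_ncard hsub (Set.toFinite _)
    have h3 : ({0, 1} : Set (Module.End (ZMod 2) W)).ncard ≤ 2 := Set.ncard_insert_le _ _ |>.trans (by simp)
    have h4 : (K : Set (Module.End (ZMod 2) W)).ncard = 2 ^ r := by
      rw [← hK]; exact (Nat.card_coe_set_eq _).symm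
    have h5 : 2 ^ 2 ≤ 2 ^ r := Nat.pow_le_pow_right (by norm_num) hr.two_le
    omega
  obtain ⟨A, hA, hA0, hA1⟩ := hex
  have hsub : ∀ g ∈ Algebra.adjoin (ZMod 2) {A}, g ∈ K := by
    intro g hg
    rw [Algebra.adjoin_singleton_eq_range_aeval] at hg
    obtain ⟨p, rfl⟩ := hg
    show Polynomial.aeval A p ∈ K
    rw [Polynomial.aeval_eq_sum_range]
    apply K.sum_mem
    intro i _
    have h2 : A ^ i ∈ K := pow_mem_of_inv K h1 hinv hA i
    rcases zmod2_cases (p.coeff i) with h | h
    · rw [h, zero_smul]; exact K.zero_mem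
    · rw [h, one_smul]; exact h2
  have hfaith : ∀ g ∈ Algebra.adjoin (ZMod 2) {A}, ∀ x : W, x ≠ 0 → g x = 0 → g = 0 := by
    intro g hg x hx hgx
    by_contra hg0
    obtain ⟨B, -, -, hB⟩ := hinv g (hsub g hg) hg0
    apply hx
    have := congrArg (fun f : Module.End (ZMod 2) W => f x) hB
    simp only [Module.End.mul_apply, hgx, map_zero, Module.End.one_apply] at this
    exact this.symm
  obtain ⟨hcard, -⟩ := adjoin_transitive hr hW A hA0 hA1 hfaith
  -- K = adjoin
  have heq : (Algebra.adjoin (ZMod 2) {A} : Set (Module.End (ZMod 2) W)) = K := by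
    apply Set.eq_of_subset_of_ncard_le (fun g hg => hsub g hg)
    · have e1 : (K : Set (Module.End (ZMod 2) W)).ncard = 2 ^ r := by
        rw [← hK]; exact (Nat.card_coe_set_eq _).symm
      have e2 : (Algebra.adjoin (ZMod 2) {A} : Set (Module.End (ZMod 2) W)).ncard = 2 ^ r := by
        rw [← hcard]; exact (Nat.card_coe_set_eq _).symm
      rw [e1, e2]
  intro B hB C hC
  have hB' : B ∈ Algebra.adjoin (ZMod 2) {A} := by
    show B ∈ (Algebra.adjoin (ZMod 2) {A} : Set (Module.End (ZMod 2) W))
    rw [heq]; exact hB
  have hC' : C ∈ Algebra.adjoin (ZMod 2) {A} := by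
    show C ∈ (Algebra.adjoin (ZMod 2) {A} : Set (Module.End (ZMod 2) W))
    rw [heq]; exact hC
  exact congrArg Subtype.val (mul_comm (⟨B, hB'⟩ : Algebra.adjoin (ZMod 2) {A}) ⟨C, hC'⟩)

end endo

section knuth

variable {F : Type} [Field F] [CharP F 2] (T : F →+ F)
    (hT : ∀ x, T x = 0 ∨ T x = 1) (h3 : ∀ x : F, x ^ 2 + x + 1 ≠ 0)

theorem knuth_mu (s v : F) : (knuth T hT h3).mu s v = s * v + (s * T v + v * T s) ^ 2 := rfl

theorem knuth_add_mu (s t v : F) :
    (knuth T hT h3).mu (s + t) v = (knuth T hT h3).mu s v + (knuth T hT h3).mu t v := by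
  have h2 : (2 : F) = 0 := CharTwo.two_eq_zero
  rw [knuth_mu, knuth_mu, knuth_mu, map_add]
  linear_combination ((s * T v + v * T s) * (t * T v + v * T t)) * h2

theorem knuth_not_groupNet [Fintype F] [DecidableEq F] {r : ℕ} (hr : r.Prime) (h5 : 4 ≤ r)
    (hF : Nat.card F = 2 ^ r) (hT1 : ∃ e, T e = 1) (m : F) (hm : m ≠ 0) :
    ¬ (knuth T hT h3).GroupNet m := by
  intro hG
  set S := knuth T hT h3 with hS
  have h2 : (2 : F) = 0 := CharTwo.two_eq_zero
  have hadd2 : ∀ w : F, w + w = 0 := CharTwo.add_self_eq_zero
  letI : Algebra (ZMod 2) F := ZMod.algebra F 2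
  -- the linear maps
  let lin : F → Module.End (ZMod 2) F := fun s =>
    AddMonoidHom.toZModLinearMap 2 (AddMonoidHom.mk' (S.mu s) (S.mu_add s))
  have hlin : ∀ s v, lin s v = S.mu s v := fun s v => rfl
  have hlinadd : ∀ s t, lin (s + t) = lin s + lin t := by
    intro s t
    apply LinearMap.ext
    intro v
    rw [LinearMap.add_apply, hlin, hlin, hlin]
    exact knuth_add_mu T hT h3 s t v
  have hlinbij : ∀ s, s ≠ 0 → Function.Bijective (lin s) := by
    intro s hs
    have := S.delta_bij (i := s) (s := 0) hs.symm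
    simp only [S.zero_mu, sub_zero] at this
    exact this
  -- inverses
  have hlininv : ∀ s, s ≠ 0 → ∃ N : Module.End (ZMod 2) F, N * lin s = 1 ∧ lin s * N = 1 := by
    intro s hs
    let e := LinearEquiv.ofBijective (lin s) (hlinbij s hs)
    refine ⟨e.symm.toLinearMap, ?_, ?_⟩
    · apply LinearMap.ext
      intro v
      exact e.symm_apply_apply v
    · apply LinearMap.ext
      intro v
      exact e.apply_symm_apply v
  obtain ⟨N, hN1, hN2⟩ := hlininv m hm
  have hN1' : ∀ v, N (lin m v) = v := fun v => congrArg (fun f : Module.End (ZMod 2) F => f v) hN1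
  have hN2' : ∀ v, lin m (N v) = v := fun v => congrArg (fun f : Module.End (ZMod 2) F => f v) hN2
  -- the key condition
  have hC : ∀ s, s ≠ 0 → s ≠ m → ∀ y, y ≠ 0 → ∃ t,
      N (lin t (N (lin s y))) = y ∧
      N (lin t (N (lin s (N (lin s y))))) = N (lin s y) := by
    intro s hs hsm y hy
    set c := N (lin s y) with hc
    have hmc : lin m c = lin s y := hN2' _
    have ha : y + c ≠ 0 := by
      intro h
      have h1 : y = c := by linear_combination h - c * h2
      rw [← h1, hlin, hlin] at hmc
      exact hsm (S.mu_inj_left hy hmc).symm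
    obtain ⟨t, ht1, ht2⟩ := hG.commutativity hadd2 hm (a := y + c) (s := s)
      (b := N (lin s (y + c))) (c := c) ha hs hsm (by
        rw [← hlin, hN2', hlin]) (by
        rw [S.mu_add, ← hlin m, hmc, hlin])
    rw [← hlin, ← hlin] at ht1
    rw [← hlin, ← hlin m, ← hlin m] at ht2
    have e1 : N (lin t c) = y := by
      rw [ht2, map_add, hN1', hN1']
      linear_combination c * h2
    have e2 : N (lin t (N (lin s (y + c)))) = y + c := by
      rw [ht1, hN1']
    refine ⟨t, e1, ?_⟩
    rw [map_add (lin s), map_add N, ← hc, map_add (lin t), map_add N, e1] at e2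
    exact add_left_cancel e2
  -- inverse closure
  have hinvcl : ∀ s, s ≠ 0 → ∃ t, (N * lin t) * (N * lin s) = 1 := by
    intro s hs
    by_cases hsm : s = m
    · subst hsm
      exact ⟨s, by rw [hN1, one_mul]⟩
    choose! t ht1 ht2 using hC s hs hsm
    have hAne : ∀ y, y ≠ 0 → N (lin s y) ≠ 0 := by
      intro y hy h
      have : lin s y = 0 := by rw [← hN2' (lin s y), h, map_zero]
      exact S.mu_ne_zero hs hy this
    have := partition_lemma hr hF (N * lin s) (by
        intro h
        exact hAne 1 one_ne_zero (congrArg (fun f : Module.End (ZMod 2) F => f 1) h)) (by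
        intro h
        apply hsm
        have h1 : N (lin s 1) = 1 := congrArg (fun f : Module.End (ZMod 2) F => f 1) h
        have h4 : lin s 1 = lin m 1 := by rw [← hN2' (lin s 1), h1]
        exact S.mu_inj_left one_ne_zero h4)
      (fun y => (N * lin (t y)) * (N * lin s))
      (fun y hy => ht1 y hy) (fun y hy => ht2 y hy) (by
        intro x y hx hy hxy
        have h1 : N (lin (t x) (N (lin s y))) = y := hxy
        have h4 := ht1 y hy
        have h6 : lin (t x) (N (lin s y)) = lin (t y) (N (lin s y)) := by
          rw [← hN2' (lin (t x) (N (lin s y))), h1, ← hN2' (lin (t y) (N (lin s y))), h4]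
        have h7 : t x = t y := S.mu_inj_left (hAne y hy) h6
        rw [h7])
    exact ⟨t 1, this 1 one_ne_zero⟩
  -- the additive group K
  let φ : F →+ Module.End (ZMod 2) F := AddMonoidHom.mk' (fun s => N * lin s) (by
    intro s t
    show N * lin (s + t) = N * lin s + N * lin t
    rw [hlinadd, mul_add])
  have hφ : ∀ s, φ s = N * lin s := fun s => rfl
  have hφinj : Function.Injective φ := by
    intro s t hst
    rw [hφ, hφ] at hst
    have h1 : lin s = lin t := by
      calc lin s = lin m * (N * lin s) := by rw [← mul_assoc, hN2, one_mul]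
        _ = lin m * (N * lin t) := by rw [hst]
        _ = lin t := by rw [← mul_assoc, hN2, one_mul]
    have h4 : S.mu s 1 = S.mu t 1 := congrArg (fun f : Module.End (ZMod 2) F => f 1) h1
    exact S.mu_inj_left one_ne_zero h4
  have hKcard : Nat.card φ.range = 2 ^ r := by
    rw [← hF]
    exact (Nat.card_congr (AddMonoidHom.ofInjective hφinj).toEquiv).symm
  have hmemK : ∀ s, N * lin s ∈ φ.range := fun s => ⟨s, rfl⟩
  haveI : Finite (Module.End (ZMod 2) F) :=
    Finite.of_injective (fun f : Module.End (ZMod 2) F => (f : F → F)) DFunLike.coe_injective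
  have hcomm := comm_of_inv hr hF φ.range hKcard ⟨m, hN1⟩ (by
    rintro A ⟨s, rfl⟩ hA
    have hs : s ≠ 0 := by rintro rfl; exact hA (map_zero φ)
    obtain ⟨t, ht⟩ := hinvcl s hs
    refine ⟨N * lin t, hmemK t, ?_, ht⟩
    exact mul_eq_one_comm.1 ht)
  -- the final relation
  have hrel : ∀ x y z : F, y ≠ 0 → ∀ Y : Module.End (ZMod 2) F, Y * lin y = 1 → lin y * Y = 1 →
      lin x * Y * lin z = lin z * Y * lin x := by
    intro x y z hy Y hY1 hY2
    obtain ⟨t, ht⟩ := hinvcl y hy
    -- Y = (N * lin t) * N
    have hYeq : Y = (N * lin t) * N := by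
      have h1 : (N * lin t) * N * lin y = 1 := by rw [mul_assoc]; exact ht
      calc Y = ((N * lin t) * N * lin y) * Y := by rw [h1, one_mul]
        _ = _ := by rw [mul_assoc, hY2, mul_one]
    have e1 : (N * lin x) * ((N * lin t) * (N * lin z)) = (N * lin z) * ((N * lin t) * (N * lin x)) := by
      rw [hcomm _ (hmemK t) _ (hmemK z), ← mul_assoc, hcomm _ (hmemK x) _ (hmemK z), mul_assoc,
        hcomm _ (hmemK x) _ (hmemK t)]
    rw [hYeq]
    calc lin x * (N * lin t * N) * lin z = lin m * ((N * lin x) * ((N * lin t) * (N * lin z))) := by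
          rw [← mul_assoc (lin m), ← mul_assoc (lin m), hN2, one_mul]
          simp only [mul_assoc]
      _ = lin m * ((N * lin z) * ((N * lin t) * (N * lin x))) := by rw [e1]
      _ = lin z * (N * lin t * N) * lin x := by
          rw [← mul_assoc (lin m), ← mul_assoc (lin m), hN2, one_mul]
          simp only [mul_assoc]
  -- counting: elements of the kernel of T
  obtain ⟨e, he⟩ := hT1
  have hker : 4 < Nat.card {x : F // T x = 0} := by
    have hle : Nat.card F ≤ Nat.card ({x : F // T x = 0} × Bool) := by
      apply Nat.card_le_card_of_injective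
        (fun x : F => if h : T x = 0 then ((⟨x, h⟩, true) : {x : F // T x = 0} × Bool)
          else (⟨x + e, by
            have h1 : T x = 1 := (hT x).resolve_left h
            rw [map_add, h1, he]; linear_combination h2⟩, false))
      intro x y hxy
      by_cases hx : T x = 0
      · by_cases hy : T y = 0
        · simp only [dif_pos hx, dif_pos hy, Prod.mk.injEq, Subtype.mk.injEq, and_true] at hxy
          exact hxy
        · simp [dif_pos hx, dif_neg hy] at hxy
      · by_cases hy : T y = 0
        · simp [dif_neg hx, dif_pos hy] at hxy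
        · simp only [dif_neg hx, dif_neg hy, Prod.mk.injEq, Subtype.mk.injEq, and_true] at hxy
          exact add_right_cancel hxy
    rw [Nat.card_prod, Nat.card_eq_fintype_card (α := Bool), Fintype.card_bool, hF] at hle
    have h16 : 2 ^ 4 ≤ 2 ^ r := Nat.pow_le_pow_right (by norm_num) h5
    omega
  have hpick : ∀ B : Finset F, B.card ≤ 4 → ∃ x, T x = 0 ∧ x ∉ B := by
    intro B hB
    by_contra hcon
    push Not at hcon
    have : Nat.card {x : F // T x = 0} ≤ Nat.card B :=
      Nat.card_le_card_of_injective (fun x => (⟨x.1, hcon x.1 x.2⟩ : B))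
        (fun x y hxy => Subtype.ext (by simpa using hxy))
    rw [Nat.card_eq_fintype_card (α := B), Fintype.card_coe] at this
    omega
  obtain ⟨y, hTy, hy⟩ := hpick {0} (by simp)
  obtain ⟨x, hTx, hx⟩ := hpick {0, y} (Finset.card_le_two.trans (by norm_num))
  obtain ⟨z, hTz, hz⟩ := hpick {0, y, x, x + y} Finset.card_le_four
  simp only [Finset.mem_insert, Finset.mem_singleton, not_or] at hy hx hz
  obtain ⟨hx0, hxy⟩ := hx
  obtain ⟨hz0, hzy, hzx, hzxy⟩ := hz
  -- choose w
  have hw : ∃ w, T w = 0 ∧ T (z * w / y) = 1 := by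
    by_contra hcon
    push Not at hcon
    have hcon' : ∀ w, T w = 0 → T (z * w / y) = 0 := fun w hw =>
      (hT _).resolve_right (hcon w hw)
    rcases hT (z * e / y) with h | h
    · -- T (z w / y) = 0 for all w
      have hall : ∀ w, T (z * w / y) = 0 := by
        intro w
        rcases hT w with hw | hw
        · exact hcon' w hw
        · have h1 : T (w + e) = 0 := by rw [map_add, hw, he]; linear_combination h2
          have h4 := hcon' _ h1
          rw [mul_add, add_div, map_add, h, add_zero] at h4
          exact h4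
      have h6 := hall (y * e / z)
      have h7 : z * (y * e / z) / y = e := by field_simp
      rw [h7, he] at h6
      exact one_ne_zero h6
    · have hall : ∀ w, T (z * w / y) = T w := by
        intro w
        rcases hT w with hw | hw
        · rw [hw]; exact hcon' w hw
        · have h1 : T (w + e) = 0 := by rw [map_add, hw, he]; linear_combination h2
          have h4 := hcon' _ h1
          rw [mul_add, add_div, map_add, h] at h4
          rw [hw]
          linear_combination h4 - h2
      have hzy' : z + y ≠ 0 := by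
        intro h
        apply hzy
        linear_combination h - y * h2
      have h6 := hall (y * e / (z + y))
      have h7 : z * (y * e / (z + y)) / y = e - (y * e / (z + y)) := by
        field_simp
        ring
      rw [h7, map_sub, he] at h6
      -- 1 - t = t with t ∈ {0,1}
      have h8 : (1 : F) = 2 * T (y * e / (z + y)) := by linear_combination h6
      rw [h2, zero_mul] at h8
      exact one_ne_zero h8
  obtain ⟨w, hTw, hTzw⟩ := hw
  -- the inverse of lin y on elements
  obtain ⟨Y, hY1, hY2⟩ := hlininv y hy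
  have hYv : ∀ v, Y v = v / y + y * T (v / y) := by
    intro v
    have hTyT : ∀ u, T (y * T u) = 0 := by
      intro u
      rcases hT u with h | h
      · rw [h]; simp
      · rw [h]; simpa using hTy
    have hTT : ∀ u, T u ^ 2 = T u := by
      intro u
      rcases hT u with h | h <;> rw [h] <;> ring
    have e1 : lin y (v / y + y * T (v / y)) = v := by
      rw [hlin, hS, knuth_mu, map_add, hTyT, hTy]
      have : y * (v / y) = v := by field_simp
      linear_combination this + y ^ 2 * hTT (v / y) + y ^ 2 * T (v / y) * h2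
    have e2 : Y (lin y (v / y + y * T (v / y))) = v / y + y * T (v / y) :=
      congrArg (fun f : Module.End (ZMod 2) F => f (v / y + y * T (v / y))) hY1
    rw [e1] at e2
    exact e2
  have hlin0 : ∀ x v, T x = 0 → lin x v = x * v + x ^ 2 * T v := by
    intro x v hx
    rw [hlin, hS, knuth_mu, hx]
    rcases hT v with h | h <;> rw [h] <;> ring
  have hcomp : ∀ x z, T x = 0 → T z = 0 →
      (lin x * Y * lin z) w = x * z * w / y + x * (x + y) * T (z * w / y) := by
    intro x z hx hz
    have hTyT : ∀ u, T (y * T u) = 0 := by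
      intro u
      rcases hT u with h | h
      · rw [h]; simp
      · rw [h]; simpa using hTy
    rw [Module.End.mul_apply, Module.End.mul_apply, hlin0 z w hz, hTw, mul_zero, add_zero, hYv,
      hlin0 x _ hx, map_add, hTyT]
    ring
  have hfin : (lin x * Y * lin z) w = (lin z * Y * lin x) w :=
    congrArg (fun f : Module.End (ZMod 2) F => f w) (hrel x y z hy Y hY1 hY2)
  rw [hcomp x z hTx hTz, hcomp z x hTz hTx, hTzw] at hfin
  have hxy' : x + y ≠ 0 := by
    intro h
    apply hxy
    linear_combination h - y * h2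
  rcases hT (x * w / y) with h | h
  · rw [h] at hfin
    have : x * (x + y) = 0 := by linear_combination hfin
    exact (mul_ne_zero hx0 hxy') this
  · rw [h] at hfin
    have h7 : (x + z) * (x + z + y) = 0 := by
      linear_combination hfin + (z ^ 2 + z * y + x * z) * h2
    rcases mul_eq_zero.1 h7 with h8 | h8
    · apply hzx
      linear_combination h8 - x * h2
    · apply hzxy
      linear_combination h8 - (x + y) * h2

end knuth

/-- Orders `2 ^ r`, `r ≥ 5` prime. -/
theorem realizable_knuth {r : ℕ} (hr : r.Prime) (h5 : 4 ≤ r) :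
    Realizable (2 ^ r) (2 ^ r - 1) := by
  classical
  haveI : Fact (Nat.Prime 2) := ⟨Nat.prime_two⟩
  let F := GaloisField 2 r
  have hF : Nat.card F = 2 ^ r := GaloisField.card 2 r hr.ne_zero
  haveI : Finite F := Nat.finite_of_card_ne_zero (by rw [hF]; positivity)
  letI : Fintype F := Fintype.ofFinite F
  have hF' : Fintype.card F = 2 ^ r := by rw [← Nat.card_eq_fintype_card]; exact hF
  have h2 : (2 : F) = 0 := CharTwo.two_eq_zero
  -- a functional
  obtain ⟨g, hg⟩ := LinearMap.exists_leftInverse_of_injective (Algebra.linearMap (ZMod 2) F)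
    (LinearMap.ker_eq_bot.2 (algebraMap (ZMod 2) F).injective)
  let T : F →+ F := ((Algebra.linearMap (ZMod 2) F).comp g).toAddMonoidHom
  have hTdef : ∀ x, T x = algebraMap (ZMod 2) F (g x) := fun x => rfl
  have hT : ∀ x, T x = 0 ∨ T x = 1 := by
    intro x
    rw [hTdef]
    rcases zmod2_cases (g x) with h | h
    · left; rw [h, map_zero]
    · right; rw [h, map_one]
  have hT1 : ∃ e, T e = 1 := by
    refine ⟨1, ?_⟩
    rw [hTdef]
    have : g 1 = 1 := by
      have := congrArg (fun f : ZMod 2 →ₗ[ZMod 2] ZMod 2 => f 1) hg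
      simpa using this
    rw [this, map_one]
  have hodd : Odd r := hr.odd_of_ne_two (by omega)
  have h3 : ∀ x : F, x ^ 2 + x + 1 ≠ 0 := by
    intro x hx
    have hx3 : x ^ 3 = 1 := by linear_combination (x - 1) * hx
    have hx0 : x ≠ 0 := by rintro rfl; simp at hx
    have hx1 : x ≠ 1 := by
      rintro rfl
      have : (1 : F) = 0 := by linear_combination hx - h2
      exact one_ne_zero this
    have hcard : x ^ (2 ^ r - 1) = 1 := by
      rw [← hF']
      exact FiniteField.pow_card_sub_one_eq_one x hx0
    have h31 : (2 ^ r - 1) % 3 = 1 := by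
      obtain ⟨k, hk⟩ := hodd
      have h4 : 2 ^ r % 3 = 2 := by
        rw [hk, pow_add, pow_mul]
        norm_num [Nat.mul_mod, Nat.pow_mod]
      have : 1 ≤ 2 ^ r := Nat.one_le_two_pow
      omega
    have h4 : x ^ (2 ^ r - 1) = x := by
      conv_lhs => rw [← Nat.div_add_mod (2 ^ r - 1) 3, h31]
      rw [pow_add, pow_mul, hx3, one_pow, one_mul, pow_one]
    exact hx1 (h4.symm.trans hcard)
  rw [← hF']
  exact (knuth T hT h3).realizable
    (fun m hm => knuth_not_groupNet T hT h3 hr h5 hF hT1 m hm)

end Pool.Agent.Mols65
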