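import Pool.Agent.Lib_helper65.MolsBase

/-!
The dual net of a translation plane at an affine point: from a spread-like
multiplication `mu` on a finite abelian group we get `n - 1` mutually orthogonal
latin squares of order `n`, and a criterion for none of them to be isotopic to a group.
-/

set_option linter.unusedSectionVars false

namespace Pool.Agent.Mols65

/-- A sharply transitive family of additive maps `mu s : W → W`. -/
structure Spread (W : Type) [AddCommGroup W] where
  mu : W → W → W
  mu_add : ∀ s v w, mu s (v + w) = mu s v + mu s w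
  zero_mu : ∀ v, mu 0 v = 0
  inj : ∀ v, v ≠ 0 → Function.Injective (fun s => mu s v)

namespace Spread

variable {W : Type} [AddCommGroup W] [Fintype W] [DecidableEq W] (S : Spread W)

theorem mu_zero (s : W) : S.mu s 0 = 0 := by
  have h := S.mu_add s 0 0
  simpa using h

theorem mu_neg (s v : W) : S.mu s (-v) = - S.mu s v := by
  have h := S.mu_add s v (-v)
  rw [add_neg_cancel, S.mu_zero] at h
  exact (neg_eq_of_add_eq_zero_right h.symm).symm

theorem mu_sub (s v w : W) : S.mu s (v - w) = S.mu s v - S.mu s w := by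
  rw [sub_eq_add_neg, S.mu_add, S.mu_neg, sub_eq_add_neg]

theorem mu_inj_left {v : W} (hv : v ≠ 0) {s t : W} (h : S.mu s v = S.mu t v) : s = t :=
  S.inj v hv h

theorem mu_ne_zero {s v : W} (hs : s ≠ 0) (hv : v ≠ 0) : S.mu s v ≠ 0 := by
  intro h
  apply hs
  apply S.mu_inj_left hv
  rw [h, S.zero_mu]

theorem exists_slope {v : W} (hv : v ≠ 0) (w : W) : ∃ s, S.mu s v = w := by
  have h : Function.Bijective (fun s => S.mu s v) :=
    (Fintype.bijective_iff_injective_and_card _).2 ⟨S.inj v hv, rfl⟩
  exact h.2 w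

theorem delta_bij {i s : W} (h : s ≠ i) : Function.Bijective (fun c => S.mu i c - S.mu s c) := by
  refine (Fintype.bijective_iff_injective_and_card _).2 ⟨?_, rfl⟩
  intro c d hcd
  by_contra hne
  have hne' : c - d ≠ 0 := sub_ne_zero.2 hne
  have h1 : S.mu i (c - d) = S.mu s (c - d) := by
    simp only at hcd
    rw [S.mu_sub, S.mu_sub, sub_eq_sub_iff_add_eq_add, add_comm (S.mu s c)]
    rw [sub_eq_sub_iff_add_eq_add] at hcd
    rw [hcd, add_comm]
  exact h (S.mu_inj_left hne' h1).symm

theorem delta_inj {i s : W} (h : s ≠ i) {c d : W}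
    (hcd : S.mu i c - S.mu s c = S.mu i d - S.mu s d) : c = d :=
  (S.delta_bij h).1 hcd

/-- The lines of the plane which do not pass through the origin: `none` is the line at
infinity, `(none, v)` is the vertical line `x = v` and `(s, v)` is `y = mu s x + v`. -/
abbrev Line (W : Type) [AddCommGroup W] : Type := Option (Option W × {v : W // v ≠ 0})

theorem card_line (W : Type) [AddCommGroup W] [Fintype W] [DecidableEq W] :
    Fintype.card (Line W) = Fintype.card W ^ 2 := by
  have hpos : 0 < Fintype.card W := Fintype.card_pos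
  have h1 : Fintype.card {v : W // v ≠ 0} = Fintype.card W - 1 := by
    simp
  rw [Fintype.card_option, Fintype.card_prod, Fintype.card_option, h1]
  obtain ⟨k, hk⟩ : ∃ k, Fintype.card W = k + 1 := ⟨Fintype.card W - 1, by omega⟩
  rw [hk]
  simp only [Nat.add_sub_cancel]
  ring

/-- Intersection of a line with the component `y = mu i x` (first coordinate; `0` stands
for the point at infinity). -/
noncomputable def phi (i : W) : Line W → W
  | none => 0
  | some (none, v) => v.1
  | some (some s, v) => if s = i then 0 else Function.invFun (fun c => S.mu i c - S.mu s c) v.1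

/-- Intersection of a line with the component `x = 0`. -/
def psi : Line W → W
  | none => 0
  | some (none, _) => 0
  | some (some _, v) => v.1

omit [Fintype W] in
@[simp] theorem phi_none (i : W) : S.phi i none = 0 := rfl
omit [Fintype W] in
@[simp] theorem phi_vert (i : W) (v : {v : W // v ≠ 0}) : S.phi i (some (none, v)) = v.1 := rfl
omit [Fintype W] in
@[simp] theorem phi_self (i : W) (v : {v : W // v ≠ 0}) : S.phi i (some (some i, v)) = 0 := by
  simp [phi]

theorem phi_spec {i s : W} (h : s ≠ i) (v : {v : W // v ≠ 0}) :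
    S.mu i (S.phi i (some (some s, v))) - S.mu s (S.phi i (some (some s, v))) = v.1 := by
  have h1 : S.phi i (some (some s, v))
      = Function.invFun (fun c => S.mu i c - S.mu s c) v.1 := by
    simp [phi, h]
  rw [h1]
  exact Function.invFun_eq (f := fun c => S.mu i c - S.mu s c) ((S.delta_bij h).2 v.1)

theorem phi_eq_of {i s : W} (h : s ≠ i) (v : {v : W // v ≠ 0}) {c : W}
    (hc : S.mu i c - S.mu s c = v.1) : S.phi i (some (some s, v)) = c :=
  S.delta_inj h ((S.phi_spec h v).trans hc.symm)

theorem phi_eq_zero {i : W} {l : Line W} (h : S.phi i l = 0) :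
    l = none ∨ ∃ v, l = some (some i, v) := by
  match l, h with
  | none, _ => exact Or.inl rfl
  | some (none, v), h => exact absurd h v.2
  | some (some s, v), h =>
    right
    by_cases hs : s = i
    · subst hs; exact ⟨v, rfl⟩
    · exfalso
      have h1 := S.phi_spec hs v
      rw [h, S.mu_zero, S.mu_zero, sub_zero] at h1
      exact v.2 h1.symm

omit [Fintype W] [DecidableEq W] in
theorem psi_eq_zero {l : Line W} (h : psi l = 0) :
    l = none ∨ ∃ v, l = some (none, v) := by
  match l, h with
  | none, _ => exact Or.inl rfl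
  | some (none, v), _ => exact Or.inr ⟨v, rfl⟩
  | some (some s, v), h => exact absurd h v.2

theorem inj_phi_psi (i : W) : Function.Injective (fun l => (S.phi i l, psi l)) := by
  intro l l' h
  simp only [Prod.mk.injEq] at h
  obtain ⟨h1, h2⟩ := h
  match l, l' with
  | none, l' =>
    rcases S.phi_eq_zero h1.symm with h3 | ⟨v, h3⟩
    · exact h3.symm
    · rw [h3] at h2; exact absurd h2.symm v.2
  | some (none, v), l' =>
    rcases psi_eq_zero (show psi l' = 0 from h2.symm) with h3 | ⟨v', h3⟩
    · rw [h3] at h1; exact absurd h1 v.2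
    · rw [h3] at h1
      have : v = v' := Subtype.ext h1
      rw [h3, this]
  | some (some s, v), none => exact absurd h2 v.2
  | some (some s, v), some (none, v') => exact absurd h2 v.2
  | some (some s, v), some (some s', v') =>
    have hv : v = v' := Subtype.ext h2
    subst hv
    by_cases hs : s = i
    · subst hs
      rw [S.phi_self] at h1
      rcases S.phi_eq_zero h1.symm with h3 | ⟨v'', h3⟩
      · exact absurd h3 (by simp)
      · simp only [Option.some.injEq, Prod.mk.injEq] at h3
        rw [h3.1]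
    · have hs' : s' ≠ i := by
        intro hs'
        subst hs'
        rw [S.phi_self] at h1
        rcases S.phi_eq_zero h1 with h3 | ⟨v'', h3⟩
        · exact absurd h3 (by simp)
        · simp only [Option.some.injEq, Prod.mk.injEq] at h3
          exact hs h3.1
      have e1 := S.phi_spec hs v
      have e2 := S.phi_spec hs' v
      rw [← h1] at e2
      have hc : S.phi i (some (some s, v)) ≠ 0 := by
        intro h0
        rw [h0, S.mu_zero, S.mu_zero, sub_zero] at e1
        exact v.2 e1.symm
      have e3 : S.mu s (S.phi i (some (some s, v))) = S.mu s' (S.phi i (some (some s, v))) := by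
        have := e1.trans e2.symm
        exact sub_right_injective this
      rw [S.mu_inj_left hc e3]

theorem inj_phi_phi {i j : W} (hij : i ≠ j) :
    Function.Injective (fun l => (S.phi i l, S.phi j l)) := by
  intro l l' h
  simp only [Prod.mk.injEq] at h
  obtain ⟨h1, h2⟩ := h
  by_cases hi : S.phi i l = 0
  · rcases S.phi_eq_zero hi with h3 | ⟨v, h3⟩
    · subst h3
      rcases S.phi_eq_zero (h1.symm.trans hi) with h4 | ⟨v, h4⟩
      · exact h4.symm
      · subst h4
        rcases S.phi_eq_zero h2.symm with h5 | ⟨v', h5⟩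
        · exact absurd h5 (by simp)
        · simp only [Option.some.injEq, Prod.mk.injEq] at h5
          exact absurd h5.1 hij
    · subst h3
      rcases S.phi_eq_zero (h1.symm.trans hi) with h4 | ⟨v', h4⟩
      · subst h4
        rcases S.phi_eq_zero h2 with h5 | ⟨v', h5⟩
        · exact absurd h5 (by simp)
        · simp only [Option.some.injEq, Prod.mk.injEq] at h5
          exact absurd h5.1 hij
      · subst h4
        have e1 := S.phi_spec (i := j) hij v
        have e2 := S.phi_spec (i := j) hij v'
        rw [h2] at e1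
        have : v = v' := Subtype.ext (e1.symm.trans e2)
        rw [this]
  by_cases hj : S.phi j l = 0
  · rcases S.phi_eq_zero hj with h3 | ⟨v, h3⟩
    · subst h3; exact absurd rfl hi
    · subst h3
      rcases S.phi_eq_zero (h2.symm.trans hj) with h4 | ⟨v', h4⟩
      · subst h4; exact absurd h1 hi
      · subst h4
        have e1 := S.phi_spec (i := i) hij.symm v
        have e2 := S.phi_spec (i := i) hij.symm v'
        rw [h1] at e1
        have : v = v' := Subtype.ext (e1.symm.trans e2)
        rw [this]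
  -- both nonzero: the two points determine the line
  have key : ∀ l : Line W, S.phi i l ≠ 0 → S.phi j l ≠ 0 →
      (S.phi i l = S.phi j l → ∃ v, l = some (none, v) ∧ v.1 = S.phi i l) ∧
      (S.phi i l ≠ S.phi j l → ∃ s v, l = some (some s, v) ∧
        S.mu s (S.phi i l - S.phi j l) = S.mu i (S.phi i l) - S.mu j (S.phi j l) ∧
        v.1 = S.mu i (S.phi i l) - S.mu s (S.phi i l)) := by
    intro l hi hj
    match l, hi, hj with
    | none, hi, _ => exact absurd rfl hi
    | some (none, v), _, _ =>
      refine ⟨fun _ => ⟨v, rfl, rfl⟩, fun h => absurd rfl h⟩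
    | some (some s, v), hi, hj =>
      have hsi : s ≠ i := by
        rintro rfl
        exact hi (S.phi_self _ _)
      have hsj : s ≠ j := by
        rintro rfl
        exact hj (S.phi_self _ _)
      have e1 := S.phi_spec hsi v
      have e2 := S.phi_spec hsj v
      refine ⟨fun h => ?_, fun _ => ⟨s, v, rfl, ?_, e1.symm⟩⟩
      · exfalso
        rw [← h] at e2
        have e3 := e1.trans e2.symm
        have e4 : S.mu i (S.phi i (some (some s, v))) = S.mu j (S.phi i (some (some s, v))) :=
          sub_left_injective e3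
        exact hij (S.mu_inj_left hi e4)
      · rw [S.mu_sub]
        have e3 := e1.trans e2.symm
        rw [sub_eq_sub_iff_add_eq_add] at e3 ⊢
        rw [add_comm (S.mu s _), e3.symm]
  have hi' : S.phi i l' ≠ 0 := h1 ▸ hi
  have hj' : S.phi j l' ≠ 0 := h2 ▸ hj
  by_cases hc : S.phi i l = S.phi j l
  · obtain ⟨v, hv, hv'⟩ := (key l hi hj).1 hc
    obtain ⟨w, hw, hw'⟩ := (key l' hi' hj').1 (by rw [← h1, ← h2, hc])
    have : v = w := Subtype.ext (by rw [hv', hw', h1])
    rw [hv, hw, this]
  · obtain ⟨s, v, hv, hs, hv'⟩ := (key l hi hj).2 hc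
    obtain ⟨t, w, hw, ht, hw'⟩ := (key l' hi' hj').2 (by rw [← h1, ← h2]; exact hc)
    rw [← h1, ← h2, ← hs] at ht
    have hst : t = s := S.mu_inj_left (sub_ne_zero.2 hc) ht
    subst hst
    rw [← h1] at hw'
    have : v = w := Subtype.ext (by rw [hv', hw'])
    rw [hv, hw, this]

/-- The net attached to `m`: it is a group net if the corresponding latin square is
isotopic to a group. -/
def GroupNet (m : W) : Prop :=
  ∃ (G : Type) (_ : Group G) (α β γ : W ≃ G),
      ∀ l : Line W, γ (S.phi m l) = α (S.phi 0 l) * β (psi l)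

theorem realizable (h : ∀ m : W, m ≠ 0 → ¬ S.GroupNet m) :
    Realizable (Fintype.card W) (Fintype.card W - 1) := by
  have hc : Fintype.card {m : W // m ≠ 0} = Fintype.card W - 1 := by simp
  rw [← hc]
  refine realizable_of_coords (Λ := Line W) rfl (card_line W) (S.phi 0) psi
    (fun m : {m : W // m ≠ 0} => S.phi m.1) (S.inj_phi_psi 0) ?_ ?_ ?_ ?_
  · intro m; exact S.inj_phi_phi m.2.symm
  · intro m l l' hl
    apply S.inj_phi_psi m.1
    simp only [Prod.mk.injEq] at hl ⊢
    exact ⟨hl.2, hl.1⟩
  · intro m m' hmm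
    apply S.inj_phi_phi
    intro h'
    exact hmm (Subtype.ext h')
  · intro m
    exact h m.1 m.2

/-- Consequences of being a group net. -/
theorem GroupNet.exists_hom {S : Spread W} {m : W} (hm : m ≠ 0) (h : S.GroupNet m) :
    ∃ (G : Type) (_ : Group G) (f : W → G), Function.Bijective f ∧ f 0 = 1 ∧
      (∀ a, f a * f (-a) = 1) ∧
      (∀ a s b c, a ≠ 0 → s ≠ 0 → s ≠ m → S.mu m b = - S.mu s a →
        S.mu m c - S.mu s c = - S.mu s a → f c = f a * f b) := by
  obtain ⟨G, hG, α, β, γ, h⟩ := h
  refine ⟨G, hG, fun a => (α 0)⁻¹ * α a, ?_, by simp, ?_, ?_⟩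
  · constructor
    · intro a b hab
      simp only [mul_right_inj] at hab
      exact α.injective hab
    · intro g
      refine ⟨α.symm (α 0 * g), ?_⟩
      simp
  all_goals
    -- basic relations
    have hinf : γ 0 = α 0 * β 0 := h none
    have hvert : ∀ a, γ a = α a * β 0 := by
      intro a
      by_cases ha : a = 0
      · rw [ha, hinf]
      · exact h (some (none, ⟨a, ha⟩))
    have hhor : ∀ c, β (S.mu m c) = (α 0)⁻¹ * α c * β 0 := by
      intro c
      by_cases hc : c = 0
      · rw [hc, S.mu_zero]; simp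
      · have h1 := h (some (some 0, ⟨S.mu m c, S.mu_ne_zero hm hc⟩))
        have h2 : S.phi m (some (some 0, ⟨S.mu m c, S.mu_ne_zero hm hc⟩)) = c := by
          apply S.phi_eq_of hm.symm
          rw [S.zero_mu, sub_zero]
        rw [h2, S.phi_self, hvert] at h1
        have h3 : psi (some (some (0 : W), ⟨S.mu m c, S.mu_ne_zero hm hc⟩)) = S.mu m c := rfl
        rw [h3] at h1
        rw [mul_assoc, h1, inv_mul_cancel_left]
  · intro a
    by_cases ha : a = 0
    · rw [ha]; simp
    · have hna : -a ≠ 0 := neg_ne_zero.2 ha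
      have h1 := h (some (some m, ⟨S.mu m (-a), S.mu_ne_zero hm hna⟩))
      have h2 : S.phi 0 (some (some m, ⟨S.mu m (-a), S.mu_ne_zero hm hna⟩)) = a := by
        apply S.phi_eq_of hm
        show S.mu 0 a - S.mu m a = S.mu m (-a)
        rw [S.zero_mu, S.mu_neg, zero_sub]
      have h3 : psi (some (some m, ⟨S.mu m (-a), S.mu_ne_zero hm hna⟩)) = S.mu m (-a) := rfl
      rw [S.phi_self, h2, h3, hhor, hinf] at h1
      have h4 : α 0 = α a * ((α 0)⁻¹ * α (-a)) := by
        have : α 0 * β 0 = (α a * ((α 0)⁻¹ * α (-a))) * β 0 := by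
          rw [h1]; group
        exact mul_right_cancel this
      calc (α 0)⁻¹ * α a * ((α 0)⁻¹ * α (-a)) = (α 0)⁻¹ * (α a * ((α 0)⁻¹ * α (-a))) := by group
        _ = 1 := by rw [← h4]; group
  · intro a s b c ha hs hsm hb hc
    have hv : - S.mu s a ≠ 0 := neg_ne_zero.2 (S.mu_ne_zero hs ha)
    have h1 := h (some (some s, ⟨- S.mu s a, hv⟩))
    have h2 : S.phi 0 (some (some s, ⟨- S.mu s a, hv⟩)) = a := by
      apply S.phi_eq_of hs
      rw [S.zero_mu, zero_sub]
    have h3 : psi (some (some s, ⟨- S.mu s a, hv⟩)) = - S.mu s a := rfl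
    have h4 : S.phi m (some (some s, ⟨- S.mu s a, hv⟩)) = c := S.phi_eq_of hsm _ hc
    rw [h2, h3, h4, ← hb, hhor, hvert] at h1
    have h5 : α c = α a * ((α 0)⁻¹ * α b) := by
      have : α c * β 0 = (α a * ((α 0)⁻¹ * α b)) * β 0 := by rw [h1]; group
      exact mul_right_cancel this
    show (α 0)⁻¹ * α c = (α 0)⁻¹ * α a * ((α 0)⁻¹ * α b)
    rw [h5]; group

/-- The inverse property of group nets. -/
theorem GroupNet.inverse_property {S : Spread W} {m : W} (hm : m ≠ 0) (h : S.GroupNet m)
    {a s c : W} (ha : a ≠ 0) (hs : s ≠ 0) (hsm : s ≠ m)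
    (hc : S.mu m c - S.mu s c = - S.mu s a) :
    ∃ t, S.mu t c = S.mu m c - S.mu s c ∧ S.mu t a = S.mu m a - S.mu s a := by
  obtain ⟨G, hG, f, hf, hf0, hf1, hf2⟩ := h.exists_hom hm
  have hsa : - S.mu s a ≠ 0 := neg_ne_zero.2 (S.mu_ne_zero hs ha)
  have hc0 : c ≠ 0 := by
    rintro rfl
    rw [S.mu_zero, S.mu_zero, sub_zero] at hc
    exact hsa hc.symm
  have hbij : Function.Bijective (fun c => S.mu m c) := by
    have := S.delta_bij (i := m) (s := 0) hm.symm
    simpa [S.zero_mu] using this
  obtain ⟨b, hb⟩ := hbij.2 (- S.mu s a)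
  simp only at hb
  have hb0 : b ≠ 0 := by
    rintro rfl
    rw [S.mu_zero] at hb
    exact hsa hb.symm
  obtain ⟨t, ht⟩ := S.exists_slope hc0 (S.mu m b)
  refine ⟨t, by rw [ht, hb, hc], ?_⟩
  have ht0 : t ≠ 0 := by
    rintro rfl
    rw [S.zero_mu] at ht
    exact S.mu_ne_zero hm hb0 ht.symm
  have htm : t ≠ m := by
    rintro rfl
    have hcb : c = b := hbij.1 ht
    subst hcb
    rw [hb] at hc
    have h7 : S.mu s c = 0 := by
      have := sub_eq_self.1 hc
      exact this
    exact S.mu_ne_zero hs hc0 h7
  have h1 := hf2 a s b c ha hs hsm hb hc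
  -- the point `a'` of the second line
  obtain ⟨a', ha'⟩ := (S.delta_bij htm).2 (- S.mu t c)
  simp only at ha'
  have h2 := hf2 c t (-b) a' hc0 ht0 htm (by rw [S.mu_neg, ht]) ha'
  have h3 : f a' = f a := by
    rw [h2, h1, mul_assoc, hf1, mul_one]
  have h4 : a' = a := hf.1 h3
  subst h4
  rw [ht, hb, neg_neg] at ha'
  rw [← ha']
  abel

/-- Commutativity of group nets in characteristic two. -/
theorem GroupNet.commutativity {S : Spread W} (h2 : ∀ w : W, w + w = 0)
    {m : W} (hm : m ≠ 0) (h : S.GroupNet m)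
    {a s b c : W} (ha : a ≠ 0) (hs : s ≠ 0) (hsm : s ≠ m)
    (hb : S.mu m b = S.mu s a) (hc : S.mu m c + S.mu s c = S.mu s a) :
    ∃ t, S.mu t b = S.mu m a ∧ S.mu t c = S.mu m c + S.mu m a := by
  have hneg : ∀ w : W, -w = w := fun w => neg_eq_of_add_eq_zero_left (h2 w)
  have hsub : ∀ v w : W, v - w = v + w := fun v w => by rw [sub_eq_add_neg, hneg]
  obtain ⟨G, hG, f, hf, hf0, hf1, hf2⟩ := h.exists_hom hm
  have hcomm : ∀ x y : G, x * y = y * x := by
    have hsq : ∀ x : G, x * x = 1 := by
      intro x
      obtain ⟨a, rfl⟩ := hf.2 x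
      have := hf1 a
      rwa [hneg] at this
    intro x y
    have h1 := hsq (x * y)
    have hx : x⁻¹ = x := inv_eq_of_mul_eq_one_left (hsq x)
    have hy : y⁻¹ = y := inv_eq_of_mul_eq_one_left (hsq y)
    have hxy : (x * y)⁻¹ = x * y := inv_eq_of_mul_eq_one_left h1
    rw [← hxy, mul_inv_rev, hx, hy]
  have hsa : S.mu s a ≠ 0 := S.mu_ne_zero hs ha
  have hb0 : b ≠ 0 := by
    rintro rfl
    rw [S.mu_zero] at hb
    exact hsa hb.symm
  obtain ⟨t, ht⟩ := S.exists_slope hb0 (S.mu m a)
  refine ⟨t, ht, ?_⟩
  have ht0 : t ≠ 0 := by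
    rintro rfl
    rw [S.zero_mu] at ht
    exact S.mu_ne_zero hm ha ht.symm
  have htm : t ≠ m := by
    rintro rfl
    have hinj : Function.Injective (fun c => S.mu t c) := by
      have := (S.delta_bij (i := t) (s := 0) hm.symm).1
      simpa [S.zero_mu] using this
    have hba : b = a := hinj ht
    subst hba
    exact hsm (S.mu_inj_left hb0 hb).symm
  have h1 := hf2 a s b c ha hs hsm (by rw [hneg, hb]) (by rw [hsub, hneg, hc])
  obtain ⟨c', hc'⟩ := (S.delta_bij htm).2 (- S.mu t b)
  simp only at hc'
  have h3 := hf2 b t a c' hb0 ht0 htm (by rw [hneg, ht]) hc'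
  have h4 : f c' = f c := by rw [h3, h1, hcomm]
  have h5 : c' = c := hf.1 h4
  subst h5
  rw [hneg, ht, hsub] at hc'
  rw [← hc', ← add_assoc, h2, zero_add]

end Spread

end Pool.Agent.Mols65
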